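import Pool.Agent.R970.RC.Defs

open MeasureTheory Set Filter Topology
open scoped ENNReal

namespace R970.RC

variable {n : ℕ}

theorem IsKer.meas {k : ℝ → ℝ≥0∞} {P : ℝ} (hk : IsKer k P) : Measurable k := hk.cont.measurable

/-- comparison of the kernel with the `q`-kernel -/
theorem IsKer.le_kR {k : ℝ → ℝ≥0∞} {P q : ℝ} (hk : IsKer k P) (hP : 0 < P) (hPq : P < q) (r : ℝ) :
    k r ≤ k 1 * (1 + kR q r) := by
  rcases le_or_gt r 0 with h0 | h0
  · have : kR q r = ⊤ := by
      unfold kR
      rw [ENNReal.ofReal_of_nonpos h0, ENNReal.zero_rpow_of_neg (by linarith)]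
    rw [this]
    simp [(hk.pos 1).ne']
  · rcases le_or_gt 1 r with h1 | h1
    · calc k r ≤ k 1 := hk.anti h1
        _ = k 1 * 1 := (mul_one _).symm
        _ ≤ _ := by gcongr; exact le_self_add
    · have h2 := hk.scal r 1 h0 h1.le one_pos
      rw [mul_one] at h2
      refine h2.trans ?_
      rw [mul_comm]
      gcongr
      have h3 : r ^ (-P) ≤ r ^ (-q) :=
        Real.rpow_le_rpow_of_exponent_ge h0 h1.le (by linarith)
      refine le_trans (ENNReal.ofReal_le_ofReal h3) ?_
      unfold kR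
      rw [ENNReal.ofReal_rpow_of_pos h0]
      exact le_add_self

theorem En_lt_top_of_q {k : ℝ → ℝ≥0∞} {P q : ℝ} (hk : IsKer k P) (hP : 0 < P) (hPq : P < q)
    (μ : ProbabilityMeasure (E n)) (h : En (kR q) (μ : Measure (E n)) μ ≠ ⊤) :
    En k (μ : Measure (E n)) μ ≠ ⊤ := by
  have hm : Measurable (kR q) := by unfold kR; fun_prop
  have h1 : En k (μ : Measure (E n)) μ ≤ k 1 * (1 + En (kR q) (μ : Measure (E n)) μ) := by
    unfold En
    calc ∫⁻ x, ∫⁻ y, k (dist x y) ∂(μ : Measure (E n)) ∂(μ : Measure (E n))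
        ≤ ∫⁻ x, ∫⁻ y, k 1 * (1 + kR q (dist x y)) ∂(μ : Measure (E n)) ∂(μ : Measure (E n)) :=
          lintegral_mono fun x => lintegral_mono fun y => hk.le_kR hP hPq _
      _ = ∫⁻ x, k 1 * (1 + ∫⁻ y, kR q (dist x y) ∂(μ : Measure (E n))) ∂(μ : Measure (E n)) := by
          apply lintegral_congr
          intro x
          rw [lintegral_const_mul _ (by fun_prop), lintegral_add_left (by fun_prop)]
          simp
      _ = k 1 * (1 + ∫⁻ x, ∫⁻ y, kR q (dist x y) ∂(μ : Measure (E n)) ∂(μ : Measure (E n))) := by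
          have hm2 : Measurable fun x : E n => ∫⁻ y, kR q (dist x y) ∂(μ : Measure (E n)) := by
            apply Measurable.lintegral_prod_right
            fun_prop
          rw [lintegral_const_mul _ (by fun_prop), lintegral_add_left (by fun_prop)]
          simp
  refine ne_top_of_le_ne_top ?_ h1
  exact ENNReal.mul_ne_top (hk.lt_top 1 one_pos).ne (by simp [h])

theorem Pot_measurable {k : ℝ → ℝ≥0∞} (hk : Measurable k) (μ : Measure (E n)) [SFinite μ] :
    Measurable (Pot k μ) := by
  unfold Pot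
  apply Measurable.lintegral_prod_right
  fun_prop

theorem FF_measurable {k : ℝ → ℝ≥0∞} (hk : Measurable k) (L : ℝ) (v : ℝ≥0∞)
    (γ : ProbabilityMeasure (E n)) : MeasurableSet (FF k L v γ) := by
  unfold FF
  exact (Metric.isClosed_closedBall.measurableSet).inter
    (measurableSet_le measurable_const (Pot_measurable hk _))

end R970.RC
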