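import Pool.Agent.R970.RC.V1

/-!
# RC-V2: variational lemmas, second part
-/

open MeasureTheory Set Filter Topology
open scoped ENNReal

namespace R970.RC

variable {n : ℕ}

open VAux

theorem VV_mass {k : ℝ → ℝ≥0∞} (hk : Measurable k) {G B : Set (E n)} (hB : MeasurableSet B)
    (hV : VV k G ≠ ⊤) (ρ : ProbabilityMeasure (E n)) (hρ : (ρ : Measure (E n)) Gᶜ = 0) {τ : ℝ}
    (h0 : 0 < τ) (h1 : τ ≤ 1 / 2)
    (hτ : En k (ρ : Measure (E n)) ρ ≤ VV k G + ENNReal.ofReal (τ ^ 2)) :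
    ((ρ : Measure (E n)) B) ^ 2 * VV k (G ∩ B)
      ≤ VV k G * (ρ : Measure (E n)) B + ENNReal.ofReal τ * (1 + VV k G) := by
  set μ : Measure (E n) := (ρ : Measure (E n)) with hμ
  set β : Measure (E n) := μ.restrict B with hβ
  set γ : Measure (E n) := μ.restrict Bᶜ with hγ
  have hdec : μ = β + γ := (Measure.restrict_add_restrict_compl hB).symm
  have h1τ : 0 ≤ 1 - τ := by linarith
  have hsum : μ B + μ Bᶜ = 1 := by
    rw [measure_add_measure_compl hB]; exact measure_univ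
  have hβu : β univ = μ B := Measure.restrict_apply_univ _
  have hγu : γ univ = μ Bᶜ := Measure.restrict_apply_univ _
  have hβG : β Gᶜ = 0 := by
    have : β Gᶜ ≤ μ Gᶜ := Measure.restrict_le_self _
    exact le_antisymm (this.trans hρ.le) bot_le
  have hγG : γ Gᶜ = 0 := by
    have : γ Gᶜ ≤ μ Gᶜ := Measure.restrict_le_self _
    exact le_antisymm (this.trans hρ.le) bot_le
  have hβGB : β (G ∩ B)ᶜ = 0 := by
    rw [hβ, Measure.restrict_apply' hB]
    refine measure_mono_null ?_ hρ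
    intro x hx; simp only [mem_inter_iff, mem_compl_iff] at hx ⊢; tauto
  -- the energies
  set X := En k β β with hX
  set Y := En k β γ with hY
  set Z := En k γ γ with hZ
  have hI : En k μ μ = X + 2 * Y + Z := by
    conv_lhs => rw [hdec]
    rw [En_add_left, En_add_right hk, En_add_right hk, En_symm hk γ β]
    ring
  have hIT : En k μ μ ≠ ⊤ :=
    ne_top_of_le_ne_top (ENNReal.add_ne_top.2 ⟨hV, ENNReal.ofReal_ne_top⟩) hτ
  have hXT : X ≠ ⊤ := ne_top_of_le_ne_top hIT (by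
    rw [hI]; exact le_trans (le_add_right le_rfl) (le_add_right le_rfl))
  have hZT : Z ≠ ⊤ := ne_top_of_le_ne_top hIT (by
    rw [hI]; exact le_add_left le_rfl)
  have hYT : Y ≠ ⊤ := ne_top_of_le_ne_top hIT (by
    rw [hI]
    calc Y ≤ Y + Y := le_add_right le_rfl
      _ = 2 * Y := by ring
      _ ≤ X + 2 * Y := le_add_left le_rfl
      _ ≤ _ := le_add_right le_rfl)
  -- the modified measure
  have hm : VV k G * ((ENNReal.ofReal (1 - τ) • β + γ) univ) ^ 2 ≤
      En k (ENNReal.ofReal (1 - τ) • β + γ) (ENNReal.ofReal (1 - τ) • β + γ) := by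
    have : IsFiniteMeasure (ENNReal.ofReal (1 - τ) • β) := by
      refine ⟨?_⟩
      rw [Measure.smul_apply, smul_eq_mul]
      exact ENNReal.mul_lt_top ENNReal.ofReal_lt_top (measure_lt_top _ _)
    refine VV_mul_le hk _ ?_
    rw [Measure.add_apply, Measure.smul_apply, hβG, hγG]; simp
  rw [Measure.add_apply, Measure.smul_apply, hβu, hγu, smul_eq_mul] at hm
  rw [En_add_left, En_smul_left, En_add_right hk, En_add_right hk, En_smul_right hk,
    En_smul_right hk, En_symm hk γ β] at hm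
  have hb := VV_mul_le hk (A := G ∩ B) β hβGB
  rw [hβu] at hb
  have hb2 : μ B ^ 2 * VV k (G ∩ B) ≤ X := by rw [mul_comm]; exact hb
  refine hb2.trans ?_
  -- to the reals
  have hbT : μ B ≠ ⊤ := measure_ne_top _ _
  have hcT : μ Bᶜ ≠ ⊤ := measure_ne_top _ _
  obtain ⟨v, hv, hve⟩ : ∃ v : ℝ, 0 ≤ v ∧ VV k G = ENNReal.ofReal v :=
    ⟨_, ENNReal.toReal_nonneg, (ENNReal.ofReal_toReal hV).symm⟩
  obtain ⟨b, hb0, hbe⟩ : ∃ v : ℝ, 0 ≤ v ∧ μ B = ENNReal.ofReal v :=
    ⟨_, ENNReal.toReal_nonneg, (ENNReal.ofReal_toReal hbT).symm⟩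
  obtain ⟨c, hc0, hce⟩ : ∃ v : ℝ, 0 ≤ v ∧ μ Bᶜ = ENNReal.ofReal v :=
    ⟨_, ENNReal.toReal_nonneg, (ENNReal.ofReal_toReal hcT).symm⟩
  obtain ⟨x, hx0, hxe⟩ : ∃ v : ℝ, 0 ≤ v ∧ X = ENNReal.ofReal v :=
    ⟨_, ENNReal.toReal_nonneg, (ENNReal.ofReal_toReal hXT).symm⟩
  obtain ⟨y, hy0, hye⟩ : ∃ v : ℝ, 0 ≤ v ∧ Y = ENNReal.ofReal v :=
    ⟨_, ENNReal.toReal_nonneg, (ENNReal.ofReal_toReal hYT).symm⟩
  obtain ⟨z, hz0, hze⟩ : ∃ v : ℝ, 0 ≤ v ∧ Z = ENNReal.ofReal v :=
    ⟨_, ENNReal.toReal_nonneg, (ENNReal.ofReal_toReal hZT).symm⟩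
  rw [hI] at hτ
  simp only [← hX, ← hY, ← hZ] at hm
  rw [hve, hbe, hce, hxe, hye, hze] at hm
  rw [hve, hxe, hye, hze] at hτ
  rw [hbe, hce] at hsum
  rw [hve, hbe, hxe]
  rw [← ENNReal.ofReal_add hb0 hc0, ENNReal.ofReal_eq_one] at hsum
  have e2 : (2 : ℝ≥0∞) = ENNReal.ofReal 2 := by simp
  have e1 : (1 : ℝ≥0∞) = ENNReal.ofReal 1 := by simp
  rw [e2, ← ENNReal.ofReal_mul (by norm_num), ← ENNReal.ofReal_add hx0 (by positivity),
    ← ENNReal.ofReal_add (by positivity) hz0, ← ENNReal.ofReal_add hv (by positivity),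
    ENNReal.ofReal_le_ofReal_iff (by positivity)] at hτ
  rw [← ENNReal.ofReal_mul h1τ, ← ENNReal.ofReal_add (by positivity) hc0,
    ← ENNReal.ofReal_pow (by positivity), ← ENNReal.ofReal_mul hv,
    ← ENNReal.ofReal_mul h1τ, ← ENNReal.ofReal_add (by positivity) hy0,
    ← ENNReal.ofReal_mul h1τ, ← ENNReal.ofReal_mul h1τ, ← ENNReal.ofReal_add (by positivity) hz0,
    ← ENNReal.ofReal_add (by positivity) (by positivity),
    ENNReal.ofReal_le_ofReal_iff (by positivity)] at hm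
  rw [e1, ← ENNReal.ofReal_mul hv, ← ENNReal.ofReal_add (by norm_num) hv,
    ← ENNReal.ofReal_mul h0.le, ← ENNReal.ofReal_add (by positivity) (by positivity)]
  refine ENNReal.ofReal_le_ofReal ?_
  have hc : c = 1 - b := by linarith
  subst hc
  have hm2 : v * (1 - τ * b) ^ 2 ≤ (1 - τ) ^ 2 * x + 2 * (1 - τ) * y + z := by
    calc v * (1 - τ * b) ^ 2 = v * ((1 - τ) * b + (1 - b)) ^ 2 := by ring
      _ ≤ _ := hm
      _ = _ := by ring
  -- 2 τ (x + y) ≤ 2 τ b v + τ² + τ² x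
  have hτ2 : τ ^ 2 ≤ 1 := by nlinarith
  have hx1 : x ≤ v + 1 := by nlinarith
  have h3 : 2 * τ * (x + y) ≤ 2 * τ * b * v + τ ^ 2 + τ ^ 2 * x := by
    have : 0 ≤ v * (τ * b) ^ 2 := by positivity
    nlinarith
  have h4 : 2 * τ * (x + y) ≤ 2 * τ * (b * v + τ * (1 + v)) := by
    have : τ ^ 2 * x ≤ τ ^ 2 * (v + 1) := by gcongr
    have h5 : 0 ≤ τ ^ 2 * v := by positivity
    nlinarith
  have h6 : x + y ≤ b * v + τ * (1 + v) := le_of_mul_le_mul_left h4 (by positivity)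
  linarith

theorem VV_ge_of_cpd {k : ℝ → ℝ≥0∞} (hk : Measurable k) {X F : Set (E n)} (hX : CPD k X)
    (hF : F ⊆ X) (γ : ProbabilityMeasure (E n)) (hγ : (γ : Measure (E n)) Xᶜ = 0) {v : ℝ≥0∞}
    (hv : v ≠ ⊤) (hE : En k (γ : Measure (E n)) γ ≤ v)
    (hFv : ∀ x ∈ F, v ≤ Pot k (γ : Measure (E n)) x) :
    v ≤ VV k F := by
  refine le_iInf₂ fun μ hμ => ?_
  have hμX : (μ : Measure (E n)) Xᶜ = 0 := measure_mono_null (compl_subset_compl.2 hF) hμ
  have h1 := hX μ γ inferInstance inferInstance (by rw [measure_univ, measure_univ]) hμX hγ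
  have h2 : v ≤ En k (μ : Measure (E n)) γ := by
    have hae : ∀ᵐ x ∂(μ : Measure (E n)), v ≤ Pot k (γ : Measure (E n)) x := by
      have : ∀ᵐ x ∂(μ : Measure (E n)), x ∈ F := mem_ae_iff.2 hμ
      exact this.mono fun x hx => hFv x hx
    calc v = ∫⁻ _, v ∂(μ : Measure (E n)) := by simp
      _ ≤ ∫⁻ x, Pot k (γ : Measure (E n)) x ∂(μ : Measure (E n)) := lintegral_mono_ae hae
      _ = _ := rfl
  have h3 : v + v ≤ En k (μ : Measure (E n)) μ + v := by
    calc v + v = 2 * v := by ring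
      _ ≤ 2 * En k (μ : Measure (E n)) γ := by gcongr
      _ ≤ _ := h1
      _ ≤ _ := by gcongr
  exact (ENNReal.add_le_add_iff_right hv).1 h3

/-- comparison of a near optimal measure with `γ` by a test measure `ω` -/
theorem compare {k : ℝ → ℝ≥0∞} (hk : Measurable k) {X : Set (E n)} (hX : CPD k X)
    (ρ γ ω : ProbabilityMeasure (E n)) (hρ : (ρ : Measure (E n)) Xᶜ = 0)
    (hγ : (γ : Measure (E n)) Xᶜ = 0) (hω : (ω : Measure (E n)) Xᶜ = 0) {v e : ℝ≥0∞}
    (hv : v ≠ ⊤) (he : e ≠ ⊤) (hE : En k (γ : Measure (E n)) γ ≤ v)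
    (hργ : v ≤ En k (ρ : Measure (E n)) γ) (hρE : En k (ρ : Measure (E n)) ρ ≤ v + e)
    {t : ℝ} (ht : 0 < t) :
    En k (ρ : Measure (E n)) ω ≤ En k (γ : Measure (E n)) ω + e + ENNReal.ofReal (1 / (2 * t)) * e
      + ENNReal.ofReal (t / 2) * (v + En k (ω : Measure (E n)) ω) := by
  by_cases hωT : En k (ω : Measure (E n)) ω = ⊤
  · rw [hωT, add_top, ENNReal.mul_top (by simp; positivity)]
    simp
  have hun : ∀ μ : ProbabilityMeasure (E n), (μ : Measure (E n)) univ = 1 := fun μ => measure_univ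
  -- cpd of pairs
  have c1 := hX ρ γ inferInstance inferInstance (by rw [hun, hun]) hρ hγ
  have c2 := hX γ ω inferInstance inferInstance (by rw [hun, hun]) hγ hω
  have c3 := hX ρ ω inferInstance inferInstance (by rw [hun, hun]) hρ hω
  have htf : ∀ μ : ProbabilityMeasure (E n), IsFiniteMeasure (ENNReal.ofReal t • (μ : Measure (E n))) := by
    intro μ
    refine ⟨?_⟩
    rw [Measure.smul_apply, smul_eq_mul]
    exact ENNReal.mul_lt_top ENNReal.ofReal_lt_top (measure_lt_top _ _)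
  have i1 := htf γ
  have i2 := htf ω
  have c4 := hX ((ρ : Measure (E n)) + ENNReal.ofReal t • (γ : Measure (E n)))
    ((γ : Measure (E n)) + ENNReal.ofReal t • (ω : Measure (E n))) inferInstance inferInstance
    (by simp only [Measure.add_apply, Measure.smul_apply, hun])
    (by simp only [Measure.add_apply, Measure.smul_apply, hρ, hγ]; simp)
    (by simp only [Measure.add_apply, Measure.smul_apply, hω, hγ]; simp)
  simp only [En_add_left, En_smul_left, En_add_right hk, En_smul_right hk] at c4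
  rw [En_symm hk (γ : Measure (E n)) (ρ : Measure (E n)),
    En_symm hk (ω : Measure (E n)) (γ : Measure (E n))] at c4
  set r := En k (ρ : Measure (E n)) ρ with hr
  set p := En k (ρ : Measure (E n)) γ with hp
  set g := En k (γ : Measure (E n)) γ with hg
  set a := En k (ρ : Measure (E n)) ω with ha
  set b := En k (γ : Measure (E n)) ω with hb
  set w := En k (ω : Measure (E n)) ω with hw
  have hrT : r ≠ ⊤ := ne_top_of_le_ne_top (ENNReal.add_ne_top.2 ⟨hv, he⟩) hρE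
  have hgT : g ≠ ⊤ := ne_top_of_le_ne_top hv hE
  have two_le : ∀ u : ℝ≥0∞, u ≤ 2 * u := fun u => by
    calc u ≤ u + u := le_add_right le_rfl
      _ = 2 * u := by ring
  have hpT : p ≠ ⊤ := ne_top_of_le_ne_top (ENNReal.add_ne_top.2 ⟨hrT, hgT⟩) ((two_le _).trans c1)
  have hbT : b ≠ ⊤ := ne_top_of_le_ne_top (ENNReal.add_ne_top.2 ⟨hgT, hωT⟩) ((two_le _).trans c2)
  have haT : a ≠ ⊤ := ne_top_of_le_ne_top (ENNReal.add_ne_top.2 ⟨hrT, hωT⟩) ((two_le _).trans c3)
  have lft : ∀ u : ℝ≥0∞, u ≠ ⊤ → ∃ u' : ℝ, 0 ≤ u' ∧ u = ENNReal.ofReal u' := fun u hu =>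
    ⟨_, ENNReal.toReal_nonneg, (ENNReal.ofReal_toReal hu).symm⟩
  obtain ⟨r', hr', er⟩ := lft r hrT
  obtain ⟨p', hp', ep⟩ := lft p hpT
  obtain ⟨g', hg', eg⟩ := lft g hgT
  obtain ⟨a', ha', ea⟩ := lft a haT
  obtain ⟨b', hb', eb⟩ := lft b hbT
  obtain ⟨w', hw', ew⟩ := lft w hωT
  obtain ⟨v', hv', rfl⟩ := lft v hv
  obtain ⟨e', he', rfl⟩ := lft e he
  clear_value r p g a b w
  subst er ep eg ea eb ew
  have e2 : (2 : ℝ≥0∞) = ENNReal.ofReal 2 := by simp
  rw [e2, ← ENNReal.ofReal_mul (by norm_num), ← ENNReal.ofReal_add hr' hg',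
    ENNReal.ofReal_le_ofReal_iff (by positivity)] at c1
  rw [← ENNReal.ofReal_add hv' he', ENNReal.ofReal_le_ofReal_iff (by positivity)] at hρE
  rw [ENNReal.ofReal_le_ofReal_iff (by positivity)] at hργ hE
  have ht0 := ht.le
  have c5 : 2 * (p' + t * a' + t * (g' + t * b')) ≤
      (r' + t * p' + t * (p' + t * g')) + (g' + t * b' + t * (b' + t * w')) := by
    rw [e2] at c4
    have c6 : ENNReal.ofReal (2 * (p' + t * a' + t * (g' + t * b'))) ≤ ENNReal.ofReal
        ((r' + t * p' + t * (p' + t * g')) + (g' + t * b' + t * (b' + t * w'))) := by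
      simp (disch := positivity) only [ENNReal.ofReal_mul, ENNReal.ofReal_add]
      convert c4 using 1
      ring
    exact (ENNReal.ofReal_le_ofReal_iff (by positivity)).1 c6
  rw [← ENNReal.ofReal_add hb' he', ← ENNReal.ofReal_mul (by positivity),
    ← ENNReal.ofReal_add (by positivity) (by positivity), ← ENNReal.ofReal_add hv' hw',
    ← ENNReal.ofReal_mul (by positivity), ← ENNReal.ofReal_add (by positivity) (by positivity)]
  refine ENNReal.ofReal_le_ofReal ?_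
  have k1 : p' - g' ≤ e' := by linarith
  have k2 : r' + g' - 2 * p' ≤ e' := by linarith
  have k3 : 2 * t * a' ≤ e' + 2 * t * e' + 2 * t * b' + t ^ 2 * (v' + w') := by
    have k4 : 2 * t * (p' - g') ≤ 2 * t * e' := mul_le_mul_of_nonneg_left k1 (by positivity)
    have k5 : t ^ 2 * g' ≤ t ^ 2 * v' := by gcongr
    have k6 : 0 ≤ t ^ 2 * b' := by positivity
    nlinarith
  have k7 : a' ≤ (e' + 2 * t * e' + 2 * t * b' + t ^ 2 * (v' + w')) / (2 * t) := by
    rw [le_div_iff₀ (by positivity)]; linarith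
  refine k7.trans (le_of_eq ?_)
  field_simp
  ring

end R970.RC
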