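import Pool.Agent.R970.RC.OM
import Pool.Agent.R970.RC.V2

/-! RC-LB: far potential (helper888). -/

open MeasureTheory Set Filter Topology
open scoped ENNReal

namespace R970.RC

variable {n : ℕ}

namespace LB

/-- the potential near `x0` is small. -/
lemma small_ball {k : ℝ → ℝ≥0∞} {P : ℝ} (hk : IsKer k P) (γ : ProbabilityMeasure (E n)) {x0 : E n}
    (hx0 : Pot k (γ : Measure (E n)) x0 ≠ ⊤) {ε : ℝ≥0∞} (hε : 0 < ε) :
    ∃ R0 : ℝ, 0 < R0 ∧ R0 ≤ 1 ∧ ∀ R, R ≤ R0 →
      ∫⁻ z in Metric.closedBall x0 R, k (dist x0 z) ∂(γ : Measure (E n)) ≤ ε := by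
  have hm : Measurable fun z : E n => k (dist x0 z) :=
    hk.cont.measurable.comp (measurable_const.dist measurable_id)
  have hfin : ∫⁻ z, k (dist x0 z) ∂(γ : Measure (E n)) ≠ ⊤ := hx0
  have hzero : (γ : Measure (E n)) {x0} = 0 := by
    have h1 := ae_lt_top hm hfin
    refine measure_mono_null ?_ h1
    intro z hz
    rw [mem_singleton_iff] at hz
    subst hz
    simp [hk.zero]
  have hanti : Antitone fun i : ℕ => Metric.closedBall x0 (1 / ((i : ℝ) + 1)) := by
    intro i j hij
    apply Metric.closedBall_subset_closedBall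
    apply one_div_le_one_div_of_le (by positivity)
    have : (i : ℝ) ≤ j := by exact_mod_cast hij
    linarith
  have hinter : ⋂ i : ℕ, Metric.closedBall x0 (1 / ((i : ℝ) + 1)) = {x0} := by
    ext z
    simp only [mem_iInter, Metric.mem_closedBall, mem_singleton_iff]
    constructor
    · intro h
      have h0 : dist z x0 ≤ 0 := by
        apply le_of_forall_pos_le_add
        intro e he
        obtain ⟨i, hi⟩ := exists_nat_one_div_lt he
        have := h i
        linarith
      exact dist_le_zero.1 h0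
    · rintro rfl i
      simp
      positivity
  have htend : Tendsto (fun i : ℕ => (γ : Measure (E n)) (Metric.closedBall x0 (1 / ((i : ℝ) + 1))))
      atTop (𝓝 0) := by
    have := tendsto_measure_iInter_atTop (μ := (γ : Measure (E n)))
      (s := fun i : ℕ => Metric.closedBall x0 (1 / ((i : ℝ) + 1)))
      (fun i => Metric.isClosed_closedBall.measurableSet.nullMeasurableSet) hanti
      ⟨0, measure_ne_top _ _⟩
    rw [hinter, hzero] at this
    exact this
  have h2 := tendsto_setLIntegral_zero (μ := (γ : Measure (E n))) hfin htend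
  have h3 := (h2.eventually (gt_mem_nhds hε)).exists
  obtain ⟨i, hi⟩ := h3
  refine ⟨1 / ((i : ℝ) + 1), by positivity, ?_, ?_⟩
  · rw [div_le_one (by positivity)]
    have : (0:ℝ) ≤ i := by positivity
    linarith
  · intro R hR
    refine le_trans ?_ hi.le
    exact lintegral_mono_set (Metric.closedBall_subset_closedBall hR)

/-- choice of `η`. -/
lemma exists_eta (P : ℝ) {δ : ℝ} (hδ : 0 < δ) :
    ∃ η : ℝ, 0 < η ∧ η ≤ 1 / 4 ∧ ((1 - η) / (1 + η)) ^ (-P) ≤ 1 + δ / 2 := by
  have hc : ContinuousAt (fun η : ℝ => ((1 - η) / (1 + η)) ^ (-P)) 0 := by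
    apply ContinuousAt.rpow_const
    · apply ContinuousAt.div
      · fun_prop
      · fun_prop
      · norm_num
    · left; norm_num
  have h1 : ∀ᶠ η : ℝ in 𝓝 0, ((1 - η) / (1 + η)) ^ (-P) < 1 + δ / 2 := by
    apply hc.eventually_lt continuousAt_const
    simp
    exact hδ
  obtain ⟨e, he, h2⟩ := Metric.eventually_nhds_iff.1 h1
  refine ⟨min (e / 2) (1 / 4), by positivity, min_le_right _ _, ?_⟩
  apply le_of_lt
  apply h2
  rw [Real.dist_eq, sub_zero, abs_of_pos (by positivity)]
  exact (min_le_left _ _).trans_lt (by linarith)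

lemma far_le {k : ℝ → ℝ≥0∞} {P : ℝ} (hk : IsKer k P) {η R : ℝ} (hη : 0 < η)
    (hη4 : η ≤ 1 / 4) (hR : 0 < R) {x0 y y' z : E n} (hy : dist y x0 ≤ η * R)
    (hy' : dist y' x0 ≤ η * R) (hz : R < dist z x0) :
    k (dist y z) ≤ ENNReal.ofReal (((1 - η) / (1 + η)) ^ (-P)) * k (dist y' z) := by
  have h1 : dist z x0 ≤ dist y z + dist y x0 := by
    rw [dist_comm y z]; exact dist_triangle z y x0
  have h2 : dist y' z ≤ dist y' x0 + dist z x0 := by
    rw [dist_comm z x0]; exact dist_triangle y' x0 z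
  have h3 : dist z x0 ≤ dist y' z + dist y' x0 := by
    rw [dist_comm y' z]; exact dist_triangle z y' x0
  have hpos : 0 < dist y' z := by nlinarith
  have hθ0 : 0 < (1 - η) / (1 + η) := div_pos (by linarith) (by linarith)
  have hθ1 : (1 - η) / (1 + η) ≤ 1 := by rw [div_le_one (by linarith)]; linarith
  have h4 : (1 - η) / (1 + η) * dist y' z ≤ dist y z := by
    rw [div_mul_eq_mul_div, div_le_iff₀ (by linarith)]
    nlinarith
  exact (hk.anti h4).trans (hk.scal _ _ hθ0 hθ1 hpos)

lemma toReal_facts {a : ℝ≥0∞} (h0 : a ≠ 0) (hT : a ≠ ⊤) :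
    0 < a.toReal ∧ a = ENNReal.ofReal a.toReal :=
  ⟨ENNReal.toReal_pos h0 hT, (ENNReal.ofReal_toReal hT).symm⟩

end LB

open LB in
theorem loc_far {k : ℝ → ℝ≥0∞} {P q L : ℝ} {v : ℝ≥0∞} {M K₁ η₀ : ℝ}
    {μ γ : ProbabilityMeasure (E n)} (H : Loc k P q L v M K₁ η₀ μ γ) {x0 : E n}
    (hx0L : x0 ∈ Metric.closedBall (0 : E n) L) (hx0 : Pot k (γ : Measure (E n)) x0 < v) :
    ∃ η δ R0 e0 : ℝ, 0 < η ∧ η ≤ 1 / 4 ∧ 0 < δ ∧ δ ≤ 1 / 4 ∧ 0 < R0 ∧ R0 ≤ 1 ∧ 0 < e0 ∧
      ∀ R, 0 < R → R ≤ R0 → ∀ ρ : ProbabilityMeasure (E n),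
        (ρ : Measure (E n)) (FF k L v γ)ᶜ = 0 → ∀ e : ℝ≥0∞,
        En k (ρ : Measure (E n)) ρ ≤ v + e → e * k R ≤ ENNReal.ofReal e0 →
        ∀ y ∈ Metric.closedBall x0 (η * R),
          ∫⁻ z in (Metric.closedBall x0 R)ᶜ, k (dist y z) ∂(ρ : Measure (E n))
            ≤ ENNReal.ofReal (1 - 2 * δ) * v := by
  have hk := H.hk
  have hP := H.hP
  obtain ⟨hv, hve⟩ := toReal_facts H.v0 H.vT
  set vr := v.toReal with hvr
  have hU : Pot k (γ : Measure (E n)) x0 ≠ ⊤ := (hx0.trans H.vT.lt_top).ne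
  have hUe : Pot k (γ : Measure (E n)) x0 = ENNReal.ofReal (Pot k (γ : Measure (E n)) x0).toReal :=
    (ENNReal.ofReal_toReal hU).symm
  set u0 := (Pot k (γ : Measure (E n)) x0).toReal with hu0
  have hu0n : 0 ≤ u0 := ENNReal.toReal_nonneg
  have hu0v : u0 < vr := (ENNReal.toReal_lt_toReal hU H.vT).2 hx0
  -- δ
  set δ := min (1 / 4) ((vr - u0) / (5 * vr)) with hδdef
  have hδ : 0 < δ := lt_min (by norm_num) (div_pos (by linarith) (by linarith))
  have hδ4 : δ ≤ 1 / 4 := min_le_left _ _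
  have hδu : u0 ≤ (1 - 5 * δ) * vr := by
    have h1 : δ ≤ (vr - u0) / (5 * vr) := min_le_right _ _
    rw [le_div_iff₀ (by linarith)] at h1
    linarith
  have h5δ : 0 ≤ 1 - 5 * δ := by
    by_contra h
    have : (1 - 5 * δ) * vr < 0 := mul_neg_of_neg_of_pos (not_le.1 h) hv
    linarith
  -- η
  obtain ⟨η, hη, hη4, hΛ⟩ := exists_eta P hδ
  set Λ := ((1 - η) / (1 + η)) ^ (-P) with hΛdef
  have hΛ0 : 0 ≤ Λ := Real.rpow_nonneg (div_nonneg (by linarith) (by linarith)) _
  -- C
  obtain ⟨C, hCT, hC⟩ := exists_omega (n := n) hk hP (H.hPq.trans H.hqn)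
  set Cr := C.toReal with hCr
  have hCe : C = ENNReal.ofReal Cr := (ENNReal.ofReal_toReal hCT).symm
  have hCr0 : 0 ≤ Cr := ENNReal.toReal_nonneg
  -- ε and R0
  set a := ENNReal.ofReal (δ / 2 * vr) with ha
  have ha0 : 0 < a := ENNReal.ofReal_pos.2 (by positivity)
  have hε : 0 < a / (C + 1) := ENNReal.div_pos ha0.ne' (by simp [hCT])
  obtain ⟨R0, hR0, hR01, hsmall⟩ := small_ball hk γ hU hε
  obtain ⟨hk1, hk1e⟩ := toReal_facts (hk.pos 1).ne' (hk.lt_top 1 one_pos).ne
  set k1 := (k 1).toReal with hk1def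
  set ηP := η ^ (-P) with hηP
  have hηP0 : 0 < ηP := Real.rpow_pos_of_pos hη _
  set B := vr / (2 * k1) + Cr * ηP / 2 + 1 with hB
  have hBpos : 0 < B := by positivity
  set c := δ * vr / 3 / B with hc
  have hcpos : 0 < c := by positivity
  have hcB : c * (vr / (2 * k1) + Cr * ηP / 2) ≤ δ * vr / 3 := by
    have : c * B = δ * vr / 3 := by rw [hc]; field_simp
    have h2 : c * B = c * (vr / (2 * k1) + Cr * ηP / 2) + c := by rw [hB]; ring
    linarith
  set e0 := min (k1 * (δ * vr / 3)) (2 * c * (δ * vr / 3)) with he0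
  have he0pos : 0 < e0 := lt_min (by positivity) (by positivity)
  refine ⟨η, δ, R0, e0, hη, hη4, hδ, hδ4, hR0, hR01, he0pos, ?_⟩
  intro R hR hRR0 ρ hρF e hρE he y hy
  obtain ⟨hkR, hkRe⟩ := toReal_facts (hk.pos R).ne' (hk.lt_top R hR).ne
  set kRr := (k R).toReal with hkRr
  have hk1R : k1 ≤ kRr := by
    apply (ENNReal.toReal_le_toReal (hk.lt_top 1 one_pos).ne (hk.lt_top R hR).ne).2
    exact hk.anti (hRR0.trans hR01)
  have heT : e ≠ ⊤ := by
    rintro rfl
    rw [ENNReal.top_mul (hk.pos R).ne'] at he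
    exact absurd he (by simp)
  have hee : e = ENNReal.ofReal e.toReal := (ENNReal.ofReal_toReal heT).symm
  set er := e.toReal with her
  have her0 : 0 ≤ er := ENNReal.toReal_nonneg
  have herk : er * kRr ≤ e0 := by
    rw [hee, hkRe, ← ENNReal.ofReal_mul her0] at he
    exact (ENNReal.ofReal_le_ofReal_iff he0pos.le).1 he
  have hr : 0 < η * R := mul_pos hη hR
  have hr1 : η * R ≤ 1 := by nlinarith
  obtain ⟨ω, hωX, hω⟩ := hC x0 (η * R) hr hr1
  have hωae : ∀ᵐ y ∂(ω : Measure (E n)), dist y x0 ≤ η * R := by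
    filter_upwards [compl_mem_ae_iff.2 hωX] with y hy
    simpa using hy
  -- energy of ω
  have hEω : En k (ω : Measure (E n)) ω ≤ C * (ENNReal.ofReal ηP * k R) := by
    have h1 : ∀ z, Pot k (ω : Measure (E n)) z ≤ C * (ENNReal.ofReal ηP * k R) := by
      intro z
      refine (hω z).trans ?_
      gcongr
      exact (hk.anti (le_max_left _ _)).trans (hk.scal η R hη (by linarith) hR)
    calc En k (ω : Measure (E n)) ω = ∫⁻ x, Pot k (ω : Measure (E n)) x ∂(ω : Measure (E n)) := rfl
      _ ≤ ∫⁻ _, C * (ENNReal.ofReal ηP * k R) ∂(ω : Measure (E n)) := lintegral_mono h1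
      _ = C * (ENNReal.ofReal ηP * k R) := by simp
  -- mutual energy of γ and ω
  have hEγω : En k (γ : Measure (E n)) ω ≤ ENNReal.ofReal ((1 - 4 * δ) * vr) := by
    have hball : MeasurableSet (Metric.closedBall x0 R) := Metric.isClosed_closedBall.measurableSet
    have e1 : En k (γ : Measure (E n)) ω
        = (∫⁻ x in Metric.closedBall x0 R, Pot k (ω : Measure (E n)) x ∂(γ : Measure (E n)))
          + ∫⁻ x in (Metric.closedBall x0 R)ᶜ, Pot k (ω : Measure (E n)) x ∂(γ : Measure (E n)) :=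
      (lintegral_add_compl _ hball).symm
    have i1 : ∫⁻ x in Metric.closedBall x0 R, Pot k (ω : Measure (E n)) x ∂(γ : Measure (E n))
        ≤ a := by
      calc ∫⁻ x in Metric.closedBall x0 R, Pot k (ω : Measure (E n)) x ∂(γ : Measure (E n))
          ≤ ∫⁻ x in Metric.closedBall x0 R, C * k (dist x0 x) ∂(γ : Measure (E n)) := by
            apply lintegral_mono
            intro x
            refine (hω x).trans (mul_le_mul' le_rfl ?_)
            rw [dist_comm x0 x]
            exact hk.anti (le_max_right _ _)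
        _ = C * ∫⁻ x in Metric.closedBall x0 R, k (dist x0 x) ∂(γ : Measure (E n)) :=
            lintegral_const_mul' _ _ hCT
        _ ≤ C * (a / (C + 1)) := by gcongr; exact hsmall R hRR0
        _ ≤ (C + 1) * (a / (C + 1)) := by gcongr; exact le_self_add
        _ ≤ a := ENNReal.mul_div_le
    have i2 : ∫⁻ x in (Metric.closedBall x0 R)ᶜ, Pot k (ω : Measure (E n)) x ∂(γ : Measure (E n))
        ≤ ENNReal.ofReal Λ * Pot k (γ : Measure (E n)) x0 := by
      calc ∫⁻ x in (Metric.closedBall x0 R)ᶜ, Pot k (ω : Measure (E n)) x ∂(γ : Measure (E n))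
          ≤ ∫⁻ x in (Metric.closedBall x0 R)ᶜ, ENNReal.ofReal Λ * k (dist x0 x)
              ∂(γ : Measure (E n)) := by
            apply setLIntegral_mono' hball.compl
            intro x hx
            have hx' : R < dist x x0 := by simpa using hx
            calc Pot k (ω : Measure (E n)) x
                ≤ ∫⁻ _, ENNReal.ofReal Λ * k (dist x0 x) ∂(ω : Measure (E n)) := by
                  apply lintegral_mono_ae
                  filter_upwards [hωae] with y hy
                  rw [dist_comm x y]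
                  exact far_le hk hη hη4 hR hy (by simp; positivity) hx'
              _ = ENNReal.ofReal Λ * k (dist x0 x) := by simp
        _ = ENNReal.ofReal Λ * ∫⁻ x in (Metric.closedBall x0 R)ᶜ, k (dist x0 x)
              ∂(γ : Measure (E n)) := lintegral_const_mul' _ _ ENNReal.ofReal_ne_top
        _ ≤ ENNReal.ofReal Λ * Pot k (γ : Measure (E n)) x0 :=
            mul_le_mul' le_rfl (setLIntegral_le_lintegral _ _)
    rw [e1]
    refine (add_le_add i1 i2).trans ?_
    rw [hUe, ha, ← ENNReal.ofReal_mul hΛ0, ← ENNReal.ofReal_add (by positivity)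
      (mul_nonneg hΛ0 hu0n)]
    apply ENNReal.ofReal_le_ofReal
    have j1 : Λ * u0 ≤ (1 + δ / 2) * ((1 - 5 * δ) * vr) :=
      mul_le_mul hΛ hδu hu0n (by linarith)
    nlinarith [mul_pos (mul_pos hδ hδ) hv]
  -- the hypotheses of `compare`
  have hsub : FF k L v γ ⊆ Metric.closedBall (0 : E n) (L + 1) := by
    intro x hx
    exact Metric.closedBall_subset_closedBall (by linarith) hx.1
  have hρX : (ρ : Measure (E n)) (Metric.closedBall (0 : E n) (L + 1))ᶜ = 0 :=
    measure_mono_null (compl_subset_compl.2 hsub) hρF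
  have hγX : (γ : Measure (E n)) (Metric.closedBall (0 : E n) (L + 1))ᶜ = 0 :=
    measure_mono_null (compl_subset_compl.2 (Metric.closedBall_subset_closedBall (by linarith)))
      H.γX
  have hωX' : (ω : Measure (E n)) (Metric.closedBall (0 : E n) (L + 1))ᶜ = 0 := by
    refine measure_mono_null (compl_subset_compl.2 ?_) hωX
    apply Metric.closedBall_subset_closedBall'
    have : dist x0 0 ≤ L := by simpa using hx0L
    linarith
  have hργ : v ≤ En k (ρ : Measure (E n)) γ := by
    calc v = ∫⁻ _, v ∂(ρ : Measure (E n)) := by simp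
      _ ≤ ∫⁻ x, Pot k (γ : Measure (E n)) x ∂(ρ : Measure (E n)) := by
        apply lintegral_mono_ae
        filter_upwards [compl_mem_ae_iff.2 hρF] with x hx
        have hx' : x ∈ FF k L v γ := by simpa using hx
        exact hx'.2
      _ = En k (ρ : Measure (E n)) γ := rfl
  have ht : 0 < c / kRr := by positivity
  have hcmp := compare hk.cont.measurable H.cpd ρ γ ω hρX hγX hωX' H.vT heT H.γE hργ hρE ht
  have hρω : En k (ρ : Measure (E n)) ω ≤ ENNReal.ofReal ((1 - 3 * δ) * vr) := by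
    refine hcmp.trans ?_
    have j1 : En k (γ : Measure (E n)) ω + e + ENNReal.ofReal (1 / (2 * (c / kRr))) * e
        + ENNReal.ofReal (c / kRr / 2) * (v + En k (ω : Measure (E n)) ω)
        ≤ ENNReal.ofReal ((1 - 4 * δ) * vr) + e + ENNReal.ofReal (1 / (2 * (c / kRr))) * e
        + ENNReal.ofReal (c / kRr / 2) * (v + C * (ENNReal.ofReal ηP * k R)) := by
      gcongr
    refine j1.trans ?_
    rw [hee, hkRe, hCe, hve, ← ENNReal.ofReal_mul hηP0.le, ← ENNReal.ofReal_mul hCr0,
      ← ENNReal.ofReal_add hv.le (by positivity), ← ENNReal.ofReal_mul (by positivity),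
      ← ENNReal.ofReal_mul (by positivity),
      ← ENNReal.ofReal_add (mul_nonneg (by linarith) hv.le) her0,
      ← ENNReal.ofReal_add (add_nonneg (mul_nonneg (by linarith) hv.le) her0) (by positivity),
      ← ENNReal.ofReal_add (add_nonneg (add_nonneg (mul_nonneg (by linarith) hv.le) her0)
        (by positivity)) (by positivity)]
    apply ENNReal.ofReal_le_ofReal
    have j2 : er ≤ δ * vr / 3 := by
      have h1 : er * k1 ≤ e0 := (mul_le_mul_of_nonneg_left hk1R her0).trans herk
      have h2 : e0 ≤ k1 * (δ * vr / 3) := min_le_left _ _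
      have h3 : k1 * er ≤ k1 * (δ * vr / 3) := by linarith
      exact le_of_mul_le_mul_left h3 hk1
    have j3 : 1 / (2 * (c / kRr)) * er ≤ δ * vr / 3 := by
      have h2 : e0 ≤ 2 * c * (δ * vr / 3) := min_le_right _ _
      have h3 : 1 / (2 * (c / kRr)) * er = er * kRr / (2 * c) := by field_simp
      rw [h3, div_le_iff₀ (by positivity)]
      linarith
    have j4 : c / kRr / 2 * (vr + Cr * (ηP * kRr)) ≤ δ * vr / 3 := by
      have h3 : c / kRr / 2 * (vr + Cr * (ηP * kRr)) = c * (vr / (2 * kRr) + Cr * ηP / 2) := by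
        field_simp
      rw [h3]
      refine le_trans ?_ hcB
      apply mul_le_mul_of_nonneg_left _ hcpos.le
      have : vr / (2 * kRr) ≤ vr / (2 * k1) :=
        div_le_div_of_nonneg_left hv.le (by linarith) (by linarith)
      linarith
    linarith
  -- conclusion
  have hy' : dist y x0 ≤ η * R := by simpa using hy
  have hball : MeasurableSet (Metric.closedBall x0 R) := Metric.isClosed_closedBall.measurableSet
  calc ∫⁻ z in (Metric.closedBall x0 R)ᶜ, k (dist y z) ∂(ρ : Measure (E n))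
      ≤ ∫⁻ z in (Metric.closedBall x0 R)ᶜ, ENNReal.ofReal Λ * Pot k (ω : Measure (E n)) z
          ∂(ρ : Measure (E n)) := by
        apply setLIntegral_mono' hball.compl
        intro z hz
        have hz' : R < dist z x0 := by simpa using hz
        calc k (dist y z) = ∫⁻ _, k (dist y z) ∂(ω : Measure (E n)) := by simp
          _ ≤ ∫⁻ w, ENNReal.ofReal Λ * k (dist z w) ∂(ω : Measure (E n)) := by
            apply lintegral_mono_ae
            filter_upwards [hωae] with w hw
            rw [dist_comm z w]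
            exact far_le hk hη hη4 hR hy' hw hz'
          _ = ENNReal.ofReal Λ * Pot k (ω : Measure (E n)) z :=
            lintegral_const_mul' _ _ ENNReal.ofReal_ne_top
    _ = ENNReal.ofReal Λ * ∫⁻ z in (Metric.closedBall x0 R)ᶜ, Pot k (ω : Measure (E n)) z
          ∂(ρ : Measure (E n)) := lintegral_const_mul' _ _ ENNReal.ofReal_ne_top
    _ ≤ ENNReal.ofReal Λ * En k (ρ : Measure (E n)) ω :=
        mul_le_mul' le_rfl (setLIntegral_le_lintegral _ _)
    _ ≤ ENNReal.ofReal Λ * ENNReal.ofReal ((1 - 3 * δ) * vr) := by gcongr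
    _ = ENNReal.ofReal (Λ * ((1 - 3 * δ) * vr)) := (ENNReal.ofReal_mul hΛ0).symm
    _ ≤ ENNReal.ofReal ((1 - 2 * δ) * vr) := by
        apply ENNReal.ofReal_le_ofReal
        have h1 : 0 ≤ (1 - 3 * δ) * vr := mul_nonneg (by linarith) hv.le
        have h2 := mul_le_mul_of_nonneg_right hΛ h1
        nlinarith [mul_pos (mul_pos hδ hδ) hv, mul_pos hδ hv]
    _ = ENNReal.ofReal (1 - 2 * δ) * v := by
        rw [ENNReal.ofReal_mul (by linarith), ← hve]

end R970.RC
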