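import Pool.Agent.R970.RC.Defs

/-!
# RC-V1: variational lemmas
-/

open MeasureTheory Set Filter Topology
open scoped ENNReal

namespace R970.RC

variable {n : ℕ}

namespace VAux

theorem meas_ker {k : ℝ → ℝ≥0∞} (hk : Measurable k) :
    Measurable (fun p : E n × E n => k (dist p.1 p.2)) := hk.comp measurable_dist

theorem meas_Pot {k : ℝ → ℝ≥0∞} (hk : Measurable k) (ν : Measure (E n)) [SFinite ν] :
    Measurable (Pot k ν) := (meas_ker hk).lintegral_prod_right'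

theorem En_add_left (k : ℝ → ℝ≥0∞) (μ μ' ν : Measure (E n)) :
    En k (μ + μ') ν = En k μ ν + En k μ' ν := lintegral_add_measure _ _ _

theorem En_smul_left (k : ℝ → ℝ≥0∞) (c : ℝ≥0∞) (μ ν : Measure (E n)) :
    En k (c • μ) ν = c * En k μ ν := by
  unfold En
  rw [lintegral_smul_measure]; rfl

theorem En_add_right {k : ℝ → ℝ≥0∞} (hk : Measurable k) (μ ν ν' : Measure (E n)) [SFinite ν] :
    En k μ (ν + ν') = En k μ ν + En k μ ν' := by
  have h : ∫⁻ x, (Pot k ν x + Pot k ν' x) ∂μ = ∫⁻ x, Pot k ν x ∂μ + ∫⁻ x, Pot k ν' x ∂μ :=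
    lintegral_add_left (meas_Pot hk ν) _
  refine Eq.trans ?_ h
  refine lintegral_congr fun x => ?_
  rw [lintegral_add_measure]; rfl

theorem En_smul_right {k : ℝ → ℝ≥0∞} (hk : Measurable k) (c : ℝ≥0∞) (μ ν : Measure (E n))
    [SFinite ν] : En k μ (c • ν) = c * En k μ ν := by
  have h : ∫⁻ x, c * Pot k ν x ∂μ = c * ∫⁻ x, Pot k ν x ∂μ := lintegral_const_mul c (meas_Pot hk ν)
  refine Eq.trans ?_ h
  refine lintegral_congr fun x => ?_
  rw [lintegral_smul_measure]; rfl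

theorem En_mono (k : ℝ → ℝ≥0∞) {μ μ' ν ν' : Measure (E n)} (h : μ ≤ μ') (h' : ν ≤ ν') :
    En k μ ν ≤ En k μ' ν' := by
  unfold En
  exact lintegral_mono' h fun x => lintegral_mono' h' fun y => le_rfl

/-- the probability measure obtained from a measure of mass one -/
noncomputable def mkP (μ : Measure (E n)) (h : μ univ = 1) : ProbabilityMeasure (E n) :=
  ⟨μ, ⟨h⟩⟩

theorem VV_le (k : ℝ → ℝ≥0∞) {A : Set (E n)} (μ : ProbabilityMeasure (E n))
    (h : (μ : Measure (E n)) Aᶜ = 0) : VV k A ≤ En k (μ : Measure (E n)) μ :=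
  iInf₂_le μ h

theorem VV_le' (k : ℝ → ℝ≥0∞) {A : Set (E n)} (μ : Measure (E n)) (h1 : μ univ = 1)
    (h : μ Aᶜ = 0) : VV k A ≤ En k μ μ :=
  VV_le k (mkP μ h1) h

end VAux

open VAux

theorem En_symm {k : ℝ → ℝ≥0∞} (hk : Measurable k) (μ ν : Measure (E n)) [SFinite μ] [SFinite ν] :
    En k μ ν = En k ν μ := by
  unfold En
  rw [lintegral_lintegral_swap (meas_ker hk).aemeasurable]
  refine lintegral_congr fun x => lintegral_congr fun y => ?_
  rw [dist_comm]

theorem VV_anti (k : ℝ → ℝ≥0∞) {A B : Set (E n)} (h : A ⊆ B) : VV k B ≤ VV k A := by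
  refine le_iInf₂ fun μ hμ => ?_
  exact VV_le k μ (measure_mono_null (compl_subset_compl.2 h) hμ)

theorem VV_mul_le {k : ℝ → ℝ≥0∞} (hk : Measurable k) {A : Set (E n)} (ρ : Measure (E n))
    [IsFiniteMeasure ρ] (h : ρ Aᶜ = 0) : VV k A * (ρ univ) ^ 2 ≤ En k ρ ρ := by
  by_cases h0 : ρ univ = 0
  · rw [h0]; simp
  have hT : ρ univ ≠ ⊤ := measure_ne_top _ _
  have h1 : ((ρ univ)⁻¹ • ρ) univ = 1 := by
    rw [Measure.smul_apply, smul_eq_mul, ENNReal.inv_mul_cancel h0 hT]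
  have h2 : ((ρ univ)⁻¹ • ρ) Aᶜ = 0 := by
    rw [Measure.smul_apply, h, smul_zero]
  have h3 := VV_le' k _ h1 h2
  rw [En_smul_left, En_smul_right hk] at h3
  calc VV k A * (ρ univ) ^ 2 ≤ ((ρ univ)⁻¹ * ((ρ univ)⁻¹ * En k ρ ρ)) * (ρ univ) ^ 2 := by gcongr
    _ = ((ρ univ)⁻¹ * ρ univ) * ((ρ univ)⁻¹ * ρ univ) * En k ρ ρ := by ring
    _ = En k ρ ρ := by rw [ENNReal.inv_mul_cancel h0 hT]; simp

theorem VAux.alg {x y a b : ℝ≥0∞} (hab : a + b = 1) :
    (x⁻¹ + y⁻¹)⁻¹ ≤ x * a ^ 2 + y * b ^ 2 := by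
  have haT : a ≠ ⊤ := fun h => by rw [h] at hab; simp at hab
  have hbT : b ≠ ⊤ := fun h => by rw [h] at hab; simp at hab
  by_cases hx0 : x = 0
  · subst hx0; simp
  by_cases hy0 : y = 0
  · subst hy0; simp
  by_cases hxT : x = ⊤
  · subst hxT
    by_cases ha : a = 0
    · subst ha
      have hb : b = 1 := by simpa using hab
      subst hb; simp
    · rw [ENNReal.top_mul (pow_ne_zero 2 ha)]; simp
  by_cases hyT : y = ⊤
  · subst hyT
    by_cases hb : b = 0
    · subst hb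
      have ha : a = 1 := by simpa using hab
      subst ha; simp
    · rw [ENNReal.top_mul (pow_ne_zero 2 hb)]; simp
  obtain ⟨x', hx', rfl⟩ : ∃ x' : ℝ, 0 < x' ∧ x = ENNReal.ofReal x' :=
    ⟨x.toReal, ENNReal.toReal_pos hx0 hxT, (ENNReal.ofReal_toReal hxT).symm⟩
  obtain ⟨y', hy', rfl⟩ : ∃ y' : ℝ, 0 < y' ∧ y = ENNReal.ofReal y' :=
    ⟨y.toReal, ENNReal.toReal_pos hy0 hyT, (ENNReal.ofReal_toReal hyT).symm⟩
  obtain ⟨a', ha', rfl⟩ : ∃ a' : ℝ, 0 ≤ a' ∧ a = ENNReal.ofReal a' :=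
    ⟨a.toReal, ENNReal.toReal_nonneg, (ENNReal.ofReal_toReal haT).symm⟩
  obtain ⟨b', hb', rfl⟩ : ∃ b' : ℝ, 0 ≤ b' ∧ b = ENNReal.ofReal b' :=
    ⟨b.toReal, ENNReal.toReal_nonneg, (ENNReal.ofReal_toReal hbT).symm⟩
  rw [← ENNReal.ofReal_add ha' hb', ENNReal.ofReal_eq_one] at hab
  rw [← ENNReal.ofReal_inv_of_pos hx', ← ENNReal.ofReal_inv_of_pos hy',
    ← ENNReal.ofReal_add (by positivity) (by positivity),
    ← ENNReal.ofReal_inv_of_pos (by positivity), ← ENNReal.ofReal_pow ha', ← ENNReal.ofReal_pow hb',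
    ← ENNReal.ofReal_mul hx'.le, ← ENNReal.ofReal_mul hy'.le,
    ← ENNReal.ofReal_add (by positivity) (by positivity)]
  refine ENNReal.ofReal_le_ofReal ?_
  rw [inv_le_iff_one_le_mul₀ (by positivity)]
  have h1 : (x' * a' ^ 2 + y' * b' ^ 2) * (x'⁻¹ + y'⁻¹) =
      (a' + b') ^ 2 + (x' * a' - y' * b') ^ 2 / (x' * y') := by
    field_simp; ring
  rw [h1, hab]
  have : 0 ≤ (x' * a' - y' * b') ^ 2 / (x' * y') := by positivity
  linarith

theorem VV_union {k : ℝ → ℝ≥0∞} (hk : Measurable k) {A B : Set (E n)} (hA : MeasurableSet A) :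
    (VV k (A ∪ B))⁻¹ ≤ (VV k A)⁻¹ + (VV k B)⁻¹ := by
  rw [← ENNReal.inv_le_inv, inv_inv]
  refine le_iInf₂ fun ρ hρ => ?_
  have hsum : (ρ : Measure (E n)) A + (ρ : Measure (E n)) Aᶜ = 1 := by
    rw [measure_add_measure_compl hA]; exact measure_univ
  refine (VAux.alg hsum).trans ?_
  have hdec : (ρ : Measure (E n)) = (ρ : Measure (E n)).restrict A +
      (ρ : Measure (E n)).restrict Aᶜ := (Measure.restrict_add_restrict_compl hA).symm
  have h1 : VV k A * ((ρ : Measure (E n)) A) ^ 2 ≤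
      En k ((ρ : Measure (E n)).restrict A) ((ρ : Measure (E n)).restrict A) := by
    have := VV_mul_le hk (A := A) ((ρ : Measure (E n)).restrict A) (by
      rw [Measure.restrict_apply' hA]; simp)
    rwa [Measure.restrict_apply_univ] at this
  have h2 : VV k B * ((ρ : Measure (E n)) Aᶜ) ^ 2 ≤
      En k ((ρ : Measure (E n)).restrict Aᶜ) ((ρ : Measure (E n)).restrict Aᶜ) := by
    have := VV_mul_le hk (A := B) ((ρ : Measure (E n)).restrict Aᶜ) (by
      rw [Measure.restrict_apply' hA.compl]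
      refine measure_mono_null ?_ hρ
      intro x hx; simp only [mem_inter_iff, mem_compl_iff, mem_union] at hx ⊢; tauto)
    rwa [Measure.restrict_apply_univ] at this
  refine (add_le_add h1 h2).trans ?_
  conv_rhs => rw [hdec]
  rw [En_add_left, En_add_right hk, En_add_right hk]
  calc _ = En k ((ρ : Measure (E n)).restrict A) ((ρ : Measure (E n)).restrict A) + 0 +
        (0 + En k ((ρ : Measure (E n)).restrict Aᶜ) ((ρ : Measure (E n)).restrict Aᶜ)) := by simp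
    _ ≤ _ := by gcongr <;> exact bot_le

theorem VV_gain {k : ℝ → ℝ≥0∞} (hk : Measurable k) {G B : Set (E n)}
    (ρ σ : ProbabilityMeasure (E n)) (hρ : (ρ : Measure (E n)) Gᶜ = 0)
    (hσ : (σ : Measure (E n)) Bᶜ = 0) {t : ℝ} (h0 : 0 ≤ t) (h1 : t ≤ 1) :
    VV k (G ∪ B) ≤ ENNReal.ofReal ((1 - t) ^ 2) * En k (ρ : Measure (E n)) ρ
      + ENNReal.ofReal (2 * t * (1 - t)) * En k (ρ : Measure (E n)) σ
      + ENNReal.ofReal (t ^ 2) * En k (σ : Measure (E n)) σ := by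
  have h1' : 0 ≤ 1 - t := by linarith
  have hm1 : (ENNReal.ofReal (1 - t) • (ρ : Measure (E n)) +
      ENNReal.ofReal t • (σ : Measure (E n))) univ = 1 := by
    rw [Measure.add_apply, Measure.smul_apply, Measure.smul_apply, measure_univ, measure_univ,
      smul_eq_mul, smul_eq_mul, mul_one, mul_one, ← ENNReal.ofReal_add h1' h0]
    simp
  have hm2 : (ENNReal.ofReal (1 - t) • (ρ : Measure (E n)) +
      ENNReal.ofReal t • (σ : Measure (E n))) (G ∪ B)ᶜ = 0 := by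
    rw [Measure.add_apply, Measure.smul_apply, Measure.smul_apply,
      measure_mono_null (compl_subset_compl.2 subset_union_left) hρ,
      measure_mono_null (compl_subset_compl.2 subset_union_right) hσ]
    simp
  refine (VV_le' k _ hm1 hm2).trans (le_of_eq ?_)
  rw [En_add_left, En_add_right hk, En_add_right hk]
  simp only [En_smul_left, En_smul_right hk]
  rw [En_symm hk (σ : Measure (E n)) (ρ : Measure (E n))]
  have e1 : ENNReal.ofReal ((1 - t) ^ 2) = ENNReal.ofReal (1 - t) * ENNReal.ofReal (1 - t) := by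
    rw [← ENNReal.ofReal_mul h1', sq]
  have e2 : ENNReal.ofReal (2 * t * (1 - t)) =
      ENNReal.ofReal (1 - t) * ENNReal.ofReal t + ENNReal.ofReal t * ENNReal.ofReal (1 - t) := by
    rw [← ENNReal.ofReal_mul h1', ← ENNReal.ofReal_mul h0,
      ← ENNReal.ofReal_add (by positivity) (by positivity)]
    congr 1; ring
  have e3 : ENNReal.ofReal (t ^ 2) = ENNReal.ofReal t * ENNReal.ofReal t := by
    rw [← ENNReal.ofReal_mul h0, sq]
  rw [e1, e2, e3]
  ring

theorem VV_inner {k : ℝ → ℝ≥0∞} (hk : Measurable k) {A : Set (E n)} (hA : MeasurableSet A)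
    {x : ℝ≥0∞} (h : VV k A < x) : ∃ C ⊆ A, IsCompact C ∧ VV k C < x := by
  by_contra hcon
  push Not at hcon
  unfold VV at h
  simp only [iInf_lt_iff] at h
  obtain ⟨ρ, hρ, hlt⟩ := h
  have hA1 : (ρ : Measure (E n)) A = 1 := (prob_compl_eq_zero_iff hA).1 hρ
  have key : ∀ r : ℝ≥0∞, r < 1 → x * r ^ 2 ≤ En k (ρ : Measure (E n)) ρ := by
    intro r hr
    obtain ⟨C, hCA, hC, hrC⟩ := hA.exists_lt_isCompact (μ := (ρ : Measure (E n))) (r := r)
      (by rw [hA1]; exact hr)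
    have h1 := VV_mul_le hk (A := C) ((ρ : Measure (E n)).restrict C) (by
      rw [Measure.restrict_apply' hC.measurableSet]; simp)
    rw [Measure.restrict_apply_univ] at h1
    calc x * r ^ 2 ≤ VV k C * ((ρ : Measure (E n)) C) ^ 2 := by
          gcongr
          exact hcon C hCA hC
      _ ≤ _ := h1
      _ ≤ _ := En_mono k Measure.restrict_le_self Measure.restrict_le_self
  have hlim : Tendsto (fun r : ℝ≥0∞ => x * r ^ 2) (𝓝[<] 1) (𝓝 (x * 1 ^ 2)) := by
    refine ENNReal.Tendsto.const_mul ?_ (Or.inl (by simp))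
    exact ((ENNReal.continuous_pow 2).tendsto 1).mono_left nhdsWithin_le_nhds
  have : (𝓝[<] (1 : ℝ≥0∞)).NeBot := nhdsLT_neBot_of_exists_lt ⟨0, zero_lt_one⟩
  have := le_of_tendsto hlim (eventually_nhdsWithin_of_forall fun r hr => key r hr)
  rw [one_pow, mul_one] at this
  exact absurd hlt (not_lt.2 this)

end R970.RC
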