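import Pool.Agent.R970.RC.LSC
import Pool.Agent.R970.RC.V1

/-! RC-EQ: equilibrium measure of a compact set. -/

open MeasureTheory Set Filter Topology
open scoped ENNReal

namespace R970.RC

variable {n : ℕ}

namespace EQ

lemma meas_ker {k : ℝ → ℝ≥0∞} (hk : Measurable k) :
    Measurable (Function.uncurry fun x y : E n => k (dist x y)) := hk.comp measurable_dist

lemma meas_Pot {k : ℝ → ℝ≥0∞} (hk : Measurable k) (ν : Measure (E n)) [SFinite ν] :
    Measurable (Pot k ν) := (meas_ker hk).lintegral_prod_right'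

lemma En_add_left (k : ℝ → ℝ≥0∞) (μ₁ μ₂ ν : Measure (E n)) :
    En k (μ₁ + μ₂) ν = En k μ₁ ν + En k μ₂ ν := lintegral_add_measure _ _ _

lemma En_add_right {k : ℝ → ℝ≥0∞} (hk : Measurable k) (μ ν₁ ν₂ : Measure (E n)) [SFinite ν₁] :
    En k μ (ν₁ + ν₂) = En k μ ν₁ + En k μ ν₂ := by
  unfold En
  simp_rw [lintegral_add_measure]
  exact lintegral_add_left (meas_Pot hk ν₁) _

lemma En_smul_left (k : ℝ → ℝ≥0∞) (c : ℝ≥0∞) (μ ν : Measure (E n)) :
    En k (c • μ) ν = c * En k μ ν := by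
  unfold En
  rw [lintegral_smul_measure, smul_eq_mul]

lemma En_smul_right {k : ℝ → ℝ≥0∞} (hk : Measurable k) (c : ℝ≥0∞) (μ ν : Measure (E n))
    [SFinite ν] : En k μ (c • ν) = c * En k μ ν := by
  unfold En
  simp_rw [lintegral_smul_measure, smul_eq_mul]
  exact lintegral_const_mul c (meas_Pot hk ν)

lemma real_var (a c d V b : ℝ) (hd : 0 ≤ d) (hV : V = a + 2 * c + d) (hV0 : 0 ≤ V)
    (h : ∀ s : ℝ, 0 ≤ s → s ≤ 1 → V * ((1 - b) + s * b) ^ 2 ≤ a + 2 * s * c + s ^ 2 * d) :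
    c + d ≤ V * b := by
  apply le_of_forall_pos_le_add
  intro ε hε
  set τ : ℝ := min 1 (ε / (d + 1)) with hτ
  have hτ0 : 0 < τ := lt_min one_pos (by positivity)
  have hτ1 : τ ≤ 1 := min_le_left _ _
  have hτ2 : τ * (d + 1) ≤ ε := by
    have := min_le_right 1 (ε / (d + 1))
    rw [← hτ, le_div_iff₀ (by positivity)] at this
    exact this
  have h1 := h (1 - τ) (by linarith) (by linarith)
  have h2 : V * ((1 - b) + (1 - τ) * b) ^ 2 = V - 2 * τ * (V * b) + τ ^ 2 * (b ^ 2 * V) := by ring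
  have h3 : a + 2 * (1 - τ) * c + (1 - τ) ^ 2 * d = V - 2 * τ * (c + d) + τ ^ 2 * d := by
    rw [hV]; ring
  rw [h2, h3] at h1
  have h4 : 0 ≤ τ ^ 2 * (b ^ 2 * V) := by positivity
  have h5 : 2 * τ * (c + d) ≤ 2 * τ * (V * b + τ * d / 2) := by nlinarith
  have h6 : c + d ≤ V * b + τ * d / 2 := le_of_mul_le_mul_left h5 (by positivity)
  nlinarith

lemma first_var {k : ℝ → ℝ≥0∞} (hk : Measurable k) {K : Set (E n)} (ρ : ProbabilityMeasure (E n))
    (hρ : (ρ : Measure (E n)) Kᶜ = 0) (hE : En k (ρ : Measure (E n)) ρ = VV k K)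
    (hV : VV k K ≠ ⊤) {B : Set (E n)} (hB : MeasurableSet B) :
    ∫⁻ x in B, Pot k (ρ : Measure (E n)) x ∂(ρ : Measure (E n))
      ≤ VV k K * (ρ : Measure (E n)) B := by
  set m : Measure (E n) := (ρ : Measure (E n)) with hm
  set ρ₂ : Measure (E n) := m.restrict B with h₂
  set ρ₁ : Measure (E n) := m.restrict Bᶜ with h₁
  have hsum : m = ρ₂ + ρ₁ := (Measure.restrict_add_restrict_compl hB).symm
  have hsymm : En k ρ₂ ρ₁ = En k ρ₁ ρ₂ := En_symm hk ρ₂ ρ₁
  set a := En k ρ₁ ρ₁ with ha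
  set c := En k ρ₁ ρ₂ with hc
  set d := En k ρ₂ ρ₂ with hd
  have hLHS : ∫⁻ x in B, Pot k m x ∂m = c + d := by
    have : ∫⁻ x in B, Pot k m x ∂m = En k ρ₂ m := rfl
    rw [this]
    conv_lhs => rw [hsum]
    rw [En_add_right hk, hsymm, ← hd, add_comm]
  have hVsum : VV k K = a + 2 * c + d := by
    rw [← hE]
    conv_lhs => rw [hsum]
    rw [En_add_left, En_add_right hk, En_add_right hk, hsymm, ← hc, ← hd, ← ha]
    ring
  have ha' : a ≠ ⊤ := by
    intro e; rw [hVsum, e] at hV; simp at hV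
  have hc' : c ≠ ⊤ := by
    intro e; rw [hVsum, e] at hV; simp [ENNReal.mul_top] at hV
  have hd' : d ≠ ⊤ := by
    intro e; rw [hVsum, e] at hV; simp at hV
  have hb' : m B ≠ ⊤ := measure_ne_top _ _
  have hbc : (m Bᶜ).toReal = 1 - (m B).toReal := by
    have h := measure_add_measure_compl (μ := m) hB
    rw [measure_univ] at h
    have h2 := congrArg ENNReal.toReal h
    rw [ENNReal.toReal_add hb' (measure_ne_top _ _), ENNReal.toReal_one] at h2
    linarith
  have hVr : (VV k K).toReal = a.toReal + 2 * c.toReal + d.toReal := by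
    rw [hVsum, ENNReal.toReal_add (ENNReal.add_ne_top.2 ⟨ha', ENNReal.mul_ne_top (by simp) hc'⟩) hd',
      ENNReal.toReal_add ha' (ENNReal.mul_ne_top (by simp) hc'), ENNReal.toReal_mul]
    simp
  have key : c.toReal + d.toReal ≤ (VV k K).toReal * (m B).toReal := by
    apply real_var a.toReal c.toReal d.toReal _ _ ENNReal.toReal_nonneg hVr ENNReal.toReal_nonneg
    intro s hs0 hs1
    set S := ENNReal.ofReal s with hS
    have hfin : IsFiniteMeasure (ρ₁ + S • ρ₂) := by
      constructor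
      rw [Measure.add_apply, Measure.smul_apply, smul_eq_mul]
      exact ENNReal.add_lt_top.2 ⟨measure_lt_top _ _, ENNReal.mul_lt_top ENNReal.ofReal_lt_top
        (measure_lt_top _ _)⟩
    have h0 : (ρ₁ + S • ρ₂) Kᶜ = 0 := by
      rw [Measure.add_apply, Measure.smul_apply, smul_eq_mul]
      have e1 : ρ₁ Kᶜ = 0 := le_antisymm ((Measure.restrict_le_self _).trans hρ.le) bot_le
      have e2 : ρ₂ Kᶜ = 0 := le_antisymm ((Measure.restrict_le_self _).trans hρ.le) bot_le
      rw [e1, e2, mul_zero, add_zero]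
    have h1 := VV_mul_le hk (ρ₁ + S • ρ₂) h0
    have hmass : (ρ₁ + S • ρ₂) univ = m Bᶜ + S * m B := by
      rw [Measure.add_apply, Measure.smul_apply, smul_eq_mul, h₁, h₂, Measure.restrict_apply_univ,
        Measure.restrict_apply_univ]
    have hEn : En k (ρ₁ + S • ρ₂) (ρ₁ + S • ρ₂) = a + 2 * S * c + S ^ 2 * d := by
      rw [En_add_left, En_add_right hk, En_add_right hk, En_smul_left, En_smul_left,
        En_smul_right hk, En_smul_right hk, hsymm, ← hc, ← hd, ← ha]
      ring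
    rw [hmass, hEn] at h1
    have hSt : S ≠ ⊤ := ENNReal.ofReal_ne_top
    have hne1 : 2 * S * c ≠ ⊤ := ENNReal.mul_ne_top (ENNReal.mul_ne_top (by simp) hSt) hc'
    have hne2 : S ^ 2 * d ≠ ⊤ := ENNReal.mul_ne_top (ENNReal.pow_ne_top hSt) hd'
    have h2 := ENNReal.toReal_mono (ENNReal.add_ne_top.2 ⟨ENNReal.add_ne_top.2 ⟨ha', hne1⟩, hne2⟩) h1
    rw [ENNReal.toReal_mul, ENNReal.toReal_pow, ENNReal.toReal_add (measure_ne_top _ _)
      (ENNReal.mul_ne_top hSt hb'), ENNReal.toReal_add (ENNReal.add_ne_top.2 ⟨ha', hne1⟩) hne2,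
      ENNReal.toReal_add ha' hne1, ENNReal.toReal_mul, ENNReal.toReal_mul, ENNReal.toReal_mul,
      ENNReal.toReal_mul, ENNReal.toReal_pow, hS, ENNReal.toReal_ofReal hs0, hbc] at h2
    simpa using h2
  rw [hLHS]
  rw [← ENNReal.toReal_le_toReal (ENNReal.add_ne_top.2 ⟨hc', hd'⟩) (ENNReal.mul_ne_top hV hb'),
    ENNReal.toReal_add hc' hd', ENNReal.toReal_mul]
  exact key

end EQ

open EQ in
theorem exists_equilibrium {k : ℝ → ℝ≥0∞} {P : ℝ} (hk : IsKer k P) (hP : 0 < P) {K : Set (E n)}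
    (hK : IsCompact K) (hV : VV k K ≠ ⊤) :
    ∃ ρ : ProbabilityMeasure (E n), (ρ : Measure (E n)) Kᶜ = 0 ∧
      En k (ρ : Measure (E n)) ρ = VV k K ∧
      ∀ x, Pot k (ρ : Measure (E n)) x ≤ ENNReal.ofReal ((2 : ℝ) ^ P) * VV k K := by
  have hkm : Measurable k := hk.cont.measurable
  -- minimising sequence
  have h1 : ∀ i : ℕ, ∃ μ : ProbabilityMeasure (E n), (μ : Measure (E n)) Kᶜ = 0 ∧
      En k (μ : Measure (E n)) μ ≤ VV k K + ENNReal.ofReal (1 / ((i : ℝ) + 1)) := by
    intro i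
    have h2 : VV k K < VV k K + ENNReal.ofReal (1 / ((i : ℝ) + 1)) :=
      ENNReal.lt_add_right hV (by
        simp only [ne_eq, ENNReal.ofReal_eq_zero, not_le]
        positivity)
    conv_lhs at h2 => unfold VV
    simp only [iInf_lt_iff] at h2
    obtain ⟨μ, hμ, h3⟩ := h2
    exact ⟨μ, hμ, h3.le⟩
  choose μs hμ0 hμE using h1
  obtain ⟨L, hL⟩ := hK.isBounded.subset_closedBall (0 : E n)
  obtain ⟨ρ, -, φ, hφ, hlim⟩ := exists_subseq μs (L := L) (fun i =>
    measure_mono_null (compl_subset_compl.2 hL) (hμ0 i))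
  have hρ : (ρ : Measure (E n)) Kᶜ = 0 := by
    have h2 := ProbabilityMeasure.le_liminf_measure_open_of_tendsto hlim hK.isClosed.isOpen_compl
    apply le_antisymm _ bot_le
    refine h2.trans ?_
    simp [Function.comp, hμ0]
  have hle : En k (ρ : Measure (E n)) ρ ≤ VV k K := by
    refine (En_le_liminf hk.cont hlim hlim).trans ?_
    have h2 : Tendsto (fun i : ℕ => VV k K + ENNReal.ofReal (1 / ((φ i : ℝ) + 1))) atTop
        (𝓝 (VV k K + ENNReal.ofReal 0)) := by
      apply tendsto_const_nhds.add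
      apply ENNReal.tendsto_ofReal
      have := tendsto_one_div_add_atTop_nhds_zero_nat (𝕜 := ℝ)
      exact this.comp hφ.tendsto_atTop
    rw [ENNReal.ofReal_zero, add_zero] at h2
    rw [← h2.liminf_eq]
    exact liminf_le_liminf (Eventually.of_forall fun i => hμE (φ i))
  have hge : VV k K ≤ En k (ρ : Measure (E n)) ρ := by
    conv_lhs => unfold VV
    exact iInf₂_le ρ hρ
  have hE : En k (ρ : Measure (E n)) ρ = VV k K := le_antisymm hle hge
  refine ⟨ρ, hρ, hE, ?_⟩
  -- the potential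
  have hae : ∀ᵐ x ∂(ρ : Measure (E n)), Pot k (ρ : Measure (E n)) x ≤ VV k K := by
    apply ae_le_of_forall_setLIntegral_le_of_sigmaFinite (meas_Pot hkm _)
    intro B hB _
    rw [setLIntegral_const]
    exact first_var hkm ρ hρ hE hV hB
  have hlsc := Pot_lsc (n := n) hk.cont (ρ : Measure (E n))
  set S : Set (E n) := K ∩ {x | Pot k (ρ : Measure (E n)) x ≤ VV k K} with hS
  have hScl : IsClosed {x | Pot k (ρ : Measure (E n)) x ≤ VV k K} := by
    have h2 := hlsc.isOpen_preimage (VV k K)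
    rw [← isOpen_compl_iff]
    convert h2 using 1
    ext x
    simp
  have hSc : IsCompact S := hK.inter_right hScl
  have hSae : ∀ᵐ x ∂(ρ : Measure (E n)), x ∈ S := by
    have h2 : ∀ᵐ x ∂(ρ : Measure (E n)), x ∈ K := by
      rw [ae_iff]; exact hρ
    filter_upwards [h2, hae] with x h3 h4
    exact ⟨h3, h4⟩
  have hSne : S.Nonempty := by
    obtain ⟨x, hx⟩ := hSae.exists
    exact ⟨x, hx⟩
  intro x
  obtain ⟨x', hx', hmin⟩ := hSc.exists_infDist_eq_dist hSne x
  have hk2 : ∀ z ∈ S, k (dist x z) ≤ ENNReal.ofReal ((2 : ℝ) ^ P) * k (dist x' z) := by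
    intro z hz
    have h2 : dist x x' ≤ dist x z := by
      rw [← hmin]; exact Metric.infDist_le_dist_of_mem hz
    have h3 : dist x' z ≤ 2 * dist x z := by
      calc dist x' z ≤ dist x' x + dist x z := dist_triangle _ _ _
        _ ≤ 2 * dist x z := by rw [dist_comm x' x]; linarith
    rcases (dist_nonneg (x := x') (y := z)).eq_or_lt with h4 | h4
    · rw [← h4, hk.zero, ENNReal.mul_top]
      · exact le_top
      · simp only [ne_eq, ENNReal.ofReal_eq_zero, not_le]
        positivity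
    · have h5 := hk.scal (1 / 2) (dist x' z) (by norm_num) (by norm_num) h4
      have h6 : ((1 / 2 : ℝ)) ^ (-P) = 2 ^ P := by
        rw [one_div, Real.inv_rpow (by norm_num), Real.rpow_neg (by norm_num), inv_inv]
      rw [h6] at h5
      refine le_trans (hk.anti ?_) h5
      linarith
  calc Pot k (ρ : Measure (E n)) x
      ≤ ∫⁻ z, ENNReal.ofReal ((2 : ℝ) ^ P) * k (dist x' z) ∂(ρ : Measure (E n)) := by
        apply lintegral_mono_ae
        filter_upwards [hSae] with z hz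
        exact hk2 z hz
    _ = ENNReal.ofReal ((2 : ℝ) ^ P) * Pot k (ρ : Measure (E n)) x' := by
        rw [lintegral_const_mul' _ _ ENNReal.ofReal_ne_top]
        rfl
    _ ≤ ENNReal.ofReal ((2 : ℝ) ^ P) * VV k K := by
        gcongr
        exact hx'.2

end R970.RC
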