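import Pool.Agent.R970.RC.V1
import Pool.Agent.R970.RC.EQ

open MeasureTheory Set Filter Topology
open scoped ENNReal

namespace R970.RC

variable {n : ℕ}

theorem ThinAux.far {k : ℝ → ℝ≥0∞} {P : ℝ} (hk : IsKer k P) {η R : ℝ} (hη : 0 < η) (hη1 : η < 1)
    (hR : 0 < R) {x0 y z : E n} (hy : y ∈ Metric.closedBall x0 (η * R))
    (hz : z ∉ Metric.closedBall x0 R) :
    k (dist z y) ≤ ENNReal.ofReal ((1 - η) ^ (-P)) * k (dist x0 z) := by
  rw [Metric.mem_closedBall] at hy hz
  push Not at hz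
  have h1 : (1 - η) * dist x0 z ≤ dist z y := by
    have h2 := dist_triangle_right x0 z y
    have h3 : dist x0 z ≤ dist x0 y + dist z y := h2
    rw [dist_comm y x0] at hy
    rw [dist_comm z x0] at hz
    nlinarith
  refine (hk.anti h1).trans (hk.scal _ _ (by linarith) (by linarith) ?_)
  rw [dist_comm]
  exact hR.trans hz

theorem ThinAux.main {k : ℝ → ℝ≥0∞} {P : ℝ} (hk : IsKer k P) (hP : 0 < P)
    (γ : ProbabilityMeasure (E n)) {v w : ℝ≥0∞} (hv : v ≠ ⊤) (hwv : w < v) {F : Set (E n)}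
    (hF : MeasurableSet F) (hFv : ∀ x ∈ F, v ≤ Pot k (γ : Measure (E n)) x) {x0 : E n}
    {η : ℝ} (hη : 0 < η) (hη1 : η < 1)
    (hx0 : ENNReal.ofReal ((1 - η) ^ (-P)) * Pot k (γ : Measure (E n)) x0 ≤ w) {R : ℝ} (hR : 0 < R) :
    (VV k (F ∩ Metric.closedBall x0 (η * R)))⁻¹ ≤
      ENNReal.ofReal ((2 : ℝ) ^ P) * (γ : Measure (E n)) (Metric.closedBall x0 R) / (v - w) := by
  have hkm : Measurable k := hk.cont.measurable
  have hd0 : v - w ≠ 0 := (tsub_pos_of_lt hwv).ne'
  have hdT : v - w ≠ ⊤ := ne_top_of_le_ne_top hv tsub_le_self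
  set B := Metric.closedBall x0 R with hB
  have hBm : MeasurableSet B := Metric.isClosed_closedBall.measurableSet
  -- compact sets
  have hcomp : ∀ A : Set (E n), A ⊆ F ∩ Metric.closedBall x0 (η * R) → IsCompact A →
      (VV k A)⁻¹ ≤ ENNReal.ofReal ((2 : ℝ) ^ P) * (γ : Measure (E n)) B / (v - w) := by
    intro A hA hAc
    by_cases hT : VV k A = ⊤
    · rw [hT, ENNReal.inv_top]
      exact zero_le
    obtain ⟨ρ, hρA, hρE, hρP⟩ := exists_equilibrium hk hP hAc hT
    have hae : ∀ᵐ y ∂(ρ : Measure (E n)), y ∈ A := by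
      rw [ae_iff]
      exact hρA
    have h1 : v ≤ En k (ρ : Measure (E n)) γ := by
      unfold En
      calc v = ∫⁻ _, v ∂(ρ : Measure (E n)) := by simp
        _ ≤ _ := by
          apply lintegral_mono_ae
          filter_upwards [hae] with y hy
          exact hFv y (hA hy).1
    rw [En_symm hkm] at h1
    have h2 : En k (γ : Measure (E n)) ρ ≤
        ENNReal.ofReal ((2 : ℝ) ^ P) * VV k A * (γ : Measure (E n)) B + w := by
      unfold En
      rw [← lintegral_add_compl _ hBm]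
      apply add_le_add
      · calc ∫⁻ z in B, ∫⁻ y, k (dist z y) ∂(ρ : Measure (E n)) ∂(γ : Measure (E n))
            ≤ ∫⁻ _ in B, ENNReal.ofReal ((2 : ℝ) ^ P) * VV k A ∂(γ : Measure (E n)) :=
              lintegral_mono (fun z => hρP z)
          _ = _ := by rw [lintegral_const, Measure.restrict_apply_univ]
      · refine le_trans ?_ hx0
        have h3 : ∀ z ∈ Bᶜ, ∫⁻ y, k (dist z y) ∂(ρ : Measure (E n)) ≤
            ENNReal.ofReal ((1 - η) ^ (-P)) * k (dist x0 z) := by
          intro z hz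
          calc ∫⁻ y, k (dist z y) ∂(ρ : Measure (E n))
              ≤ ∫⁻ _, ENNReal.ofReal ((1 - η) ^ (-P)) * k (dist x0 z) ∂(ρ : Measure (E n)) := by
                apply lintegral_mono_ae
                filter_upwards [hae] with y hy
                exact ThinAux.far hk hη hη1 hR (hA hy).2 hz
            _ = _ := by simp
        calc ∫⁻ z in Bᶜ, ∫⁻ y, k (dist z y) ∂(ρ : Measure (E n)) ∂(γ : Measure (E n))
            ≤ ∫⁻ z in Bᶜ, ENNReal.ofReal ((1 - η) ^ (-P)) * k (dist x0 z) ∂(γ : Measure (E n)) :=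
              setLIntegral_mono' hBm.compl h3
          _ ≤ ∫⁻ z, ENNReal.ofReal ((1 - η) ^ (-P)) * k (dist x0 z) ∂(γ : Measure (E n)) :=
              setLIntegral_le_lintegral _ _
          _ = _ := by
              exact lintegral_const_mul (f := fun z : E n => k (dist x0 z)) _
                (hkm.comp (measurable_const.dist measurable_id))
    have h4 : v - w ≤ ENNReal.ofReal ((2 : ℝ) ^ P) * VV k A * (γ : Measure (E n)) B :=
      tsub_le_iff_right.2 (h1.trans h2)
    have hV0 : VV k A ≠ 0 := by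
      intro h
      rw [h, mul_zero, zero_mul] at h4
      exact hd0 (le_antisymm h4 zero_le)
    rw [ENNReal.le_div_iff_mul_le (Or.inl hd0) (Or.inl hdT)]
    calc (VV k A)⁻¹ * (v - w)
        ≤ (VV k A)⁻¹ * (ENNReal.ofReal ((2 : ℝ) ^ P) * VV k A * (γ : Measure (E n)) B) := by gcongr
      _ = ((VV k A)⁻¹ * VV k A) * (ENNReal.ofReal ((2 : ℝ) ^ P) * (γ : Measure (E n)) B) := by ring
      _ = _ := by rw [ENNReal.inv_mul_cancel hV0 hT, one_mul]
  by_contra hcon
  push Not at hcon
  have h5 : VV k (F ∩ Metric.closedBall x0 (η * R)) <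
      (ENNReal.ofReal ((2 : ℝ) ^ P) * (γ : Measure (E n)) B / (v - w))⁻¹ := by
    rw [← ENNReal.inv_lt_inv, inv_inv]
    exact hcon
  obtain ⟨C, hC, hCc, hCV⟩ := VV_inner hkm (hF.inter Metric.isClosed_closedBall.measurableSet) h5
  have h6 := hcomp C hC hCc
  rw [← ENNReal.inv_lt_inv, inv_inv] at hCV
  exact absurd hCV (not_lt.2 h6)

theorem ThinAux.mass {k : ℝ → ℝ≥0∞} {P : ℝ} (hk : IsKer k P)
    (γ : ProbabilityMeasure (E n)) {x0 : E n} (hx0 : Pot k (γ : Measure (E n)) x0 ≠ ⊤) :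
    Tendsto (fun r : ℝ => ∫⁻ z in Metric.closedBall x0 r, k (dist x0 z) ∂(γ : Measure (E n)))
      (𝓝[>] 0) (𝓝 0) := by
  have hkm : Measurable k := hk.cont.measurable
  have hfm : Measurable fun z : E n => k (dist x0 z) := hkm.comp (measurable_const.dist measurable_id)
  set m := (γ : Measure (E n)).withDensity (fun z => k (dist x0 z)) with hm
  have hmv : ∀ S : Set (E n), MeasurableSet S → m S = ∫⁻ z in S, k (dist x0 z) ∂(γ : Measure (E n)) :=
    fun S hS => withDensity_apply _ hS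
  have hmT : ∀ S : Set (E n), m S ≠ ⊤ := by
    intro S
    refine ne_top_of_le_ne_top ?_ (measure_mono (subset_univ S))
    rw [hmv _ MeasurableSet.univ, Measure.restrict_univ]
    exact hx0
  have hcont := tendsto_measure_biInter_gt (μ := m) (s := fun r : ℝ => Metric.closedBall x0 r)
    (a := (0 : ℝ)) (fun r _ => Metric.isClosed_closedBall.measurableSet.nullMeasurableSet)
    (fun i j _ hij => Metric.closedBall_subset_closedBall hij) ⟨1, one_pos, hmT _⟩
  have hI : (⋂ r > (0 : ℝ), Metric.closedBall x0 r) = {x0} := by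
    ext z
    simp only [mem_iInter, mem_singleton_iff, Metric.mem_closedBall]
    constructor
    · intro h
      have : dist z x0 ≤ 0 := le_of_forall_pos_le_add (fun ε hε => by simpa using h ε hε)
      exact dist_le_zero.1 this
    · rintro rfl r hr
      rw [dist_self]
      exact le_of_lt hr
  rw [hI] at hcont
  have h0 : m {x0} = 0 := by
    rw [hmv _ (measurableSet_singleton x0)]
    have hγ0 : (γ : Measure (E n)) {x0} = 0 := by
      by_contra hne
      have h1 : m {x0} = ⊤ := by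
        rw [hmv _ (measurableSet_singleton x0), lintegral_singleton, dist_self, hk.zero,
          ENNReal.top_mul hne]
      exact hmT _ h1
    exact setLIntegral_measure_zero _ _ hγ0
  rw [h0] at hcont
  refine hcont.congr (fun r => ?_)
  exact hmv _ Metric.isClosed_closedBall.measurableSet

theorem thin {k : ℝ → ℝ≥0∞} {P : ℝ} (hk : IsKer k P) (hP : 0 < P) (γ : ProbabilityMeasure (E n))
    {v : ℝ≥0∞} (hv0 : v ≠ 0) (hv : v ≠ ⊤) {F : Set (E n)} (hF : MeasurableSet F)
    (hFv : ∀ x ∈ F, v ≤ Pot k (γ : Measure (E n)) x) {x0 : E n}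
    (hx0 : Pot k (γ : Measure (E n)) x0 < v) :
    Tendsto (fun s : ℝ => (VV k (F ∩ Metric.closedBall x0 s))⁻¹ * k s) (𝓝[>] 0) (𝓝 0) := by
  have _ := hv0
  have hUT : Pot k (γ : Measure (E n)) x0 ≠ ⊤ := (hx0.trans_le le_top).ne
  obtain ⟨w, hw1, hw2⟩ := exists_between hx0
  -- choice of η
  have hc : Tendsto (fun η : ℝ => ENNReal.ofReal ((1 - η) ^ (-P)) * Pot k (γ : Measure (E n)) x0)
      (𝓝 0) (𝓝 (Pot k (γ : Measure (E n)) x0)) := by
    have h1 : ContinuousAt (fun η : ℝ => (1 - η) ^ (-P)) 0 := by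
      apply ContinuousAt.rpow_const
      · fun_prop
      · left; norm_num
    have h2 : Tendsto (fun η : ℝ => ENNReal.ofReal ((1 - η) ^ (-P))) (𝓝 0) (𝓝 1) := by
      have h3 : Tendsto (fun η : ℝ => ENNReal.ofReal ((1 - η) ^ (-P))) (𝓝 0)
          (𝓝 (ENNReal.ofReal ((1 - 0) ^ (-P)))) :=
        (ENNReal.continuous_ofReal.tendsto _).comp h1.tendsto
      simpa using h3
    have h4 := ENNReal.Tendsto.mul_const h2 (Or.inr hUT) (b := Pot k (γ : Measure (E n)) x0)
    rwa [one_mul] at h4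
  have hev : ∀ᶠ η in 𝓝[>] (0 : ℝ),
      ENNReal.ofReal ((1 - η) ^ (-P)) * Pot k (γ : Measure (E n)) x0 < w :=
    (hc.eventually (gt_mem_nhds hw1)).filter_mono nhdsWithin_le_nhds
  have hev2 : ∀ᶠ η in 𝓝[>] (0 : ℝ), η < 1 :=
    (gt_mem_nhds one_pos).filter_mono nhdsWithin_le_nhds
  have hev3 : ∀ᶠ η in 𝓝[>] (0 : ℝ), 0 < η := eventually_mem_nhdsWithin
  obtain ⟨η, ⟨hη2, hη1⟩, hη⟩ := ((hev.and hev2).and hev3).exists
  have hd0 : v - w ≠ 0 := (tsub_pos_of_lt hw2).ne'
  set C : ℝ≥0∞ := ENNReal.ofReal ((2 : ℝ) ^ P) / (v - w) * ENNReal.ofReal (η ^ (-P)) with hC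
  have hCT : C ≠ ⊤ :=
    ENNReal.mul_ne_top (ENNReal.div_ne_top ENNReal.ofReal_ne_top hd0) ENNReal.ofReal_ne_top
  have hscale : Tendsto (fun s : ℝ => s / η) (𝓝[>] 0) (𝓝[>] 0) := by
    rw [tendsto_nhdsWithin_iff]
    constructor
    · have : Tendsto (fun s : ℝ => s / η) (𝓝 0) (𝓝 (0 / η)) :=
        (continuous_id.div_const η).tendsto 0
      rw [zero_div] at this
      exact this.mono_left nhdsWithin_le_nhds
    · filter_upwards [self_mem_nhdsWithin] with s hs
      exact div_pos hs hη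
  have hlim : Tendsto (fun s : ℝ => C * ∫⁻ z in Metric.closedBall x0 (s / η),
      k (dist x0 z) ∂(γ : Measure (E n))) (𝓝[>] 0) (𝓝 0) := by
    have h1 := (ThinAux.mass hk γ hUT).comp hscale
    have h2 := ENNReal.Tendsto.const_mul h1 (Or.inr hCT) (a := C)
    rw [mul_zero] at h2
    exact h2
  refine tendsto_of_tendsto_of_tendsto_of_le_of_le' tendsto_const_nhds hlim
    (Eventually.of_forall fun _ => zero_le) ?_
  filter_upwards [self_mem_nhdsWithin] with s hs
  have hs0 : 0 < s := hs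
  have hR : 0 < s / η := div_pos hs0 hη
  have hsR : η * (s / η) = s := by field_simp
  have h1 := ThinAux.main hk hP γ hv hw2 hF hFv hη hη1 hη2.le hR
  rw [hsR] at h1
  have h2 : k s ≤ ENNReal.ofReal (η ^ (-P)) * k (s / η) := by
    have := hk.scal η (s / η) hη hη1.le hR
    rwa [hsR] at this
  have h3 : (γ : Measure (E n)) (Metric.closedBall x0 (s / η)) * k (s / η) ≤
      ∫⁻ z in Metric.closedBall x0 (s / η), k (dist x0 z) ∂(γ : Measure (E n)) := by
    calc (γ : Measure (E n)) (Metric.closedBall x0 (s / η)) * k (s / η)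
        = ∫⁻ _ in Metric.closedBall x0 (s / η), k (s / η) ∂(γ : Measure (E n)) := by
          rw [lintegral_const, Measure.restrict_apply_univ, mul_comm]
      _ ≤ _ := by
          apply setLIntegral_mono' Metric.isClosed_closedBall.measurableSet
          intro z hz
          apply hk.anti
          rw [dist_comm]
          exact hz
  calc (VV k (F ∩ Metric.closedBall x0 s))⁻¹ * k s
      ≤ (ENNReal.ofReal ((2 : ℝ) ^ P) * (γ : Measure (E n)) (Metric.closedBall x0 (s / η))
          / (v - w)) * (ENNReal.ofReal (η ^ (-P)) * k (s / η)) := mul_le_mul' h1 h2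
    _ = C * ((γ : Measure (E n)) (Metric.closedBall x0 (s / η)) * k (s / η)) := by
        simp only [hC, div_eq_mul_inv]
        ring
    _ ≤ _ := by gcongr

end R970.RC
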