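import Pool.Agent.R970.RC.LA
import Pool.Agent.R970.RC.LB
import Pool.Agent.R970.RC.THIN
import Pool.Agent.R970.RC.V1
import Pool.Agent.R970.RC.V2

/-! # RC-LC : De Giorgi iteration -/

open MeasureTheory Set Filter Topology
open scoped ENNReal

namespace R970.RC

variable {n : ℕ}

theorem LC_measurable_Pot {k : ℝ → ℝ≥0∞} (hk : Measurable k) (γ : Measure (E n)) [SFinite γ] :
    Measurable (Pot k γ) := by
  unfold Pot
  exact Measurable.lintegral_prod_right' (f := fun p : E n × E n => k (dist p.1 p.2))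
    (hk.comp measurable_dist)

theorem LC_measurableSet_FF {k : ℝ → ℝ≥0∞} (hk : Measurable k) (L : ℝ) (v : ℝ≥0∞)
    (γ : ProbabilityMeasure (E n)) : MeasurableSet (FF k L v γ) :=
  (Metric.isClosed_closedBall.measurableSet).inter
    (measurableSet_le measurable_const (LC_measurable_Pot hk _))

theorem LC_mass {k : ℝ → ℝ≥0∞} (hk : Measurable k) {G B : Set (E n)} (hB : MeasurableSet B)
    (ρ : ProbabilityMeasure (E n)) (hρ : (ρ : Measure (E n)) Gᶜ = 0) {τ V m : ℝ}
    (h0 : 0 < τ) (h1 : τ ≤ 1 / 2) (hV : VV k G = ENNReal.ofReal V) (hV0 : 0 < V)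
    (hτ : En k (ρ : Measure (E n)) ρ ≤ ENNReal.ofReal V + ENNReal.ofReal (τ ^ 2))
    (hm0 : 0 < m) (hm : ENNReal.ofReal (1 / m) ≤ VV k (G ∩ B))
    (hτm : τ * (1 + V) ≤ m * V ^ 2) :
    (ρ : Measure (E n)) B ≤ ENNReal.ofReal (2 * m * V) := by
  have h := VV_mass hk hB (by rw [hV]; exact ENNReal.ofReal_ne_top) ρ hρ h0 h1
    (by rw [hV]; exact hτ)
  rw [hV] at h
  obtain ⟨b, hb0, hbB⟩ : ∃ b : ℝ, 0 ≤ b ∧ (ρ : Measure (E n)) B = ENNReal.ofReal b :=
    ⟨_, ENNReal.toReal_nonneg, (ENNReal.ofReal_toReal (measure_ne_top _ _)).symm⟩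
  rw [hbB] at h ⊢
  have h2 : ENNReal.ofReal (b ^ 2 * (1 / m)) ≤ ENNReal.ofReal (V * b + τ * (1 + V)) := by
    calc ENNReal.ofReal (b ^ 2 * (1 / m))
        = (ENNReal.ofReal b) ^ 2 * ENNReal.ofReal (1 / m) := by
          rw [ENNReal.ofReal_mul (by positivity), ENNReal.ofReal_pow hb0]
      _ ≤ (ENNReal.ofReal b) ^ 2 * VV k (G ∩ B) := by gcongr
      _ ≤ _ := h
      _ = ENNReal.ofReal (V * b + τ * (1 + V)) := by
          rw [ENNReal.ofReal_add (by positivity) (by positivity), ENNReal.ofReal_mul hV0.le,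
            ENNReal.ofReal_mul h0.le, ENNReal.ofReal_add zero_le_one hV0.le, ENNReal.ofReal_one]
  rw [ENNReal.ofReal_le_ofReal_iff (by positivity)] at h2
  apply ENNReal.ofReal_le_ofReal
  by_contra hcon
  push Not at hcon
  have h3 : b ^ 2 ≤ m * (V * b + τ * (1 + V)) := by
    rw [mul_one_div, div_le_iff₀ hm0] at h2
    linarith
  have hmV : 0 < m * V := by positivity
  have h4 : b ^ 2 ≤ m * V * b + (m * V) ^ 2 := by
    have : m * (τ * (1 + V)) ≤ m * (m * V ^ 2) := by gcongr
    nlinarith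
  nlinarith

theorem LC_decomp (ρ : Measure (E n)) (f : E n → ℝ≥0∞) (D : ℕ → Set (E n)) (S : Set (E n))
    (j : ℕ) :
    ∫⁻ z in S, f z ∂ρ ≤ ∫⁻ z in S \ D 0, f z ∂ρ
      + ∑ i ∈ Finset.range j, ∫⁻ z in D i \ D (i + 1), f z ∂ρ + ∫⁻ z in D j, f z ∂ρ := by
  induction j with
  | zero =>
    simp only [Finset.range_zero, Finset.sum_empty, add_zero]
    calc ∫⁻ z in S, f z ∂ρ ≤ ∫⁻ z in (S \ D 0) ∪ D 0, f z ∂ρ :=
          lintegral_mono_set (by rw [sdiff_union_self]; exact subset_union_left)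
      _ ≤ _ := lintegral_union_le _ _ _
  | succ j ih =>
    refine ih.trans ?_
    rw [Finset.sum_range_succ]
    have h : ∫⁻ z in D j, f z ∂ρ
        ≤ ∫⁻ z in D j \ D (j + 1), f z ∂ρ + ∫⁻ z in D (j + 1), f z ∂ρ := by
      calc ∫⁻ z in D j, f z ∂ρ ≤ ∫⁻ z in (D j \ D (j + 1)) ∪ D (j + 1), f z ∂ρ :=
            lintegral_mono_set (by rw [sdiff_union_self]; exact subset_union_left)
        _ ≤ _ := lintegral_union_le _ _ _
    calc _ ≤ ∫⁻ z in S \ D 0, f z ∂ρ
          + ∑ i ∈ Finset.range j, ∫⁻ z in D i \ D (i + 1), f z ∂ρ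
          + (∫⁻ z in D j \ D (j + 1), f z ∂ρ + ∫⁻ z in D (j + 1), f z ∂ρ) := by gcongr
      _ = _ := by ring

theorem LC_setle (ρ : Measure (E n)) (f : E n → ℝ≥0∞) {S T : Set (E n)} (hS : MeasurableSet S)
    (hST : S ⊆ T) (c : ℝ≥0∞) (h : ∀ z ∈ S, f z ≤ c) :
    ∫⁻ z in S, f z ∂ρ ≤ c * ρ T := by
  calc ∫⁻ z in S, f z ∂ρ ≤ ∫⁻ _ in S, c ∂ρ := setLIntegral_mono' hS h
    _ = c * ρ S := setLIntegral_const _ _
    _ ≤ c * ρ T := by gcongr

theorem LC_rpow (P : ℝ) (i : ℕ) :
    ((1 / 2 : ℝ) ^ i) ^ (-P) = ((2 : ℝ) ^ P) ^ i := by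
  rw [← Real.rpow_natCast (1 / 2 : ℝ) i, ← Real.rpow_mul (by norm_num),
    ← Real.rpow_natCast ((2 : ℝ) ^ P) i, ← Real.rpow_mul (by norm_num), one_div,
    Real.inv_rpow (by norm_num), ← Real.rpow_neg (by norm_num)]
  congr 1
  ring

theorem LC_near {k : ℝ → ℝ≥0∞} {P : ℝ} (hk : IsKer k P) {x0 : E n} {r R : ℝ}
    (hr : 0 < r) (ρ : Measure (E n)) (j : ℕ) (s : ℕ → ℝ)
    (hs : ∀ i, s i = r / 2 + (1 / 2) ^ (i + 1) * r) (a : ℝ) (ha : 0 ≤ a)
    (hρj : ρ (Metric.closedBall x0 (s j)) = 0)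
    (hR : ρ (Metric.closedBall x0 R) ≤ ENNReal.ofReal a)
    (hi : ∀ i < j, ρ (Metric.closedBall x0 (s i))
      ≤ ENNReal.ofReal (a * (1 / (2 * (2 : ℝ) ^ P)) ^ i))
    {y : E n} (hy : y ∈ Metric.closedBall x0 (s (j + 1))) :
    ∫⁻ z in Metric.closedBall x0 R, k (dist y z) ∂ρ
      ≤ ENNReal.ofReal (a * (((2 : ℝ) ^ P) ^ 2 + 2 * ((2 : ℝ) ^ P) ^ 3)) * k r := by
  set w : ℝ := (2 : ℝ) ^ P with hw
  have hw0 : 0 < w := by positivity
  have hsm : ∀ i, 0 ≤ s i - s (i + 1) := by
    intro i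
    rw [hs, hs]
    have : ((1 : ℝ) / 2) ^ (i + 1 + 1) = (1 / 2) ^ (i + 1) * (1 / 2) := pow_succ _ _
    rw [this]
    have : 0 < ((1 : ℝ) / 2) ^ (i + 1) := by positivity
    nlinarith
  have hanti : Antitone s := antitone_nat_of_succ_le fun i => by linarith [hsm i]
  have hyd : dist y x0 ≤ s (j + 1) := hy
  -- kernel bound
  have hker : ∀ i, ∀ z : E n, (1 / 2) ^ i * r ≤ dist y z →
      k (dist y z) ≤ ENNReal.ofReal (w ^ i) * k r := by
    intro i z hz
    refine (hk.anti hz).trans ?_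
    have := hk.scal ((1 / 2) ^ i) r (by positivity) (pow_le_one₀ (by norm_num) (by norm_num)) hr
    rwa [LC_rpow] at this
  have hdist : ∀ z : E n, ∀ u : ℝ, u < dist z x0 → u - s (j + 1) ≤ dist y z := by
    intro z u hu
    have := dist_triangle_left z x0 y
    linarith
  refine (LC_decomp ρ (fun z => k (dist y z)) (fun i => Metric.closedBall x0 (s i))
    (Metric.closedBall x0 R) j).trans ?_
  have h1 : ∫⁻ z in Metric.closedBall x0 (s j), k (dist y z) ∂ρ = 0 :=
    setLIntegral_measure_zero _ _ hρj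
  have h2 : ∫⁻ z in Metric.closedBall x0 R \ Metric.closedBall x0 (s 0), k (dist y z) ∂ρ
      ≤ ENNReal.ofReal (a * w ^ 2) * k r := by
    calc _ ≤ ENNReal.ofReal (w ^ 2) * k r * ρ (Metric.closedBall x0 R) := by
          refine LC_setle ρ _ (Metric.isClosed_closedBall.measurableSet.diff
            Metric.isClosed_closedBall.measurableSet) sdiff_subset _ fun z hz => ?_
          apply hker
          have hz2 : s 0 < dist z x0 := by
            have := hz.2
            rw [Metric.mem_closedBall, not_le] at this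
            exact this
          have h3 := hdist z _ hz2
          have h4 : s (j + 1) ≤ s 1 := hanti (by omega)
          have h5 := hs 0
          have h6 := hs 1
          norm_num at h5 h6 ⊢
          linarith
      _ ≤ ENNReal.ofReal (w ^ 2) * k r * ENNReal.ofReal a := by gcongr
      _ = _ := by
          rw [mul_right_comm, ← ENNReal.ofReal_mul (by positivity), mul_comm (w ^ 2) a]
  have h3 : ∀ i ∈ Finset.range j,
      ∫⁻ z in Metric.closedBall x0 (s i) \ Metric.closedBall x0 (s (i + 1)), k (dist y z) ∂ρ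
      ≤ ENNReal.ofReal (a * w ^ 3 * (1 / 2) ^ i) * k r := by
    intro i hij
    have hij' : i < j := Finset.mem_range.1 hij
    calc _ ≤ ENNReal.ofReal (w ^ (i + 3)) * k r * ρ (Metric.closedBall x0 (s i)) := by
          refine LC_setle ρ _ (Metric.isClosed_closedBall.measurableSet.diff
            Metric.isClosed_closedBall.measurableSet) sdiff_subset _ fun z hz => ?_
          apply hker
          have hz2 : s (i + 1) < dist z x0 := by
            have := hz.2
            rw [Metric.mem_closedBall, not_le] at this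
            exact this
          have h3 := hdist z _ hz2
          have h4 : s (j + 1) ≤ s (i + 2) := hanti (by omega)
          have h5 := hs (i + 1)
          have h6 := hs (i + 2)
          have h7 : ((1 : ℝ) / 2) ^ (i + 1 + 1) = 2 * (1 / 2) ^ (i + 3) := by
            rw [show i + 3 = i + 1 + 1 + 1 by ring, pow_succ ((1 : ℝ) / 2) (i + 1 + 1)]
            ring
          have h8 : ((1 : ℝ) / 2) ^ (i + 2 + 1) = (1 / 2) ^ (i + 3) := rfl
          rw [h7] at h5
          rw [h8] at h6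
          linarith
      _ ≤ ENNReal.ofReal (w ^ (i + 3)) * k r * ENNReal.ofReal (a * (1 / (2 * w)) ^ i) := by
          gcongr
          exact hi i hij'
      _ = _ := by
          rw [mul_right_comm, ← ENNReal.ofReal_mul (by positivity)]
          congr 2
          rw [pow_add, one_div, mul_inv, mul_pow, inv_pow w, one_div]
          field_simp
  have h4 : ∑ i ∈ Finset.range j,
      ∫⁻ z in Metric.closedBall x0 (s i) \ Metric.closedBall x0 (s (i + 1)), k (dist y z) ∂ρ
      ≤ ENNReal.ofReal (a * (2 * w ^ 3)) * k r := by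
    refine (Finset.sum_le_sum h3).trans ?_
    rw [← Finset.sum_mul, ← ENNReal.ofReal_sum_of_nonneg (fun i _ => by positivity)]
    gcongr
    rw [← Finset.mul_sum]
    have h5 : ∑ i ∈ Finset.range j, ((1 : ℝ) / 2) ^ i ≤ 2 := by
      have := sum_geometric_two_le j
      simpa using this
    have : a * w ^ 3 * ∑ i ∈ Finset.range j, ((1 : ℝ) / 2) ^ i ≤ a * w ^ 3 * 2 := by
      gcongr
    linarith
  calc _ ≤ ENNReal.ofReal (a * w ^ 2) * k r + ENNReal.ofReal (a * (2 * w ^ 3)) * k r + 0 := by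
        rw [h1]
        gcongr
    _ = _ := by
        rw [add_zero, ← add_mul, ← ENNReal.ofReal_add (by positivity) (by positivity)]
        congr 2
        ring

theorem LC_gain {k : ℝ → ℝ≥0∞} (hk : Measurable k) {G B : Set (E n)}
    (ρ σ : ProbabilityMeasure (E n)) (hρ : (ρ : Measure (E n)) Gᶜ = 0)
    (hσ : (σ : Measure (E n)) Bᶜ = 0) {v e δ : ℝ} (hv : 0 < v) (he : 0 < e) (hδ : 0 < δ)
    (hδ1 : δ ≤ 1) (h1 : ENNReal.ofReal v ≤ VV k (G ∪ B))
    (h1' : ENNReal.ofReal v ≤ En k (σ : Measure (E n)) σ)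
    (h2 : En k (ρ : Measure (E n)) ρ ≤ ENNReal.ofReal (v + e))
    (h3 : En k (ρ : Measure (E n)) σ ≤ ENNReal.ofReal ((1 - δ) * v)) :
    ENNReal.ofReal (δ ^ 2 * v ^ 2 / (4 * e)) ≤ En k (σ : Measure (E n)) σ := by
  by_cases hT : En k (σ : Measure (E n)) σ = ⊤
  · rw [hT]; exact le_top
  obtain ⟨s, hs0, hs⟩ : ∃ s : ℝ, 0 ≤ s ∧ En k (σ : Measure (E n)) σ = ENNReal.ofReal s :=
    ⟨_, ENNReal.toReal_nonneg, (ENNReal.ofReal_toReal hT).symm⟩
  rw [hs] at h1' ⊢
  rw [ENNReal.ofReal_le_ofReal_iff hs0] at h1'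
  have hs1 : 0 < s := lt_of_lt_of_le hv h1'
  set t : ℝ := δ * v / (2 * s) with ht
  have ht0 : 0 < t := by positivity
  have ht1 : t ≤ 1 / 2 := by
    rw [ht, div_le_iff₀ (by positivity)]
    nlinarith
  have hts : t * (2 * s) = δ * v := by
    rw [ht]; field_simp
  have hg := VV_gain hk ρ σ hρ hσ ht0.le (by linarith : t ≤ 1)
  rw [hs] at hg
  have h4 : ENNReal.ofReal v ≤ ENNReal.ofReal
      ((1 - t) ^ 2 * (v + e) + 2 * t * (1 - t) * ((1 - δ) * v) + t ^ 2 * s) := by
    have e1 : 0 ≤ (1 - t) ^ 2 * (v + e) := by positivity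
    have e2 : 0 ≤ 2 * t * (1 - t) * ((1 - δ) * v) := by
      have : 0 ≤ 1 - t := by linarith
      have : 0 ≤ 1 - δ := by linarith
      positivity
    have e3 : 0 ≤ 2 * t * (1 - t) := by
      have : 0 ≤ 1 - t := by linarith
      positivity
    calc ENNReal.ofReal v ≤ _ := h1.trans hg
      _ ≤ ENNReal.ofReal ((1 - t) ^ 2) * ENNReal.ofReal (v + e)
          + ENNReal.ofReal (2 * t * (1 - t)) * ENNReal.ofReal ((1 - δ) * v)
          + ENNReal.ofReal (t ^ 2) * ENNReal.ofReal s := by gcongr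
      _ = _ := by
          rw [← ENNReal.ofReal_mul (by positivity), ← ENNReal.ofReal_mul e3,
            ← ENNReal.ofReal_mul (by positivity), ← ENNReal.ofReal_add e1 e2,
            ← ENNReal.ofReal_add (by positivity) (by positivity)]
  rw [ENNReal.ofReal_le_ofReal_iff (by
    have : 0 ≤ 1 - t := by linarith
    have : 0 ≤ 1 - δ := by linarith
    positivity)] at h4
  apply ENNReal.ofReal_le_ofReal
  rw [div_le_iff₀ (by positivity)]
  -- t δ v ≤ e + t² s
  have h5 : t * (δ * v) ≤ e + t ^ 2 * s := by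
    have h6 : (1 - t) ^ 2 * e ≤ e := by
      have : (1 - t) ^ 2 ≤ 1 := by nlinarith
      nlinarith
    have h7 : 0 ≤ t ^ 2 * v := by positivity
    have h8 : t * (δ * v) ≤ 2 * t * (1 - t) * (δ * v) := by
      have h9 : 0 ≤ t * (δ * v) := by positivity
      nlinarith
    nlinarith
  -- t * δ v = 2 t² s
  have h6 : t * (δ * v) = 2 * (t ^ 2 * s) := by rw [← hts]; ring
  have h7 : t ^ 2 * s ≤ e := by linarith
  -- δ² v² = 4 t² s²
  have h8 : δ ^ 2 * v ^ 2 = 4 * (t ^ 2 * s) * s := by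
    have : δ ^ 2 * v ^ 2 = (δ * v) ^ 2 := by ring
    rw [this, ← hts]; ring
  rw [h8]
  nlinarith


/-! ### the main statement -/

theorem loc_zero {k : ℝ → ℝ≥0∞} {P q L : ℝ} {v : ℝ≥0∞} {M K₁ η₀ : ℝ}
    {μ γ : ProbabilityMeasure (E n)} (H : Loc k P q L v M K₁ η₀ μ γ) {x0 : E n}
    (hx0L : x0 ∈ Metric.closedBall (0 : E n) L) (hx0 : Pot k (γ : Measure (E n)) x0 < v) :
    ∃ r : ℝ, 0 < r ∧ VV k (FF k L v γ ∩ Metric.closedBall x0 r) = ⊤ := by
  by_contra hcon
  push Not at hcon
  have hkm : Measurable k := H.hk.cont.measurable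
  have hP := H.hP
  set F := FF k L v γ with hF
  have hFm : MeasurableSet F := LC_measurableSet_FF hkm _ _ _
  have hFX : F ⊆ Metric.closedBall (0 : E n) (L + 1) := fun x hx =>
    Metric.closedBall_subset_closedBall (by linarith) hx.1
  have hγX : (γ : Measure (E n)) (Metric.closedBall (0 : E n) (L + 1))ᶜ = 0 :=
    measure_mono_null (compl_subset_compl.2
      (Metric.closedBall_subset_closedBall (by linarith))) H.γX
  have hFv : ∀ x ∈ F, v ≤ Pot k (γ : Measure (E n)) x := fun x hx => hx.2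
  have hVge : ∀ F' : Set (E n), F' ⊆ F → v ≤ VV k F' := fun F' h =>
    VV_ge_of_cpd hkm H.cpd (h.trans hFX) γ hγX H.vT H.γE (fun x hx => hFv x (h hx))
  obtain ⟨vr, hvr0, hvr⟩ : ∃ vr : ℝ, 0 < vr ∧ v = ENNReal.ofReal vr :=
    ⟨v.toReal, ENNReal.toReal_pos H.v0 H.vT, (ENNReal.ofReal_toReal H.vT).symm⟩
  have hv0' : 0 < v := pos_iff_ne_zero.2 H.v0
  -- the capacity function `m`
  obtain ⟨m, hmdef⟩ : ∃ m : ℝ → ℝ,
      ∀ s, m s = ((VV k (F ∩ Metric.closedBall x0 s))⁻¹).toReal := ⟨_, fun s => rfl⟩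
  have hWpos : ∀ s, VV k (F ∩ Metric.closedBall x0 s) ≠ 0 := fun s =>
    (hv0'.trans_le (hVge _ inter_subset_left)).ne'
  have hm : ∀ s, (VV k (F ∩ Metric.closedBall x0 s))⁻¹ = ENNReal.ofReal (m s) := fun s => by
    rw [hmdef, ENNReal.ofReal_toReal (ENNReal.inv_ne_top.2 (hWpos s))]
  have hm0 : ∀ s, 0 < s → 0 < m s := fun s hs => by
    rw [hmdef]
    exact ENNReal.toReal_pos (ENNReal.inv_ne_zero.2 (hcon s hs))
      (ENNReal.inv_ne_top.2 (hWpos s))
  have hmW : ∀ s, 0 < s → VV k (F ∩ Metric.closedBall x0 s) = ENNReal.ofReal (1 / m s) := by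
    intro s hs
    have := hm s
    rw [one_div, ENNReal.ofReal_inv_of_pos (hm0 s hs), ← hm s, inv_inv]
  have hmono : ∀ s s', s ≤ s' → m s ≤ m s' := by
    intro s s' h
    rw [hmdef, hmdef]
    apply ENNReal.toReal_mono (ENNReal.inv_ne_top.2 (hWpos s'))
    rw [ENNReal.inv_le_inv]
    exact VV_anti k (inter_subset_inter_right _ (Metric.closedBall_subset_closedBall h))
  -- the tools
  obtain ⟨C, s0, hC, hs0, hs01, hopt⟩ := loc_opt H
  obtain ⟨η, δ, R0, e0, hη, hη4, hδ, hδ4, hR0, hR01, he0, hfar⟩ := loc_far H hx0L hx0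
  have hthin := thin H.hk H.hP γ H.v0 H.vT hFm hFv hx0
  set w : ℝ := (2 : ℝ) ^ P with hw
  have hw0 : 0 < w := by positivity
  have hw1 : 1 ≤ w := Real.one_le_rpow (by norm_num) hP.le
  -- constants
  have hk1 : 0 < (k 1).toReal := ENNReal.toReal_pos (H.hk.pos 1).ne' (H.hk.lt_top 1 one_pos).ne
  set Λ : ℝ := 2 * (vr + C) * (w ^ 2 + 2 * w ^ 3) * η ^ (-P) with hΛ
  have hΛ0 : 0 < Λ := by positivity
  set ε : ℝ := min (k 1).toReal (min (e0 / (2 * C)) (δ * vr / Λ)) with hε
  have hε0 : 0 < ε := by positivity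
  have hε1 : ε ≤ (k 1).toReal := min_le_left _ _
  have hε2 : ε ≤ e0 / (2 * C) := (min_le_right _ _).trans (min_le_left _ _)
  have hε3 : ε ≤ δ * vr / Λ := (min_le_right _ _).trans (min_le_right _ _)
  have hPq := H.hPq
  have hqP : 0 < q - P := by linarith
  -- choose R
  have ev1 : ∀ᶠ s : ℝ in 𝓝[>] 0, (VV k (F ∩ Metric.closedBall x0 s))⁻¹ * k s
      < ENNReal.ofReal ε := hthin.eventually_lt_const (by simpa using hε0)
  have ev2 : ∀ᶠ s : ℝ in 𝓝[>] 0, s ^ (q - P) < δ ^ 2 * vr ^ 2 / (8 * C) * (1 / (2 * w)) := by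
    have h1 : Tendsto (fun s : ℝ => s ^ (q - P)) (𝓝[>] 0) (𝓝 ((0 : ℝ) ^ (q - P))) :=
      ((Real.continuousAt_rpow_const 0 (q - P) (Or.inr hqP.le)).tendsto).mono_left
        nhdsWithin_le_nhds
    rw [Real.zero_rpow hqP.ne'] at h1
    exact h1.eventually_lt_const (by positivity)
  have ev3 : ∀ᶠ s : ℝ in 𝓝[>] 0, s < min R0 s0 :=
    (tendsto_id.mono_left nhdsWithin_le_nhds).eventually_lt_const (by positivity)
  obtain ⟨R, ⟨⟨hR1, hR2⟩, hR3⟩, hRpos⟩ :=
    (((ev1.and ev2).and ev3).and self_mem_nhdsWithin).exists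
  have hRpos : 0 < R := hRpos
  have hRR0 : R ≤ R0 := hR3.le.trans (min_le_left _ _)
  have hRs0 : R ≤ s0 := hR3.le.trans (min_le_right _ _)
  have hRle1 : R ≤ 1 := hRR0.trans hR01
  -- real value of the kernel at R
  obtain ⟨κ, hκ1, hκ⟩ : ∃ κ : ℝ, (k 1).toReal ≤ κ ∧ k R = ENNReal.ofReal κ :=
    ⟨(k R).toReal, ENNReal.toReal_mono (H.hk.lt_top R hRpos).ne (H.hk.anti hRle1),
      (ENNReal.ofReal_toReal (H.hk.lt_top R hRpos).ne).symm⟩
  have hκ0 : 0 < κ := hk1.trans_le hκ1
  have hmR0 : 0 < m R := hm0 R hRpos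
  have hmκ : m R * κ < ε := by
    rw [hm R, hκ, ← ENNReal.ofReal_mul hmR0.le] at hR1
    exact (ENNReal.ofReal_lt_ofReal_iff hε0).1 hR1
  have hmR1 : m R ≤ 1 := by
    by_contra hc
    push Not at hc
    nlinarith
  set r : ℝ := η * R with hr
  have hr0 : 0 < r := by positivity
  have hrR : r ≤ R := by nlinarith
  have hkr : k r ≤ ENNReal.ofReal (η ^ (-P) * κ) := by
    have := H.hk.scal η R hη (by linarith) hRpos
    rwa [hκ, ← ENNReal.ofReal_mul (by positivity)] at this
  -- the radii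
  obtain ⟨s, hs⟩ : ∃ s : ℕ → ℝ, ∀ i, s i = r / 2 + (1 / 2) ^ (i + 1) * r := ⟨_, fun i => rfl⟩
  have hspos : ∀ i, r / 2 < s i := fun i => by
    rw [hs]; have : 0 < ((1 : ℝ) / 2) ^ (i + 1) * r := by positivity
    linarith
  have hsle : ∀ i, s i ≤ r := fun i => by
    rw [hs]
    have : ((1 : ℝ) / 2) ^ (i + 1) ≤ 1 / 2 := by
      rw [pow_succ]
      have : ((1 : ℝ) / 2) ^ i ≤ 1 := pow_le_one₀ (by norm_num) (by norm_num)
      linarith
    nlinarith
  have hm2 : 0 < m (r / 2) := hm0 _ (by positivity)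
  set V1 : ℝ := vr + C with hV1
  have hV10 : 0 < V1 := by positivity
  -- choose τ
  have hτex : ∃ τ : ℝ, 0 < τ ∧ τ ≤ 1 / 2 ∧ τ ^ 2 * κ ≤ e0 / 2 ∧
      τ * (1 + V1) ≤ m (r / 2) * vr ^ 2 ∧ τ ^ 2 ≤ C * (r / 2) ^ (q - P) * m (r / 2) := by
    have hB : 0 < C * (r / 2) ^ (q - P) * m (r / 2) := by positivity
    refine ⟨min (1 / 2) (min (e0 / (2 * κ)) (min (m (r / 2) * vr ^ 2 / (1 + V1))
      (C * (r / 2) ^ (q - P) * m (r / 2)))), by positivity, min_le_left _ _, ?_, ?_, ?_⟩
    all_goals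
      set τ := min (1 / 2) (min (e0 / (2 * κ)) (min (m (r / 2) * vr ^ 2 / (1 + V1))
        (C * (r / 2) ^ (q - P) * m (r / 2)))) with hτdef
      have hτ0 : 0 < τ := by positivity
      have t1 : τ ≤ 1 / 2 := min_le_left _ _
      have t2 : τ ≤ e0 / (2 * κ) := (min_le_right _ _).trans (min_le_left _ _)
      have t3 : τ ≤ m (r / 2) * vr ^ 2 / (1 + V1) :=
        (min_le_right _ _).trans ((min_le_right _ _).trans (min_le_left _ _))
      have t4 : τ ≤ C * (r / 2) ^ (q - P) * m (r / 2) :=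
        (min_le_right _ _).trans ((min_le_right _ _).trans (min_le_right _ _))
      have t5 : τ ^ 2 ≤ τ := by nlinarith
    · rw [le_div_iff₀ (by positivity)] at t2
      nlinarith
    · rwa [le_div_iff₀ (by positivity)] at t3
    · exact t5.trans t4
  obtain ⟨τ, hτ0, hτh, hτ1, hτ2, hτ3⟩ := hτex
  -- the claim
  have key : ∀ j, m (s j) ≤ m R * (1 / (2 * w)) ^ j := by
    intro j
    induction j using Nat.strong_induction_on with
    | _ j ih =>
    match j with
    | 0 =>
      simpa using hmono _ _ ((hsle 0).trans hrR)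
    | j + 1 =>
      have ihj := ih j (Nat.lt_succ_self j)
      have hsj0 : 0 < s j := by linarith [hspos j]
      have hsj10 : 0 < s (j + 1) := by linarith [hspos (j + 1)]
      have hmsj0 : 0 < m (s j) := hm0 _ hsj0
      have hmsj : m (s j) ≤ m R := hmono _ _ ((hsle j).trans hrR)
      set e : ℝ := C * (s j) ^ (q - P) * m (s j) with he
      have hepos : 0 < e := by positivity
      have hsjp : (s j) ^ (q - P) ≤ 1 :=
        Real.rpow_le_one hsj0.le ((hsle j).trans (hrR.trans hRle1)) hqP.le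
      have heC : e ≤ C * m R := by
        have : C * (s j) ^ (q - P) * m (s j) ≤ C * 1 * m R := by gcongr
        linarith
      have hτe : τ ^ 2 ≤ e := by
        refine hτ3.trans ?_
        have h1 : (r / 2) ^ (q - P) ≤ (s j) ^ (q - P) :=
          Real.rpow_le_rpow (by positivity) (hspos j).le hqP.le
        have h2 : m (r / 2) ≤ m (s j) := hmono _ _ (hspos j).le
        rw [he]
        gcongr
      set G : Set (E n) := F \ Metric.closedBall x0 (s j) with hG
      have hGF : G ⊆ F := sdiff_subset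
      have hVG1 : VV k G ≤ ENNReal.ofReal (vr + e) := by
        have h1 := hopt x0 (s j) hsj0 ((hsle j).trans (hrR.trans hRs0)) (by
          rw [← hF, hm, ← ENNReal.ofReal_one]
          exact ENNReal.ofReal_le_ofReal (hmsj.trans hmR1))
        rw [← hF, hm, hvr, ← ENNReal.ofReal_mul (by positivity),
          ← ENNReal.ofReal_add hvr0.le (by positivity)] at h1
        exact h1
      obtain ⟨V, hVv, hV⟩ : ∃ V : ℝ, vr ≤ V ∧ VV k G = ENNReal.ofReal V := by
        have hne : VV k G ≠ ⊤ := (hVG1.trans_lt ENNReal.ofReal_lt_top).ne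
        refine ⟨(VV k G).toReal, ?_, (ENNReal.ofReal_toReal hne).symm⟩
        have h1 := hVge G hGF
        rw [hvr] at h1
        exact (ENNReal.ofReal_le_iff_le_toReal hne).1 h1
      have hV0 : 0 < V := hvr0.trans_le hVv
      have hVe : V ≤ vr + e := by
        rw [hV] at hVG1
        exact (ENNReal.ofReal_le_ofReal_iff (by positivity)).1 hVG1
      have hVV1 : V ≤ V1 := by
        have : e ≤ C := by nlinarith
        rw [hV1]; linarith
      -- near optimal measure
      obtain ⟨ρ, hρG, hρE⟩ : ∃ ρ : ProbabilityMeasure (E n), (ρ : Measure (E n)) Gᶜ = 0 ∧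
          En k (ρ : Measure (E n)) ρ ≤ ENNReal.ofReal V + ENNReal.ofReal (τ ^ 2) := by
        have h1 : VV k G < ENNReal.ofReal V + ENNReal.ofReal (τ ^ 2) := by
          rw [hV]
          exact ENNReal.lt_add_right ENNReal.ofReal_ne_top (by
            rw [Ne, ENNReal.ofReal_eq_zero, not_le]; positivity)
        unfold VV at h1
        simp only [iInf_lt_iff] at h1
        obtain ⟨ρ, hρ, h2⟩ := h1
        exact ⟨ρ, hρ, h2.le⟩
      have hρE' : En k (ρ : Measure (E n)) ρ ≤ ENNReal.ofReal (vr + 2 * e) := by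
        refine hρE.trans ?_
        rw [← ENNReal.ofReal_add hV0.le (by positivity)]
        exact ENNReal.ofReal_le_ofReal (by linarith)
      have hρF : (ρ : Measure (E n)) Fᶜ = 0 :=
        measure_mono_null (compl_subset_compl.2 hGF) hρG
      -- masses
      have hmass : ∀ u, r / 2 ≤ u →
          (ρ : Measure (E n)) (Metric.closedBall x0 u) ≤ ENNReal.ofReal (2 * m u * V) := by
        intro u hu
        have hu0 : 0 < u := by linarith
        refine LC_mass hkm Metric.isClosed_closedBall.measurableSet ρ hρG hτ0 hτh hV hV0 hρE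
          (hm0 u hu0) ?_ ?_
        · rw [← hmW u hu0]
          exact VV_anti k (inter_subset_inter_left _ hGF)
        · have h1 : m (r / 2) ≤ m u := hmono _ _ hu
          have h2 : 0 ≤ m u := (hm0 u hu0).le
          calc τ * (1 + V) ≤ τ * (1 + V1) := by gcongr
            _ ≤ m (r / 2) * vr ^ 2 := hτ2
            _ ≤ m u * V ^ 2 := by gcongr
      -- near part
      have hnear : ∀ y ∈ Metric.closedBall x0 (s (j + 1)),
          ∫⁻ z in Metric.closedBall x0 R, k (dist y z) ∂(ρ : Measure (E n))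
            ≤ ENNReal.ofReal (δ * vr) := by
        intro y hy
        have h1 := LC_near H.hk hr0 (ρ : Measure (E n)) j s hs (2 * m R * V) (by positivity)
          (R := R) (measure_mono_null (fun z hz => by
            intro hzG
            exact hzG.2 hz) hρG)
          (hmass R (by linarith)) (fun i hi => by
            refine (hmass (s i) (hspos i).le).trans (ENNReal.ofReal_le_ofReal ?_)
            have h2 := ih i (by omega)
            calc 2 * m (s i) * V ≤ 2 * (m R * (1 / (2 * w)) ^ i) * V := by gcongr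
              _ = 2 * m R * V * (1 / (2 * w)) ^ i := by ring) hy
        refine h1.trans ?_
        calc _ ≤ ENNReal.ofReal (2 * m R * V * (w ^ 2 + 2 * w ^ 3))
              * ENNReal.ofReal (η ^ (-P) * κ) := by gcongr
          _ = ENNReal.ofReal (2 * m R * V * (w ^ 2 + 2 * w ^ 3) * (η ^ (-P) * κ)) := by
              rw [← ENNReal.ofReal_mul (by positivity)]
          _ ≤ ENNReal.ofReal (δ * vr) := by
              apply ENNReal.ofReal_le_ofReal
              calc 2 * m R * V * (w ^ 2 + 2 * w ^ 3) * (η ^ (-P) * κ)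
                  ≤ 2 * m R * V1 * (w ^ 2 + 2 * w ^ 3) * (η ^ (-P) * κ) := by gcongr
                _ = Λ * (m R * κ) := by rw [hΛ]; ring
                _ ≤ Λ * (δ * vr / Λ) := by
                    gcongr
                    exact hmκ.le.trans hε3
                _ = δ * vr := by field_simp
      -- potential bound
      have hpot : ∀ y ∈ Metric.closedBall x0 (s (j + 1)),
          Pot k (ρ : Measure (E n)) y ≤ ENNReal.ofReal ((1 - δ) * vr) := by
        intro y hy
        have hyr : y ∈ Metric.closedBall x0 (η * R) :=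
          Metric.closedBall_subset_closedBall (hsle (j + 1)) hy
        have h1 := hfar R hRpos hRR0 ρ hρF (ENNReal.ofReal (2 * e)) (by
          rw [hvr, ← ENNReal.ofReal_add hvr0.le (by positivity)]
          exact hρE') (by
          rw [hκ, ← ENNReal.ofReal_mul (by positivity)]
          apply ENNReal.ofReal_le_ofReal
          calc 2 * e * κ ≤ 2 * (C * m R) * κ := by gcongr
            _ = 2 * C * (m R * κ) := by ring
            _ ≤ 2 * C * (e0 / (2 * C)) := by
                gcongr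
                exact hmκ.le.trans hε2
            _ = e0 := by field_simp) y hyr
        rw [hvr, ← ENNReal.ofReal_mul (by linarith)] at h1
        unfold Pot
        rw [← lintegral_add_compl (fun z => k (dist y z))
          (Metric.isClosed_closedBall.measurableSet : MeasurableSet (Metric.closedBall x0 R))]
        calc _ ≤ ENNReal.ofReal (δ * vr) + ENNReal.ofReal ((1 - 2 * δ) * vr) :=
              add_le_add (hnear y hy) h1
          _ = _ := by
              rw [← ENNReal.ofReal_add (by positivity) (by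
                have : 0 ≤ 1 - 2 * δ := by linarith
                positivity)]
              congr 1
              ring
      -- conclusion
      have hfin : ENNReal.ofReal (δ ^ 2 * vr ^ 2 / (4 * (2 * e)))
          ≤ VV k (F ∩ Metric.closedBall x0 (s (j + 1))) := by
        refine le_iInf₂ fun σ hσ => ?_
        have hσF : (σ : Measure (E n)) Fᶜ = 0 :=
          measure_mono_null (compl_subset_compl.2 inter_subset_left) hσ
        refine LC_gain hkm ρ σ hρG hσ hvr0 (by positivity) hδ (by linarith) ?_ ?_ hρE' ?_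
        · rw [← hvr]
          exact hVge _ (union_subset hGF inter_subset_left)
        · rw [← hvr]
          refine (hVge (F ∩ Metric.closedBall x0 (s (j + 1))) inter_subset_left).trans ?_
          exact iInf₂_le σ hσ
        · rw [En_symm hkm]
          have hae : ∀ᵐ y ∂(σ : Measure (E n)), y ∈ Metric.closedBall x0 (s (j + 1)) := by
            rw [ae_iff]
            refine measure_mono_null ?_ hσ
            intro y hy hy2
            exact hy hy2.2
          calc En k (σ : Measure (E n)) ρ = ∫⁻ y, Pot k (ρ : Measure (E n)) y ∂(σ : Measure (E n)) :=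
                rfl
            _ ≤ ∫⁻ _, ENNReal.ofReal ((1 - δ) * vr) ∂(σ : Measure (E n)) :=
                lintegral_mono_ae (hae.mono hpot)
            _ = ENNReal.ofReal ((1 - δ) * vr) := by simp
      rw [hmW _ hsj10, ENNReal.ofReal_le_ofReal_iff (by
        have := hm0 _ hsj10
        positivity)] at hfin
      have hmj1 : 0 < m (s (j + 1)) := hm0 _ hsj10
      have h2 : m (s (j + 1)) * (δ ^ 2 * vr ^ 2) ≤ 8 * e := by
        rw [div_le_div_iff₀ (by positivity) hmj1] at hfin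
        linarith
      have h3 : (s j) ^ (q - P) ≤ R ^ (q - P) :=
        Real.rpow_le_rpow hsj0.le ((hsle j).trans hrR) hqP.le
      have h4 : 8 * e ≤ δ ^ 2 * vr ^ 2 * (m (s j) * (1 / (2 * w))) := by
        have h5 : (s j) ^ (q - P) ≤ δ ^ 2 * vr ^ 2 / (8 * C) * (1 / (2 * w)) := h3.trans hR2.le
        calc 8 * e = 8 * C * m (s j) * (s j) ^ (q - P) := by rw [he]; ring
          _ ≤ 8 * C * m (s j) * (δ ^ 2 * vr ^ 2 / (8 * C) * (1 / (2 * w))) := by gcongr
          _ = _ := by field_simp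
      have h6 : m (s (j + 1)) ≤ m (s j) * (1 / (2 * w)) := by
        have hpos : 0 < δ ^ 2 * vr ^ 2 := by positivity
        have : m (s (j + 1)) * (δ ^ 2 * vr ^ 2) ≤ (m (s j) * (1 / (2 * w))) * (δ ^ 2 * vr ^ 2) := by
          linarith
        exact le_of_mul_le_mul_right this hpos
      calc m (s (j + 1)) ≤ m (s j) * (1 / (2 * w)) := h6
        _ ≤ m R * (1 / (2 * w)) ^ j * (1 / (2 * w)) := by gcongr
        _ = m R * (1 / (2 * w)) ^ (j + 1) := by rw [pow_succ]; ring
  -- contradiction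
  have hlim : Tendsto (fun j : ℕ => m R * (1 / (2 * w)) ^ j) atTop (𝓝 (m R * 0)) :=
    (tendsto_pow_atTop_nhds_zero_of_lt_one (by positivity) (by
      rw [div_lt_one (by positivity)]; linarith)).const_mul _
  rw [mul_zero] at hlim
  have : m (r / 2) ≤ 0 := ge_of_tendsto' hlim fun j =>
    (hmono _ _ (hspos j).le).trans (key j)
  linarith

end R970.RC
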