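import Pool.Agent.R970.RC.Defs

/-! Project RC (MP_ce24da_an), piece RC-K: the kernels. -/

set_option autoImplicit false

open MeasureTheory Set Filter Topology
open scoped ENNReal NNReal

namespace R970.RC

theorem isKer_kR {s : ℝ} (hs : 0 < s) : IsKer (kR s) s where
  cont := (ENNReal.continuous_rpow_const).comp ENNReal.continuous_ofReal
  anti := by
    intro r r' h
    unfold kR
    rw [ENNReal.rpow_neg, ENNReal.rpow_neg]
    exact ENNReal.inv_le_inv.2 (ENNReal.rpow_le_rpow (ENNReal.ofReal_le_ofReal h) hs.le)
  zero := by
    unfold kR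
    rw [ENNReal.ofReal_zero, ENNReal.zero_rpow_of_neg (by linarith)]
  lt_top := by
    intro r hr
    unfold kR
    rw [ENNReal.ofReal_rpow_of_pos hr]
    exact ENNReal.ofReal_lt_top
  pos := by
    intro r
    unfold kR
    rcases lt_or_ge 0 r with hr | hr
    · rw [ENNReal.ofReal_rpow_of_pos hr]
      exact ENNReal.ofReal_pos.2 (Real.rpow_pos_of_pos hr _)
    · rw [ENNReal.ofReal_of_nonpos hr, ENNReal.zero_rpow_of_neg (by linarith)]
      exact ENNReal.zero_lt_top
  scal := by
    intro t r ht _ hr
    unfold kR
    rw [ENNReal.ofReal_rpow_of_pos (mul_pos ht hr), ENNReal.ofReal_rpow_of_pos hr,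
      Real.mul_rpow ht.le hr.le, ENNReal.ofReal_mul (Real.rpow_nonneg ht.le _)]

theorem isKer_kL {c b : ℝ} (hc : 0 < c) (hb : 0 < b) : IsKer (kL c b) (1 / b) where
  cont := by
    rw [continuous_iff_continuousAt]
    intro r
    rcases lt_trichotomy r 0 with hr | hr | hr
    · have h : kL c b =ᶠ[𝓝 r] fun _ => ⊤ := by
        filter_upwards [Iio_mem_nhds hr] with x hx
        unfold kL
        rw [if_pos (le_of_lt hx)]
      exact continuousAt_const.congr h.symm
    · subst hr
      unfold ContinuousAt
      have h0 : kL c b 0 = ⊤ := by simp [kL]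
      rw [h0, ENNReal.tendsto_nhds_top_iff_nnreal]
      intro x
      filter_upwards [Iio_mem_nhds (show (0 : ℝ) < c * Real.exp (-(x + 1)) by positivity)] with y hy
      unfold kL
      split_ifs with h1
      · exact ENNReal.coe_lt_top
      · push Not at h1
        have h2 : (x : ℝ) < Real.log (c / y) := by
          rw [Real.lt_log_iff_exp_lt (by positivity), lt_div_iff₀ h1]
          have h3 : y < c * Real.exp (-(x + 1)) := hy
          calc Real.exp x * y < Real.exp x * (c * Real.exp (-(x + 1))) :=
                mul_lt_mul_of_pos_left h3 (Real.exp_pos _)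
            _ = c * Real.exp (-1) := by
                rw [show Real.exp x * (c * Real.exp (-(x + 1))) =
                  c * (Real.exp x * Real.exp (-(x + 1))) by ring, ← Real.exp_add]
                congr 2
                ring
            _ ≤ c := by
                have : Real.exp (-1) ≤ 1 := Real.exp_le_one_iff.2 (by norm_num)
                nlinarith
        rw [ENNReal.lt_ofReal_iff_toReal_lt ENNReal.coe_ne_top]
        exact lt_max_of_lt_left h2
    · have h : kL c b =ᶠ[𝓝 r] fun x => ENNReal.ofReal (max (Real.log (c / x)) b) := by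
        filter_upwards [Ioi_mem_nhds hr] with x hx
        unfold kL
        rw [if_neg (not_le.2 hx)]
      refine ContinuousAt.congr ?_ h.symm
      have h1 : ContinuousAt (fun x : ℝ => Real.log (c / x)) r := by
        apply ContinuousAt.log
        · exact continuousAt_const.div continuousAt_id hr.ne'
        · exact (div_pos hc hr).ne'
      have h2 : ContinuousAt (fun x : ℝ => max (Real.log (c / x)) b) r :=
        Filter.Tendsto.max h1 tendsto_const_nhds
      exact ENNReal.continuous_ofReal.continuousAt.comp h2
  anti := by
    intro r r' h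
    unfold kL
    split_ifs with h1 h2 h2
    · exact le_rfl
    · exact absurd (h.trans h1) h2
    · exact le_top
    · push Not at h1 h2
      apply ENNReal.ofReal_le_ofReal
      apply max_le_max _ le_rfl
      apply Real.log_le_log (div_pos hc h1)
      exact div_le_div_of_nonneg_left hc.le h2 h
  zero := by simp [kL]
  lt_top := by
    intro r hr
    unfold kL
    rw [if_neg (not_le.2 hr)]
    exact ENNReal.ofReal_lt_top
  pos := by
    intro r
    unfold kL
    split_ifs with h1
    · exact ENNReal.zero_lt_top
    · exact ENNReal.ofReal_pos.2 (lt_max_of_lt_right hb)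
  scal := by
    intro t r ht ht1 hr
    unfold kL
    rw [if_neg (not_le.2 (mul_pos ht hr)), if_neg (not_le.2 hr),
      ← ENNReal.ofReal_mul (Real.rpow_nonneg ht.le _)]
    apply ENNReal.ofReal_le_ofReal
    set m := max (Real.log (c / r)) b with hm
    have hmb : b ≤ m := le_max_right _ _
    have hml : Real.log (c / r) ≤ m := le_max_left _ _
    have hL : 0 ≤ -Real.log t := by
      have := Real.log_nonpos ht.le ht1
      linarith
    have e1 : Real.log (c / (t * r)) = Real.log (c / r) - Real.log t := by
      rw [Real.log_div hc.ne' (mul_pos ht hr).ne', Real.log_mul ht.ne' hr.ne',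
        Real.log_div hc.ne' hr.ne']
      ring
    have e2 : 1 + (-Real.log t) / b ≤ t ^ (-(1 / b)) := by
      rw [Real.rpow_def_of_pos ht]
      have h := Real.add_one_le_exp ((-Real.log t) / b)
      have e3 : Real.log t * -(1 / b) = (-Real.log t) / b := by field_simp
      rw [e3]
      linarith
    have h3 : m + (-Real.log t) ≤ t ^ (-(1 / b)) * m := by
      have hm0 : 0 < m := hb.trans_le hmb
      have h4 : -Real.log t ≤ (-Real.log t) / b * m := by
        rw [div_mul_eq_mul_div, le_div_iff₀ hb]
        exact mul_le_mul_of_nonneg_left hmb hL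
      have h5 : (1 + (-Real.log t) / b) * m ≤ t ^ (-(1 / b)) * m :=
        mul_le_mul_of_nonneg_right e2 hm0.le
      linarith
    apply max_le
    · rw [e1]; linarith
    · linarith

end R970.RC
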