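import Pool.Agent.R970.RC.Defs

/-!
# Project RC, piece LSC: weak limits
-/

set_option autoImplicit false

open MeasureTheory Set Filter Topology
open scoped ENNReal NNReal BoundedContinuousFunction

namespace R970.RC

variable {n : ℕ}

namespace LSCAux

/-- truncation of a continuous `ℝ≥0∞` valued function -/
noncomputable def trunc {Ω : Type} [TopologicalSpace Ω] (f : Ω → ℝ≥0∞) (hf : Continuous f)
    (N : ℕ) : Ω →ᵇ ℝ≥0 :=
  BoundedContinuousFunction.mkOfBound
    ⟨fun x => (min (f x) (N : ℝ≥0∞)).toNNReal,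
      ENNReal.continuousOn_toNNReal.comp_continuous (hf.min continuous_const)
        (fun _ => ((min_le_right _ _).trans_lt (ENNReal.natCast_lt_top N)).ne)⟩ N (by
    intro x y
    have h : ∀ x, ((min (f x) (N : ℝ≥0∞)).toNNReal : ℝ) ≤ N := by
      intro x
      have h1 : (min (f x) (N : ℝ≥0∞)).toNNReal ≤ ((N : ℝ≥0∞)).toNNReal :=
        ENNReal.toNNReal_mono (ENNReal.natCast_ne_top N) (min_le_right _ _)
      rw [ENNReal.toNNReal_natCast] at h1
      exact_mod_cast h1
    have h0 : ∀ x, (0 : ℝ) ≤ ((min (f x) (N : ℝ≥0∞)).toNNReal : ℝ) := fun x => NNReal.coe_nonneg _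
    show dist (min (f x) (N : ℝ≥0∞)).toNNReal (min (f y) (N : ℝ≥0∞)).toNNReal ≤ N
    rw [NNReal.dist_eq, abs_le]
    constructor <;> linarith [h x, h y, h0 x, h0 y])

theorem trunc_coe {Ω : Type} [TopologicalSpace Ω] (f : Ω → ℝ≥0∞) (hf : Continuous f)
    (N : ℕ) (x : Ω) : ((trunc f hf N x : ℝ≥0) : ℝ≥0∞) = min (f x) (N : ℝ≥0∞) :=
  ENNReal.coe_toNNReal ((min_le_right _ _).trans_lt (ENNReal.natCast_lt_top N)).ne

theorem iSup_min (a : ℝ≥0∞) : ⨆ N : ℕ, min a (N : ℝ≥0∞) = a := by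
  apply le_antisymm (iSup_le fun N => min_le_left _ _)
  rcases eq_or_ne a ⊤ with h | h
  · subst h
    simp only [min_eq_right le_top]
    rw [ENNReal.iSup_natCast]
  · obtain ⟨N, hN⟩ := ENNReal.exists_nat_gt h
    exact le_iSup_of_le N (by rw [min_eq_left hN.le])

/-- lower semicontinuity of the integral of a continuous function under weak convergence -/
theorem lint_le_liminf {Ω : Type} [TopologicalSpace Ω] [MeasurableSpace Ω]
    [OpensMeasurableSpace Ω] {f : Ω → ℝ≥0∞} (hf : Continuous f)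
    {μs : ℕ → ProbabilityMeasure Ω} {μ : ProbabilityMeasure Ω} (h : Tendsto μs atTop (𝓝 μ)) :
    ∫⁻ x, f x ∂(μ : Measure Ω) ≤ liminf (fun i => ∫⁻ x, f x ∂(μs i : Measure Ω)) atTop := by
  have h1 : ∫⁻ x, f x ∂(μ : Measure Ω) = ⨆ N : ℕ, ∫⁻ x, min (f x) (N : ℝ≥0∞) ∂(μ : Measure Ω) := by
    rw [← lintegral_iSup]
    · simp only [iSup_min]
    · intro N
      exact hf.measurable.min measurable_const
    · intro N M hNM x
      exact min_le_min_left _ (Nat.cast_le.2 hNM)
  rw [h1]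
  refine iSup_le fun N => ?_
  have h2 := (ProbabilityMeasure.tendsto_iff_forall_lintegral_tendsto.1 h) (trunc f hf N)
  simp only [trunc_coe] at h2
  rw [← h2.liminf_eq]
  refine liminf_le_liminf (Eventually.of_forall fun i => lintegral_mono fun x => min_le_left _ _)

end LSCAux

open LSCAux

theorem exists_subseq (ρs : ℕ → ProbabilityMeasure (E n)) {L : ℝ}
    (h : ∀ i, (ρs i : Measure (E n)) (Metric.closedBall 0 L)ᶜ = 0) :
    ∃ ρ : ProbabilityMeasure (E n), (ρ : Measure (E n)) (Metric.closedBall 0 L)ᶜ = 0 ∧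
      ∃ φ : ℕ → ℕ, StrictMono φ ∧ Tendsto (ρs ∘ φ) atTop (𝓝 ρ) := by
  have htight : IsTightMeasureSet
      {((μ : ProbabilityMeasure (E n)) : Measure (E n)) | μ ∈ range ρs} := by
    rw [isTightMeasureSet_iff_exists_isCompact_measure_compl_le]
    intro ε hε
    refine ⟨Metric.closedBall 0 L, isCompact_closedBall 0 L, ?_⟩
    rintro _ ⟨μ, ⟨i, rfl⟩, rfl⟩
    rw [h i]
    exact zero_le
  have hcomp := isCompact_closure_of_isTightMeasureSet htight
  obtain ⟨ρ, _, φ, hφ, hlim⟩ := hcomp.isSeqCompact (x := ρs)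
    (fun i => subset_closure (mem_range_self i))
  refine ⟨ρ, ?_, φ, hφ, hlim⟩
  have h1 := ProbabilityMeasure.le_liminf_measure_open_of_tendsto hlim
    (G := (Metric.closedBall (0 : E n) L)ᶜ) Metric.isClosed_closedBall.isOpen_compl
  have h2 : ∀ i, ((ρs ∘ φ) i : Measure (E n)) (Metric.closedBall 0 L)ᶜ = 0 := fun i => h (φ i)
  simp only [h2] at h1
  rw [liminf_const] at h1
  exact le_antisymm h1 zero_le

theorem En_le_liminf {k : ℝ → ℝ≥0∞} (hk : Continuous k) {ρs σs : ℕ → ProbabilityMeasure (E n)}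
    {ρ σ : ProbabilityMeasure (E n)} (h1 : Tendsto ρs atTop (𝓝 ρ)) (h2 : Tendsto σs atTop (𝓝 σ)) :
    En k (ρ : Measure (E n)) σ ≤ liminf (fun i => En k (ρs i : Measure (E n)) (σs i)) atTop := by
  have hc : Continuous fun p : E n × E n => k (dist p.1 p.2) := hk.comp continuous_dist
  have hprod : ∀ μ ν : ProbabilityMeasure (E n), En k (μ : Measure (E n)) ν =
      ∫⁻ p, k (dist p.1 p.2) ∂((μ.prod ν : ProbabilityMeasure (E n × E n)) :
        Measure (E n × E n)) := by
    intro μ ν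
    rw [ProbabilityMeasure.toMeasure_prod, lintegral_prod _ hc.measurable.aemeasurable]
    rfl
  simp only [hprod]
  have h3 : Tendsto (fun i => (ρs i).prod (σs i)) atTop (𝓝 (ρ.prod σ)) :=
    (ProbabilityMeasure.continuous_prod.tendsto (ρ, σ)).comp (h1.prodMk_nhds h2)
  exact lint_le_liminf hc h3

theorem Pot_le_liminf {k : ℝ → ℝ≥0∞} (hk : Continuous k) {ρs : ℕ → ProbabilityMeasure (E n)}
    {ρ : ProbabilityMeasure (E n)} (h1 : Tendsto ρs atTop (𝓝 ρ)) (x : E n) :
    Pot k (ρ : Measure (E n)) x ≤ liminf (fun i => Pot k (ρs i : Measure (E n)) x) atTop :=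
  lint_le_liminf (hk.comp (continuous_const.dist continuous_id)) h1

theorem Pot_lsc {k : ℝ → ℝ≥0∞} (hk : Continuous k) (ρ : Measure (E n)) [IsFiniteMeasure ρ] :
    LowerSemicontinuous (Pot k ρ) := by
  intro x y hy
  by_contra hcon
  have hfr : ∃ᶠ x' in 𝓝 x, ¬ y < Pot k ρ x' := Filter.not_eventually.1 hcon
  obtain ⟨xs, hxs, hle⟩ := exists_seq_forall_of_frequently hfr
  have h1 : Pot k ρ x ≤ liminf (fun i => Pot k ρ (xs i)) atTop := by
    have h2 : Pot k ρ x = ∫⁻ z, liminf (fun i => k (dist (xs i) z)) atTop ∂ρ := by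
      refine lintegral_congr fun z => ?_
      have h3 : Tendsto (fun i => k (dist (xs i) z)) atTop (𝓝 (k (dist x z))) :=
        (hk.tendsto _).comp (hxs.dist tendsto_const_nhds)
      exact h3.liminf_eq.symm
    rw [h2]
    exact lintegral_liminf_le fun i => (hk.comp (continuous_const.dist continuous_id)).measurable
  have h4 : liminf (fun i => Pot k ρ (xs i)) atTop ≤ y := by
    refine (liminf_le_liminf (Eventually.of_forall fun i => not_lt.1 (hle i))).trans ?_
    rw [liminf_const]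
  exact absurd hy (not_lt.2 (h1.trans h4))

end R970.RC
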