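import Pool.Agent.R970.RC.K
import Pool.Agent.R970.RC.LSC
import Pool.Agent.R970.RC.V1

/-!
# RC-PC: potentials of densities, convergence of energies
-/

open MeasureTheory Set Filter Topology
open scoped ENNReal NNReal BoundedContinuousFunction

namespace R970.RC

namespace PC

variable {n : ℕ}

lemma kR_pos_eq {q r : ℝ} (hr : 0 < r) : kR q r = ENNReal.ofReal (r ^ (-q)) := by
  rw [kR, ENNReal.ofReal_rpow_of_pos hr]

lemma kR_zero {q : ℝ} (hq : 0 < q) : kR q 0 = ⊤ := by
  rw [kR, ENNReal.ofReal_zero, ENNReal.zero_rpow_of_neg (by linarith)]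

lemma ker_small {k : ℝ → ℝ≥0∞} {P : ℝ} (hk : IsKer k P) {r : ℝ} (hr : 0 < r) (hr1 : r ≤ 1) :
    k r ≤ ENNReal.ofReal (r ^ (-P)) * k 1 := by
  have := hk.scal r 1 hr hr1 one_pos
  rwa [mul_one] at this

lemma ker_le {k : ℝ → ℝ≥0∞} {P q : ℝ} (hk : IsKer k P) (hP : 0 < P) (hPq : P < q) {r : ℝ}
    (hr : 0 ≤ r) : k r ≤ k 1 * kR q r + k 1 := by
  rcases hr.eq_or_lt with h0 | h0
  · rw [← h0, kR_zero (hP.trans hPq), ENNReal.mul_top (hk.pos 1).ne', top_add]
    exact le_top
  · rcases le_or_gt r 1 with h1 | h1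
    · refine (ker_small hk h0 h1).trans ?_
      rw [kR_pos_eq h0, mul_comm]
      refine le_add_right (mul_le_mul_right (ENNReal.ofReal_le_ofReal ?_) _)
      exact Real.rpow_le_rpow_of_exponent_ge h0 h1 (by linarith)
    · exact (hk.anti h1.le).trans le_add_self

lemma trunc {k : ℝ → ℝ≥0∞} {P q : ℝ} (hk : IsKer k P) (hP : 0 < P) (hPq : P < q) {ε : ℝ≥0∞}
    (hε : 0 < ε) : ∃ ρ : ℝ, 0 < ρ ∧ ∀ r, 0 ≤ r → k r ≤ min (k r) (k ρ) + ε * kR q r := by
  have hk1 : k 1 ≠ ⊤ := (hk.lt_top 1 one_pos).ne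
  have ht : Tendsto (fun ρ : ℝ => k 1 * ENNReal.ofReal (ρ ^ (q - P))) (𝓝[>] 0) (𝓝 0) := by
    have h1 : Tendsto (fun ρ : ℝ => ρ ^ (q - P)) (𝓝[>] 0) (𝓝 0) := by
      have h2 : ContinuousAt (fun ρ : ℝ => ρ ^ (q - P)) 0 :=
        Real.continuousAt_rpow_const 0 (q - P) (Or.inr (by linarith))
      have h3 := h2.tendsto
      rw [Real.zero_rpow (by linarith)] at h3
      exact h3.mono_left nhdsWithin_le_nhds
    have h4 := ENNReal.tendsto_ofReal h1
    rw [ENNReal.ofReal_zero] at h4
    have h5 := ENNReal.Tendsto.const_mul (a := k 1) h4 (Or.inr hk1)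
    rwa [mul_zero] at h5
  have h1 : ∀ᶠ ρ : ℝ in 𝓝[>] 0, k 1 * ENNReal.ofReal (ρ ^ (q - P)) < ε :=
    ht.eventually (gt_mem_nhds hε)
  have h2 : ∀ᶠ ρ : ℝ in 𝓝[>] 0, ρ < 1 := nhdsWithin_le_nhds (gt_mem_nhds one_pos)
  have h3 : ∀ᶠ ρ : ℝ in 𝓝[>] 0, 0 < ρ := self_mem_nhdsWithin
  obtain ⟨ρ, h1, h2, h3⟩ := (h1.and (h2.and h3)).exists
  refine ⟨ρ, h3, fun r hr => ?_⟩
  rcases hr.eq_or_lt with h0 | h0
  · rw [← h0, kR_zero (hP.trans hPq), ENNReal.mul_top hε.ne', add_top]
    exact le_top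
  · rcases le_or_gt ρ r with h4 | h4
    · rw [min_eq_left (hk.anti h4)]
      exact le_self_add
    · have h5 := ker_small hk h0 (h4.le.trans h2.le)
      have h6 : r ^ (-P) ≤ ρ ^ (q - P) * r ^ (-q) := by
        rw [show -P = (q - P) + (-q) by ring, Real.rpow_add h0]
        exact mul_le_mul_of_nonneg_right
          (Real.rpow_le_rpow h0.le h4.le (by linarith)) (Real.rpow_nonneg h0.le _)
      refine le_add_left (h5.trans ?_)
      rw [kR_pos_eq h0]
      calc ENNReal.ofReal (r ^ (-P)) * k 1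
          ≤ ENNReal.ofReal (ρ ^ (q - P) * r ^ (-q)) * k 1 :=
            mul_le_mul_left (ENNReal.ofReal_le_ofReal h6) _
        _ = (k 1 * ENNReal.ofReal (ρ ^ (q - P))) * ENNReal.ofReal (r ^ (-q)) := by
            rw [ENNReal.ofReal_mul (Real.rpow_nonneg h3.le _)]; ring
        _ ≤ ε * ENNReal.ofReal (r ^ (-q)) := mul_le_mul_left h1.le _

lemma wd_eq (σ : Measure (E n)) {h F : E n → ℝ≥0∞} (hm : Measurable h) (hF : Measurable F) :
    ∫⁻ y, F y ∂(σ.withDensity h) = ∫⁻ y, h y * F y ∂σ := by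
  rw [lintegral_withDensity_eq_lintegral_mul σ hm hF]
  rfl

lemma wd_le (σ : Measure (E n)) {h F : E n → ℝ≥0∞} (hm : Measurable h) (hF : Measurable F)
    {C : ℝ≥0∞} (hhC : ∀ x, h x ≤ C) :
    ∫⁻ y, F y ∂(σ.withDensity h) ≤ C * ∫⁻ y, F y ∂σ := by
  rw [wd_eq σ hm hF, ← lintegral_const_mul C hF]
  exact lintegral_mono fun y => mul_le_mul_left (hhC y) _

lemma meas_sec {k : ℝ → ℝ≥0∞} (hk : Measurable k) (x : E n) :
    Measurable (fun y : E n => k (dist x y)) :=
  hk.comp (measurable_const.dist measurable_id)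

lemma meas_two {k : ℝ → ℝ≥0∞} (hk : Measurable k) :
    Measurable (fun p : E n × E n => k (dist p.1 p.2)) :=
  hk.comp (measurable_fst.dist measurable_snd)

lemma meas_Pot {k : ℝ → ℝ≥0∞} (hk : Measurable k) (σ : Measure (E n)) [SFinite σ] :
    Measurable (Pot k σ) :=
  (meas_two hk).lintegral_prod_right'

lemma meas_kR (q : ℝ) : Measurable (kR q) := by
  unfold kR
  fun_prop

lemma Pot_wd_le {k : ℝ → ℝ≥0∞} (hk : Measurable k) (σ : Measure (E n)) {h : E n → ℝ≥0∞}
    (hm : Measurable h) {C : ℝ≥0∞} (hhC : ∀ x, h x ≤ C) (x : E n) :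
    Pot k (σ.withDensity h) x ≤ C * Pot k σ x :=
  wd_le σ hm (meas_sec hk x) hhC

lemma Pot_k_le {k : ℝ → ℝ≥0∞} {P q : ℝ} (hk : IsKer k P) (hP : 0 < P) (hPq : P < q)
    (σ : Measure (E n)) {T : ℝ≥0∞} (hσ : ∀ x, Pot (kR q) σ x ≤ T) (x : E n) :
    Pot k σ x ≤ k 1 * T + k 1 * σ univ := by
  calc Pot k σ x ≤ ∫⁻ y, (k 1 * kR q (dist x y) + k 1) ∂σ :=
        lintegral_mono fun y => ker_le hk hP hPq dist_nonneg
    _ = k 1 * Pot (kR q) σ x + k 1 * σ univ := by
        rw [lintegral_add_right _ measurable_const, lintegral_const,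
          lintegral_const_mul _ (meas_sec (meas_kR q) x)]
        rfl
    _ ≤ _ := add_le_add_left (mul_le_mul_right (hσ x) _) _

/-- the truncated potential -/
lemma cont_trunc {k : ℝ → ℝ≥0∞} (hk : Continuous k) (σ : Measure (E n)) [IsFiniteMeasure σ]
    {N : ℝ≥0∞} (hN : N ≠ ⊤) : Continuous (fun x => ∫⁻ y, min (k (dist x y)) N ∂σ) := by
  rw [continuous_iff_continuousAt]
  intro x
  refine tendsto_lintegral_filter_of_dominated_convergence (fun _ => N) ?_ ?_ ?_ ?_
  · exact Eventually.of_forall fun z => (meas_sec hk.measurable z).min measurable_const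
  · exact Eventually.of_forall fun z => Eventually.of_forall fun y => min_le_right _ _
  · rw [lintegral_const]
    exact ENNReal.mul_ne_top hN (measure_ne_top σ _)
  · refine Eventually.of_forall fun y => ?_
    have : Continuous (fun z : E n => min (k (dist z y)) N) :=
      (hk.comp (continuous_id.dist continuous_const)).min continuous_const
    exact this.tendsto x

lemma le_of_eps {a b D : ℝ≥0∞} (hD : D ≠ ⊤) (h : ∀ ε : ℝ≥0, 0 < ε → ε ≤ 1 → a ≤ b + D * ε) :
    a ≤ b := by
  have ht : Tendsto (fun j : ℕ => b + D * ((1 / ((j : ℝ≥0) + 1) : ℝ≥0) : ℝ≥0∞)) atTop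
      (𝓝 (b + D * ((0 : ℝ≥0) : ℝ≥0∞))) := by
    refine Tendsto.const_add b (ENNReal.Tendsto.const_mul ?_ (Or.inr hD))
    exact ENNReal.tendsto_coe.mpr tendsto_one_div_add_atTop_nhds_zero_nat
  rw [ENNReal.coe_zero, mul_zero, add_zero] at ht
  refine ge_of_tendsto' ht fun j => h _ (by positivity) ?_
  rw [div_le_one (by positivity)]
  exact le_add_self

end PC

open PC

variable {n : ℕ}

theorem Pot_continuous {k : ℝ → ℝ≥0∞} {P q : ℝ} (hk : IsKer k P) (hP : 0 < P) (hPq : P < q)
    (σ : Measure (E n)) [IsFiniteMeasure σ] {T : ℝ≥0∞} (hT : T ≠ ⊤)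
    (hσ : ∀ x, Pot (kR q) σ x ≤ T) {h : E n → ℝ≥0∞} (hm : Measurable h) {C : ℝ≥0∞} (hC : C ≠ ⊤)
    (hhC : ∀ x, h x ≤ C) :
    Continuous (Pot k (σ.withDensity h)) ∧ ∃ C' : ℝ≥0∞, C' ≠ ⊤ ∧
      ∀ x, Pot k (σ.withDensity h) x ≤ C' := by
  have hk1 : k 1 ≠ ⊤ := (hk.lt_top 1 one_pos).ne
  have hb : ∀ x, Pot k (σ.withDensity h) x ≤ C * (k 1 * T + k 1 * σ univ) := fun x =>
    (Pot_wd_le hk.cont.measurable σ hm hhC x).trans
      (mul_le_mul_right (Pot_k_le hk hP hPq σ hσ x) _)
  have hbt : C * (k 1 * T + k 1 * σ univ) ≠ ⊤ :=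
    ENNReal.mul_ne_top hC (ENNReal.add_ne_top.mpr ⟨ENNReal.mul_ne_top hk1 hT,
      ENNReal.mul_ne_top hk1 (measure_ne_top σ _)⟩)
  refine ⟨?_, _, hbt, hb⟩
  have hfin : IsFiniteMeasure (σ.withDensity h) := by
    apply isFiniteMeasure_withDensity
    refine ne_top_of_le_ne_top ?_ (lintegral_mono hhC)
    rw [lintegral_const]
    exact ENNReal.mul_ne_top hC (measure_ne_top σ _)
  have hCT : C * T ≠ ⊤ := ENNReal.mul_ne_top hC hT
  have hq : ∀ x, Pot (kR q) (σ.withDensity h) x ≤ C * T := fun x =>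
    (Pot_wd_le (meas_kR q) σ hm hhC x).trans (mul_le_mul_right (hσ x) _)
  rw [continuous_iff_continuousAt]
  intro x
  rw [ContinuousAt, ENNReal.tendsto_nhds (ne_top_of_le_ne_top hbt (hb x))]
  intro ε hε
  have hε2 : 0 < ε / 2 := ENNReal.half_pos hε.ne'
  have hδ : 0 < ε / 2 / (C * T + 1) :=
    ENNReal.div_pos hε2.ne' (ENNReal.add_ne_top.mpr ⟨hCT, ENNReal.one_ne_top⟩)
  obtain ⟨ρ, hρ, htr⟩ := trunc hk hP hPq hδ
  have hδ2 : ε / 2 / (C * T + 1) * (C * T) ≤ ε / 2 :=
    (mul_le_mul_right le_self_add _).trans (ENNReal.div_mul_cancel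
      (ne_of_gt (lt_of_lt_of_le one_pos le_add_self))
      (ENNReal.add_ne_top.mpr ⟨hCT, ENNReal.one_ne_top⟩)).le
  set g : E n → ℝ≥0∞ := fun x => ∫⁻ y, min (k (dist x y)) (k ρ) ∂(σ.withDensity h) with hg
  have hgc : Continuous g := cont_trunc hk.cont _ (hk.lt_top ρ hρ).ne
  have g1 : ∀ x, g x ≤ Pot k (σ.withDensity h) x := fun x =>
    lintegral_mono fun y => min_le_left _ _
  have g2 : ∀ x, Pot k (σ.withDensity h) x ≤ g x + ε / 2 := by
    intro x
    calc Pot k (σ.withDensity h) x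
        ≤ ∫⁻ y, (min (k (dist x y)) (k ρ) + ε / 2 / (C * T + 1) * kR q (dist x y))
            ∂(σ.withDensity h) := lintegral_mono fun y => htr _ dist_nonneg
      _ = g x + ε / 2 / (C * T + 1) * Pot (kR q) (σ.withDensity h) x := by
          rw [lintegral_add_right _ ((meas_sec (meas_kR q) x).const_mul _),
            lintegral_const_mul _ (meas_sec (meas_kR q) x)]
          rfl
      _ ≤ g x + ε / 2 / (C * T + 1) * (C * T) := add_le_add_right (mul_le_mul_right (hq x) _) _
      _ ≤ g x + ε / 2 := add_le_add_right hδ2 _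
  have hgx : g x ≠ ⊤ := ne_top_of_le_ne_top (ne_top_of_le_ne_top hbt (hb x)) (g1 x)
  have hev := (ENNReal.tendsto_nhds hgx).mp (hgc.tendsto x) (ε / 2) hε2
  filter_upwards [hev] with y hy
  constructor
  · rw [tsub_le_iff_right]
    calc Pot k (σ.withDensity h) x ≤ g x + ε / 2 := g2 x
      _ ≤ (g y + ε / 2) + ε / 2 := add_le_add_left (tsub_le_iff_right.mp hy.1) _
      _ = g y + ε := by rw [add_assoc, ENNReal.add_halves]
      _ ≤ _ := add_le_add_left (g1 y) _
  · calc Pot k (σ.withDensity h) y ≤ g y + ε / 2 := g2 y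
      _ ≤ (g x + ε / 2) + ε / 2 := add_le_add_left hy.2 _
      _ = g x + ε := by rw [add_assoc, ENNReal.add_halves]
      _ ≤ _ := add_le_add_left (g1 x) _

namespace PC

/-- the energy of two densities as a double integral -/
lemma En_wd {k : ℝ → ℝ≥0∞} (hk : Measurable k) (μ : Measure (E n)) [SFinite μ]
    {g h : E n → ℝ≥0∞} (hg : Measurable g) (hh : Measurable h) :
    En k (μ.withDensity g) (μ.withDensity h) =
      ∫⁻ x, ∫⁻ y, g x * h y * k (dist x y) ∂μ ∂μ := by
  unfold En
  have h1 : Measurable (fun x => ∫⁻ y, h y * k (dist x y) ∂μ) :=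
    Measurable.lintegral_prod_right' (f := fun p : E n × E n => h p.2 * k (dist p.1 p.2))
      ((hh.comp measurable_snd).mul (meas_two hk))
  have h2 : ∀ x, ∫⁻ y, k (dist x y) ∂(μ.withDensity h) = ∫⁻ y, h y * k (dist x y) ∂μ := fun x =>
    wd_eq μ hh (meas_sec hk x)
  simp only [h2]
  rw [wd_eq μ hg h1]
  refine lintegral_congr fun x => ?_
  have h3 : Measurable (fun y => h y * k (dist x y)) := hh.mul (meas_sec hk x)
  rw [← lintegral_const_mul _ h3]
  refine lintegral_congr fun y => ?_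
  rw [mul_assoc]

lemma En_Pot (k : ℝ → ℝ≥0∞) (μ ν : Measure (E n)) : En k μ ν = ∫⁻ x, Pot k ν x ∂μ := rfl

lemma En_le_of_Pot {k : ℝ → ℝ≥0∞} (hk : Measurable k) (μ : Measure (E n)) [SFinite μ]
    {g h : E n → ℝ≥0∞} (hg : Measurable g) {S : ℝ≥0∞}
    (hS : ∀ x, Pot k (μ.withDensity h) x ≤ S) [SFinite (μ.withDensity h)] :
    En k (μ.withDensity g) (μ.withDensity h) ≤ S * ∫⁻ x, g x ∂μ := by
  rw [En_Pot, wd_eq μ hg (meas_Pot hk _), mul_comm S, ← lintegral_mul_const S hg]
  exact lintegral_mono fun x => mul_le_mul_right (hS x) _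

end PC

theorem En_density_ge {k : ℝ → ℝ≥0∞} {P q : ℝ} (hk : IsKer k P) (hP : 0 < P) (hPq : P < q)
    {μs : ℕ → ProbabilityMeasure (E n)} {μ : ProbabilityMeasure (E n)}
    (hμ : Tendsto μs atTop (𝓝 μ)) {T : ℝ≥0∞} (hT : T ≠ ⊤)
    (hpot : ∀ i x, Pot (kR q) (μs i : Measure (E n)) x ≤ T) {A : ℕ → Set (E n)}
    (hA : ∀ i, (μs i : Measure (E n)) (A i)ᶜ = 0) {v0 : ℝ≥0∞} (hv : ∀ i, v0 ≤ VV k (A i))
    {h : E n → ℝ≥0∞} (hm : Measurable h) {C : ℝ≥0∞} (hC : C ≠ ⊤) (hhC : ∀ x, h x ≤ C) :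
    v0 * (∫⁻ x, h x ∂(μ : Measure (E n))) ^ 2
      ≤ En k ((μ : Measure (E n)).withDensity h) ((μ : Measure (E n)).withDensity h) := by
  have hkm := hk.cont.measurable
  have hk1 : k 1 ≠ ⊤ := (hk.lt_top 1 one_pos).ne
  -- potentials of the measures
  have hpk : ∀ i x, Pot k (μs i : Measure (E n)) x ≤ k 1 * T + k 1 := by
    intro i x
    have := Pot_k_le hk hP hPq (μs i : Measure (E n)) (hpot i) x
    rwa [measure_univ, mul_one] at this
  have hSt : k 1 * T + k 1 ≠ ⊤ := ENNReal.add_ne_top.mpr ⟨ENNReal.mul_ne_top hk1 hT, hk1⟩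
  set S := k 1 * T + k 1 with hS
  have hv0 : v0 ≠ ⊤ := by
    have h1 : v0 ≤ En k (μs 0 : Measure (E n)) (μs 0 : Measure (E n)) :=
      (hv 0).trans (iInf₂_le (μs 0) (hA 0))
    refine ne_top_of_le_ne_top hSt (h1.trans ?_)
    rw [En_Pot]
    refine (lintegral_mono (hpk 0)).trans ?_
    rw [lintegral_const, measure_univ, mul_one]
  have hμq : ∀ x, Pot (kR q) (μ : Measure (E n)) x ≤ T := by
    intro x
    have h1 := Pot_le_liminf (isKer_kR (hP.trans hPq)).cont hμ x
    refine h1.trans ?_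
    have h2 : liminf (fun i => Pot (kR q) (μs i : Measure (E n)) x) atTop ≤
        liminf (fun _ : ℕ => T) atTop :=
      liminf_le_liminf (Eventually.of_forall fun i => hpot i x)
    rwa [liminf_const] at h2
  have hμk : ∀ x, Pot k (μ : Measure (E n)) x ≤ S := by
    intro x
    have := Pot_k_le hk hP hPq (μ : Measure (E n)) hμq x
    rwa [measure_univ, mul_one] at this
  -- step 1: bounded continuous densities
  have step1 : ∀ g : E n →ᵇ ℝ≥0, v0 * (∫⁻ x, g x ∂(μ : Measure (E n))) ^ 2 ≤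
      En k ((μ : Measure (E n)).withDensity fun x => g x)
        ((μ : Measure (E n)).withDensity fun x => g x) := by
    intro g
    have hgm : Measurable (fun x => (g x : ℝ≥0∞)) :=
      (ENNReal.continuous_coe.comp g.continuous).measurable
    obtain ⟨B, hB⟩ : ∃ B : ℝ≥0, ∀ x, g x ≤ B :=
      ⟨_, fun x => BoundedContinuousFunction.NNReal.upper_bound g x⟩
    have hB' : ∀ x, (g x : ℝ≥0∞) ≤ B := fun x => ENNReal.coe_le_coe.mpr (hB x)
    refine le_of_eps (D := B * (B * T)) (ENNReal.mul_ne_top ENNReal.coe_ne_top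
      (ENNReal.mul_ne_top ENNReal.coe_ne_top hT)) fun ε hε _ => ?_
    obtain ⟨ρ, hρ, htr⟩ := trunc hk hP hPq (ε := (ε : ℝ≥0∞)) (by exact_mod_cast hε)
    have hkρ : k ρ ≠ ⊤ := (hk.lt_top ρ hρ).ne
    -- the truncated kernel
    set κ : ℝ → ℝ≥0∞ := fun r => min (k r) (k ρ) with hκ
    have hκc : Continuous κ := hk.cont.min continuous_const
    have hκm := hκc.measurable
    have hκt : ∀ r, κ r ≠ ⊤ := fun r => ne_top_of_le_ne_top hkρ (min_le_right _ _)
    have hκn : Continuous (fun r => (κ r).toNNReal) := by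
      rw [continuous_iff_continuousAt]
      intro r
      exact (ENNReal.tendsto_toNNReal (hκt r)).comp (hκc.tendsto r)
    let Φ : E n × E n →ᵇ ℝ≥0 := BoundedContinuousFunction.mkOfBound
      ⟨fun p => g p.1 * g p.2 * (κ (dist p.1 p.2)).toNNReal,
        ((g.continuous.comp continuous_fst).mul (g.continuous.comp continuous_snd)).mul
          (hκn.comp continuous_dist)⟩ (B * B * (k ρ).toNNReal) (by
        intro p p'
        have hb : ∀ p : E n × E n, g p.1 * g p.2 * (κ (dist p.1 p.2)).toNNReal ≤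
            B * B * (k ρ).toNNReal := fun p =>
          mul_le_mul' (mul_le_mul' (hB _) (hB _))
            (ENNReal.toNNReal_mono hkρ (min_le_right _ _))
        rw [NNReal.dist_eq]
        have h1 : ((g p.1 * g p.2 * (κ (dist p.1 p.2)).toNNReal : ℝ≥0) : ℝ) ≤
            ((B * B * (k ρ).toNNReal : ℝ≥0) : ℝ) := NNReal.coe_le_coe.mpr (hb p)
        have h2 : ((g p'.1 * g p'.2 * (κ (dist p'.1 p'.2)).toNNReal : ℝ≥0) : ℝ) ≤
            ((B * B * (k ρ).toNNReal : ℝ≥0) : ℝ) := NNReal.coe_le_coe.mpr (hb p')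
        have h3 : (0 : ℝ) ≤ ((g p.1 * g p.2 * (κ (dist p.1 p.2)).toNNReal : ℝ≥0) : ℝ) :=
          NNReal.coe_nonneg _
        have h4 : (0 : ℝ) ≤ ((g p'.1 * g p'.2 * (κ (dist p'.1 p'.2)).toNNReal : ℝ≥0) : ℝ) :=
          NNReal.coe_nonneg _
        rw [abs_le]
        constructor
        · push_cast at h1 h2 h3 h4 ⊢
          dsimp only [ContinuousMap.coe_mk]
          push_cast
          linarith
        · push_cast at h1 h2 h3 h4 ⊢
          dsimp only [ContinuousMap.coe_mk]
          push_cast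
          linarith)
    have hΦ : ∀ p : E n × E n, (Φ p : ℝ≥0∞) = g p.1 * g p.2 * κ (dist p.1 p.2) := by
      intro p
      change ((g p.1 * g p.2 * (κ (dist p.1 p.2)).toNNReal : ℝ≥0) : ℝ≥0∞) = _
      rw [ENNReal.coe_mul, ENNReal.coe_mul, ENNReal.coe_toNNReal (hκt _)]
    have hprod : Tendsto (fun i => (μs i).prod (μs i)) atTop (𝓝 (μ.prod μ)) :=
      (ProbabilityMeasure.continuous_prod.tendsto (μ, μ)).comp (hμ.prodMk_nhds hμ)
    have hlim1 := ProbabilityMeasure.tendsto_iff_forall_lintegral_tendsto.mp hprod Φ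
    have hlim2 := ProbabilityMeasure.tendsto_iff_forall_lintegral_tendsto.mp hμ g
    have hEn : ∀ ν : ProbabilityMeasure (E n), ∫⁻ p, Φ p ∂(ν.prod ν : Measure (E n × E n)) =
        En κ ((ν : Measure (E n)).withDensity fun x => g x)
          ((ν : Measure (E n)).withDensity fun x => g x) := by
      intro ν
      rw [En_wd hκm _ hgm hgm, ProbabilityMeasure.toMeasure_prod]
      have hmm : Measurable (fun p : E n × E n => (Φ p : ℝ≥0∞)) :=
        (ENNReal.continuous_coe.comp Φ.continuous).measurable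
      rw [lintegral_prod _ hmm.aemeasurable]
      exact lintegral_congr fun x => lintegral_congr fun y => hΦ (x, y)
    have hle : ∀ i, v0 * (∫⁻ x, g x ∂(μs i : Measure (E n))) ^ 2 ≤
        (∫⁻ p, Φ p ∂((μs i).prod (μs i) : Measure (E n × E n))) + B * (B * T) * ε := by
      intro i
      have hfin : IsFiniteMeasure ((μs i : Measure (E n)).withDensity fun x => (g x : ℝ≥0∞)) := by
        apply isFiniteMeasure_withDensity
        refine ne_top_of_le_ne_top ?_ (lintegral_mono hB')
        rw [lintegral_const]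
        exact ENNReal.mul_ne_top ENNReal.coe_ne_top (measure_ne_top _ _)
      have h1 := VV_mul_le hkm (A := A i)
        ((μs i : Measure (E n)).withDensity fun x => (g x : ℝ≥0∞))
        (withDensity_absolutelyContinuous _ _ (hA i))
      rw [withDensity_apply _ MeasurableSet.univ, Measure.restrict_univ] at h1
      have h2 : En k ((μs i : Measure (E n)).withDensity fun x => (g x : ℝ≥0∞))
          ((μs i : Measure (E n)).withDensity fun x => (g x : ℝ≥0∞)) ≤
          En κ ((μs i : Measure (E n)).withDensity fun x => (g x : ℝ≥0∞))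
          ((μs i : Measure (E n)).withDensity fun x => (g x : ℝ≥0∞)) +
          ε * En (kR q) ((μs i : Measure (E n)).withDensity fun x => (g x : ℝ≥0∞))
          ((μs i : Measure (E n)).withDensity fun x => (g x : ℝ≥0∞)) := by
        set τ := (μs i : Measure (E n)).withDensity fun x => (g x : ℝ≥0∞) with hτ
        calc En k τ τ ≤ ∫⁻ x, (Pot κ τ x + ε * Pot (kR q) τ x) ∂τ := by
              rw [En_Pot]
              refine lintegral_mono fun x => ?_
              calc Pot k τ x ≤ ∫⁻ y, (κ (dist x y) + ε * kR q (dist x y)) ∂τ :=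
                    lintegral_mono fun y => htr _ dist_nonneg
                _ = _ := by
                  rw [lintegral_add_right _ ((meas_sec (meas_kR q) x).const_mul _),
                    lintegral_const_mul _ (meas_sec (meas_kR q) x)]
                  rfl
          _ = _ := by
              rw [lintegral_add_left (meas_Pot hκm τ),
                lintegral_const_mul _ (meas_Pot (meas_kR q) τ)]
              rfl
      have h3 : En (kR q) ((μs i : Measure (E n)).withDensity fun x => (g x : ℝ≥0∞))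
          ((μs i : Measure (E n)).withDensity fun x => (g x : ℝ≥0∞)) ≤ B * (B * T) := by
        refine (En_le_of_Pot (meas_kR q) _ hgm (S := B * T) fun x =>
          (Pot_wd_le (meas_kR q) _ hgm hB' x).trans (mul_le_mul_right (hpot i x) _)).trans ?_
        rw [mul_comm]
        refine mul_le_mul_left ?_ _
        refine (lintegral_mono hB').trans ?_
        rw [lintegral_const, measure_univ, mul_one]
      rw [hEn]
      calc v0 * (∫⁻ x, g x ∂(μs i : Measure (E n))) ^ 2
          ≤ VV k (A i) * (∫⁻ x, g x ∂(μs i : Measure (E n))) ^ 2 := mul_le_mul_left (hv i) _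
        _ ≤ _ := h1
        _ ≤ _ := h2
        _ ≤ _ := by
            refine add_le_add_right ?_ _
            rw [mul_comm (B * (B * T) : ℝ≥0∞)]
            exact mul_le_mul_right h3 _
    have hlimL : Tendsto (fun i => v0 * (∫⁻ x, g x ∂(μs i : Measure (E n))) ^ 2) atTop
        (𝓝 (v0 * (∫⁻ x, g x ∂(μ : Measure (E n))) ^ 2)) :=
      ENNReal.Tendsto.const_mul (ENNReal.Tendsto.pow hlim2) (Or.inr hv0)
    have hlimR : Tendsto (fun i => (∫⁻ p, Φ p ∂((μs i).prod (μs i) : Measure (E n × E n))) +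
        B * (B * T) * ε) atTop (𝓝 ((∫⁻ p, Φ p ∂(μ.prod μ : Measure (E n × E n))) +
        B * (B * T) * ε)) := hlim1.add_const _
    have hfinal := le_of_tendsto_of_tendsto' hlimL hlimR hle
    rw [hEn] at hfinal
    refine hfinal.trans (add_le_add_left ?_ _)
    exact lintegral_mono fun x => lintegral_mono fun y => min_le_left _ _
  -- step 2: general densities
  refine le_of_eps (D := 8 * (C * S) + v0 * (4 * C + 4)) (ENNReal.add_ne_top.mpr
    ⟨ENNReal.mul_ne_top (by norm_num) (ENNReal.mul_ne_top hC hSt), ENNReal.mul_ne_top hv0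
      (ENNReal.add_ne_top.mpr ⟨ENNReal.mul_ne_top (by norm_num) hC, by norm_num⟩)⟩)
    fun ε hε hε1 => ?_
  have hhfin : ∀ x, h x ≠ ⊤ := fun x => ne_top_of_le_ne_top hC (hhC x)
  have hhR : ∀ x, (h x).toReal ≤ C.toReal := fun x => ENNReal.toReal_mono hC (hhC x)
  have hint : Integrable (fun x => (h x).toReal) (μ : Measure (E n)) := by
    refine Integrable.of_bound hm.ennreal_toReal.aestronglyMeasurable C.toReal
      (Eventually.of_forall fun x => ?_)
    rw [Real.norm_of_nonneg ENNReal.toReal_nonneg]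
    exact hhR x
  obtain ⟨g, hg1, -⟩ := hint.exists_boundedContinuous_lintegral_sub_le (ε := (ε : ℝ≥0∞))
    (by exact_mod_cast hε.ne')
  let g' : E n →ᵇ ℝ≥0 := BoundedContinuousFunction.mkOfBound
    ⟨fun x => min (Real.toNNReal (g x)) C.toNNReal,
      (continuous_real_toNNReal.comp g.continuous).min continuous_const⟩ C.toReal (by
      intro x y
      rw [NNReal.dist_eq]
      have h1 : ((min (Real.toNNReal (g x)) C.toNNReal : ℝ≥0) : ℝ) ≤ C.toReal :=
        NNReal.coe_le_coe.mpr (min_le_right _ _)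
      have h2 : ((min (Real.toNNReal (g y)) C.toNNReal : ℝ≥0) : ℝ) ≤ C.toReal :=
        NNReal.coe_le_coe.mpr (min_le_right _ _)
      have h3 : (0 : ℝ) ≤ ((min (Real.toNNReal (g x)) C.toNNReal : ℝ≥0) : ℝ) :=
        NNReal.coe_nonneg _
      have h4 : (0 : ℝ) ≤ ((min (Real.toNNReal (g y)) C.toNNReal : ℝ≥0) : ℝ) :=
        NNReal.coe_nonneg _
      rw [abs_le]
      dsimp only [ContinuousMap.coe_mk]
      constructor <;> linarith)
  have hg'C : ∀ x, (g' x : ℝ≥0∞) ≤ C := by
    intro x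
    have h1 : g' x ≤ C.toNNReal := min_le_right _ _
    calc (g' x : ℝ≥0∞) ≤ (C.toNNReal : ℝ≥0∞) := ENNReal.coe_le_coe.mpr h1
      _ = C := ENNReal.coe_toNNReal hC
  have hg'm : Measurable (fun x => (g' x : ℝ≥0∞)) :=
    (ENNReal.continuous_coe.comp g'.continuous).measurable
  have hg'R : ∀ x, (g' x : ℝ≥0∞) = ENNReal.ofReal (min (max (g x) 0) C.toReal) := by
    intro x
    have h1 : ((g' x : ℝ≥0) : ℝ) = min (max (g x) 0) C.toReal := by
      change ((min (Real.toNNReal (g x)) C.toNNReal : ℝ≥0) : ℝ) = _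
      rw [NNReal.coe_min, Real.coe_toNNReal']
      rfl
    rw [← h1, ENNReal.ofReal_coe_nnreal]
  have hhx : ∀ x, h x = ENNReal.ofReal ((h x).toReal) := fun x =>
    (ENNReal.ofReal_toReal (hhfin x)).symm
  set d : E n → ℝ≥0∞ := fun x => (h x - g' x) + (g' x - h x) with hd
  have hdm : Measurable d := (hm.sub hg'm).add (hg'm.sub hm)
  have hdC : ∀ x, d x ≤ 2 * C := by
    intro x
    rw [two_mul]
    exact add_le_add (tsub_le_self.trans (hhC x)) (tsub_le_self.trans (hg'C x))
  have hd1 : ∀ x, h x ≤ g' x + d x := fun x => by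
    calc h x ≤ g' x + (h x - g' x) := le_add_tsub
      _ ≤ _ := add_le_add_right le_self_add _
  have hd2 : ∀ x, (g' x : ℝ≥0∞) ≤ h x + d x := fun x => by
    calc (g' x : ℝ≥0∞) ≤ h x + (g' x - h x) := le_add_tsub
      _ ≤ _ := add_le_add_right le_add_self _
  have hde : ∫⁻ x, d x ∂(μ : Measure (E n)) ≤ 2 * ε := by
    have h1 : ∀ x, d x ≤ 2 * ‖(h x).toReal - g x‖ₑ := by
      intro x
      have hR0 : 0 ≤ (h x).toReal := ENNReal.toReal_nonneg
      have hRC := hhR x
      have e1 : ‖(h x).toReal - g x‖ₑ = ENNReal.ofReal |(h x).toReal - g x| := by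
        rw [← ofReal_norm, Real.norm_eq_abs]
      have a1 := le_abs_self ((h x).toReal - g x)
      have a2 := neg_abs_le ((h x).toReal - g x)
      have a3 := abs_nonneg ((h x).toReal - g x)
      have e2 : h x - g' x ≤ ENNReal.ofReal |(h x).toReal - g x| := by
        rw [tsub_le_iff_right, hg'R, ← ENNReal.ofReal_add (abs_nonneg _)
          (le_min (le_max_right _ _) ENNReal.toReal_nonneg)]
        conv_lhs => rw [hhx x]
        apply ENNReal.ofReal_le_ofReal
        rcases min_cases (max (g x) 0) C.toReal with ⟨h, _⟩ | ⟨h, _⟩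
        · rw [h]
          have := le_max_left (g x) 0
          linarith
        · rw [h]
          linarith
      have e3 : g' x - h x ≤ ENNReal.ofReal |(h x).toReal - g x| := by
        rw [tsub_le_iff_right, hg'R]
        calc ENNReal.ofReal (min (max (g x) 0) C.toReal)
            ≤ ENNReal.ofReal (|(h x).toReal - g x| + (h x).toReal) := by
              apply ENNReal.ofReal_le_ofReal
              refine (min_le_left _ _).trans (max_le ?_ ?_) <;> linarith
          _ = ENNReal.ofReal |(h x).toReal - g x| + ENNReal.ofReal ((h x).toReal) :=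
              ENNReal.ofReal_add (abs_nonneg _) hR0
          _ = ENNReal.ofReal |(h x).toReal - g x| + h x := by
              rw [ENNReal.ofReal_toReal (hhfin x)]
      rw [e1, two_mul]
      exact add_le_add e2 e3
    refine (lintegral_mono h1).trans ?_
    rw [lintegral_const_mul' _ _ (by norm_num)]
    exact mul_le_mul_right hg1 _
  -- the energies
  have hfin : ∀ f : E n → ℝ≥0∞, (∀ x, f x ≤ 2 * C) →
      IsFiniteMeasure ((μ : Measure (E n)).withDensity f) := by
    intro f hf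
    apply isFiniteMeasure_withDensity
    refine ne_top_of_le_ne_top ?_ (lintegral_mono hf)
    rw [lintegral_const]
    exact ENNReal.mul_ne_top (ENNReal.mul_ne_top (by norm_num) hC) (measure_ne_top _ _)
  have hC2 : C ≤ 2 * C := by
    rw [two_mul]
    exact le_self_add
  have hfh := hfin h fun x => (hhC x).trans hC2
  have hfd := hfin d hdC
  have hPh : ∀ x, Pot k ((μ : Measure (E n)).withDensity h) x ≤ C * S := fun x =>
    (Pot_wd_le hkm _ hm hhC x).trans (mul_le_mul_right (hμk x) _)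
  have hPd : ∀ x, Pot k ((μ : Measure (E n)).withDensity d) x ≤ 2 * C * S := fun x =>
    (Pot_wd_le hkm _ hdm hdC x).trans (mul_le_mul_right (hμk x) _)
  have i1 : En k ((μ : Measure (E n)).withDensity d) ((μ : Measure (E n)).withDensity h) ≤
      C * S * (2 * ε) :=
    (En_le_of_Pot hkm _ hdm hPh).trans (mul_le_mul_right hde _)
  have i2 : En k ((μ : Measure (E n)).withDensity d) ((μ : Measure (E n)).withDensity d) ≤
      2 * C * S * (2 * ε) :=
    (En_le_of_Pot hkm _ hdm hPd).trans (mul_le_mul_right hde _)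
  have i3 : En k ((μ : Measure (E n)).withDensity h) ((μ : Measure (E n)).withDensity d) ≤
      C * S * (2 * ε) := by
    rw [En_symm hkm]
    exact i1
  have i4 : En k ((μ : Measure (E n)).withDensity fun x => (g' x : ℝ≥0∞))
      ((μ : Measure (E n)).withDensity fun x => (g' x : ℝ≥0∞)) ≤
      En k ((μ : Measure (E n)).withDensity h) ((μ : Measure (E n)).withDensity h) +
      En k ((μ : Measure (E n)).withDensity h) ((μ : Measure (E n)).withDensity d) +
      (En k ((μ : Measure (E n)).withDensity d) ((μ : Measure (E n)).withDensity h) +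
      En k ((μ : Measure (E n)).withDensity d) ((μ : Measure (E n)).withDensity d)) := by
    have hle : (μ : Measure (E n)).withDensity (fun x => (g' x : ℝ≥0∞)) ≤
        (μ : Measure (E n)).withDensity h + (μ : Measure (E n)).withDensity d := by
      rw [← withDensity_add_left hm]
      exact withDensity_mono (Eventually.of_forall hd2)
    set a := (μ : Measure (E n)).withDensity h with ha
    set b := (μ : Measure (E n)).withDensity d with hb
    have e1 : ∀ x, Pot k (a + b) x = Pot k a x + Pot k b x := fun x =>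
      lintegral_add_measure _ _ _
    calc _ ≤ En k (a + b) (a + b) := by
          rw [En_Pot, En_Pot]
          refine lintegral_mono' hle fun x => ?_
          exact lintegral_mono' hle fun y => le_rfl
      _ = _ := by
          rw [En_Pot, lintegral_add_measure]
          simp only [e1]
          rw [lintegral_add_left (meas_Pot hkm a), lintegral_add_left (meas_Pot hkm a)]
          rfl
  have hmass : ∫⁻ x, h x ∂(μ : Measure (E n)) ≤ (∫⁻ x, g' x ∂(μ : Measure (E n))) + 2 * ε := by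
    calc ∫⁻ x, h x ∂(μ : Measure (E n)) ≤ ∫⁻ x, (g' x + d x) ∂(μ : Measure (E n)) :=
          lintegral_mono hd1
      _ = (∫⁻ x, g' x ∂(μ : Measure (E n))) + ∫⁻ x, d x ∂(μ : Measure (E n)) :=
          lintegral_add_left hg'm _
      _ ≤ _ := add_le_add_right hde _
  have hmassg : ∫⁻ x, g' x ∂(μ : Measure (E n)) ≤ C := by
    refine (lintegral_mono hg'C).trans ?_
    rw [lintegral_const, measure_univ, mul_one]
  set G := ∫⁻ x, g' x ∂(μ : Measure (E n)) with hG
  have hε1' : (ε : ℝ≥0∞) ≤ 1 := by exact_mod_cast hε1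
  calc v0 * (∫⁻ x, h x ∂(μ : Measure (E n))) ^ 2
      ≤ v0 * (G + 2 * ε) ^ 2 := mul_le_mul_right (pow_le_pow_left' hmass 2) _
    _ = v0 * G ^ 2 + v0 * (4 * G + 4 * ε) * ε := by ring
    _ ≤ v0 * G ^ 2 + v0 * (4 * C + 4) * ε := by
        refine add_le_add_right (mul_le_mul_left (mul_le_mul_right (add_le_add
          (mul_le_mul_right hmassg _) ?_) _) _) _
        calc 4 * (ε : ℝ≥0∞) ≤ 4 * 1 := mul_le_mul_right hε1' _
          _ = 4 := mul_one _
    _ ≤ (En k ((μ : Measure (E n)).withDensity h) ((μ : Measure (E n)).withDensity h) +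
          C * S * (2 * ε) + (C * S * (2 * ε) + 2 * C * S * (2 * ε))) + v0 * (4 * C + 4) * ε := by
        refine add_le_add_left ((step1 g').trans (i4.trans ?_)) _
        exact add_le_add (add_le_add_right i3 _) (add_le_add i1 i2)
    _ = _ := by ring

end R970.RC
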