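import Pool.Agent.R970.RC.Bas
import Pool.Agent.R970.RC.V1
import Pool.Agent.R970.RC.EQ
import Pool.Agent.R970.RC.K
import Pool.Agent.R970.RC.LSC
import Pool.Agent.R970.RC.PC

open MeasureTheory Set Filter Topology
open scoped ENNReal

namespace R970.RC

variable {n : ℕ}

open VAux

/-- the admissible densities -/
def Dens (μ : Measure (E n)) : Set (E n → ℝ≥0∞) :=
  {h | Measurable h ∧ (∃ C : ℝ≥0∞, C ≠ ⊤ ∧ ∀ x, h x ≤ C) ∧ ∫⁻ x, h x ∂μ = 1}

theorem dens_univ {μ : Measure (E n)} {h : E n → ℝ≥0∞} (hh : h ∈ Dens μ) :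
    (μ.withDensity h) univ = 1 := by
  rw [withDensity_apply _ MeasurableSet.univ, Measure.restrict_univ, hh.2.2]

theorem dens_null {μ : Measure (E n)} {h : E n → ℝ≥0∞} {A : Set (E n)}
    (hA : μ A = 0) : (μ.withDensity h) A = 0 :=
  withDensity_absolutelyContinuous μ h hA

theorem dens_combo {μ : Measure (E n)} {g h : E n → ℝ≥0∞} (hg : g ∈ Dens μ) (hh : h ∈ Dens μ)
    {a b : ℝ≥0∞} (hab : a + b = 1) :
    (fun x => a * g x + b * h x) ∈ Dens μ ∧
      μ.withDensity (fun x => a * g x + b * h x) = a • μ.withDensity g + b • μ.withDensity h := by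
  obtain ⟨hg1, ⟨C, hC, hgC⟩, hg3⟩ := hg
  obtain ⟨hh1, ⟨C', hC', hhC⟩, hh3⟩ := hh
  have ha : a ≠ ⊤ := by
    intro h0; rw [h0, top_add] at hab; exact ENNReal.top_ne_one hab
  have hb : b ≠ ⊤ := by
    intro h0; rw [h0, add_top] at hab; exact ENNReal.top_ne_one hab
  refine ⟨⟨by fun_prop, ⟨a * C + b * C', ?_, fun x => ?_⟩, ?_⟩, ?_⟩
  · exact ENNReal.add_ne_top.mpr ⟨ENNReal.mul_ne_top ha hC, ENNReal.mul_ne_top hb hC'⟩
  · exact add_le_add (mul_le_mul_right (hgC x) a) (mul_le_mul_right (hhC x) b)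
  · rw [lintegral_add_left (by fun_prop), lintegral_const_mul _ hg1, lintegral_const_mul _ hh1,
      hg3, hh3, mul_one, mul_one, hab]
  · have h1 : (fun x => a * g x + b * h x) = (a • g) + (b • h) := rfl
    rw [h1, withDensity_add_left (by fun_prop), withDensity_smul _ hg1, withDensity_smul _ hh1]

theorem En_combo {k : ℝ → ℝ≥0∞} (hk : Measurable k) (ρ σ : Measure (E n)) [IsFiniteMeasure ρ]
    [IsFiniteMeasure σ] (a b : ℝ≥0∞) (ha : a ≠ ⊤) (hb : b ≠ ⊤) :
    En k (a • ρ + b • σ) (a • ρ + b • σ) =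
      a ^ 2 * En k ρ ρ + 2 * a * b * En k ρ σ + b ^ 2 * En k σ σ := by
  have : IsFiniteMeasure (a • ρ) := Measure.smul_finite _ ha
  have : IsFiniteMeasure (b • σ) := Measure.smul_finite _ hb
  rw [En_add_left, En_add_right hk, En_add_right hk, En_smul_left, En_smul_left, En_smul_left,
    En_smul_left, En_smul_right hk, En_smul_right hk, En_smul_right hk, En_smul_right hk,
    En_symm hk σ ρ]
  ring

/-- elementary: passing to the limit `t → 0` -/
theorem lim_alg {v x R : ℝ} (h : ∀ t : ℝ, 0 < t → t < 1 →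
    v ≤ (1 - t) ^ 2 * v + 2 * t * (1 - t) * x + t ^ 2 * R) : v ≤ x := by
  have h1 : ∀ t : ℝ, 0 < t → t < 1 → v * (2 - t) ≤ 2 * (1 - t) * x + t * R := by
    intro t h0 h1
    have h2 := h t h0 h1
    have h3 : t * (v * (2 - t)) ≤ t * (2 * (1 - t) * x + t * R) := by nlinarith
    exact le_of_mul_le_mul_left h3 h0
  have h2 : Tendsto (fun t : ℝ => v * (2 - t)) (𝓝[>] 0) (𝓝 (v * (2 - 0))) :=
    ((continuous_const.mul (continuous_const.sub continuous_id)).tendsto 0).mono_left
      nhdsWithin_le_nhds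
  have h3 : Tendsto (fun t : ℝ => 2 * (1 - t) * x + t * R) (𝓝[>] 0)
      (𝓝 (2 * (1 - 0) * x + 0 * R)) := by
    apply Tendsto.mono_left _ nhdsWithin_le_nhds
    apply Continuous.tendsto
    fun_prop
  have h4 : v * (2 - 0) ≤ 2 * (1 - 0) * x + 0 * R := by
    apply le_of_tendsto_of_tendsto h2 h3
    have h5 : ∀ᶠ t : ℝ in 𝓝[>] 0, t < 1 := nhdsWithin_le_nhds (eventually_lt_nhds one_pos)
    filter_upwards [h5, self_mem_nhdsWithin] with t h5 h6
    exact h1 t h6 h5
  linarith

theorem limit_triple {k : ℝ → ℝ≥0∞} {P q L : ℝ} (hk : IsKer k P) (hP : 0 < P) (hPq : P < q)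
    {K : ℕ → Set (E n)} (hK : ∀ i, IsCompact (K i)) (hKL : ∀ i, K i ⊆ Metric.closedBall 0 L)
    {v0 I : ℝ≥0∞} (hv : ∀ i, v0 ≤ VV k (K i)) (hI : I ≠ ⊤)
    (hlim : Tendsto (fun i => VV (kR q) (K i)) atTop (𝓝 I)) :
    ∃ (μ γ : ProbabilityMeasure (E n)) (v : ℝ≥0∞), v0 ≤ v ∧ v ≠ ⊤ ∧
      (μ : Measure (E n)) (Metric.closedBall 0 L)ᶜ = 0 ∧
      (γ : Measure (E n)) (Metric.closedBall 0 L)ᶜ = 0 ∧
      En (kR q) (μ : Measure (E n)) μ ≤ I ∧
      En k (γ : Measure (E n)) γ ≤ v ∧
      ∀ᵐ x ∂(μ : Measure (E n)), v ≤ Pot k (γ : Measure (E n)) x := by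
  have hq : 0 < q := hP.trans hPq
  have hkm : Measurable k := hk.meas
  have hqk : IsKer (kR q) q := isKer_kR hq
  -- shift
  obtain ⟨N, hN⟩ : ∃ N, ∀ i ≥ N, VV (kR q) (K i) < I + 1 := by
    have h1 : I < I + 1 := ENNReal.lt_add_right hI one_ne_zero
    exact eventually_atTop.mp (hlim.eventually (eventually_lt_nhds h1))
  have hfin : ∀ i, VV (kR q) (K (i + N)) ≠ ⊤ := fun i =>
    ne_top_of_lt (hN (i + N) (by omega))
  choose ms hmK hmE hmP using fun i => exists_equilibrium hqk hq (hK (i + N)) (hfin i)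
  set T : ℝ≥0∞ := ENNReal.ofReal ((2 : ℝ) ^ q) * (I + 1) with hT
  have hTT : T ≠ ⊤ := ENNReal.mul_ne_top ENNReal.ofReal_ne_top (by simp [hI])
  have hpot : ∀ i x, Pot (kR q) (ms i : Measure (E n)) x ≤ T := by
    intro i x
    refine (hmP i x).trans ?_
    rw [hT]
    gcongr
    exact (hN (i + N) (by omega)).le
  obtain ⟨μ, hμL, φ, hφ, hφt⟩ := exists_subseq ms (L := L) (fun i =>
    measure_mono_null (compl_subset_compl.mpr (hKL _)) (hmK i))
  have hμE : En (kR q) (μ : Measure (E n)) μ ≤ I := by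
    refine (En_le_liminf hqk.cont hφt hφt).trans ?_
    have h1 : Tendsto (fun i => En (kR q) ((ms ∘ φ) i : Measure (E n)) ((ms ∘ φ) i)) atTop (𝓝 I) := by
      have h2 : (fun i => En (kR q) ((ms ∘ φ) i : Measure (E n)) ((ms ∘ φ) i)) =
          fun i => VV (kR q) (K (φ i + N)) := by
        funext i
        exact hmE (φ i)
      rw [h2]
      have h3 : Tendsto (fun i => φ i + N) atTop atTop :=
        tendsto_atTop_mono (fun i => Nat.le_add_right _ _) hφ.tendsto_atTop
      exact hlim.comp h3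
    rw [h1.liminf_eq]
  -- the density problem
  set v : ℝ≥0∞ := ⨅ h ∈ Dens (μ : Measure (E n)), En k ((μ : Measure (E n)).withDensity h)
    ((μ : Measure (E n)).withDensity h) with hvdef
  have hv0 : v0 ≤ v := by
    refine le_iInf₂ fun h hh => ?_
    obtain ⟨hm, ⟨C, hC, hhC⟩, h1⟩ := hh
    have h2 := En_density_ge hk hP hPq hφt hTT (fun i x => hpot (φ i) x)
      (A := fun i => K (φ i + N)) (fun i => hmK (φ i)) (v0 := v0) (fun i => hv _) hm hC hhC
    rwa [h1, one_pow, mul_one] at h2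
  have hone : (fun _ => 1 : E n → ℝ≥0∞) ∈ Dens (μ : Measure (E n)) :=
    ⟨measurable_const, ⟨1, ENNReal.one_ne_top, fun _ => le_rfl⟩, by simp⟩
  have hEk : En k (μ : Measure (E n)) μ ≠ ⊤ :=
    En_lt_top_of_q hk hP hPq μ (ne_top_of_le_ne_top hI hμE)
  have hvT : v ≠ ⊤ := by
    refine ne_top_of_le_ne_top hEk ?_
    have h1 : v ≤ _ := iInf₂_le (fun _ => 1) hone
    have h2 : (μ : Measure (E n)).withDensity (fun _ => 1) = μ := by
      have := withDensity_one (μ := (μ : Measure (E n)))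
      exact this
    rwa [h2] at h1
  -- potential of the limit measure
  have hpotμ : ∀ x, Pot (kR q) (μ : Measure (E n)) x ≤ T := by
    intro x
    refine (Pot_le_liminf hqk.cont hφt x).trans ?_
    refine liminf_le_of_frequently_le' ?_
    exact Frequently.of_forall fun i => hpot (φ i) x
  -- minimising sequence
  have hex : ∀ j : ℕ, ∃ h ∈ Dens (μ : Measure (E n)), En k ((μ : Measure (E n)).withDensity h)
      ((μ : Measure (E n)).withDensity h) < v + (((j : ℝ≥0∞) + 1))⁻¹ := by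
    intro j
    have h1 : v < v + (((j : ℝ≥0∞) + 1))⁻¹ :=
      ENNReal.lt_add_right hvT (by simp)
    by_contra hcon
    push Not at hcon
    exact absurd (le_iInf₂ hcon) (not_le.mpr h1)
  choose hs hsD hsE using hex
  set ls : ℕ → ProbabilityMeasure (E n) := fun j =>
    mkP ((μ : Measure (E n)).withDensity (hs j)) (dens_univ (hsD j)) with hls
  have hls' : ∀ j, ((ls j : ProbabilityMeasure (E n)) : Measure (E n)) =
      (μ : Measure (E n)).withDensity (hs j) := fun j => rfl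
  obtain ⟨γ, hγL, ψ, hψ, hψt⟩ := exists_subseq ls (L := L) (fun j => by
    rw [hls']; exact dens_null hμL)
  have hElim : Tendsto (fun j : ℕ => v + (((ψ j : ℕ) : ℝ≥0∞) + 1)⁻¹) atTop (𝓝 v) := by
    have h1 : Tendsto (fun j : ℕ => (((j : ℝ≥0∞) + 1))⁻¹) atTop (𝓝 0) := by
      have h2 : Tendsto (fun j : ℕ => ((j + 1 : ℕ) : ℝ≥0∞)⁻¹) atTop (𝓝 0) :=
        ENNReal.tendsto_inv_nat_nhds_zero.comp (tendsto_add_atTop_nat 1)
      refine h2.congr fun j => ?_
      push_cast
      rfl
    have h3 := (h1.comp hψ.tendsto_atTop).const_add v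
    rw [add_zero] at h3
    exact h3
  have hγE : En k (γ : Measure (E n)) γ ≤ v := by
    refine (En_le_liminf hk.cont hψt hψt).trans ?_
    calc liminf (fun i => En k ((ls ∘ ψ) i : Measure (E n)) ((ls ∘ ψ) i)) atTop
        ≤ liminf (fun j : ℕ => v + (((ψ j : ℕ) : ℝ≥0∞) + 1)⁻¹) atTop := by
          refine liminf_le_liminf ?_ (by isBoundedDefault) (by isBoundedDefault)
          exact Eventually.of_forall fun j => (hsE (ψ j)).le
      _ = v := hElim.liminf_eq
  refine ⟨μ, γ, v, hv0, hvT, hμL, hγL, hμE, hγE, ?_⟩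
  -- key inequality for densities
  have key : ∀ h ∈ Dens (μ : Measure (E n)),
      v ≤ ∫⁻ x, Pot k (γ : Measure (E n)) x ∂((μ : Measure (E n)).withDensity h) := by
    intro h hh
    set ρ := (μ : Measure (E n)).withDensity h with hρ
    have hρ1 : ρ univ = 1 := dens_univ hh
    have : IsProbabilityMeasure ρ := ⟨hρ1⟩
    obtain ⟨hm, ⟨C, hC, hhC⟩, h1⟩ := hh
    obtain ⟨hcont, C', hC', hbd⟩ := Pot_continuous hk hP hPq (μ : Measure (E n)) hTT hpotμ hm hC hhC
    -- x = ∫ Pot k ρ dγ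
    set x : ℝ≥0∞ := ∫⁻ z, Pot k ρ z ∂(γ : Measure (E n)) with hx
    have hxC : x ≤ C' := by
      calc x ≤ ∫⁻ z, C' ∂(γ : Measure (E n)) := lintegral_mono hbd
        _ = C' := by simp
    have hxT : x ≠ ⊤ := ne_top_of_le_ne_top hC' hxC
    have hxlim : Tendsto (fun j => En k ((ls (ψ j) : ProbabilityMeasure (E n)) : Measure (E n)) ρ)
        atTop (𝓝 x) := by
      have hc2 : Continuous fun z => (Pot k ρ z).toNNReal := by
        rw [continuous_iff_continuousAt]
        intro z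
        exact (ENNReal.tendsto_toNNReal (ne_top_of_le_ne_top hC' (hbd z))).comp (hcont.tendsto z)
      have hd : ∀ z w, dist (Pot k ρ z).toNNReal (Pot k ρ w).toNNReal ≤ C'.toReal := by
        intro z w
        rw [NNReal.dist_eq, abs_sub_le_iff]
        have h2 : ∀ z, ((Pot k ρ z).toNNReal : ℝ) ≤ C'.toReal := fun z =>
          ENNReal.toReal_mono hC' (hbd z)
        have h3 : ∀ z, 0 ≤ ((Pot k ρ z).toNNReal : ℝ) := fun z => NNReal.coe_nonneg _
        constructor <;> linarith [h2 z, h2 w, h3 z, h3 w]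
      let f : BoundedContinuousFunction (E n) NNReal :=
        BoundedContinuousFunction.mkOfBound ⟨_, hc2⟩ C'.toReal hd
      have h4 := (ProbabilityMeasure.tendsto_iff_forall_lintegral_tendsto.mp hψt) f
      have h5 : ∀ z, (f z : ℝ≥0∞) = Pot k ρ z := fun z =>
        ENNReal.coe_toNNReal (ne_top_of_le_ne_top hC' (hbd z))
      simp only [h5] at h4
      exact h4
    -- energy of ρ
    have hRle : En k ρ ρ ≤ C' := by
      calc En k ρ ρ = ∫⁻ z, Pot k ρ z ∂ρ := rfl
        _ ≤ ∫⁻ z, C' ∂ρ := lintegral_mono hbd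
        _ = C' := by simp
    have hRT : En k ρ ρ ≠ ⊤ := ne_top_of_le_ne_top hC' hRle
    have hineq : ∀ t : ℝ, 0 < t → t < 1 →
        v ≤ ENNReal.ofReal (1 - t) ^ 2 * v + 2 * ENNReal.ofReal (1 - t) * ENNReal.ofReal t * x
          + ENNReal.ofReal t ^ 2 * En k ρ ρ := by
      intro t h0 h1t
      have hab : ENNReal.ofReal (1 - t) + ENNReal.ofReal t = 1 := by
        rw [← ENNReal.ofReal_add (by linarith) h0.le]
        simp
      have hj : ∀ j, v ≤ ENNReal.ofReal (1 - t) ^ 2 * (v + (((ψ j : ℕ) : ℝ≥0∞) + 1)⁻¹)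
          + 2 * ENNReal.ofReal (1 - t) * ENNReal.ofReal t *
            En k ((ls (ψ j) : ProbabilityMeasure (E n)) : Measure (E n)) ρ
          + ENNReal.ofReal t ^ 2 * En k ρ ρ := by
        intro j
        obtain ⟨hD, hE⟩ := dens_combo (hsD (ψ j)) ⟨hm, ⟨C, hC, hhC⟩, h1⟩ hab
        have h2 : v ≤ _ := iInf₂_le _ hD
        have : IsProbabilityMeasure ((μ : Measure (E n)).withDensity (hs (ψ j))) :=
          ⟨dens_univ (hsD (ψ j))⟩
        rw [hE, En_combo hkm _ _ _ _ ENNReal.ofReal_ne_top ENNReal.ofReal_ne_top] at h2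
        refine h2.trans ?_
        rw [hls']
        gcongr
        exact (hsE (ψ j)).le
      have hT1 : Tendsto (fun j : ℕ => ENNReal.ofReal (1 - t) ^ 2 *
          (v + (((ψ j : ℕ) : ℝ≥0∞) + 1)⁻¹)
          + 2 * ENNReal.ofReal (1 - t) * ENNReal.ofReal t *
            En k ((ls (ψ j) : ProbabilityMeasure (E n)) : Measure (E n)) ρ
          + ENNReal.ofReal t ^ 2 * En k ρ ρ) atTop
          (𝓝 (ENNReal.ofReal (1 - t) ^ 2 * v
            + 2 * ENNReal.ofReal (1 - t) * ENNReal.ofReal t * x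
            + ENNReal.ofReal t ^ 2 * En k ρ ρ)) := by
        refine Tendsto.add (Tendsto.add ?_ ?_) tendsto_const_nhds
        · exact ENNReal.Tendsto.const_mul hElim (Or.inr (by finiteness))
        · exact ENNReal.Tendsto.const_mul hxlim (Or.inr (by finiteness))
      exact ge_of_tendsto' hT1 hj
    have hvx : v ≤ x := by
      have h2 : v.toReal ≤ x.toReal := by
        apply lim_alg (R := (En k ρ ρ).toReal)
        intro t h0 h1t
        have h3 := ENNReal.toReal_mono (by finiteness) (hineq t h0 h1t)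
        rw [ENNReal.toReal_add (by finiteness) (by finiteness),
          ENNReal.toReal_add (by finiteness) (by finiteness)] at h3
        simp only [ENNReal.toReal_mul, ENNReal.toReal_pow, ENNReal.toReal_ofReal h0.le,
          ENNReal.toReal_ofReal (by linarith : (0 : ℝ) ≤ 1 - t)] at h3
        simp only [ENNReal.toReal_ofNat] at h3
        linarith
      exact (ENNReal.toReal_le_toReal hvT hxT).mp h2
    refine hvx.trans (le_of_eq ?_)
    have h6 := En_symm hkm (γ : Measure (E n)) ρ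
    exact h6
  -- conclusion
  have hPm : Measurable (Pot k (γ : Measure (E n))) := Pot_measurable hkm _
  rw [ae_iff]
  by_contra hne
  have hS0 : (μ : Measure (E n)) {x | Pot k (γ : Measure (E n)) x < v} ≠ 0 := by
    convert hne using 3
    ext x
    simp
  set S := {x | Pot k (γ : Measure (E n)) x < v} with hS
  have hSm : MeasurableSet S := measurableSet_lt hPm measurable_const
  set m := (μ : Measure (E n)) S with hm
  have hmT : m ≠ ⊤ := measure_ne_top _ _
  have hD : (S.indicator fun _ => m⁻¹) ∈ Dens (μ : Measure (E n)) := by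
    refine ⟨measurable_const.indicator hSm, ⟨m⁻¹, ENNReal.inv_ne_top.mpr hS0, fun x => ?_⟩, ?_⟩
    · exact indicator_le_self S (fun _ => m⁻¹) x
    · rw [lintegral_indicator hSm, lintegral_const, Measure.restrict_apply_univ]
      exact ENNReal.inv_mul_cancel hS0 hmT
  have h1 := key _ hD
  rw [lintegral_withDensity_eq_lintegral_mul _ (measurable_const.indicator hSm) hPm] at h1
  have h2 : ∫⁻ x, ((S.indicator fun _ => m⁻¹) * Pot k (γ : Measure (E n))) x ∂(μ : Measure (E n))
      = ∫⁻ x in S, m⁻¹ * Pot k (γ : Measure (E n)) x ∂(μ : Measure (E n)) := by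
    rw [← lintegral_indicator hSm]
    apply lintegral_congr
    intro x
    by_cases hx : x ∈ S <;> simp [hx]
  rw [h2] at h1
  have h3 : ∫⁻ x in S, m⁻¹ * Pot k (γ : Measure (E n)) x ∂(μ : Measure (E n)) <
      ∫⁻ x in S, m⁻¹ * v ∂(μ : Measure (E n)) := by
    have hfin2 : ∫⁻ x in S, m⁻¹ * Pot k (γ : Measure (E n)) x ∂(μ : Measure (E n)) ≠ ⊤ := by
      refine ne_top_of_le_ne_top ?_ (setLIntegral_mono measurable_const
        (g := fun _ => m⁻¹ * v) fun x hx => ?_)
      · rw [lintegral_const, Measure.restrict_apply_univ]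
        exact ENNReal.mul_ne_top (ENNReal.mul_ne_top (ENNReal.inv_ne_top.mpr hS0) hvT) hmT
      · gcongr
        exact (le_of_lt hx)
    refine setLIntegral_strict_mono hSm ?_ measurable_const hfin2 ?_
    · exact hS0
    · refine Eventually.of_forall fun x hx => ?_
      exact ENNReal.mul_lt_mul_right (ENNReal.inv_ne_zero.mpr hmT) (ENNReal.inv_ne_top.mpr hS0) hx
  rw [lintegral_const, Measure.restrict_apply_univ, mul_comm, ← mul_assoc,
    ENNReal.mul_inv_cancel hS0 hmT, one_mul] at h3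
  exact absurd h1 (not_le.mpr h3)

end R970.RC
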