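import Pool.Agent.R970.RC.Bas
import Pool.Agent.R970.RC.LC
import Pool.Agent.R970.RC.LIM
import Pool.Agent.R970.RC.V1
import Pool.Agent.R970.RC.V2

open MeasureTheory Set Filter Topology
open scoped ENNReal

namespace R970.RC

variable {n : ℕ}

theorem core {k : ℝ → ℝ≥0∞} {P q L : ℝ} (hk : IsKer k P) (hP : 0 < P) (hPq : P < q)
    (hqn : q < n) (hL : 0 < L) (hcpd : CPD k (Metric.closedBall (0 : E n) (L + 1)))
    {v0 M K₁ η₀ : ℝ} (hv0 : 0 < v0) (hM : 0 < M) (hK₁ : 0 < K₁) (hη₀ : 0 < η₀)
    (hopt : ∀ G : Set (E n), IsCompact G → G ⊆ Metric.closedBall 0 L → ∀ η : ℝ, 0 ≤ η → η ≤ η₀ →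
      ENNReal.ofReal (M - η) ≤ (VV (kR q) G)⁻¹ → VV k G ≤ ENNReal.ofReal (v0 + K₁ * η))
    (hseq : ∀ ε : ℝ, 0 < ε → ∃ K : Set (E n), IsCompact K ∧ K ⊆ Metric.closedBall 0 L ∧
      ENNReal.ofReal v0 ≤ VV k K ∧ VV (kR q) K ≤ ENNReal.ofReal ((1 + ε) / M)) :
    ∃ K₀ : Set (E n), IsCompact K₀ ∧ K₀ ⊆ Metric.closedBall 0 L ∧
      ENNReal.ofReal v0 ≤ VV k K₀ ∧ VV (kR q) K₀ ≤ ENNReal.ofReal (1 / M) := by
  have hkm : Measurable k := hk.meas
  have hqm : Measurable (kR q) := by unfold kR; fun_prop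
  -- the sequence
  have hpos : ∀ i : ℕ, (0 : ℝ) < 1 / ((i : ℝ) + 1) := fun i => by positivity
  choose K hKc hKL hKv hKq using fun i : ℕ => hseq (1 / ((i : ℝ) + 1)) (hpos i)
  obtain ⟨I, φ, hφ, hlim⟩ := CompactSpace.tendsto_subseq (fun i => VV (kR q) (K i))
  have hI : I ≤ ENNReal.ofReal (1 / M) := by
    have h1 : Tendsto (fun i : ℕ => ENNReal.ofReal ((1 + 1 / ((φ i : ℝ) + 1)) / M)) atTop
        (𝓝 (ENNReal.ofReal ((1 + 0) / M))) := by
      apply ENNReal.tendsto_ofReal
      apply Tendsto.div_const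
      apply Tendsto.const_add
      exact (tendsto_one_div_add_atTop_nhds_zero_nat (𝕜 := ℝ)).comp hφ.tendsto_atTop
    rw [add_zero] at h1
    exact le_of_tendsto_of_tendsto' hlim h1 fun i => hKq (φ i)
  have hIT : I ≠ ⊤ := ne_top_of_le_ne_top ENNReal.ofReal_ne_top hI
  obtain ⟨μ, γ, v, hvv, hvT, hμX, hγX, hμE, hγE, hμF⟩ := limit_triple hk hP hPq
    (K := fun i => K (φ i)) (fun i => hKc _) (fun i => hKL _) (v0 := ENNReal.ofReal v0) (I := I)
    (fun i => hKv _) hIT hlim
  have hXX : Metric.closedBall (0 : E n) L ⊆ Metric.closedBall 0 (L + 1) :=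
    Metric.closedBall_subset_closedBall (by linarith)
  have hγX' : (γ : Measure (E n)) (Metric.closedBall (0 : E n) (L + 1))ᶜ = 0 :=
    measure_mono_null (compl_subset_compl.mpr hXX) hγX
  have hFX : FF k L v γ ⊆ Metric.closedBall 0 (L + 1) := fun x hx => hXX hx.1
  have hFm := FF_measurable hkm L v γ
  have hμFF : (μ : Measure (E n)) (FF k L v γ)ᶜ = 0 := by
    have : (FF k L v γ)ᶜ ⊆ (Metric.closedBall (0 : E n) L)ᶜ ∪
        {x | ¬ v ≤ Pot k (γ : Measure (E n)) x} := by
      intro x hx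
      by_cases h : x ∈ Metric.closedBall (0 : E n) L
      · right
        intro h2
        exact hx ⟨h, h2⟩
      · left; exact h
    exact measure_mono_null this (measure_union_null hμX hμF)
  have hvF : v ≤ VV k (FF k L v γ) :=
    VV_ge_of_cpd hkm hcpd hFX γ hγX' hvT hγE (fun x hx => hx.2)
  have hqF : VV (kR q) (FF k L v γ) ≤ ENNReal.ofReal (1 / M) := by
    refine le_trans ?_ (hμE.trans hI)
    exact iInf₂_le μ hμFF
  -- v = v0
  have hv_le : v ≤ ENNReal.ofReal v0 := by
    have h1 : ∀ η : ℝ, 0 < η → η ≤ η₀ → η < M → v ≤ ENNReal.ofReal (v0 + K₁ * η) := by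
      intro η h1 h2 h3
      have h4 : VV (kR q) (FF k L v γ) < ENNReal.ofReal (1 / (M - η)) := by
        refine lt_of_le_of_lt hqF ?_
        apply (ENNReal.ofReal_lt_ofReal_iff (by have : 0 < M - η := by linarith
                                                positivity)).mpr
        apply one_div_lt_one_div_of_lt (by linarith) (by linarith)
      obtain ⟨C, hCF, hC, hCq⟩ := VV_inner hqm hFm h4
      have h5 : ENNReal.ofReal (M - η) ≤ (VV (kR q) C)⁻¹ := by
        rw [ENNReal.le_inv_iff_le_inv]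
        refine hCq.le.trans ?_
        rw [one_div, ENNReal.ofReal_inv_of_pos (by linarith)]
      have h6 := hopt C hC (fun x hx => (hCF hx).1) η h1.le h2 h5
      exact hvF.trans ((VV_anti k hCF).trans h6)
    have h2 : Tendsto (fun η : ℝ => ENNReal.ofReal (v0 + K₁ * η)) (𝓝[>] 0)
        (𝓝 (ENNReal.ofReal (v0 + K₁ * 0))) := by
      apply ENNReal.tendsto_ofReal
      apply Tendsto.mono_left _ nhdsWithin_le_nhds
      exact (continuous_const.add (continuous_const.mul continuous_id)).tendsto 0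
    rw [mul_zero, add_zero] at h2
    apply ge_of_tendsto h2
    have h3 : ∀ᶠ η : ℝ in 𝓝[>] 0, η < min η₀ M :=
      nhdsWithin_le_nhds (eventually_lt_nhds (lt_min hη₀ hM))
    filter_upwards [h3, self_mem_nhdsWithin] with η h3 h4
    exact h1 η h4 (h3.le.trans (min_le_left _ _)) (h3.trans_le (min_le_right _ _))
  have hveq : v = ENNReal.ofReal v0 := le_antisymm hv_le hvv
  have H : Loc k P q L v M K₁ η₀ μ γ :=
    { hk := hk, hP := hP, hPq := hPq, hqn := hqn, hL := hL, cpd := hcpd
      v0 := by rw [hveq]; simpa using hv0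
      vT := hvT, hM := hM, hK := hK₁, hη := hη₀, μX := hμX, γX := hγX, γE := hγE
      μE := hμE.trans hI
      μF := hμF
      opt := by
        intro G hG hGL η h1 h2 h3
        refine (hopt G hG hGL η h1 h2 h3).trans ?_
        rw [hveq, ENNReal.ofReal_add hv0.le (by positivity)] }
  have hEk : En k (μ : Measure (E n)) μ ≠ ⊤ :=
    En_lt_top_of_q hk hP hPq μ (ne_top_of_le_ne_top hIT hμE)
  -- the support
  set K₀ : Set (E n) := (μ : Measure (E n)).support with hK₀
  have hK₀L : K₀ ⊆ Metric.closedBall 0 L :=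
    Measure.support_subset_of_isClosed Metric.isClosed_closedBall (by
      rw [mem_ae_iff]; exact hμX)
  have hK₀0 : (μ : Measure (E n)) K₀ᶜ = 0 := Measure.measure_compl_support
  have hK₀c : IsCompact K₀ :=
    (isCompact_closedBall (0 : E n) L).of_isClosed_subset Measure.isClosed_support hK₀L
  have hpt : ∀ x ∈ K₀, v ≤ Pot k (γ : Measure (E n)) x := by
    intro x hx
    by_contra hcon
    push Not at hcon
    obtain ⟨r, hr, hrT⟩ := loc_zero H (hK₀L hx) hcon
    have h1 : 0 < (μ : Measure (E n)) (Metric.closedBall x r) := by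
      rw [hK₀, Measure.mem_support_iff_forall] at hx
      exact hx _ (Metric.closedBall_mem_nhds x hr)
    set S := FF k L v γ ∩ Metric.closedBall x r with hS
    have hSm : MeasurableSet S := hFm.inter Metric.isClosed_closedBall.measurableSet
    have h2 : (μ : Measure (E n)) S ≠ 0 := by
      intro h0
      have : (μ : Measure (E n)) (Metric.closedBall x r) ≤
          (μ : Measure (E n)) S + (μ : Measure (E n)) (FF k L v γ)ᶜ := by
        refine le_trans (measure_mono ?_) (measure_union_le _ _)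
        intro z hz
        by_cases h : z ∈ FF k L v γ
        · left; exact ⟨h, hz⟩
        · right; exact h
      rw [h0, hμFF, add_zero] at this
      exact absurd this (not_le.mpr h1)
    have h3 : VV k S * (((μ : Measure (E n)).restrict S) univ) ^ 2
        ≤ En k ((μ : Measure (E n)).restrict S) ((μ : Measure (E n)).restrict S) := by
      apply VV_mul_le hkm
      rw [Measure.restrict_apply hSm.compl]
      simp
    have h4 : En k ((μ : Measure (E n)).restrict S) ((μ : Measure (E n)).restrict S)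
        ≤ En k (μ : Measure (E n)) μ := by
      unfold En
      refine (lintegral_mono' Measure.restrict_le_self fun z => ?_)
      exact lintegral_mono' Measure.restrict_le_self le_rfl
    rw [hrT, Measure.restrict_apply_univ, ENNReal.top_mul (pow_ne_zero 2 h2)] at h3
    exact hEk (top_le_iff.mp (h3.trans h4))
  refine ⟨K₀, hK₀c, hK₀L, ?_, ?_⟩
  · rw [← hveq]
    exact VV_ge_of_cpd hkm hcpd (hK₀L.trans hXX) γ hγX' hvT hγE hpt
  · exact (iInf₂_le μ hK₀0).trans (hμE.trans hI)

end R970.RC
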