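import Pool.Agent.R970.RC.CPR

/-! RC-CPL: the log kernel is conditionally positive definite (helper660). -/

open MeasureTheory Set Filter Topology
open scoped ENNReal

namespace R970.RC

variable {n : ℕ}

namespace CPLaux

open CPRaux

/-- difference of Gaussians, divided by `t`. -/
noncomputable def hk (c t r : ℝ) : ℝ≥0∞ :=
  ENNReal.ofReal ((Real.exp (-(t * r ^ 2)) - Real.exp (-(t * c ^ 2))) / t)

theorem hk_eq {c t r : ℝ} (ht : 0 < t) (hr : 0 ≤ r) (hrc : r ≤ c) :
    hk c t r = ∫⁻ u in Ioc (r ^ 2) (c ^ 2), ENNReal.ofReal (Real.exp (-(t * u))) := by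
  have hle : r ^ 2 ≤ c ^ 2 := by gcongr
  have hint : ∫ u in (r ^ 2)..(c ^ 2), Real.exp (-(t * u))
      = (Real.exp (-(t * r ^ 2)) - Real.exp (-(t * c ^ 2))) / t := by
    have hd : ∀ u ∈ uIcc (r ^ 2) (c ^ 2),
        HasDerivAt (fun u => -(Real.exp (-(t * u))) / t) (Real.exp (-(t * u))) u := by
      intro u _
      have h1 : HasDerivAt (fun u : ℝ => -(t * u)) (-(t * 1)) u := ((hasDerivAt_id u).const_mul t).neg
      have h2 := h1.exp.neg.div_const t
      have ht0 := ht.ne'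
      have e : -(Real.exp (-(t * u)) * -(t * 1)) / t = Real.exp (-(t * u)) := by
        field_simp
      rw [e] at h2
      exact h2
    rw [intervalIntegral.integral_eq_sub_of_hasDerivAt hd
      (by apply Continuous.intervalIntegrable; fun_prop)]
    ring
  rw [hk, ← hint, intervalIntegral.integral_of_le hle, ofReal_integral_eq_lintegral_ofReal]
  · exact (Continuous.integrableOn_Ioc (by fun_prop))
  · exact Eventually.of_forall fun u => (Real.exp_pos _).le

theorem lint_exp {u : ℝ} (hu : 0 < u) :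
    ∫⁻ t in Ioi (0 : ℝ), ENNReal.ofReal (Real.exp (-(t * u))) = ENNReal.ofReal (u⁻¹) := by
  have h1 := integral_exp_mul_Ioi (a := -u) (by linarith) 0
  have h2 := integrableOn_exp_mul_Ioi (a := -u) (by linarith) 0
  have e : ∀ t : ℝ, Real.exp (-(t * u)) = Real.exp (-u * t) := by
    intro t; congr 1; ring
  simp_rw [e]
  rw [← ofReal_integral_eq_lintegral_ofReal h2 (Eventually.of_forall fun t => (Real.exp_pos _).le), h1]
  congr 1
  simp

theorem frul {c r : ℝ} (hr : 0 < r) (hrc : r ≤ c) :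
    ∫⁻ t in Ioi (0 : ℝ), hk c t r = ENNReal.ofReal (2 * Real.log (c / r)) := by
  have hc : 0 < c := hr.trans_le hrc
  have hle : r ^ 2 ≤ c ^ 2 := by gcongr
  have hr2 : 0 < r ^ 2 := by positivity
  have hc2 : 0 < c ^ 2 := by positivity
  rw [setLIntegral_congr_fun measurableSet_Ioi (fun t ht => hk_eq ht hr.le hrc)]
  rw [lintegral_lintegral_swap (by fun_prop)]
  rw [setLIntegral_congr_fun (g := fun u => ENNReal.ofReal u⁻¹) measurableSet_Ioc
    (fun u hu => lint_exp (hr2.trans hu.1))]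
  rw [← ofReal_integral_eq_lintegral_ofReal, ← intervalIntegral.integral_of_le hle,
    integral_inv_of_pos hr2 hc2, ← div_pow, Real.log_pow]
  · push_cast; rfl
  · have : ContinuousOn (fun u : ℝ => u⁻¹) (Icc (r ^ 2) (c ^ 2)) := by
      apply ContinuousOn.inv₀ continuousOn_id
      intro u hu
      exact (hr2.trans_le hu.1).ne'
    exact this.integrableOn_Icc.mono_set Ioc_subset_Icc_self
  · filter_upwards [ae_restrict_mem measurableSet_Ioc] with u hu
    exact inv_nonneg.2 (hr2.trans hu.1).le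

theorem hk_zero_top {c : ℝ} (hc : 0 < c) : ∫⁻ t in Ioi (0 : ℝ), hk c t 0 = ⊤ := by
  apply ENNReal.eq_top_of_forall_nnreal_le
  intro M
  set r : ℝ := c * Real.exp (-(M : ℝ)) with hrdef
  have hr : 0 < r := by positivity
  have hrc : r ≤ c := by
    have : Real.exp (-(M : ℝ)) ≤ 1 := Real.exp_le_one_iff.2 (by simp)
    nlinarith
  have hlog : Real.log (c / r) = M := by
    rw [hrdef, div_mul_eq_div_div, div_self hc.ne', one_div, ← Real.exp_neg, neg_neg, Real.log_exp]
  have h1 := frul hr hrc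
  rw [hlog] at h1
  calc (M : ℝ≥0∞) = ENNReal.ofReal (M : ℝ) := (ENNReal.ofReal_coe_nnreal).symm
    _ ≤ ENNReal.ofReal (2 * (M : ℝ)) := by
        apply ENNReal.ofReal_le_ofReal
        have := M.2
        have h0 : (0 : ℝ) ≤ M := this
        linarith
    _ = ∫⁻ t in Ioi (0 : ℝ), hk c t r := h1.symm
    _ ≤ ∫⁻ t in Ioi (0 : ℝ), hk c t 0 := by
        apply setLIntegral_mono' measurableSet_Ioi
        intro t ht
        have ht' : 0 < t := ht
        unfold hk
        apply ENNReal.ofReal_le_ofReal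
        gcongr

theorem rep {c b r : ℝ} (hc : 0 < c) (hr : 0 ≤ r) (hrc : r ≤ c * Real.exp (-b)) (hb : 0 ≤ b) :
    2 * kL c b r = ∫⁻ t in Ioi (0 : ℝ), hk c t r := by
  have hcc : c * Real.exp (-b) ≤ c := by
    have : Real.exp (-b) ≤ 1 := Real.exp_le_one_iff.2 (by linarith)
    nlinarith
  rcases hr.lt_or_eq with hr | rfl
  · rw [frul hr (hrc.trans hcc), kL, if_neg (not_le.2 hr)]
    have hlog : b ≤ Real.log (c / r) := by
      rw [Real.le_log_iff_exp_le (by positivity), le_div_iff₀ hr]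
      calc Real.exp b * r ≤ Real.exp b * (c * Real.exp (-b)) := by gcongr
        _ = c * (Real.exp b * Real.exp (-b)) := by ring
        _ = c := by rw [← Real.exp_add]; simp
    rw [max_eq_left hlog, ENNReal.ofReal_mul (by norm_num)]
    simp
  · rw [hk_zero_top hc]
    simp [kL]

theorem meas_hk (c : ℝ) : Measurable (fun p : ℝ × E n × E n => hk c p.1 (dist p.2.1 p.2.2)) := by
  unfold hk; fun_prop

theorem dist_le {D : ℝ} {x y : E n} (hx : x ∈ Metric.closedBall (0 : E n) D)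
    (hy : y ∈ Metric.closedBall (0 : E n) D) : dist x y ≤ 2 * D := by
  rw [Metric.mem_closedBall] at hx hy
  have := dist_triangle_right x y 0
  linarith

theorem ae_mem {X : Set (E n)} {μ : Measure (E n)} (h : μ Xᶜ = 0) : ∀ᵐ x ∂μ, x ∈ X := by
  rw [ae_iff]
  exact h

theorem En_congr {k k' : ℝ → ℝ≥0∞} {D : ℝ} (μ ν : Measure (E n))
    (hμ : μ (Metric.closedBall (0 : E n) D)ᶜ = 0) (hν : ν (Metric.closedBall (0 : E n) D)ᶜ = 0)
    (h : ∀ r, 0 ≤ r → r ≤ 2 * D → k r = k' r) : En k μ ν = En k' μ ν := by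
  unfold En
  apply lintegral_congr_ae
  filter_upwards [ae_mem hμ] with x hx
  apply lintegral_congr_ae
  filter_upwards [ae_mem hν] with y hy
  exact h _ dist_nonneg (dist_le hx hy)

theorem En_rep {c b D : ℝ} (hc : 0 < c) (hb : 0 ≤ b) (h : 2 * D ≤ c * Real.exp (-b))
    (μ ν : Measure (E n)) [SFinite μ] [SFinite ν]
    (hμ : μ (Metric.closedBall (0 : E n) D)ᶜ = 0) (hν : ν (Metric.closedBall (0 : E n) D)ᶜ = 0) :
    2 * En (kL c b) μ ν = ∫⁻ t in Ioi (0 : ℝ), En (hk c t) μ ν := by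
  have h1 : 2 * En (kL c b) μ ν = En (fun r => 2 * kL c b r) μ ν := by
    rw [En, ← lintegral_const_mul' _ _ (by simp), En]
    refine lintegral_congr fun x => ?_
    rw [lintegral_const_mul' _ _ (by simp)]
  have h2 : En (fun r => 2 * kL c b r) μ ν = En (fun r => ∫⁻ t in Ioi (0 : ℝ), hk c t r) μ ν :=
    En_congr μ ν hμ hν (fun r hr hr' => rep hc hr (hr'.trans h) hb)
  rw [h1, h2, En]
  exact swap3 (volume.restrict (Ioi (0 : ℝ))) μ ν (fun t x y => hk c t (dist x y)) (meas_hk c)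

theorem En_hk {c D t : ℝ} (h : 2 * D ≤ c) (ht : 0 < t)
    (μ ν : Measure (E n)) [SFinite μ] [SFinite ν]
    (hμ : μ (Metric.closedBall (0 : E n) D)ᶜ = 0) (hν : ν (Metric.closedBall (0 : E n) D)ᶜ = 0) :
    En (hk c t) μ ν + ENNReal.ofReal (Real.exp (-(t * c ^ 2)) / t) * (ν univ * μ univ)
      = ENNReal.ofReal t⁻¹ * En (gk t) μ ν := by
  have h1 : En (fun r => hk c t r + ENNReal.ofReal (Real.exp (-(t * c ^ 2)) / t)) μ ν
      = En (fun r => ENNReal.ofReal t⁻¹ * gk t r) μ ν := by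
    apply En_congr μ ν hμ hν
    intro r hr hr'
    have hrc : r ≤ c := hr'.trans h
    have hexp : Real.exp (-(t * c ^ 2)) ≤ Real.exp (-(t * r ^ 2)) := by
      apply Real.exp_le_exp.2
      have : r ^ 2 ≤ c ^ 2 := by gcongr
      nlinarith
    rw [hk, gk, ← ENNReal.ofReal_add, ← ENNReal.ofReal_mul (by positivity)]
    · congr 1
      field_simp
      ring
    · apply div_nonneg _ ht.le
      linarith
    · positivity
  have h2 : En (fun r => ENNReal.ofReal t⁻¹ * gk t r) μ ν = ENNReal.ofReal t⁻¹ * En (gk t) μ ν := by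
    rw [En, En, ← lintegral_const_mul' _ _ (by simp)]
    refine lintegral_congr fun x => ?_
    rw [lintegral_const_mul' _ _ (by simp)]
  rw [← h2, ← h1]
  unfold En
  simp_rw [lintegral_add_right _ measurable_const, lintegral_const]
  rw [← mul_assoc]

theorem hk_pd {c D t : ℝ} (h : 2 * D ≤ c) (ht : 0 < t)
    (μ ν : Measure (E n)) [IsFiniteMeasure μ] [IsFiniteMeasure ν] (hm : μ univ = ν univ)
    (hμ : μ (Metric.closedBall (0 : E n) D)ᶜ = 0) (hν : ν (Metric.closedBall (0 : E n) D)ᶜ = 0) :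
    2 * En (hk c t) μ ν ≤ En (hk c t) μ μ + En (hk c t) ν ν := by
  have e1 := En_hk h ht μ ν hμ hν
  have e2 := En_hk h ht μ μ hμ hμ
  have e3 := En_hk h ht ν ν hν hν
  rw [← hm] at e1 e3
  set K := ENNReal.ofReal (Real.exp (-(t * c ^ 2)) / t) * (μ univ * μ univ) with hK
  have hKT : K ≠ ⊤ := by
    apply ENNReal.mul_ne_top ENNReal.ofReal_ne_top
    exact ENNReal.mul_ne_top (measure_ne_top μ _) (measure_ne_top μ _)
  have hpd := gauss_pd ht μ ν
  have h2 : 2 * (En (hk c t) μ ν + K) ≤ (En (hk c t) μ μ + K) + (En (hk c t) ν ν + K) := by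
    rw [e1, e2, e3, mul_left_comm, ← mul_add]
    gcongr
  have h3 : 2 * En (hk c t) μ ν + 2 * K ≤ En (hk c t) μ μ + En (hk c t) ν ν + 2 * K := by
    calc 2 * En (hk c t) μ ν + 2 * K = 2 * (En (hk c t) μ ν + K) := by ring
      _ ≤ (En (hk c t) μ μ + K) + (En (hk c t) ν ν + K) := h2
      _ = En (hk c t) μ μ + En (hk c t) ν ν + 2 * K := by ring
  exact (ENNReal.add_le_add_iff_right (ENNReal.mul_ne_top (by simp) hKT)).1 h3

theorem meas_En_hk (c : ℝ) (μ ν : Measure (E n)) [SFinite μ] [SFinite ν] :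
    Measurable (fun t => En (hk c t) μ ν) := by
  have hm : Measurable (fun p : (ℝ × E n) × E n => hk c p.1.1 (dist p.1.2 p.2)) := by
    unfold hk; fun_prop
  have h3 := (hm.lintegral_prod_right' (ν := ν)).lintegral_prod_right' (ν := μ)
  exact h3

end CPLaux

open CPLaux in
theorem cpd_kL {c b D : ℝ} (hc : 0 < c) (hb : 0 ≤ b) (hD : 0 < D)
    (h : 2 * D ≤ c * Real.exp (-b)) : CPD (kL c b) (Metric.closedBall (0 : E n) D) := by
  intro μ ν hμ hν hm hμX hνX
  have hcc : c * Real.exp (-b) ≤ c := by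
    have : Real.exp (-b) ≤ 1 := Real.exp_le_one_iff.2 (by linarith)
    nlinarith
  have h2 : (2 : ℝ≥0∞) ≠ 0 := by simp
  have h2' : (2 : ℝ≥0∞) ≠ ⊤ := by simp
  rw [← ENNReal.mul_le_mul_iff_right h2 h2', mul_add, En_rep hc hb h μ ν hμX hνX,
    En_rep hc hb h μ μ hμX hμX, En_rep hc hb h ν ν hνX hνX, ← lintegral_const_mul' _ _ h2',
    ← lintegral_add_left (meas_En_hk c μ μ)]
  apply setLIntegral_mono' measurableSet_Ioi
  intro t ht
  exact hk_pd (h.trans hcc) ht μ ν hm hμX hνX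

end R970.RC
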