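import Pool.Agent.R970.RC.Defs

/-! RC-CPR: Riesz kernels are positive definite (helper660). -/

open MeasureTheory Set Filter Topology
open scoped ENNReal

namespace R970.RC

variable {n : ℕ}

namespace CPRaux

/-- Tonelli for three integrals. -/
theorem swap3 {T : Type*} [MeasurableSpace T] (m : Measure T) [SFinite m]
    (μ ν : Measure (E n)) [SFinite μ] [SFinite ν] (A : T → E n → E n → ℝ≥0∞)
    (hA : Measurable (fun p : T × E n × E n => A p.1 p.2.1 p.2.2)) :
    ∫⁻ x, ∫⁻ y, ∫⁻ z, A z x y ∂m ∂ν ∂μ = ∫⁻ z, ∫⁻ x, ∫⁻ y, A z x y ∂ν ∂μ ∂m := by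
  have h1 : ∀ x, ∫⁻ y, ∫⁻ z, A z x y ∂m ∂ν = ∫⁻ z, ∫⁻ y, A z x y ∂ν ∂m := by
    intro x
    apply lintegral_lintegral_swap
    have : Measurable (fun p : E n × T => A p.2 x p.1) :=
      hA.comp (measurable_snd.prodMk (measurable_const.prodMk measurable_fst))
    exact this.aemeasurable
  simp_rw [h1]
  rw [lintegral_lintegral_swap]
  have h2 : Measurable (fun p : (E n × T) × E n => A p.1.2 p.1.1 p.2) :=
    hA.comp ((measurable_snd.comp measurable_fst).prodMk
      ((measurable_fst.comp measurable_fst).prodMk measurable_snd))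
  have h3 := h2.lintegral_prod_right' (ν := ν)
  exact h3.aemeasurable

/-- Gaussian kernel -/
noncomputable def gk (t r : ℝ) : ℝ≥0∞ := ENNReal.ofReal (Real.exp (-(t * r ^ 2)))

theorem two_mul_le (a b : ℝ≥0∞) : 2 * (a * b) ≤ a * a + b * b := by
  rcases eq_or_ne a ⊤ with rfl | ha
  · simp
  rcases eq_or_ne b ⊤ with rfl | hb
  · simp
  lift a to NNReal using ha
  lift b to NNReal using hb
  have : (2 : NNReal) * (a * b) ≤ a * a + b * b := by
    rw [← NNReal.coe_le_coe]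
    push_cast
    nlinarith [sq_nonneg ((a : ℝ) - b)]
  exact_mod_cast this

/-- the total Gaussian mass -/
noncomputable def G (n : ℕ) (b : ℝ) : ℝ≥0∞ := ∫⁻ z : E n, ENNReal.ofReal (Real.exp (-b * ‖z‖ ^ 2))

theorem G_eq {b : ℝ} (hb : 0 < b) :
    G n b = ENNReal.ofReal (∫ z : E n, Real.exp (-b * ‖z‖ ^ 2)) ∧
      0 < ∫ z : E n, Real.exp (-b * ‖z‖ ^ 2) := by
  have h1 := GaussianFourier.integral_rexp_neg_mul_sq_norm (V := E n) hb
  have hpos : 0 < ∫ z : E n, Real.exp (-b * ‖z‖ ^ 2) := by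
    rw [h1]; positivity
  refine ⟨?_, hpos⟩
  have hint : Integrable (fun z : E n => Real.exp (-b * ‖z‖ ^ 2)) := by
    by_contra hcon
    rw [integral_undef hcon] at hpos
    exact lt_irrefl _ hpos
  rw [G, ofReal_integral_eq_lintegral_ofReal hint]
  exact Filter.Eventually.of_forall fun z => (Real.exp_pos _).le

theorem G_ne_zero {b : ℝ} (hb : 0 < b) : G n b ≠ 0 := by
  rw [(G_eq hb).1]
  exact (ENNReal.ofReal_pos.2 (G_eq (n := n) hb).2).ne'

theorem G_ne_top {b : ℝ} (hb : 0 < b) : G n b ≠ ⊤ := by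
  rw [(G_eq hb).1]
  exact ENNReal.ofReal_ne_top

theorem gauss_id (t : ℝ) (x y z : E n) :
    Real.exp (-(2 * t * ‖x - z‖ ^ 2)) * Real.exp (-(2 * t * ‖y - z‖ ^ 2))
      = Real.exp (-(t * dist x y ^ 2)) * Real.exp (-(4 * t) * ‖z - (1 / 2 : ℝ) • (x + y)‖ ^ 2) := by
  rw [← Real.exp_add, ← Real.exp_add]
  congr 1
  have hp := parallelogram_law_with_norm ℝ (x - z) (y - z)
  have e1 : (x - z) + (y - z) = (-2 : ℝ) • (z - (1 / 2 : ℝ) • (x + y)) := by
    module
  have e2 : (x - z) - (y - z) = x - y := by abel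
  rw [e1, e2, norm_smul] at hp
  have h2 : ‖(-2 : ℝ)‖ = 2 := by norm_num
  rw [h2] at hp
  rw [dist_eq_norm]
  linear_combination (t : ℝ) * hp

theorem gauss_conv (t : ℝ) (x y : E n) :
    ∫⁻ z, ENNReal.ofReal (Real.exp (-(2 * t * ‖x - z‖ ^ 2)))
        * ENNReal.ofReal (Real.exp (-(2 * t * ‖y - z‖ ^ 2)))
      = gk t (dist x y) * G n (4 * t) := by
  have h : ∀ z, ENNReal.ofReal (Real.exp (-(2 * t * ‖x - z‖ ^ 2)))
        * ENNReal.ofReal (Real.exp (-(2 * t * ‖y - z‖ ^ 2)))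
      = gk t (dist x y) * ENNReal.ofReal (Real.exp (-(4 * t) * ‖z - (1 / 2 : ℝ) • (x + y)‖ ^ 2)) := by
    intro z
    rw [gk, ← ENNReal.ofReal_mul (Real.exp_pos _).le, ← ENNReal.ofReal_mul (Real.exp_pos _).le,
      gauss_id]
  simp_rw [h]
  rw [lintegral_const_mul _ (by fun_prop)]
  congr 1
  rw [G]
  exact lintegral_sub_right_eq_self
    (fun z : E n => ENNReal.ofReal (Real.exp (-(4 * t) * ‖z‖ ^ 2))) _

theorem meas_gk (t : ℝ) : Measurable (Function.uncurry (fun x y : E n => gk t (dist x y))) := by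
  unfold gk Function.uncurry; fun_prop

theorem En_gk (t : ℝ) (μ ν : Measure (E n)) [SFinite μ] [SFinite ν] :
    En (gk t) μ ν * G n (4 * t) = ∫⁻ z,
      (∫⁻ x, ENNReal.ofReal (Real.exp (-(2 * t * ‖x - z‖ ^ 2))) ∂μ)
        * (∫⁻ y, ENNReal.ofReal (Real.exp (-(2 * t * ‖y - z‖ ^ 2))) ∂ν) := by
  have hmeas := meas_gk (n := n) t
  have h1 : En (gk t) μ ν * G n (4 * t)
      = ∫⁻ x, ∫⁻ y, (∫⁻ z, ENNReal.ofReal (Real.exp (-(2 * t * ‖x - z‖ ^ 2)))
        * ENNReal.ofReal (Real.exp (-(2 * t * ‖y - z‖ ^ 2)))) ∂ν ∂μ := by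
    have h5 : Measurable (fun x : E n => ∫⁻ y, gk t (dist x y) ∂ν) :=
      Measurable.lintegral_prod_right (f := fun x y : E n => gk t (dist x y)) hmeas
    rw [En, ← lintegral_mul_const _ h5]
    refine lintegral_congr fun x => ?_
    have h6 : Measurable (fun y : E n => gk t (dist x y)) := by
      unfold gk; fun_prop
    rw [← lintegral_mul_const _ h6]
    refine lintegral_congr fun y => ?_
    rw [gauss_conv]
  rw [h1, swap3 volume μ ν (fun z x y => ENNReal.ofReal (Real.exp (-(2 * t * ‖x - z‖ ^ 2)))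
        * ENNReal.ofReal (Real.exp (-(2 * t * ‖y - z‖ ^ 2)))) (by fun_prop)]
  refine lintegral_congr fun z => ?_
  rw [← lintegral_mul_const _ (by fun_prop)]
  refine lintegral_congr fun x => ?_
  rw [lintegral_const_mul _ (by fun_prop)]

theorem gauss_pd {t : ℝ} (ht : 0 < t) (μ ν : Measure (E n)) [SFinite μ] [SFinite ν] :
    2 * En (gk t) μ ν ≤ En (gk t) μ μ + En (gk t) ν ν := by
  have h4 : 0 < 4 * t := by linarith
  have hG0 := G_ne_zero (n := n) h4
  have hGT := G_ne_top (n := n) h4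
  rw [← ENNReal.mul_le_mul_iff_left hG0 hGT, add_mul, mul_assoc, En_gk, En_gk, En_gk]
  rw [← lintegral_const_mul', ← lintegral_add_left']
  · apply lintegral_mono
    intro z
    exact two_mul_le _ _
  · have : Measurable (fun z : E n => ∫⁻ x, ENNReal.ofReal (Real.exp (-(2 * t * ‖x - z‖ ^ 2))) ∂μ) := by
      apply Measurable.lintegral_prod_right' (f := fun p : E n × E n =>
        ENNReal.ofReal (Real.exp (-(2 * t * ‖p.2 - p.1‖ ^ 2))))
      fun_prop
    exact (this.mul this).aemeasurable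
  · simp

theorem rep_pos {s r : ℝ} (hs : 0 < s) (hr : 0 < r) :
    ∫⁻ t in Ioi (0 : ℝ), ENNReal.ofReal (t ^ (s / 2 - 1)) * gk t r
      = ENNReal.ofReal (Real.Gamma (s / 2)) * kR s r := by
  have hs2 : 0 < s / 2 := by positivity
  have hr2 : 0 < r ^ 2 := by positivity
  have key := Real.integral_rpow_mul_exp_neg_mul_Ioi hs2 hr2
  have hG := Real.Gamma_pos_of_pos hs2
  have hpos : 0 < ∫ t in Ioi (0 : ℝ), t ^ (s / 2 - 1) * Real.exp (-(r ^ 2 * t)) := by
    rw [key]; positivity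
  have hint : IntegrableOn (fun t : ℝ => t ^ (s / 2 - 1) * Real.exp (-(r ^ 2 * t))) (Ioi 0) := by
    by_contra hcon
    rw [integral_undef hcon] at hpos
    exact lt_irrefl _ hpos
  have h1 : ∫⁻ t in Ioi (0 : ℝ), ENNReal.ofReal (t ^ (s / 2 - 1)) * gk t r
      = ∫⁻ t in Ioi (0 : ℝ), ENNReal.ofReal (t ^ (s / 2 - 1) * Real.exp (-(r ^ 2 * t))) := by
    apply setLIntegral_congr_fun measurableSet_Ioi
    intro t ht
    simp only [gk]
    rw [ENNReal.ofReal_mul (Real.rpow_nonneg (le_of_lt ht) _)]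
    congr 3
    ring
  rw [h1, ← ofReal_integral_eq_lintegral_ofReal hint, key, mul_comm,
    ENNReal.ofReal_mul hG.le]
  · congr 1
    rw [kR, ENNReal.ofReal_rpow_of_pos hr]
    congr 1
    rw [one_div, Real.inv_rpow hr2.le, ← Real.rpow_natCast, ← Real.rpow_mul hr.le,
      Real.rpow_neg hr.le]
    congr 2
    push_cast; ring
  · filter_upwards [ae_restrict_mem measurableSet_Ioi] with t ht
    have : 0 < t := ht
    positivity

theorem gk_anti {t : ℝ} (ht : 0 ≤ t) {r r' : ℝ} (hr : 0 ≤ r) (h : r ≤ r') : gk t r' ≤ gk t r := by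
  unfold gk
  apply ENNReal.ofReal_le_ofReal
  apply Real.exp_le_exp.2
  have : r ^ 2 ≤ r' ^ 2 := by gcongr
  nlinarith

theorem rep {s r : ℝ} (hs : 0 < s) (hr : 0 ≤ r) :
    ∫⁻ t in Ioi (0 : ℝ), ENNReal.ofReal (t ^ (s / 2 - 1)) * gk t r
      = ENNReal.ofReal (Real.Gamma (s / 2)) * kR s r := by
  rcases hr.lt_or_eq with hr | rfl
  · exact rep_pos hs hr
  have hG := Real.Gamma_pos_of_pos (show 0 < s / 2 by positivity)
  have hk0 : kR s 0 = ⊤ := by
    simp [kR, ENNReal.zero_rpow_of_neg (neg_neg_of_pos hs)]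
  rw [hk0, ENNReal.mul_top (ENNReal.ofReal_pos.2 hG).ne']
  have hle : ∀ r : ℝ, 0 < r → ENNReal.ofReal (Real.Gamma (s / 2)) * kR s r
      ≤ ∫⁻ t in Ioi (0 : ℝ), ENNReal.ofReal (t ^ (s / 2 - 1)) * gk t 0 := by
    intro r hr
    rw [← rep_pos hs hr]
    apply setLIntegral_mono' measurableSet_Ioi
    intro t ht
    gcongr
    exact gk_anti (le_of_lt ht) le_rfl hr.le
  have hcont : Continuous (kR s) := by
    unfold kR
    exact (ENNReal.continuous_rpow_const).comp ENNReal.continuous_ofReal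
  have hlim : Tendsto (fun r => ENNReal.ofReal (Real.Gamma (s / 2)) * kR s r) (𝓝[>] 0) (𝓝 ⊤) := by
    have h1 : Tendsto (kR s) (𝓝[>] 0) (𝓝 ⊤) := by
      have := hcont.tendsto 0
      rw [hk0] at this
      exact this.mono_left nhdsWithin_le_nhds
    have h2 := ENNReal.Tendsto.const_mul (a := ENNReal.ofReal (Real.Gamma (s / 2))) h1
      (Or.inr ENNReal.ofReal_ne_top)
    rwa [ENNReal.mul_top (ENNReal.ofReal_pos.2 hG).ne'] at h2
  refine top_le_iff.1 (le_of_tendsto hlim ?_)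
  filter_upwards [self_mem_nhdsWithin] with r hr using hle r hr

theorem En_rep {s : ℝ} (hs : 0 < s) (μ ν : Measure (E n)) [SFinite μ] [SFinite ν] :
    ENNReal.ofReal (Real.Gamma (s / 2)) * En (kR s) μ ν
      = ∫⁻ t in Ioi (0 : ℝ), ENNReal.ofReal (t ^ (s / 2 - 1)) * En (gk t) μ ν := by
  have hm : Measurable (fun p : ℝ × E n × E n => ENNReal.ofReal (p.1 ^ (s / 2 - 1))
      * gk p.1 (dist p.2.1 p.2.2)) := by
    unfold gk; fun_prop
  have h1 : ENNReal.ofReal (Real.Gamma (s / 2)) * En (kR s) μ ν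
      = ∫⁻ x, ∫⁻ y, (∫⁻ t in Ioi (0 : ℝ), ENNReal.ofReal (t ^ (s / 2 - 1)) * gk t (dist x y)) ∂ν ∂μ := by
    simp_rw [rep hs dist_nonneg]
    rw [En, ← lintegral_const_mul' _ _ ENNReal.ofReal_ne_top]
    congr 1
    ext x
    rw [lintegral_const_mul' _ _ ENNReal.ofReal_ne_top]
  rw [h1, swap3 (volume.restrict (Ioi (0 : ℝ))) μ ν
    (fun t x y => ENNReal.ofReal (t ^ (s / 2 - 1)) * gk t (dist x y)) hm]
  congr 1
  ext t
  rw [En, ← lintegral_const_mul' _ _ ENNReal.ofReal_ne_top]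
  congr 1
  ext x
  rw [lintegral_const_mul' _ _ ENNReal.ofReal_ne_top]

end CPRaux

open CPRaux in
theorem cpd_kR {s : ℝ} (hs : 0 < s) (X : Set (E n)) : CPD (kR s) X := by
  intro μ ν hμ hν _ _ _
  have hG := Real.Gamma_pos_of_pos (show 0 < s / 2 by positivity)
  have h0 : ENNReal.ofReal (Real.Gamma (s / 2)) ≠ 0 := (ENNReal.ofReal_pos.2 hG).ne'
  rw [← ENNReal.mul_le_mul_iff_right h0 ENNReal.ofReal_ne_top, mul_add, mul_left_comm,
    En_rep hs, En_rep hs, En_rep hs, ← lintegral_const_mul' _ _ (by simp), ← lintegral_add_left]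
  · apply setLIntegral_mono' measurableSet_Ioi
    intro t ht
    rw [mul_left_comm, ← mul_add]
    gcongr
    exact gauss_pd ht μ ν
  · apply Measurable.mul (by fun_prop)
    have hm : Measurable (fun p : (ℝ × E n) × E n => gk p.1.1 (dist p.1.2 p.2)) := by
      unfold gk; fun_prop
    have h3 := (hm.lintegral_prod_right' (ν := μ)).lintegral_prod_right' (ν := μ)
    exact h3

end R970.RC
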