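import Pool.Agent.R970.RC.K
import Pool.Agent.R970.RC.V1
import Pool.Agent.R970.RC.V2

/-! RC-CUT -/

open MeasureTheory Set Filter Topology
open scoped ENNReal

namespace R970.RC

variable {n : ℕ}

theorem cut_meas {s : ℝ} (hs : 0 < s) : Measurable (kR s) := (isKer_kR hs).cont.measurable

/-- optimality for measurable sets -/
theorem cut_opt {p q M : ℝ} (hp : 0 < p) (hpq : p < q) (hM : 0 < M)
    (hopt : ∀ K : Set (E n), IsCompact K →
      (VV (kR p) K) ^ (q / p) ≤ ENNReal.ofReal M * VV (kR q) K)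
    {A : Set (E n)} (hA : MeasurableSet A) :
    (VV (kR p) A) ^ (q / p) ≤ ENNReal.ofReal M * VV (kR q) A := by
  by_contra h
  push Not at h
  have hM0 : ENNReal.ofReal M ≠ 0 := by simpa using hM
  have hMt : ENNReal.ofReal M ≠ ⊤ := ENNReal.ofReal_ne_top
  have h1 : VV (kR q) A < (VV (kR p) A) ^ (q / p) / ENNReal.ofReal M := by
    rw [ENNReal.lt_div_iff_mul_lt (Or.inl hM0) (Or.inl hMt), mul_comm]
    exact h
  obtain ⟨C, hCA, hC, hlt⟩ := VV_inner (cut_meas (hp.trans hpq)) hA h1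
  have h2 := hopt C hC
  have h3 : (VV (kR p) A) ^ (q / p) ≤ (VV (kR p) C) ^ (q / p) :=
    ENNReal.rpow_le_rpow (VV_anti _ hCA) (by have := hp.trans hpq; positivity)
  rw [ENNReal.lt_div_iff_mul_lt (Or.inl hM0) (Or.inl hMt), mul_comm] at hlt
  exact absurd (h3.trans h2) (not_le.mpr hlt)

/-- mass bound -/
theorem cut_mass {k : ℝ → ℝ≥0∞} (hk : Measurable k) {G B : Set (E n)} (hB : MeasurableSet B)
    (hV : VV k G ≤ 2) (ρ : ProbabilityMeasure (E n)) (hρ : (ρ : Measure (E n)) Gᶜ = 0) {τ b : ℝ}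
    (h0 : 0 < τ) (h1 : τ ≤ 1 / 2) (hτb : τ ≤ b)
    (hτ : En k (ρ : Measure (E n)) ρ ≤ VV k G + ENNReal.ofReal (τ ^ 2))
    (hb : (VV k (G ∩ B))⁻¹ ≤ ENNReal.ofReal b) :
    (ρ : Measure (E n)) B ≤ ENNReal.ofReal (3 * b) := by
  have hb0 : 0 < b := h0.trans_le hτb
  have hVt : VV k G ≠ ⊤ := (hV.trans_lt (by simp)).ne
  have hm := VV_mass hk hB hVt ρ hρ h0 h1 hτ
  have hρt : (ρ : Measure (E n)) B ≠ ⊤ := measure_ne_top _ _
  obtain ⟨m, hm0, hmm⟩ : ∃ m : ℝ, 0 ≤ m ∧ (ρ : Measure (E n)) B = ENNReal.ofReal m :=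
    ⟨((ρ : Measure (E n)) B).toReal, ENNReal.toReal_nonneg, (ENNReal.ofReal_toReal hρt).symm⟩
  rw [hmm] at hm ⊢
  have hb' : ENNReal.ofReal (1 / b) ≤ VV k (G ∩ B) := by
    rw [one_div, ENNReal.ofReal_inv_of_pos hb0]
    exact ENNReal.inv_le_iff_inv_le.mp hb
  have hm2 : ENNReal.ofReal (m ^ 2 * (1 / b)) ≤ ENNReal.ofReal (2 * m + 3 * τ) := by
    calc ENNReal.ofReal (m ^ 2 * (1 / b)) = ENNReal.ofReal m ^ 2 * ENNReal.ofReal (1 / b) := by
          rw [ENNReal.ofReal_mul (by positivity), ENNReal.ofReal_pow hm0]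
      _ ≤ ENNReal.ofReal m ^ 2 * VV k (G ∩ B) := by gcongr
      _ ≤ _ := hm
      _ ≤ 2 * ENNReal.ofReal m + ENNReal.ofReal τ * (1 + 2) := by gcongr
      _ = ENNReal.ofReal (2 * m + 3 * τ) := by
          rw [ENNReal.ofReal_add (by positivity) (by positivity), ENNReal.ofReal_mul (by norm_num),
            ENNReal.ofReal_mul (by norm_num)]
          norm_num
          ring
  have hm3 : m ^ 2 * (1 / b) ≤ 2 * m + 3 * τ :=
    (ENNReal.ofReal_le_ofReal_iff (by positivity)).mp hm2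
  have hm4 : m ^ 2 ≤ (2 * m + 3 * τ) * b := by
    have := mul_le_mul_of_nonneg_right hm3 hb0.le
    field_simp at this
    linarith
  apply ENNReal.ofReal_le_ofReal
  by_contra hcon
  push Not at hcon
  nlinarith

theorem cut_split {ρ : Measure (E n)} (f : E n → ℝ≥0∞) (x : E n) (t : ℕ → ℝ) (m : ℕ) :
    ∫⁻ z in Metric.closedBall x (t m), f z ∂ρ ≤ ∫⁻ z in Metric.closedBall x (t 0), f z ∂ρ
      + ∑ i ∈ Finset.range m,
        ∫⁻ z in Metric.closedBall x (t (i+1)) \ Metric.closedBall x (t i), f z ∂ρ := by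
  induction m with
  | zero => simp
  | succ m ih =>
    rw [Finset.sum_range_succ, ← add_assoc]
    have : Metric.closedBall x (t (m+1)) ⊆ Metric.closedBall x (t m) ∪
        (Metric.closedBall x (t (m+1)) \ Metric.closedBall x (t m)) := by
      intro z hz
      by_cases h : z ∈ Metric.closedBall x (t m)
      · exact Or.inl h
      · exact Or.inr ⟨hz, h⟩
    calc _ ≤ ∫⁻ z in (Metric.closedBall x (t m) ∪
          (Metric.closedBall x (t (m+1)) \ Metric.closedBall x (t m))), f z ∂ρ :=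
          lintegral_mono_set this
      _ ≤ _ := lintegral_union_le _ _ _
      _ ≤ _ := by gcongr

theorem cut_piece {k : ℝ → ℝ≥0∞} (ha : Antitone k) {ρ : Measure (E n)} {S : Set (E n)}
    (hS : MeasurableSet S) {y : E n} {d : ℝ}
    (h : ∀ z ∈ S, d ≤ dist y z) {a b : ℝ≥0∞} (hk : k d ≤ a) (hm : ρ S ≤ b) :
    ∫⁻ z in S, k (dist y z) ∂ρ ≤ a * b := by
  calc ∫⁻ z in S, k (dist y z) ∂ρ ≤ ∫⁻ _z in S, a ∂ρ :=
        setLIntegral_mono' hS (fun z hz => (ha (h z hz)).trans hk)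
    _ = a * ρ S := by simp
    _ ≤ a * b := by gcongr

theorem cut_kR {p d : ℝ} (hd : 0 < d) : kR p d = ENNReal.ofReal (d ^ (-p)) := by
  unfold kR
  rw [ENNReal.ofReal_rpow_of_pos hd]

/-- radii -/
noncomputable def cutT (L D : ℝ) (j : ℕ) : ℝ := L + D + (1 - (1 / 2 : ℝ) ^ j)

/-- capacity bounds -/
noncomputable def cutB (p β : ℝ) (j : ℕ) : ℝ := β * (1 / (2 * (2 : ℝ) ^ p)) ^ j

theorem cutT_gap {L D : ℝ} {i j : ℕ} (h : i < j) :
    (1 / 2 : ℝ) ^ (i + 2) ≤ cutT L D (j + 1) - cutT L D (i + 1) := by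
  unfold cutT
  have h1 : (1 / 2 : ℝ) ^ (j + 1) ≤ (1 / 2 : ℝ) ^ (i + 2) :=
    pow_le_pow_of_le_one (by norm_num) (by norm_num) (by omega)
  have h2 : (1 / 2 : ℝ) ^ (i + 1) = 2 * (1 / 2 : ℝ) ^ (i + 2) := by ring
  linarith

theorem cut_pow {p : ℝ} (i : ℕ) : ((1 / 2 : ℝ) ^ i) ^ (-p) = ((2 : ℝ) ^ p) ^ i := by
  rw [one_div, inv_pow, Real.inv_rpow (by positivity), Real.rpow_neg (by positivity), inv_inv,
    ← Real.rpow_natCast, ← Real.rpow_natCast, ← Real.rpow_mul (by norm_num),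
    ← Real.rpow_mul (by norm_num), mul_comm]

theorem cut_geom (j : ℕ) : ∑ i ∈ Finset.range j, (1 / 2 : ℝ) ^ i ≤ 2 := by
  have h := geom_sum_eq (x := (1 / 2 : ℝ)) (by norm_num) j
  rw [h]
  have : 0 < (1 / 2 : ℝ) ^ j := by positivity
  rw [div_le_iff_of_neg (by norm_num)]
  linarith

/-- potential bound -/
theorem cut_pot {p : ℝ} (hp : 0 < p) {x : E n} {L D β : ℝ} (hD : 0 < D)
    (hDp : D ^ (-p) ≤ 1 / 8) (hβ : 0 < β) (hβ1 : 72 * β * ((2 : ℝ) ^ p) ^ 2 ≤ 1) {j : ℕ}
    (ρ : ProbabilityMeasure (E n))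
    (hρ : (ρ : Measure (E n)) (Metric.closedBall x (cutT L D j))ᶜ = 0)
    (hm0 : (ρ : Measure (E n)) (Metric.closedBall x L)ᶜ ≤ ENNReal.ofReal (3 * β))
    (hm : ∀ i < j, (ρ : Measure (E n)) (Metric.closedBall x (cutT L D i))ᶜ ≤
      ENNReal.ofReal (3 * cutB p β i))
    {y : E n} (hy : y ∉ Metric.closedBall x (cutT L D (j + 1))) :
    Pot (kR p) (ρ : Measure (E n)) y ≤ ENNReal.ofReal (1 / 4) := by
  have hanti : Antitone (kR p) := (isKer_kR hp).anti
  have hP1 : (1 : ℝ) ≤ (2 : ℝ) ^ p := Real.one_le_rpow (by norm_num) hp.le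
  have hP0 : (0 : ℝ) < (2 : ℝ) ^ p := by positivity
  have hy' : cutT L D (j + 1) < dist y x := by
    simpa [Metric.mem_closedBall] using hy
  have hgapz : ∀ z : E n, ∀ r : ℝ, z ∈ Metric.closedBall x r →
      cutT L D (j + 1) - r ≤ dist y z := by
    intro z r hz
    rw [Metric.mem_closedBall] at hz
    have := dist_triangle y z x
    linarith
  have e0 : Pot (kR p) (ρ : Measure (E n)) y =
      ∫⁻ z in Metric.closedBall x (cutT L D j), kR p (dist y z) ∂(ρ : Measure (E n)) := by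
    unfold Pot
    rw [← lintegral_add_compl _ (Metric.isClosed_closedBall.measurableSet
      (s := Metric.closedBall x (cutT L D j)))]
    rw [setLIntegral_measure_zero _ _ hρ, add_zero]
  rw [e0]
  refine (cut_split _ x (cutT L D) j).trans ?_
  -- the central part
  have e1 : ∫⁻ z in Metric.closedBall x (cutT L D 0), kR p (dist y z) ∂(ρ : Measure (E n)) ≤
      ENNReal.ofReal (1 / 8) + ENNReal.ofReal ((2 : ℝ) ^ p * (3 * β)) := by
    have hsub : Metric.closedBall x (cutT L D 0) ⊆ Metric.closedBall x L ∪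
        (Metric.closedBall x (cutT L D 0) \ Metric.closedBall x L) := by
      intro z hz
      by_cases h : z ∈ Metric.closedBall x L
      · exact Or.inl h
      · exact Or.inr ⟨hz, h⟩
    refine (lintegral_mono_set hsub).trans ((lintegral_union_le _ _ _).trans ?_)
    apply add_le_add
    · have := cut_piece (ρ := (ρ : Measure (E n))) hanti
        (S := Metric.closedBall x L) Metric.isClosed_closedBall.measurableSet (y := y) (d := D)
        (fun z hz => by
          have h1 := hgapz z L hz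
          have h2 : D ≤ cutT L D (j + 1) - L := by
            unfold cutT
            have : (1 / 2 : ℝ) ^ (j + 1) ≤ 1 := pow_le_one₀ (by norm_num) (by norm_num)
            linarith
          linarith) (a := ENNReal.ofReal (1 / 8)) (b := 1)
        (by rw [cut_kR hD]; exact ENNReal.ofReal_le_ofReal hDp) prob_le_one
      simpa using this
    · have := cut_piece (ρ := (ρ : Measure (E n))) hanti
        (S := Metric.closedBall x (cutT L D 0) \ Metric.closedBall x L)
        (Metric.isClosed_closedBall.measurableSet.diff Metric.isClosed_closedBall.measurableSet)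
        (y := y) (d := (1 / 2 : ℝ) ^ 1)
        (fun z hz => by
          have h1 := hgapz z _ hz.1
          have h2 : (1 / 2 : ℝ) ^ 1 ≤ cutT L D (j + 1) - cutT L D 0 := by
            unfold cutT
            have : (1 / 2 : ℝ) ^ (j + 1) ≤ (1 / 2 : ℝ) ^ 1 :=
              pow_le_pow_of_le_one (by norm_num) (by norm_num) (by omega)
            norm_num at this ⊢
            linarith
          linarith) (a := ENNReal.ofReal ((2 : ℝ) ^ p)) (b := ENNReal.ofReal (3 * β))
        (by rw [cut_kR (by positivity), cut_pow, pow_one])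
        ((measure_mono (fun z hz => hz.2)).trans hm0)
      rwa [← ENNReal.ofReal_mul hP0.le] at this
  have e2 : ∀ i ∈ Finset.range j, ∫⁻ z in Metric.closedBall x (cutT L D (i+1)) \
      Metric.closedBall x (cutT L D i), kR p (dist y z) ∂(ρ : Measure (E n)) ≤
      ENNReal.ofReal (3 * β * ((2 : ℝ) ^ p) ^ 2 * (1 / 2) ^ i) := by
    intro i hi
    have hij := Finset.mem_range.mp hi
    have := cut_piece (ρ := (ρ : Measure (E n))) hanti
        (S := Metric.closedBall x (cutT L D (i+1)) \ Metric.closedBall x (cutT L D i))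
        (Metric.isClosed_closedBall.measurableSet.diff Metric.isClosed_closedBall.measurableSet)
        (y := y) (d := (1 / 2 : ℝ) ^ (i + 2))
        (fun z hz => (cutT_gap hij).trans (hgapz z _ hz.1))
        (a := ENNReal.ofReal (((2 : ℝ) ^ p) ^ (i + 2))) (b := ENNReal.ofReal (3 * cutB p β i))
        (by rw [cut_kR (by positivity), cut_pow])
        ((measure_mono (fun z hz => hz.2)).trans (hm i hij))
    rw [← ENNReal.ofReal_mul (by positivity)] at this
    refine this.trans (ENNReal.ofReal_le_ofReal (le_of_eq ?_))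
    unfold cutB
    rw [one_div, mul_inv, mul_pow, one_div, inv_pow, inv_pow, pow_add]
    field_simp
  refine (add_le_add e1 (Finset.sum_le_sum e2)).trans ?_
  rw [← ENNReal.ofReal_sum_of_nonneg (fun i _ => by positivity),
    ← ENNReal.ofReal_add (by positivity) (by positivity),
    ← ENNReal.ofReal_add (by positivity) (Finset.sum_nonneg (fun i _ => by positivity)),
    ← Finset.mul_sum]
  apply ENNReal.ofReal_le_ofReal
  have h3 : 3 * β * ((2 : ℝ) ^ p) ^ 2 * ∑ i ∈ Finset.range j, (1 / 2 : ℝ) ^ i ≤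
      3 * β * ((2 : ℝ) ^ p) ^ 2 * 2 := by
    gcongr
    exact cut_geom j
  have h4 : (2 : ℝ) ^ p * (3 * β) ≤ 3 * β * ((2 : ℝ) ^ p) ^ 2 := by
    nlinarith [mul_pos hβ hP0]
  linarith

theorem cutB_pos {p β : ℝ} (hβ : 0 < β) (j : ℕ) : 0 < cutB p β j := by
  unfold cutB; positivity

theorem cutB_succ (p β : ℝ) (j : ℕ) : cutB p β (j + 1) * (2 * (2 : ℝ) ^ p) = cutB p β j := by
  unfold cutB
  have : (0 : ℝ) < (2 : ℝ) ^ p := by positivity
  rw [pow_succ]
  field_simp

theorem cutB_anti {p β : ℝ} (hp : 0 < p) (hβ : 0 < β) {i j : ℕ} (h : i ≤ j) :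
    cutB p β j ≤ cutB p β i := by
  unfold cutB
  have hP1 : (1 : ℝ) ≤ (2 : ℝ) ^ p := Real.one_le_rpow (by norm_num) hp.le
  have : (1 / (2 * (2 : ℝ) ^ p)) ^ j ≤ (1 / (2 * (2 : ℝ) ^ p)) ^ i := by
    apply pow_le_pow_of_le_one (by positivity) _ h
    rw [div_le_one (by positivity)]
    linarith
  gcongr

theorem cutB_le {p β : ℝ} (hp : 0 < p) (hβ : 0 < β) (j : ℕ) : cutB p β j ≤ β := by
  have := cutB_anti hp hβ (Nat.zero_le j)
  simpa [cutB] using this

theorem cutT_mono {L D : ℝ} {i j : ℕ} (h : i ≤ j) : cutT L D i ≤ cutT L D j := by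
  unfold cutT
  have h1 : (1 / 2 : ℝ) ^ j ≤ (1 / 2 : ℝ) ^ i :=
    pow_le_pow_of_le_one (by norm_num) (by norm_num) h
  linarith

/-- De Giorgi step -/
theorem cut_step {p : ℝ} (hp : 0 < p) {K : Set (E n)}
    (hK1 : VV (kR p) K = 1) {x : E n} {L D β : ℝ} (hD : 0 < D)
    (hDp : D ^ (-p) ≤ 1 / 8) (hβ : 0 < β) (hβ1 : 72 * β * ((2 : ℝ) ^ p) ^ 2 ≤ 1) {j : ℕ}
    (hKL : (VV (kR p) (K \ Metric.closedBall x L))⁻¹ ≤ ENNReal.ofReal β)
    (hE : ∀ i ≤ j, (VV (kR p) (K \ Metric.closedBall x (cutT L D i)))⁻¹ ≤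
      ENNReal.ofReal (cutB p β i))
    (hV : VV (kR p) (K ∩ Metric.closedBall x (cutT L D j)) ≤
      ENNReal.ofReal (1 + cutB p β (j + 1) / 8)) :
    (VV (kR p) (K \ Metric.closedBall x (cutT L D (j + 1))))⁻¹ ≤
      ENNReal.ofReal (cutB p β (j + 1)) := by
  have hmeas := cut_meas hp
  have hP1 : (1 : ℝ) ≤ (2 : ℝ) ^ p := Real.one_le_rpow (by norm_num) hp.le
  have hβs : 72 * β ≤ 1 := by
    have h0 : 1 ≤ ((2 : ℝ) ^ p) ^ 2 := one_le_pow₀ hP1
    nlinarith [mul_le_mul_of_nonneg_left h0 (by positivity : 0 ≤ 72 * β)]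
  set b := cutB p β (j + 1) with hb
  have hb0 : 0 < b := cutB_pos hβ _
  have hbβ : b ≤ β := cutB_le hp hβ _
  by_contra hcon
  push Not at hcon
  have h1 : VV (kR p) (K \ Metric.closedBall x (cutT L D (j + 1))) < ENNReal.ofReal (1 / b) := by
    rw [one_div, ENNReal.ofReal_inv_of_pos hb0]
    exact ENNReal.lt_inv_iff_lt_inv.mp hcon
  obtain ⟨σ, hσ, hσE⟩ : ∃ σ : ProbabilityMeasure (E n),
      (σ : Measure (E n)) (K \ Metric.closedBall x (cutT L D (j + 1)))ᶜ = 0 ∧
      En (kR p) (σ : Measure (E n)) σ < ENNReal.ofReal (1 / b) := by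
    unfold VV at h1
    obtain ⟨σ, h2⟩ := iInf_lt_iff.mp h1
    obtain ⟨h3, h4⟩ := iInf_lt_iff.mp h2
    exact ⟨σ, h3, h4⟩
  set G := K ∩ Metric.closedBall x (cutT L D j) with hG
  have hVt : VV (kR p) G ≠ ⊤ := (hV.trans_lt ENNReal.ofReal_lt_top).ne
  have hV2 : VV (kR p) G ≤ 2 := by
    refine hV.trans ?_
    rw [show (2 : ℝ≥0∞) = ENNReal.ofReal 2 by norm_num]
    apply ENNReal.ofReal_le_ofReal
    linarith
  have hτ0 : 0 < b / 8 := by positivity
  obtain ⟨ρ, hρ, hρE⟩ : ∃ ρ : ProbabilityMeasure (E n),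
      (ρ : Measure (E n)) Gᶜ = 0 ∧
      En (kR p) (ρ : Measure (E n)) ρ < VV (kR p) G + ENNReal.ofReal ((b / 8) ^ 2) := by
    have h2 : VV (kR p) G < VV (kR p) G + ENNReal.ofReal ((b / 8) ^ 2) :=
      ENNReal.lt_add_right hVt (by simp; positivity)
    conv_lhs at h2 => unfold VV
    obtain ⟨σ, h2⟩ := iInf_lt_iff.mp h2
    obtain ⟨h3, h4⟩ := iInf_lt_iff.mp h2
    exact ⟨σ, h3, h4⟩
  -- mass estimates
  have hmass : ∀ r c : ℝ, b / 8 ≤ c →
      (VV (kR p) (K \ Metric.closedBall x r))⁻¹ ≤ ENNReal.ofReal c →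
      (ρ : Measure (E n)) (Metric.closedBall x r)ᶜ ≤ ENNReal.ofReal (3 * c) := by
    intro r c hc hr
    refine cut_mass hmeas Metric.isClosed_closedBall.measurableSet.compl hV2 ρ hρ hτ0
      (by linarith) hc hρE.le ?_
    refine le_trans (ENNReal.inv_le_inv.mpr (VV_anti _ ?_)) hr
    intro z hz
    exact ⟨hz.1.1, hz.2⟩
  have hpot : ∀ y, y ∉ Metric.closedBall x (cutT L D (j + 1)) →
      Pot (kR p) (ρ : Measure (E n)) y ≤ ENNReal.ofReal (1 / 4) := by
    intro y hy
    refine cut_pot hp hD hDp hβ hβ1 ρ ?_ (hmass L β (by linarith) hKL) ?_ hy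
    · refine measure_mono_null ?_ hρ
      intro z hz hz2
      exact hz hz2.2
    · intro i hi
      have h5 : b ≤ cutB p β i := cutB_anti hp hβ (by omega)
      exact hmass _ _ (by linarith) (hE i hi.le)
  have hcross : En (kR p) (ρ : Measure (E n)) σ ≤ ENNReal.ofReal (1 / 4) := by
    rw [En_symm hmeas]
    have : ∀ᵐ y ∂(σ : Measure (E n)), Pot (kR p) (ρ : Measure (E n)) y ≤
        ENNReal.ofReal (1 / 4) := by
      refine measure_mono_null ?_ hσ
      intro y hy hy2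
      exact hy (hpot y hy2.2)
    calc En (kR p) (σ : Measure (E n)) ρ = ∫⁻ y, Pot (kR p) (ρ : Measure (E n)) y ∂σ := rfl
      _ ≤ ∫⁻ _y, ENNReal.ofReal (1 / 4) ∂(σ : Measure (E n)) := lintegral_mono_ae this
      _ = ENNReal.ofReal (1 / 4) := by simp
  have hb1 : 72 * b ≤ 1 := by linarith
  have hgain := VV_gain hmeas ρ σ hρ hσ (t := b / 2) (by positivity) (by linarith)
  have hone : (1 : ℝ≥0∞) ≤ VV (kR p) (G ∪ K \ Metric.closedBall x (cutT L D (j + 1))) := by
    rw [← hK1]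
    refine VV_anti _ ?_
    rintro z (hz | hz)
    · exact hz.1
    · exact hz.1
  have hfin : (1 : ℝ≥0∞) ≤ ENNReal.ofReal ((1 - b / 2) ^ 2 * (1 + b / 8 + (b / 8) ^ 2)
      + 2 * (b / 2) * (1 - b / 2) * (1 / 4) + (b / 2) ^ 2 * (1 / b)) := by
    refine (hone.trans hgain).trans ?_
    rw [ENNReal.ofReal_add (add_nonneg (by positivity)
        (mul_nonneg (mul_nonneg (by positivity) (by linarith)) (by norm_num))) (by positivity),
      ENNReal.ofReal_add (by positivity)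
        (mul_nonneg (mul_nonneg (by positivity) (by linarith)) (by norm_num)),
      ENNReal.ofReal_mul (p := (1 - b / 2) ^ 2) (by positivity),
      ENNReal.ofReal_mul (p := 2 * (b / 2) * (1 - b / 2))
        (mul_nonneg (by positivity) (by linarith)),
      ENNReal.ofReal_mul (p := (b / 2) ^ 2) (by positivity)]
    have hρE2 : En (kR p) (ρ : Measure (E n)) ρ ≤ ENNReal.ofReal (1 + b / 8 + (b / 8) ^ 2) := by
      refine hρE.le.trans ?_
      rw [ENNReal.ofReal_add (by positivity) (by positivity)]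
      gcongr
    gcongr
  rw [ENNReal.one_le_ofReal] at hfin
  have h6 : (b / 2) ^ 2 * (1 / b) = b / 4 := by
    field_simp
    ring
  rw [h6] at hfin
  nlinarith [mul_pos hb0 hb0, mul_pos (mul_pos hb0 hb0) hb0, mul_pos (mul_pos hb0 hb0) (mul_pos hb0 hb0)]

/-- comparison of the `q` energies -/
theorem cut_q {p q M : ℝ} (hp : 0 < p) (hpq : p < q) (hM : 0 < M)
    (hopt : ∀ K : Set (E n), IsCompact K →
      (VV (kR p) K) ^ (q / p) ≤ ENNReal.ofReal M * VV (kR q) K)
    {K : Set (E n)} (hK : IsCompact K) (hK1 : VV (kR p) K = 1) {c u : ℝ}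
    (hQ1 : VV (kR q) K ≤ ENNReal.ofReal (2 / M)) {x : E n} {t : ℝ} (hc : 0 < c)
    (hE : (VV (kR p) (K \ Metric.closedBall x t))⁻¹ ≤ ENNReal.ofReal c)
    (hu : u = 2 * c ^ (q / p)) (hu2 : u ≤ 1 / 2) :
    VV (kR q) (K ∩ Metric.closedBall x t) ≤ ENNReal.ofReal (1 + 2 * u) * VV (kR q) K := by
  have hq : 0 < q := hp.trans hpq
  have hs : 0 < q / p := by positivity
  have hu0 : 0 < u := by rw [hu]; positivity
  have hmeas := cut_meas hq
  have hun : K = (K ∩ Metric.closedBall x t) ∪ (K \ Metric.closedBall x t) :=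
    (inter_union_sdiff K _).symm
  have hsub := VV_union (k := kR q) hmeas (A := K ∩ Metric.closedBall x t)
    (B := K \ Metric.closedBall x t)
    (hK.measurableSet.inter Metric.isClosed_closedBall.measurableSet)
  rw [← hun] at hsub
  have hEq : (VV (kR q) (K \ Metric.closedBall x t))⁻¹ ≤ ENNReal.ofReal (M * c ^ (q / p)) := by
    have h1 := cut_opt hp hpq hM hopt
      (hK.measurableSet.diff (Metric.isClosed_closedBall.measurableSet (s := Metric.closedBall x t)))
    have h2 : (ENNReal.ofReal M * VV (kR q) (K \ Metric.closedBall x t))⁻¹ ≤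
        ENNReal.ofReal (c ^ (q / p)) := by
      refine (ENNReal.inv_le_inv.mpr h1).trans ?_
      rw [← ENNReal.inv_rpow, ← ENNReal.ofReal_rpow_of_pos hc]
      exact ENNReal.rpow_le_rpow hE hs.le
    have hM0 : ENNReal.ofReal M ≠ 0 := by simpa using hM
    rw [ENNReal.mul_inv (Or.inl hM0) (Or.inl ENNReal.ofReal_ne_top)] at h2
    rw [ENNReal.ofReal_mul hM.le]
    calc (VV (kR q) (K \ Metric.closedBall x t))⁻¹
        = ENNReal.ofReal M * ((ENNReal.ofReal M)⁻¹ * (VV (kR q) (K \ Metric.closedBall x t))⁻¹) := by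
          rw [← mul_assoc, ENNReal.mul_inv_cancel hM0 ENNReal.ofReal_ne_top, one_mul]
      _ ≤ _ := by gcongr
  have hQt : VV (kR q) K ≠ ⊤ := (hQ1.trans_lt ENNReal.ofReal_lt_top).ne
  obtain ⟨Q, hQ0, hQQ⟩ : ∃ Q : ℝ, 0 ≤ Q ∧ VV (kR q) K = ENNReal.ofReal Q :=
    ⟨(VV (kR q) K).toReal, ENNReal.toReal_nonneg, (ENNReal.ofReal_toReal hQt).symm⟩
  have hQM : Q ≤ 2 / M := by
    rw [hQQ] at hQ1
    exact (ENNReal.ofReal_le_ofReal_iff (by positivity)).mp hQ1
  have h3 := hsub.trans (add_le_add le_rfl hEq)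
  rw [hQQ] at h3 ⊢
  rcases hQ0.eq_or_lt with hz | hQpos
  · exfalso
    have h3 := hopt K hK
    rw [hK1, hQQ, ← hz] at h3
    simp at h3
  have huQ : M * c ^ (q / p) ≤ u / Q := by
    rw [le_div_iff₀ hQpos, hu]
    have : Q * M ≤ 2 := by
      rwa [le_div_iff₀ hM] at hQM
    have hc' : 0 < c ^ (q / p) := by positivity
    nlinarith
  have h4 : (ENNReal.ofReal Q)⁻¹ = ENNReal.ofReal (1 / Q) := by
    rw [one_div, ENNReal.ofReal_inv_of_pos hQpos]
  rw [h4] at h3
  have h5 : ENNReal.ofReal ((1 - u) / Q) ≤ (VV (kR q) (K ∩ Metric.closedBall x t))⁻¹ := by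
    have h6 : ENNReal.ofReal (1 / Q) ≤ (VV (kR q) (K ∩ Metric.closedBall x t))⁻¹ +
        ENNReal.ofReal (u / Q) := h3.trans (by gcongr)
    have h7 : ENNReal.ofReal ((1 - u) / Q) = ENNReal.ofReal (1 / Q) - ENNReal.ofReal (u / Q) := by
      rw [← ENNReal.ofReal_sub _ (by positivity)]
      congr 1
      ring
    rw [h7]
    exact tsub_le_iff_right.mpr h6
  have h8 : VV (kR q) (K ∩ Metric.closedBall x t) ≤ ENNReal.ofReal (Q / (1 - u)) := by
    have h9 := ENNReal.inv_le_inv.mpr h5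
    rw [inv_inv, ← ENNReal.ofReal_inv_of_pos (by apply div_pos _ hQpos; linarith), inv_div] at h9
    exact h9
  refine h8.trans ?_
  rw [← ENNReal.ofReal_mul (by positivity)]
  apply ENNReal.ofReal_le_ofReal
  rw [div_le_iff₀ (by linarith)]
  nlinarith [mul_pos hQpos hu0]

theorem cutR {p q M : ℝ} (hp : 0 < p) (hpq : p < q) (hM : 0 < M)
    (hopt : ∀ K : Set (E n), IsCompact K →
      (VV (kR p) K) ^ (q / p) ≤ ENNReal.ofReal M * VV (kR q) K) :
    ∃ β D : ℝ, 0 < β ∧ 0 < D ∧ ∀ ε : ℝ, 0 < ε → ∀ K : Set (E n), IsCompact K → VV (kR p) K = 1 →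
      VV (kR q) K ≤ ENNReal.ofReal (2 / M) → ∀ (x : E n) (L : ℝ), 0 < L →
      (VV (kR p) (K \ Metric.closedBall x L))⁻¹ ≤ ENNReal.ofReal β →
      ∃ K' ⊆ K, IsCompact K' ∧ K' ⊆ Metric.closedBall x (L + D) ∧ VV (kR p) K' ≤ 2 ∧
        VV (kR q) K' ≤ ENNReal.ofReal (1 + ε) * VV (kR q) K * (VV (kR p) K') ^ (q / p) := by
  have hq : 0 < q := hp.trans hpq
  have hs1 : 1 < q / p := by rw [lt_div_iff₀ hp]; linarith
  have hs0 : 0 < q / p := by positivity
  have hP1 : (1 : ℝ) ≤ (2 : ℝ) ^ p := Real.one_le_rpow (by norm_num) hp.le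
  have hP0 : (0 : ℝ) < (2 : ℝ) ^ p := by positivity
  obtain ⟨β, hβ, hβ1, hβ2⟩ : ∃ β : ℝ, 0 < β ∧ 72 * β * ((2 : ℝ) ^ p) ^ 2 ≤ 1 ∧
      64 * (2 : ℝ) ^ p * β ^ (q / p - 1) ≤ 1 := by
    have hc0 : (0 : ℝ) < (1 / (64 * (2 : ℝ) ^ p)) ^ (1 / (q / p - 1)) := by positivity
    refine ⟨min (1 / (72 * ((2 : ℝ) ^ p) ^ 2)) ((1 / (64 * (2 : ℝ) ^ p)) ^ (1 / (q / p - 1))),
      lt_min (by positivity) hc0, ?_, ?_⟩
    · have h1 : min (1 / (72 * ((2 : ℝ) ^ p) ^ 2)) ((1 / (64 * (2 : ℝ) ^ p)) ^ (1 / (q / p - 1)))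
          ≤ 1 / (72 * ((2 : ℝ) ^ p) ^ 2) := min_le_left _ _
      calc _ ≤ 72 * (1 / (72 * ((2 : ℝ) ^ p) ^ 2)) * ((2 : ℝ) ^ p) ^ 2 := by gcongr
        _ = 1 := by field_simp
    · have h1 : (min (1 / (72 * ((2 : ℝ) ^ p) ^ 2))
          ((1 / (64 * (2 : ℝ) ^ p)) ^ (1 / (q / p - 1)))) ^ (q / p - 1) ≤
          ((1 / (64 * (2 : ℝ) ^ p)) ^ (1 / (q / p - 1))) ^ (q / p - 1) :=
        Real.rpow_le_rpow (lt_min (by positivity) hc0).le (min_le_right _ _) (by linarith)
      rw [← Real.rpow_mul (by positivity), one_div_mul_cancel (by linarith), Real.rpow_one] at h1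
      calc _ ≤ 64 * (2 : ℝ) ^ p * (1 / (64 * (2 : ℝ) ^ p)) := by gcongr
        _ = 1 := by field_simp
  have hβs : 72 * β ≤ 1 := by
    have h0 : 1 ≤ ((2 : ℝ) ^ p) ^ 2 := one_le_pow₀ hP1
    nlinarith [mul_le_mul_of_nonneg_left h0 (by positivity : 0 ≤ 72 * β)]
  obtain ⟨D, hD, hDp⟩ : ∃ D : ℝ, 0 < D ∧ D ^ (-p) ≤ 1 / 8 := by
    refine ⟨(8 : ℝ) ^ (1 / p), by positivity, le_of_eq ?_⟩
    rw [← Real.rpow_mul (by norm_num)]
    have : 1 / p * -p = -1 := by field_simp
    rw [this, Real.rpow_neg_one]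
    norm_num
  refine ⟨β, D + 1, hβ, by positivity, ?_⟩
  intro ε hε K hK hK1 hQ x L hL hKL
  by_contra hcon
  push Not at hcon
  have hmp := cut_meas hp
  have hball : ∀ r : ℝ, MeasurableSet (Metric.closedBall x r) :=
    fun r => Metric.isClosed_closedBall.measurableSet
  have hT0 : ∀ j, L ≤ cutT L D j := by
    intro j
    unfold cutT
    have : (1 / 2 : ℝ) ^ j ≤ 1 := pow_le_one₀ (by norm_num) (by norm_num)
    linarith
  have hT1 : ∀ j, cutT L D j ≤ L + (D + 1) := by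
    intro j
    unfold cutT
    have : 0 < (1 / 2 : ℝ) ^ j := by positivity
    linarith
  have hGc : ∀ j, IsCompact (K ∩ Metric.closedBall x (cutT L D j)) :=
    fun j => hK.inter_right Metric.isClosed_closedBall
  have hGsub : ∀ j, K ∩ Metric.closedBall x (cutT L D j) ⊆ Metric.closedBall x (L + (D + 1)) :=
    fun j z hz => Metric.closedBall_subset_closedBall (hT1 j) hz.2
  have hE0 : ∀ j, (VV (kR p) (K \ Metric.closedBall x (cutT L D j)))⁻¹ ≤ ENNReal.ofReal β := by
    intro j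
    refine le_trans (ENNReal.inv_le_inv.mpr (VV_anti _ ?_)) hKL
    intro z hz
    exact ⟨hz.1, fun h => hz.2 (Metric.closedBall_subset_closedBall (hT0 j) h)⟩
  have hV2 : ∀ j, VV (kR p) (K ∩ Metric.closedBall x (cutT L D j)) ≤ 2 := by
    intro j
    have h1 := VV_union (k := kR p) hmp (A := K ∩ Metric.closedBall x (cutT L D j))
      (B := K \ Metric.closedBall x (cutT L D j)) (hK.measurableSet.inter (hball _))
    rw [inter_union_sdiff, hK1, inv_one] at h1
    have h2 : (1 : ℝ≥0∞) ≤ (VV (kR p) (K ∩ Metric.closedBall x (cutT L D j)))⁻¹ +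
        ENNReal.ofReal (1 / 2) := by
      refine h1.trans (add_le_add le_rfl ((hE0 j).trans (ENNReal.ofReal_le_ofReal ?_)))
      linarith
    have h3 : ENNReal.ofReal (1 / 2) ≤ (VV (kR p) (K ∩ Metric.closedBall x (cutT L D j)))⁻¹ := by
      have h7 : ENNReal.ofReal (1 / 2) = 1 - ENNReal.ofReal (1 / 2) := by
        rw [← ENNReal.ofReal_one, ← ENNReal.ofReal_sub _ (by norm_num)]
        norm_num
      rw [h7]
      exact tsub_le_iff_right.mpr h2
    have h9 := ENNReal.inv_le_inv.mpr h3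
    rw [inv_inv, ← ENNReal.ofReal_inv_of_pos (by norm_num)] at h9
    norm_num at h9
    exact h9
  have hV1 : ∀ j, 1 ≤ VV (kR p) (K ∩ Metric.closedBall x (cutT L D j)) := by
    intro j
    rw [← hK1]
    exact VV_anti _ inter_subset_left
  have hneg := fun j => hcon _ (inter_subset_left (t := Metric.closedBall x (cutT L D j)))
    (hGc j) (hGsub j) (hV2 j)
  have hcs : ∀ j, (cutB p β j) ^ (q / p) ≤ cutB p β j := by
    intro j
    have h1 := cutB_le hp hβ j
    have h2 := cutB_pos (p := p) hβ j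
    calc (cutB p β j) ^ (q / p) ≤ (cutB p β j) ^ (1 : ℝ) :=
          Real.rpow_le_rpow_of_exponent_ge h2 (by linarith) hs1.le
      _ = _ := Real.rpow_one _
  have key : ∀ j, (VV (kR p) (K \ Metric.closedBall x (cutT L D j)))⁻¹ ≤
      ENNReal.ofReal (cutB p β j) →
      ENNReal.ofReal (1 + ε) * (VV (kR p) (K ∩ Metric.closedBall x (cutT L D j))) ^ (q / p) <
        ENNReal.ofReal (1 + 4 * (cutB p β j) ^ (q / p)) := by
    intro j hj
    have h1 := cut_q hp hpq hM hopt hK hK1 hQ (cutB_pos hβ j) hj rfl (by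
      have := hcs j
      have := cutB_le hp hβ j
      linarith)
    have h2 := (hneg j).trans_le h1
    rw [show ENNReal.ofReal (1 + ε) * VV (kR q) K *
        VV (kR p) (K ∩ Metric.closedBall x (cutT L D j)) ^ (q / p) =
        ENNReal.ofReal (1 + ε) * VV (kR p) (K ∩ Metric.closedBall x (cutT L D j)) ^ (q / p) *
          VV (kR q) K by ring] at h2
    have h3 := lt_of_mul_lt_mul_right' h2
    rwa [show 1 + 2 * (2 * cutB p β j ^ (q / p)) = 1 + 4 * (cutB p β j) ^ (q / p) by ring] at h3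
  have hpow1 : ∀ j, 1 ≤ (VV (kR p) (K ∩ Metric.closedBall x (cutT L D j))) ^ (q / p) :=
    fun j => ENNReal.one_le_rpow (hV1 j) hs0
  have hind : ∀ j, (VV (kR p) (K \ Metric.closedBall x (cutT L D j)))⁻¹ ≤
      ENNReal.ofReal (cutB p β j) := by
    intro j
    induction j using Nat.strong_induction_on with
    | _ j ih =>
      cases j with
      | zero => simpa [cutB] using hE0 0
      | succ j =>
        refine cut_step hp hK1 hD hDp hβ hβ1 hKL (fun i hi => ih i (by omega)) ?_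
        have h1 := key j (ih j (by omega))
        calc VV (kR p) (K ∩ Metric.closedBall x (cutT L D j))
            = (VV (kR p) (K ∩ Metric.closedBall x (cutT L D j))) ^ (1 : ℝ) := by simp
          _ ≤ (VV (kR p) (K ∩ Metric.closedBall x (cutT L D j))) ^ (q / p) :=
              ENNReal.rpow_le_rpow_of_exponent_le (hV1 j) hs1.le
          _ ≤ ENNReal.ofReal (1 + ε) *
              (VV (kR p) (K ∩ Metric.closedBall x (cutT L D j))) ^ (q / p) := by
              apply le_mul_of_one_le_left zero_le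
              rw [ENNReal.one_le_ofReal]
              linarith
          _ ≤ ENNReal.ofReal (1 + 4 * (cutB p β j) ^ (q / p)) := h1.le
          _ ≤ _ := by
              apply ENNReal.ofReal_le_ofReal
              have h2 := cutB_succ p β j
              have h3 := cutB_pos (p := p) hβ j
              have h3' := cutB_pos (p := p) hβ (j + 1)
              have h4 : (cutB p β j) ^ (q / p) = cutB p β j * (cutB p β j) ^ (q / p - 1) := by
                rw [Real.rpow_sub_one h3.ne']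
                field_simp
              have h5 : (cutB p β j) ^ (q / p - 1) ≤ β ^ (q / p - 1) :=
                Real.rpow_le_rpow h3.le (cutB_le hp hβ j) (by linarith)
              have h6 : cutB p β j * (cutB p β j) ^ (q / p - 1) ≤ cutB p β j * β ^ (q / p - 1) := by
                gcongr
              have h7 : cutB p β j * β ^ (q / p - 1) =
                  cutB p β (j + 1) * (64 * (2 : ℝ) ^ p * β ^ (q / p - 1)) / 32 := by
                rw [← h2]; ring
              have h8 : cutB p β (j + 1) * (64 * (2 : ℝ) ^ p * β ^ (q / p - 1)) ≤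
                  cutB p β (j + 1) * 1 := by gcongr
              rw [h4]
              linarith
  -- the end
  obtain ⟨j, hj⟩ : ∃ j : ℕ, (1 / (2 * (2 : ℝ) ^ p)) ^ j < ε / (4 * β) := by
    apply exists_pow_lt_of_lt_one (by positivity)
    rw [div_lt_one (by positivity)]
    linarith
  have h1 := key j (hind j)
  have h2 : ENNReal.ofReal (1 + ε) ≤ ENNReal.ofReal (1 + ε) *
      (VV (kR p) (K ∩ Metric.closedBall x (cutT L D j))) ^ (q / p) :=
    le_mul_of_one_le_right zero_le (hpow1 j)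
  have h3 := h2.trans_lt h1
  have h4 : 4 * (cutB p β j) ^ (q / p) ≤ ε := by
    have h5 := hcs j
    have h6 : cutB p β j ≤ ε / 4 := by
      unfold cutB
      calc β * (1 / (2 * (2 : ℝ) ^ p)) ^ j ≤ β * (ε / (4 * β)) := by gcongr
        _ = ε / 4 := by field_simp
    linarith
  exact absurd h3 (not_lt.mpr (ENNReal.ofReal_le_ofReal (by linarith)))

end R970.RC
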