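import Mathlib

/-!
# Project RC: existence of maximizers for ratios of Riesz capacities (MP_ce24da_an)

Definitions. `capR`, `V0`, `VR` are the public ones; `En`, `Pot`, `VV`, `IsKer`, `CPD`, `kR`, `kL`
are the working ones.
-/

open MeasureTheory Set Filter Topology
open scoped ENNReal

namespace R970.RC

/-- Euclidean space of dimension `n`. -/
abbrev E (n : ℕ) := EuclideanSpace ℝ (Fin n)

/-- mutual energy of two measures for the radial kernel `k (dist x y)`. -/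
noncomputable def En {n : ℕ} (k : ℝ → ℝ≥0∞) (μ ν : Measure (E n)) : ℝ≥0∞ :=
  ∫⁻ x, ∫⁻ y, k (dist x y) ∂ν ∂μ

/-- potential of a measure. -/
noncomputable def Pot {n : ℕ} (k : ℝ → ℝ≥0∞) (μ : Measure (E n)) (x : E n) : ℝ≥0∞ :=
  ∫⁻ y, k (dist x y) ∂μ

/-- least energy of a probability measure carried by `A` (`⊤` if there is none of finite energy). -/
noncomputable def VV {n : ℕ} (k : ℝ → ℝ≥0∞) (A : Set (E n)) : ℝ≥0∞ :=
  ⨅ (μ : ProbabilityMeasure (E n)) (_ : (μ : Measure (E n)) Aᶜ = 0),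
    En k (μ : Measure (E n)) (μ : Measure (E n))

/-- the radial kernels used. -/
structure IsKer (k : ℝ → ℝ≥0∞) (P : ℝ) : Prop where
  cont : Continuous k
  anti : Antitone k
  zero : k 0 = ⊤
  lt_top : ∀ r, 0 < r → k r < ⊤
  pos : ∀ r, 0 < k r
  scal : ∀ t r : ℝ, 0 < t → t ≤ 1 → 0 < r → k (t * r) ≤ ENNReal.ofReal (t ^ (-P)) * k r

/-- conditional positive definiteness on a set (for measures of equal mass). -/
def CPD {n : ℕ} (k : ℝ → ℝ≥0∞) (X : Set (E n)) : Prop :=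
  ∀ μ ν : Measure (E n), IsFiniteMeasure μ → IsFiniteMeasure ν → μ univ = ν univ →
    μ Xᶜ = 0 → ν Xᶜ = 0 → 2 * En k μ ν ≤ En k μ μ + En k ν ν

/-- Riesz kernel `r ^ (-s)` (`⊤` for `r ≤ 0`). -/
noncomputable def kR (s : ℝ) (r : ℝ) : ℝ≥0∞ := (ENNReal.ofReal r) ^ (-s)

/-- shifted logarithmic kernel `max (log (c / r)) b` (`⊤` for `r ≤ 0`). -/
noncomputable def kL (c b : ℝ) (r : ℝ) : ℝ≥0∞ :=
  if r ≤ 0 then ⊤ else ENNReal.ofReal (max (Real.log (c / r)) b)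

/-! ## local structure -/

variable {n : ℕ}

/-- data of the local theorem -/
structure Loc (k : ℝ → ℝ≥0∞) (P q L : ℝ) (v : ℝ≥0∞) (M K₁ η₀ : ℝ)
    (μ γ : ProbabilityMeasure (E n)) : Prop where
  hk : IsKer k P
  hP : 0 < P
  hPq : P < q
  hqn : q < n
  hL : 0 < L
  cpd : CPD k (Metric.closedBall (0 : E n) (L + 1))
  v0 : v ≠ 0
  vT : v ≠ ⊤
  hM : 0 < M
  hK : 0 < K₁
  hη : 0 < η₀
  μX : (μ : Measure (E n)) (Metric.closedBall 0 L)ᶜ = 0
  γX : (γ : Measure (E n)) (Metric.closedBall 0 L)ᶜ = 0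
  γE : En k (γ : Measure (E n)) γ ≤ v
  μE : En (kR q) (μ : Measure (E n)) μ ≤ ENNReal.ofReal (1 / M)
  μF : ∀ᵐ x ∂(μ : Measure (E n)), v ≤ Pot k (γ : Measure (E n)) x
  opt : ∀ G : Set (E n), IsCompact G → G ⊆ Metric.closedBall 0 L → ∀ η : ℝ, 0 ≤ η → η ≤ η₀ →
    ENNReal.ofReal (M - η) ≤ (VV (kR q) G)⁻¹ → VV k G ≤ v + ENNReal.ofReal (K₁ * η)

/-- the set `F` -/
def FF (k : ℝ → ℝ≥0∞) (L : ℝ) (v : ℝ≥0∞) (γ : ProbabilityMeasure (E n)) : Set (E n) :=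
  {x | x ∈ Metric.closedBall (0 : E n) L ∧ v ≤ Pot k (γ : Measure (E n)) x}

/-! ## the public definitions -/

/-- Riesz energy for `s > 0`. -/
noncomputable def rieszEnergy {n : ℕ} (s : ℝ) (μ : Measure (E n)) : ℝ≥0∞ :=
  ∫⁻ x, ∫⁻ y, (edist x y) ^ (-s) ∂μ ∂μ

/-- logarithmic energy: positive part minus negative part of `∬ log (1 / |x - y|)`. -/
noncomputable def logEnergy {n : ℕ} (μ : Measure (E n)) : EReal :=
  ((∫⁻ x, ∫⁻ y, (-(ENNReal.log (edist x y))).toENNReal ∂μ ∂μ : ℝ≥0∞) : EReal)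
    - ((∫⁻ x, ∫⁻ y, (ENNReal.log (edist x y)).toENNReal ∂μ ∂μ : ℝ≥0∞) : EReal)

/-- `V_s(K)` for `s > 0`. -/
noncomputable def VR {n : ℕ} (s : ℝ) (K : Set (E n)) : ℝ≥0∞ :=
  ⨅ (μ : ProbabilityMeasure (E n)) (_ : (μ : Measure (E n)) Kᶜ = 0),
    rieszEnergy s (μ : Measure (E n))

/-- `V_0(K)`. -/
noncomputable def V0 {n : ℕ} (K : Set (E n)) : EReal :=
  ⨅ (μ : ProbabilityMeasure (E n)) (_ : (μ : Measure (E n)) Kᶜ = 0),
    logEnergy (μ : Measure (E n))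

/-- the Riesz `s`-capacity, `s ≥ 0`, normalised to be homogeneous of degree one:
`V_s(K) ^ (-1/s)` for `s ≠ 0` and `exp (-V_0(K))` for `s = 0`. -/
noncomputable def capR {n : ℕ} (s : ℝ) (K : Set (E n)) : ℝ≥0∞ :=
  if s = 0 then EReal.exp (-(V0 K)) else (VR s K) ^ (-(1 / s))

end R970.RC
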