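import Pool.Agent.R970.RC.FINb

open MeasureTheory Set Filter Topology
open scoped ENNReal

namespace R970.RC

theorem final (n : ℕ) (p q : ℝ) (hp : 0 ≤ p) (hpq : p < q) (hqn : q < n) :
    ∃ K₀ : Set (E n), IsCompact K₀ ∧ 0 < capR p K₀ ∧
      ∀ K : Set (E n), IsCompact K → 0 < capR p K →
        capR q K / capR p K ≤ capR q K₀ / capR p K₀ := by
  rcases hp.eq_or_lt with h | h
  · subst h
    exact result_zero hpq hqn
  · exact result_pos h hpq hqn

end R970.RC
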