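import Pool.Agent.R970.RC.Defs

/-! Project RC, piece JEN: Jensen inequalities, finiteness. -/

set_option autoImplicit false

open MeasureTheory Set Filter Topology
open scoped ENNReal

namespace R970.RC

variable {n : ℕ}

namespace J394

/-- Jensen's inequality for the power function -/
theorem jensen_one {α : Type*} [MeasurableSpace α] (μ : Measure α) [IsProbabilityMeasure μ] {r : ℝ}
    (hr : 1 < r) {f : α → ℝ≥0∞} (hf : AEMeasurable f μ) : (∫⁻ x, f x ∂μ) ^ r ≤ ∫⁻ x, f x ^ r ∂μ := by
  have h := ENNReal.lintegral_mul_le_Lp_mul_Lq μ (Real.HolderConjugate.conjExponent hr) hf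
    (g := fun _ => 1) aemeasurable_const
  simp only [Pi.mul_apply, mul_one, ENNReal.one_rpow, lintegral_const, measure_univ] at h
  have h2 := ENNReal.rpow_le_rpow h (by linarith : (0:ℝ) ≤ r)
  rw [← ENNReal.rpow_mul, one_div, inv_mul_cancel₀ (by linarith : r ≠ 0), ENNReal.rpow_one] at h2
  exact h2

theorem measurable_kR (s : ℝ) : Measurable (kR s) := by
  unfold kR
  exact (ENNReal.measurable_ofReal).pow_const _

theorem measurable_kR_dist (s : ℝ) : Measurable (fun z : E n × E n => kR s (dist z.1 z.2)) :=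
  (measurable_kR s).comp measurable_dist

/-- positive part of the logarithmic kernel -/
noncomputable def Lp (z : E n × E n) : ℝ≥0∞ := (-(ENNReal.log (edist z.1 z.2))).toENNReal

/-- negative part of the logarithmic kernel -/
noncomputable def Lm (z : E n × E n) : ℝ≥0∞ := (ENNReal.log (edist z.1 z.2)).toENNReal

theorem measurable_Lp : Measurable (Lp (n := n)) := by
  unfold Lp
  have h1 : Measurable fun z : E n × E n => ENNReal.log (edist z.1 z.2) :=
    (measurable_edist).ennreal_log
  have h2 : Measurable fun z : E n × E n => -ENNReal.log (edist z.1 z.2) :=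
    (continuous_neg (G := EReal)).measurable.comp h1
  exact (continuous_id.ereal_toENNReal).measurable.comp h2

theorem measurable_Lm : Measurable (Lm (n := n)) := by
  unfold Lm
  have h1 : Measurable fun z : E n × E n => ENNReal.log (edist z.1 z.2) :=
    (measurable_edist).ennreal_log
  exact (continuous_id.ereal_toENNReal).measurable.comp h1

theorem logEnergy_eq (μ : Measure (E n)) :
    logEnergy μ = ((∫⁻ x, ∫⁻ y, Lp (x, y) ∂μ ∂μ : ℝ≥0∞) : EReal) -
      ((∫⁻ x, ∫⁻ y, Lm (x, y) ∂μ ∂μ : ℝ≥0∞) : EReal) := rfl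

theorem Lm_of_pos {x y : E n} (h : 0 < dist x y) : Lm (x, y) = ENNReal.ofReal (Real.log (dist x y)) := by
  unfold Lm
  simp only
  rw [edist_dist, ENNReal.log_ofReal_of_pos h]
  rfl

theorem Lp_of_pos {x y : E n} (h : 0 < dist x y) : Lp (x, y) = ENNReal.ofReal (-Real.log (dist x y)) := by
  unfold Lp
  simp only
  rw [edist_dist, ENNReal.log_ofReal_of_pos h]
  rfl

theorem Lm_le (x y : E n) {D : ℝ} (h : Real.log (dist x y) ≤ D) : Lm (x, y) ≤ ENNReal.ofReal D := by
  rcases eq_or_lt_of_le (dist_nonneg (x := x) (y := y)) with h0 | h0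
  · have h1 : Lm (x, y) = 0 := by
      unfold Lm
      simp only
      rw [edist_dist, ← h0, ENNReal.ofReal_zero, ENNReal.log_zero, EReal.toENNReal_bot]
    rw [h1]
    exact bot_le
  · rw [Lm_of_pos h0]
    exact ENNReal.ofReal_le_ofReal h

/-- the negative part of the energy is bounded on a compact set -/
theorem N_le {K : Set (E n)} (hK : IsCompact K) : ∃ D : ℝ, 0 ≤ D ∧ ∀ μ : Measure (E n),
    IsProbabilityMeasure μ → μ Kᶜ = 0 → ∫⁻ x, ∫⁻ y, Lm (x, y) ∂μ ∂μ ≤ ENNReal.ofReal D := by
  obtain ⟨C, hC⟩ := Metric.isBounded_iff.1 hK.isBounded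
  refine ⟨max (Real.log (max C 1)) 0, le_max_right _ _, fun μ hμ hμK => ?_⟩
  have hae : ∀ᵐ x ∂μ, x ∈ K := by
    rw [ae_iff]
    exact hμK
  have hlog : ∀ x ∈ K, ∀ y ∈ K, Real.log (dist x y) ≤ max (Real.log (max C 1)) 0 := by
    intro x hx y hy
    rcases eq_or_lt_of_le (dist_nonneg (x := x) (y := y)) with h0 | h0
    · rw [← h0, Real.log_zero]
      exact le_max_right _ _
    · exact le_trans (Real.log_le_log h0 ((hC hx hy).trans (le_max_left _ _))) (le_max_left _ _)
  calc ∫⁻ x, ∫⁻ y, Lm (x, y) ∂μ ∂μ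
      ≤ ∫⁻ _x, ENNReal.ofReal (max (Real.log (max C 1)) 0) ∂μ := by
        refine lintegral_mono_ae ?_
        filter_upwards [hae] with x hx
        calc ∫⁻ y, Lm (x, y) ∂μ ≤ ∫⁻ _y, ENNReal.ofReal (max (Real.log (max C 1)) 0) ∂μ := by
              refine lintegral_mono_ae ?_
              filter_upwards [hae] with y hy
              exact Lm_le x y (hlog x hx y hy)
          _ = ENNReal.ofReal (max (Real.log (max C 1)) 0) := by simp
    _ = ENNReal.ofReal (max (Real.log (max C 1)) 0) := by simp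

theorem point_ineq {q : ℝ} (hq : 0 < q) (v : ℝ) (x y : E n) :
    ENNReal.ofReal (Real.exp (q * v)) + ENNReal.ofReal (Real.exp (q * v) * q) * Lp (x, y) +
        ENNReal.ofReal (Real.exp (q * v) * q * max (-v) 0) ≤
      kR q (dist x y) + ENNReal.ofReal (Real.exp (q * v) * q) * Lm (x, y) +
        ENNReal.ofReal (Real.exp (q * v) * q * max v 0) := by
  rcases eq_or_lt_of_le (dist_nonneg (x := x) (y := y)) with h0 | h0
  · have h1 : kR q (dist x y) = ⊤ := by
      unfold kR
      rw [← h0, ENNReal.ofReal_zero, ENNReal.zero_rpow_of_neg (by linarith)]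
    rw [h1, top_add, top_add]
    exact le_top
  · rw [Lm_of_pos h0, Lp_of_pos h0]
    have e1 : ENNReal.ofReal (Real.log (dist x y)) = ENNReal.ofReal (max (Real.log (dist x y)) 0) := by
      rcases le_total (Real.log (dist x y)) 0 with h | h
      · rw [max_eq_right h, ENNReal.ofReal_of_nonpos h, ENNReal.ofReal_zero]
      · rw [max_eq_left h]
    have e2 : ENNReal.ofReal (-Real.log (dist x y)) = ENNReal.ofReal (max (-Real.log (dist x y)) 0) := by
      rcases le_total (-Real.log (dist x y)) 0 with h | h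
      · rw [max_eq_right h, ENNReal.ofReal_of_nonpos h, ENNReal.ofReal_zero]
      · rw [max_eq_left h]
    have hc : 0 < Real.exp (q * v) := Real.exp_pos _
    have e3 : kR q (dist x y) = ENNReal.ofReal (Real.exp (-(q * Real.log (dist x y)))) := by
      unfold kR
      rw [ENNReal.ofReal_rpow_of_pos h0, Real.rpow_def_of_pos h0]
      congr 2
      ring
    rw [e1, e2, e3, ← ENNReal.ofReal_mul (by positivity), ← ENNReal.ofReal_mul (by positivity),
      ← ENNReal.ofReal_add (by positivity) (by positivity),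
      ← ENNReal.ofReal_add (by positivity) (by positivity),
      ← ENNReal.ofReal_add (by positivity) (by positivity),
      ← ENNReal.ofReal_add (by positivity) (by positivity)]
    refine ENNReal.ofReal_le_ofReal ?_
    set u := Real.log (dist x y) with hu
    have f1 : Real.exp (-(q * u)) = Real.exp (q * v) * Real.exp (q * (-u - v)) := by
      rw [← Real.exp_add]; congr 1; ring
    have f2 := Real.add_one_le_exp (q * (-u - v))
    have f3 : max (-u) 0 - max u 0 = -u := by
      rcases le_total u 0 with h | h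
      · rw [max_eq_left (by linarith), max_eq_right h]; ring
      · rw [max_eq_right (by linarith), max_eq_left h]; ring
    have f4 : max v 0 - max (-v) 0 = v := by
      rcases le_total v 0 with h | h
      · rw [max_eq_right h, max_eq_left (by linarith)]; ring
      · rw [max_eq_left h, max_eq_right (by linarith)]; ring
    have f5 : Real.exp (q * v) * (q * (-u - v) + 1) ≤ Real.exp (-(q * u)) := by
      rw [f1]
      exact mul_le_mul_of_nonneg_left f2 hc.le
    have f6 : Real.exp (q * v) * q * max (-u) 0 = Real.exp (q * v) * q * max u 0 -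
        Real.exp (q * v) * q * u := by
      have : max (-u) 0 = max u 0 - u := by linarith
      rw [this]; ring
    have f7 : Real.exp (q * v) * q * max v 0 = Real.exp (q * v) * q * max (-v) 0 +
        Real.exp (q * v) * q * v := by
      have : max v 0 = max (-v) 0 + v := by linarith
      rw [this]; ring
    rw [f6, f7]
    nlinarith

theorem gen1 (m : Measure (E n)) [IsProbabilityMeasure m] (a b : ℝ≥0∞) (g : E n → ℝ≥0∞)
    (hg : Measurable g) (d : ℝ≥0∞) :
    ∫⁻ y, (a + b * g y + d) ∂m = a + b * (∫⁻ y, g y ∂m) + d := by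
  rw [lintegral_add_right _ measurable_const, lintegral_add_left measurable_const,
    lintegral_const_mul _ hg, lintegral_const, lintegral_const, measure_univ, mul_one, mul_one]

theorem gen2 (m : Measure (E n)) [IsProbabilityMeasure m] (f : E n → ℝ≥0∞) (b : ℝ≥0∞)
    (g : E n → ℝ≥0∞) (hf : Measurable f) (hg : Measurable g) (d : ℝ≥0∞) :
    ∫⁻ y, (f y + b * g y + d) ∂m = (∫⁻ y, f y ∂m) + b * (∫⁻ y, g y ∂m) + d := by
  rw [lintegral_add_right _ measurable_const, lintegral_add_left hf,
    lintegral_const_mul _ hg, lintegral_const, measure_univ, mul_one]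

theorem int_ineq_one {q : ℝ} (hq : 0 < q) (v : ℝ) (m : Measure (E n)) [IsProbabilityMeasure m]
    (x : E n) :
    ENNReal.ofReal (Real.exp (q * v)) +
        ENNReal.ofReal (Real.exp (q * v) * q) * (∫⁻ y, Lp (x, y) ∂m) +
        ENNReal.ofReal (Real.exp (q * v) * q * max (-v) 0) ≤
      (∫⁻ y, kR q (dist x y) ∂m) + ENNReal.ofReal (Real.exp (q * v) * q) * (∫⁻ y, Lm (x, y) ∂m) +
        ENNReal.ofReal (Real.exp (q * v) * q * max v 0) := by
  have mp' : Measurable fun y => Lp (x, y) := (measurable_Lp (n := n)).comp measurable_prodMk_left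
  have mm' : Measurable fun y => Lm (x, y) := (measurable_Lm (n := n)).comp measurable_prodMk_left
  have mk' : Measurable fun y => kR q (dist x y) :=
    (measurable_kR q).comp (measurable_const.dist measurable_id)
  rw [← gen1 m _ _ _ mp', ← gen2 m _ _ _ mk' mm']
  exact lintegral_mono fun y => point_ineq hq v x y

theorem int_ineq {q : ℝ} (hq : 0 < q) (v : ℝ) (m : Measure (E n)) [IsProbabilityMeasure m] :
    ENNReal.ofReal (Real.exp (q * v)) +
        ENNReal.ofReal (Real.exp (q * v) * q) * (∫⁻ x, ∫⁻ y, Lp (x, y) ∂m ∂m) +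
        ENNReal.ofReal (Real.exp (q * v) * q * max (-v) 0) ≤
      En (kR q) m m + ENNReal.ofReal (Real.exp (q * v) * q) * (∫⁻ x, ∫⁻ y, Lm (x, y) ∂m ∂m) +
        ENNReal.ofReal (Real.exp (q * v) * q * max v 0) := by
  have mk2 : Measurable fun x : E n => ∫⁻ y, kR q (dist x y) ∂m :=
    (measurable_kR_dist (n := n) q).lintegral_prod_right'
  have mp2 : Measurable fun x : E n => ∫⁻ y, Lp (x, y) ∂m :=
    (measurable_Lp (n := n)).lintegral_prod_right'
  have mm2 : Measurable fun x : E n => ∫⁻ y, Lm (x, y) ∂m :=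
    (measurable_Lm (n := n)).lintegral_prod_right'
  unfold En
  rw [← gen1 m _ _ _ mp2, ← gen2 m _ _ _ mk2 mm2]
  exact lintegral_mono fun x => int_ineq_one hq v m x

end J394

open J394

theorem jensenR {p q : ℝ} (hp : 0 < p) (hpq : p < q) (K : Set (E n)) :
    (VV (kR p) K) ^ (q / p) ≤ VV (kR q) K := by
  have hr : 1 < q / p := by rw [one_lt_div hp]; exact hpq
  unfold VV
  refine le_iInf₂ fun μ hμ => ?_
  have h1 : (⨅ (μ : ProbabilityMeasure (E n)) (_ : (μ : Measure (E n)) Kᶜ = 0),
      En (kR p) (μ : Measure (E n)) (μ : Measure (E n))) ≤ En (kR p) (μ : Measure (E n)) μ :=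
    iInf₂_le μ hμ
  refine (ENNReal.rpow_le_rpow h1 (by linarith)).trans ?_
  unfold En
  have h2 : ∀ x : E n, (∫⁻ y, kR p (dist x y) ∂(μ : Measure (E n))) ^ (q / p) ≤
      ∫⁻ y, kR q (dist x y) ∂(μ : Measure (E n)) := by
    intro x
    have h3 : ∀ y : E n, kR q (dist x y) = kR p (dist x y) ^ (q / p) := by
      intro y
      unfold kR
      rw [← ENNReal.rpow_mul]
      congr 1
      field_simp
    simp_rw [h3]
    exact jensen_one _ hr ((measurable_kR p).comp (measurable_const.dist measurable_id)).aemeasurable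
  refine (jensen_one _ hr ?_).trans (lintegral_mono h2)
  exact ((measurable_kR_dist (n := n) p).lintegral_prod_right).aemeasurable

theorem jensen0 {q : ℝ} (hq : 0 < q) {K : Set (E n)} (hK : IsCompact K) {v : ℝ}
    (hv : V0 K = (v : EReal)) : ENNReal.ofReal (Real.exp (q * v)) ≤ VV (kR q) K := by
  obtain ⟨D, -, hD⟩ := N_le hK
  unfold VV
  refine le_iInf₂ fun μ hμ => ?_
  have hprob : IsProbabilityMeasure (μ : Measure (E n)) := inferInstance
  have hN := hD μ hprob hμ
  have hlog : (v : EReal) ≤ logEnergy (μ : Measure (E n)) := by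
    rw [← hv]
    exact iInf₂_le μ hμ
  rw [logEnergy_eq] at hlog
  set m : Measure (E n) := (μ : Measure (E n)) with hm
  set P := ∫⁻ x, ∫⁻ y, Lp (x, y) ∂m ∂m with hP
  set N := ∫⁻ x, ∫⁻ y, Lm (x, y) ∂m ∂m with hN'
  have hNtop : N ≠ ⊤ := ne_top_of_le_ne_top ENNReal.ofReal_ne_top hN
  set c := Real.exp (q * v) with hc
  have hc0 : 0 < c := Real.exp_pos _
  -- integrate the pointwise inequality
  have hint : ENNReal.ofReal c + ENNReal.ofReal (c * q) * P + ENNReal.ofReal (c * q * max (-v) 0) ≤
      En (kR q) m m + ENNReal.ofReal (c * q) * N + ENNReal.ofReal (c * q * max v 0) := by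
    exact int_ineq hq v m
  by_contra hcon
  push Not at hcon
  have hEtop : En (kR q) m m ≠ ⊤ := ne_top_of_lt hcon
  have hPtop : P ≠ ⊤ := by
    intro h
    rw [h, ENNReal.mul_top (by rw [Ne, ENNReal.ofReal_eq_zero, not_le]; positivity), add_top,
      top_add, top_le_iff] at hint
    refine ENNReal.add_ne_top.2 ⟨ENNReal.add_ne_top.2 ⟨hEtop, ?_⟩, ENNReal.ofReal_ne_top⟩ hint
    exact ENNReal.mul_ne_top ENNReal.ofReal_ne_top hNtop
  have hPN : v ≤ P.toReal - N.toReal := by
    rw [← EReal.coe_ennreal_toReal hPtop, ← EReal.coe_ennreal_toReal hNtop, ← EReal.coe_sub] at hlog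
    exact_mod_cast hlog
  have hE : (En (kR q) m m).toReal < c := by
    rw [← ENNReal.ofReal_toReal hEtop] at hcon
    exact (ENNReal.ofReal_lt_ofReal_iff hc0).1 hcon
  have hr := ENNReal.toReal_mono (ENNReal.add_ne_top.2 ⟨ENNReal.add_ne_top.2 ⟨hEtop,
    ENNReal.mul_ne_top ENNReal.ofReal_ne_top hNtop⟩, ENNReal.ofReal_ne_top⟩) hint
  rw [ENNReal.toReal_add (ENNReal.add_ne_top.2 ⟨ENNReal.ofReal_ne_top,
      ENNReal.mul_ne_top ENNReal.ofReal_ne_top hPtop⟩) ENNReal.ofReal_ne_top,
    ENNReal.toReal_add ENNReal.ofReal_ne_top (ENNReal.mul_ne_top ENNReal.ofReal_ne_top hPtop),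
    ENNReal.toReal_add (ENNReal.add_ne_top.2 ⟨hEtop, ENNReal.mul_ne_top ENNReal.ofReal_ne_top hNtop⟩)
      ENNReal.ofReal_ne_top,
    ENNReal.toReal_add hEtop (ENNReal.mul_ne_top ENNReal.ofReal_ne_top hNtop),
    ENNReal.toReal_mul, ENNReal.toReal_mul, ENNReal.toReal_ofReal hc0.le,
    ENNReal.toReal_ofReal (by positivity), ENNReal.toReal_ofReal (by positivity),
    ENNReal.toReal_ofReal (by positivity)] at hr
  have f4 : max v 0 - max (-v) 0 = v := by
    rcases le_total v 0 with h | h
    · rw [max_eq_right h, max_eq_left (by linarith)]; ring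
    · rw [max_eq_left h, max_eq_right (by linarith)]; ring
  have f7 : c * q * max v 0 = c * q * max (-v) 0 + c * q * v := by
    have : max v 0 = max (-v) 0 + v := by linarith
    rw [this]; ring
  have f8 : c * q * v ≤ c * q * (P.toReal - N.toReal) := mul_le_mul_of_nonneg_left hPN (by positivity)
  rw [mul_sub] at f8
  linarith

theorem V0_ne_bot {K : Set (E n)} (hK : IsCompact K) : V0 K ≠ ⊥ := by
  obtain ⟨D, hD0, hD⟩ := N_le hK
  have h1 : ((-D : ℝ) : EReal) ≤ V0 K := by
    unfold V0
    refine le_iInf₂ fun μ hμ => ?_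
    rw [logEnergy_eq]
    have hN := hD μ inferInstance hμ
    set P := ∫⁻ x, ∫⁻ y, Lp (x, y) ∂(μ : Measure (E n)) ∂(μ : Measure (E n)) with hP
    set N := ∫⁻ x, ∫⁻ y, Lm (x, y) ∂(μ : Measure (E n)) ∂(μ : Measure (E n)) with hN'
    have h2 : (N : EReal) ≤ (D : EReal) := by
      have h3 : (N : EReal) ≤ ((ENNReal.ofReal D : ℝ≥0∞) : EReal) := by exact_mod_cast hN
      rwa [EReal.coe_ennreal_ofReal, max_eq_left hD0] at h3
    have h3 : (0 : EReal) ≤ (P : EReal) := EReal.coe_ennreal_nonneg _
    have h4 : (0 : EReal) - (D : EReal) ≤ (P : EReal) - (N : EReal) := EReal.sub_le_sub h3 h2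
    rwa [zero_sub, ← EReal.coe_neg] at h4
  intro h
  rw [h] at h1
  exact absurd (le_bot_iff.1 h1) (EReal.coe_ne_bot _)

theorem VV_ball_ne_top {q : ℝ} (hq : 0 < q) (hqn : q < n) :
    VV (kR q) (Metric.closedBall (0 : E n) 1) ≠ ⊤ := by
  have hn : 1 ≤ n := by
    by_contra hc
    have : n = 0 := by omega
    subst this
    simp at hqn
    linarith
  haveI : Nonempty (Fin n) := ⟨⟨0, hn⟩⟩
  haveI : Nontrivial (E n) := inferInstance
  have hint : IntegrableOn (fun z : E n => ‖z‖ ^ (-q)) (Metric.ball 0 3) volume := by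
    rw [integrableOn_fun_norm_addHaar (volume : Measure (E n)) (f := fun y : ℝ => y ^ (-q))]
    have h1 : IntegrableOn (fun y : ℝ => y ^ ((n : ℝ) - 1 - q)) (Ioo 0 3) volume := by
      rw [intervalIntegral.integrableOn_Ioo_rpow_iff (by norm_num)]
      linarith
    refine h1.congr_fun (fun y hy => ?_) measurableSet_Ioo
    simp only [finrank_euclideanSpace, Fintype.card_fin, smul_eq_mul]
    rw [← Real.rpow_natCast, ← Real.rpow_add hy.1, Nat.cast_sub hn]
    congr 1
    push_cast
    ring
  set J : ℝ≥0∞ := ∫⁻ z in Metric.ball (0 : E n) 3, kR q ‖z‖ with hJ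
  have hJtop : J ≠ ⊤ := by
    have h1 : J = ∫⁻ z in Metric.ball (0 : E n) 3, ENNReal.ofReal (‖z‖ ^ (-q)) := by
      rw [hJ]
      refine lintegral_congr_ae ?_
      have h0 : ∀ᵐ z ∂(volume.restrict (Metric.ball (0 : E n) 3)), z ≠ 0 :=
        ae_restrict_of_ae (by simp [ae_iff, measure_singleton])
      filter_upwards [h0] with z hz
      unfold kR
      rw [ENNReal.ofReal_rpow_of_pos (norm_pos_iff.2 hz)]
    rw [h1]
    exact hint.lintegral_lt_top.ne
  set B := Metric.closedBall (0 : E n) 1 with hB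
  have hB0 : volume B ≠ 0 := (Metric.measure_closedBall_pos volume (0 : E n) one_pos).ne'
  have hBtop : volume B ≠ ⊤ := measure_closedBall_lt_top.ne
  have hBm : MeasurableSet B := Metric.isClosed_closedBall.measurableSet
  set m : Measure (E n) := (volume B)⁻¹ • volume.restrict B with hm
  have hmprob : IsProbabilityMeasure m := by
    constructor
    rw [hm, Measure.smul_apply, Measure.restrict_apply_univ, smul_eq_mul, ENNReal.inv_mul_cancel hB0 hBtop]
  have hmB : m Bᶜ = 0 := by
    rw [hm, Measure.smul_apply, Measure.restrict_apply hBm.compl, compl_inter_self, measure_empty,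
      smul_zero]
  have hle : VV (kR q) B ≤ En (kR q) m m :=
    iInf₂_le (⟨m, hmprob⟩ : ProbabilityMeasure (E n)) hmB
  have hEn : En (kR q) m m ≤ (volume B)⁻¹ * J := by
    unfold En
    have h1 : ∀ᵐ x ∂m, ∫⁻ y, kR q (dist x y) ∂m ≤ (volume B)⁻¹ * J := by
      have h0 : ∀ᵐ x ∂m, x ∈ B := by
        rw [ae_iff]
        exact hmB
      filter_upwards [h0] with x hx
      rw [hm, lintegral_smul_measure, smul_eq_mul]
      refine mul_le_mul_right ?_ _
      calc ∫⁻ y in B, kR q (dist x y)
          = ∫⁻ y, B.indicator (fun y => kR q (dist x y)) y := (lintegral_indicator hBm _).symm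
        _ ≤ ∫⁻ y, (Metric.ball (0 : E n) 3).indicator (fun z => kR q ‖z‖) (x - y) := by
            refine lintegral_mono fun y => ?_
            by_cases hy : y ∈ B
            · have hxy : x - y ∈ Metric.ball (0 : E n) 3 := by
                rw [mem_ball_zero_iff]
                have h2 : ‖x‖ ≤ 1 := mem_closedBall_zero_iff.1 hx
                have h3 : ‖y‖ ≤ 1 := mem_closedBall_zero_iff.1 hy
                have := norm_sub_le x y
                linarith
              rw [indicator_of_mem hy, indicator_of_mem hxy, dist_eq_norm]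
            · rw [indicator_of_notMem hy]
              exact bot_le
        _ = ∫⁻ z, (Metric.ball (0 : E n) 3).indicator (fun z => kR q ‖z‖) z :=
            lintegral_sub_left_eq_self _ x
        _ = J := lintegral_indicator measurableSet_ball _
    calc ∫⁻ x, ∫⁻ y, kR q (dist x y) ∂m ∂m ≤ ∫⁻ _x, (volume B)⁻¹ * J ∂m := lintegral_mono_ae h1
      _ = (volume B)⁻¹ * J := by rw [lintegral_const, measure_univ, mul_one]
  exact ne_top_of_le_ne_top (ENNReal.mul_ne_top (ENNReal.inv_ne_top.2 hB0) hJtop) (hle.trans hEn)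

end R970.RC
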