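import Pool.Agent.R970.RC.SH

/-! Project RC (MP_ce24da_an), piece RC-SC: scaling and translation. -/

set_option autoImplicit false

open MeasureTheory Set Filter Topology
open scoped ENNReal NNReal

namespace R970.RC

namespace SC

variable {n : ℕ}

/-- the similarity `y ↦ x + t y` -/
noncomputable def TT (x : E n) (t : ℝ) (ht : t ≠ 0) : E n ≃ₜ E n :=
  (Homeomorph.smulOfNeZero t ht).trans (Homeomorph.addLeft x)

theorem TT_apply (x : E n) (t : ℝ) (ht : t ≠ 0) (y : E n) : TT x t ht y = x + t • y := rfl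

theorem TT_dist (x : E n) (t : ℝ) (ht : 0 < t) (y z : E n) :
    dist (TT x t ht.ne' y) (TT x t ht.ne' z) = t * dist y z := by
  rw [TT_apply, TT_apply, dist_add_left, dist_smul₀, Real.norm_of_nonneg ht.le]

theorem VV_map {k k' : ℝ → ℝ≥0∞} {C : ℝ≥0∞} (hC0 : C ≠ 0) (hC : C ≠ ⊤) {t : ℝ} (ht : 0 < t)
    (h : ∀ r, 0 ≤ r → k' (t * r) = C * k r) (K : Set (E n)) (x : E n) :
    VV k' ((fun y => x + t • y) '' K) ≤ C * VV k K := by
  have hemb : MeasurableEmbedding (TT x t ht.ne') := (TT x t ht.ne').measurableEmbedding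
  unfold VV
  rw [ENNReal.mul_iInf_of_ne hC0 hC]
  refine le_iInf fun μ => ?_
  by_cases hμ : (μ : Measure (E n)) Kᶜ = 0
  · rw [iInf_pos hμ]
    refine iInf₂_le_of_le (μ.map hemb.measurable.aemeasurable) ?_ ?_
    · rw [ProbabilityMeasure.toMeasure_map, hemb.map_apply]
      have e : (TT x t ht.ne') ⁻¹' ((fun y => x + t • y) '' K)ᶜ = Kᶜ := by
        have e2 : (fun y => x + t • y) '' K = (TT x t ht.ne') '' K := rfl
        rw [e2, preimage_compl, preimage_image_eq _ (TT x t ht.ne').injective]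
      rw [e, hμ]
    · rw [ProbabilityMeasure.toMeasure_map]
      unfold En
      rw [hemb.lintegral_map]
      have e : ∀ a : E n, ∫⁻ y, k' (dist (TT x t ht.ne' a) y)
          ∂(Measure.map (TT x t ht.ne') (μ : Measure (E n))) =
          C * ∫⁻ y, k (dist a y) ∂(μ : Measure (E n)) := by
        intro a
        rw [hemb.lintegral_map, ← lintegral_const_mul' _ _ hC]
        apply lintegral_congr
        intro y
        rw [TT_dist x t ht, h _ dist_nonneg]
      simp_rw [e]
      rw [lintegral_const_mul' _ _ hC]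
  · rw [iInf_neg hμ, ENNReal.mul_top hC0]
    exact le_top

theorem image_image' {t : ℝ} (ht : 0 < t) (K : Set (E n)) (x : E n) :
    (fun y => (-(t⁻¹ • x)) + t⁻¹ • y) '' ((fun y => x + t • y) '' K) = K := by
  rw [image_image]
  have : (fun y : E n => -(t⁻¹ • x) + t⁻¹ • (x + t • y)) = id := by
    funext y
    rw [smul_add, smul_smul, inv_mul_cancel₀ ht.ne', one_smul, neg_add_cancel_left]
    rfl
  rw [this, image_id]

theorem kR_mul {s : ℝ} (hs : 0 < s) {t : ℝ} (ht : 0 < t) (r : ℝ) (hr : 0 ≤ r) :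
    kR s (t * r) = ENNReal.ofReal (t ^ (-s)) * kR s r := by
  unfold kR
  rcases hr.eq_or_lt with h0 | h0
  · subst h0
    rw [mul_zero, ENNReal.ofReal_zero, ENNReal.zero_rpow_of_neg (by linarith), ENNReal.mul_top]
    simpa using Real.rpow_pos_of_pos ht _
  · rw [ENNReal.ofReal_rpow_of_pos (mul_pos ht h0), ENNReal.ofReal_rpow_of_pos h0,
      Real.mul_rpow ht.le h0.le, ENNReal.ofReal_mul (Real.rpow_nonneg ht.le _)]

theorem kL_mul {c b : ℝ} {t : ℝ} (ht : 0 < t) (r : ℝ) :
    kL (t * c) b (t * r) = kL c b r := by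
  unfold kL
  by_cases hr : r ≤ 0
  · rw [if_pos hr, if_pos (mul_nonpos_of_nonneg_of_nonpos ht.le hr)]
  · rw [if_neg hr, if_neg (not_le.2 (mul_pos ht (not_le.1 hr))), mul_div_mul_left _ _ ht.ne']

end SC

open SC in
theorem VV_kR_smul {n : ℕ} {s : ℝ} (hs : 0 < s) {t : ℝ} (ht : 0 < t) (K : Set (E n)) (x : E n) :
    VV (kR s) ((fun y => x + t • y) '' K) = ENNReal.ofReal (t ^ (-s)) * VV (kR s) K := by
  have hpos : ∀ u : ℝ, 0 < u → ENNReal.ofReal (u ^ (-s)) ≠ 0 := by
    intro u hu
    simpa using Real.rpow_pos_of_pos hu _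
  apply le_antisymm
  · exact VV_map (hpos t ht) ENNReal.ofReal_ne_top ht (fun r hr => kR_mul hs ht r hr) K x
  · have ht' : 0 < t⁻¹ := inv_pos.2 ht
    have h := VV_map (hpos _ ht') ENNReal.ofReal_ne_top ht'
      (fun r hr => kR_mul hs ht' r hr) ((fun y => x + t • y) '' K) (-(t⁻¹ • x))
    rw [image_image' ht] at h
    calc ENNReal.ofReal (t ^ (-s)) * VV (kR s) K
        ≤ ENNReal.ofReal (t ^ (-s)) * (ENNReal.ofReal (t⁻¹ ^ (-s)) *
          VV (kR s) ((fun y => x + t • y) '' K)) := mul_le_mul_right h _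
      _ = VV (kR s) ((fun y => x + t • y) '' K) := by
          rw [← mul_assoc, ← ENNReal.ofReal_mul (Real.rpow_nonneg ht.le _),
            ← Real.mul_rpow ht.le ht'.le, mul_inv_cancel₀ ht.ne', Real.one_rpow,
            ENNReal.ofReal_one, one_mul]

open SC in
theorem V0_smul {n : ℕ} {t : ℝ} (ht : 0 < t) {K : Set (E n)} (hK : IsCompact K) (x : E n) :
    V0 ((fun y => x + t • y) '' K) = V0 K - ((Real.log t : ℝ) : EReal) := by
  obtain ⟨D, hD0, hD⟩ : ∃ D : ℝ, 0 < D ∧ K ⊆ Metric.closedBall 0 D := by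
    obtain ⟨D, hD⟩ := hK.isBounded.subset_closedBall 0
    exact ⟨max D 1, lt_max_of_lt_right one_pos,
      hD.trans (Metric.closedBall_subset_closedBall (le_max_left _ _))⟩
  set c : ℝ := 2 * D with hc
  have hc0 : 0 < c := by positivity
  have h1 := V0_shift (c := c) (b := 0) (D := D) hc0 le_rfl hD0 (by simp [hc]) hD
  have hD' : (fun y => x + t • y) '' K ⊆ Metric.closedBall x (t * D) := by
    rintro _ ⟨y, hy, rfl⟩
    have := Metric.mem_closedBall.1 (hD hy)
    rw [Metric.mem_closedBall, dist_eq_norm, add_sub_cancel_left, norm_smul,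
      Real.norm_of_nonneg ht.le]
    rw [dist_zero_right] at this
    exact mul_le_mul_of_nonneg_left this ht.le
  have h2 := V0_shift (c := t * c) (b := 0) (D := t * D) (mul_pos ht hc0) le_rfl (mul_pos ht hD0)
    (by rw [hc]; simp; linarith) hD'
  have h3 : VV (kL (t * c) 0) ((fun y => x + t • y) '' K) = VV (kL c 0) K := by
    apply le_antisymm
    · have := VV_map (k := kL c 0) (k' := kL (t * c) 0) one_ne_zero ENNReal.one_ne_top ht
        (fun r _ => by rw [kL_mul ht, one_mul]) K x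
      rwa [one_mul] at this
    · have ht' : 0 < t⁻¹ := inv_pos.2 ht
      have := VV_map (k := kL (t * c) 0) (k' := kL c 0) one_ne_zero ENNReal.one_ne_top ht'
        (fun r _ => by
          have e := kL_mul (c := t * c) (b := 0) ht' r
          rw [inv_mul_cancel_left₀ ht.ne'] at e
          rw [e, one_mul]) ((fun y => x + t • y) '' K) (-(t⁻¹ • x))
      rwa [image_image' ht, one_mul] at this
  rw [h3, h1, Real.log_mul ht.ne' hc0.ne'] at h2
  -- `V0 K + log c = V0 (T K) + (log t + log c)`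
  have h4 : V0 ((fun y => x + t • y) '' K) =
      (V0 ((fun y => x + t • y) '' K) + ((Real.log t + Real.log c : ℝ) : EReal))
        - ((Real.log t + Real.log c : ℝ) : EReal) := by
    induction V0 ((fun y => x + t • y) '' K) with
    | bot => simp
    | top => rw [EReal.top_add_coe, EReal.top_sub_coe]
    | coe r => rw [← EReal.coe_add, ← EReal.coe_sub]; congr 1; ring
  rw [h4, ← h2]
  induction V0 K with
  | bot => simp
  | top => rw [EReal.top_add_coe, EReal.top_sub_coe, EReal.top_sub_coe]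
  | coe r => rw [← EReal.coe_add, ← EReal.coe_sub, ← EReal.coe_sub]; congr 1; ring

end R970.RC
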