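import Pool.Agent.R970.RC.Defs

/-! Project RC (MP_ce24da_an), piece RC-SH: the shift between `V0` and `VV (kL c b)`. -/

set_option autoImplicit false

open MeasureTheory Set Filter Topology
open scoped ENNReal NNReal

namespace R970.RC

theorem VR_eq {n : ℕ} (s : ℝ) (K : Set (E n)) : VR s K = VV (kR s) K := by
  unfold VR VV rieszEnergy En kR
  simp only [edist_dist]

namespace SH

theorem ereal_aux (a e N : ℝ≥0∞) (hn : N ≠ ⊤) (l : ℝ)
    (h : e + N + ENNReal.ofReal (-l) = a + ENNReal.ofReal l) :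
    (e : EReal) = ((a : EReal) - (N : EReal)) + ((l : ℝ) : EReal) := by
  lift N to ℝ≥0 using hn
  rcases eq_or_ne a ⊤ with ha | ha
  · rw [ha, top_add] at h
    have he : e = ⊤ := by
      by_contra he
      have : e + N + ENNReal.ofReal (-l) ≠ ⊤ :=
        ENNReal.add_ne_top.2 ⟨ENNReal.add_ne_top.2 ⟨he, ENNReal.coe_ne_top⟩, ENNReal.ofReal_ne_top⟩
      exact this h
    rw [he, ha, EReal.coe_ennreal_top, EReal.coe_nnreal_eq_coe_real, EReal.top_sub_coe,
      EReal.top_add_coe]
  · have he : e ≠ ⊤ := by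
      intro he
      rw [he, top_add, top_add] at h
      exact (ENNReal.add_ne_top.2 ⟨ha, ENNReal.ofReal_ne_top⟩) h.symm
    lift a to ℝ≥0 using ha
    lift e to ℝ≥0 using he
    have h2 := congrArg ENNReal.toReal h
    rw [ENNReal.toReal_add (by simp) (by simp), ENNReal.toReal_add (by simp) (by simp),
      ENNReal.toReal_add (by simp) (by simp), ENNReal.coe_toReal, ENNReal.coe_toReal,
      ENNReal.coe_toReal, ENNReal.toReal_ofReal', ENNReal.toReal_ofReal'] at h2
    have h3 : max (-l) 0 - max l 0 = -l := by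
      rcases le_total 0 l with hl | hl
      · rw [max_eq_right (by linarith), max_eq_left hl]; ring
      · rw [max_eq_left (by linarith), max_eq_right hl]; ring
    rw [EReal.coe_nnreal_eq_coe_real, EReal.coe_nnreal_eq_coe_real, EReal.coe_nnreal_eq_coe_real,
      ← EReal.coe_sub, ← EReal.coe_add]
    congr 1
    linarith

/-- positive part of `-log` -/
noncomputable def pa (r : ℝ) : ℝ≥0∞ := (-(ENNReal.log (ENNReal.ofReal r))).toENNReal

/-- positive part of `log` -/
noncomputable def na (r : ℝ) : ℝ≥0∞ := (ENNReal.log (ENNReal.ofReal r)).toENNReal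

theorem meas_log : Measurable ENNReal.log :=
  (ENNReal.log_monotone).measurable

theorem na_meas : Measurable na :=
  measurable_ereal_toENNReal.comp (meas_log.comp ENNReal.measurable_ofReal)

theorem pw {c b D : ℝ} (hc : 0 < c) (hb : 0 ≤ b) (h : 2 * D ≤ c * Real.exp (-b)) {r : ℝ}
    (hr0 : 0 ≤ r) (hr : r ≤ 2 * D) :
    kL c b r + na r + ENNReal.ofReal (-Real.log c) = pa r + ENNReal.ofReal (Real.log c) := by
  rcases hr0.eq_or_lt with h0 | h0
  · subst h0
    simp [kL, pa, na]
  · unfold kL pa na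
    rw [if_neg (not_le.2 h0), ENNReal.log_ofReal_of_pos h0, EReal.real_coe_toENNReal,
      ← EReal.coe_neg, EReal.real_coe_toENNReal]
    have h1 : b ≤ Real.log (c / r) := by
      rw [Real.le_log_iff_exp_le (div_pos hc h0), le_div_iff₀ h0]
      calc Real.exp b * r ≤ Real.exp b * (c * Real.exp (-b)) :=
            mul_le_mul_of_nonneg_left (hr.trans h) (Real.exp_pos _).le
        _ = c * (Real.exp b * Real.exp (-b)) := by ring
        _ = c := by rw [← Real.exp_add]; simp
    rw [max_eq_left h1, Real.log_div hc.ne' h0.ne'] at *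
    have hm : ∀ x : ℝ, ENNReal.ofReal x = ENNReal.ofReal (max x 0) := by
      intro x
      rcases le_total 0 x with hx | hx
      · rw [max_eq_left hx]
      · rw [max_eq_right hx, ENNReal.ofReal_of_nonpos hx, ENNReal.ofReal_zero]
    rw [hm (Real.log r), hm (-Real.log c), hm (-Real.log r), hm (Real.log c),
      ← ENNReal.ofReal_add (by linarith) (le_max_right _ _),
      ← ENNReal.ofReal_add (add_nonneg (by linarith) (le_max_right _ _)) (le_max_right _ _),
      ← ENNReal.ofReal_add (le_max_right _ _) (le_max_right _ _)]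
    congr 1
    have h3 : ∀ l : ℝ, max (-l) 0 - max l 0 = -l := by
      intro l
      rcases le_total 0 l with hl | hl
      · rw [max_eq_right (by linarith), max_eq_left hl]; ring
      · rw [max_eq_left (by linarith), max_eq_right hl]; ring
    have h4 := h3 (Real.log r)
    have h5 := h3 (Real.log c)
    linarith

theorem na_le {D r : ℝ} (hD : 0 < D) (hr : r ≤ 2 * D) :
    na r ≤ ENNReal.ofReal (Real.log (2 * D)) := by
  have h1 : na r ≤ na (2 * D) := by
    unfold na
    apply EReal.toENNReal_le_toENNReal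
    exact ENNReal.log_monotone (ENNReal.ofReal_le_ofReal hr)
  refine h1.trans (le_of_eq ?_)
  unfold na
  rw [ENNReal.log_ofReal_of_pos (by linarith), EReal.real_coe_toENNReal]

theorem energy {n : ℕ} {c b D : ℝ} (hc : 0 < c) (hb : 0 ≤ b) (hD : 0 < D)
    (h : 2 * D ≤ c * Real.exp (-b)) {A : Set (E n)} {x : E n}
    (hA : A ⊆ Metric.closedBall x D) (μ : Measure (E n)) [IsProbabilityMeasure μ]
    (hμ : μ Aᶜ = 0) :
    ((En (kL c b) μ μ : ℝ≥0∞) : EReal) = logEnergy μ + ((Real.log c : ℝ) : EReal) := by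
  have hae : ∀ᵐ y ∂μ, y ∈ A := by
    rw [ae_iff]; exact hμ
  have hd : ∀ y ∈ A, ∀ z ∈ A, dist y z ≤ 2 * D := by
    intro y hy z hz
    have h1 := Metric.mem_closedBall.1 (hA hy)
    have h2 := Metric.mem_closedBall.1 (hA hz)
    calc dist y z ≤ dist y x + dist z x := dist_triangle_right _ _ _
      _ ≤ 2 * D := by linarith
  have hnm : Measurable (fun p : E n × E n => na (dist p.1 p.2)) := na_meas.comp (by fun_prop)
  have hN : ∫⁻ y, ∫⁻ z, na (dist y z) ∂μ ∂μ ≠ ⊤ := by
    have h1 : ∫⁻ y, ∫⁻ z, na (dist y z) ∂μ ∂μ ≤ ENNReal.ofReal (Real.log (2 * D)) := by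
      calc ∫⁻ y, ∫⁻ z, na (dist y z) ∂μ ∂μ
          ≤ ∫⁻ _, ∫⁻ _, ENNReal.ofReal (Real.log (2 * D)) ∂μ ∂μ := by
            apply lintegral_mono_ae
            filter_upwards [hae] with y hy
            apply lintegral_mono_ae
            filter_upwards [hae] with z hz
            exact na_le hD (hd y hy z hz)
        _ = ENNReal.ofReal (Real.log (2 * D)) := by simp
    exact (h1.trans_lt ENNReal.ofReal_lt_top).ne
  have key : (∫⁻ y, ∫⁻ z, kL c b (dist y z) ∂μ ∂μ) + (∫⁻ y, ∫⁻ z, na (dist y z) ∂μ ∂μ) +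
      ENNReal.ofReal (-Real.log c) = (∫⁻ y, ∫⁻ z, pa (dist y z) ∂μ ∂μ) +
      ENNReal.ofReal (Real.log c) := by
    have e1 : ∫⁻ y, ∫⁻ z, (kL c b (dist y z) + na (dist y z) + ENNReal.ofReal (-Real.log c)) ∂μ ∂μ
        = ∫⁻ y, ∫⁻ z, (pa (dist y z) + ENNReal.ofReal (Real.log c)) ∂μ ∂μ := by
      apply lintegral_congr_ae
      filter_upwards [hae] with y hy
      apply lintegral_congr_ae
      filter_upwards [hae] with z hz
      exact pw hc hb h dist_nonneg (hd y hy z hz)
    have e2 : ∀ y, ∫⁻ z, (kL c b (dist y z) + na (dist y z) + ENNReal.ofReal (-Real.log c)) ∂μ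
        = (∫⁻ z, kL c b (dist y z) ∂μ) + (∫⁻ z, na (dist y z) ∂μ) +
          ENNReal.ofReal (-Real.log c) := by
      intro y
      have hym : Measurable (fun z : E n => na (dist y z)) := na_meas.comp (by fun_prop)
      rw [lintegral_add_right _ measurable_const, lintegral_add_right _ hym, lintegral_const,
        measure_univ, mul_one]
    have e3 : ∀ y, ∫⁻ z, (pa (dist y z) + ENNReal.ofReal (Real.log c)) ∂μ
        = (∫⁻ z, pa (dist y z) ∂μ) + ENNReal.ofReal (Real.log c) := by
      intro y
      rw [lintegral_add_right _ measurable_const, lintegral_const, measure_univ, mul_one]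
    simp_rw [e2, e3] at e1
    rw [lintegral_add_right _ measurable_const, lintegral_add_right _ hnm.lintegral_prod_right',
      lintegral_add_right _ measurable_const, lintegral_const, lintegral_const, measure_univ,
      mul_one, mul_one] at e1
    exact e1
  have h5 := ereal_aux _ _ _ hN _ key
  unfold En logEnergy
  simp only [edist_dist]
  exact h5

theorem coe_iInf {ι : Sort*} (g : ι → ℝ≥0∞) :
    ((iInf g : ℝ≥0∞) : EReal) = ⨅ i, (g i : EReal) :=
  Monotone.map_iInf_of_continuousAt continuous_coe_ennreal_ereal.continuousAt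
    EReal.coe_ennreal_strictMono.monotone rfl

theorem iInf_add_real {ι : Sort*} (g : ι → EReal) (l : ℝ) :
    (iInf g) + ((l : ℝ) : EReal) = ⨅ i, (g i + ((l : ℝ) : EReal)) := by
  refine Monotone.map_iInf_of_continuousAt (f := fun z : EReal => z + ((l : ℝ) : EReal))
    ?_ ?_ ?_
  · have h1 := EReal.continuousAt_add (p := (iInf g, ((l : ℝ) : EReal)))
      (Or.inr (EReal.coe_ne_bot _)) (Or.inr (EReal.coe_ne_top _))
    exact h1.comp (f := fun z : EReal => (z, ((l : ℝ) : EReal)))
      (continuousAt_id.prodMk continuousAt_const)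
  · intro a b hab
    exact add_le_add_left hab _
  · exact EReal.top_add_coe _

end SH

open SH in
theorem V0_shift {n : ℕ} {c b D : ℝ} (hc : 0 < c) (hb : 0 ≤ b) (hD : 0 < D)
    (h : 2 * D ≤ c * Real.exp (-b)) {A : Set (E n)} {x : E n}
    (hA : A ⊆ Metric.closedBall x D) :
    ((VV (kL c b) A : ℝ≥0∞) : EReal) = V0 A + ((Real.log c : ℝ) : EReal) := by
  unfold VV V0
  rw [coe_iInf, iInf_add_real]
  congr 1
  funext μ
  rw [coe_iInf, iInf_add_real]
  congr 1
  funext hμ
  exact energy hc hb hD h hA (μ : Measure (E n)) hμ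

end R970.RC
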