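import Pool.Agent.R970.RC.Defs
import Pool.Agent.R970.RC.K
import Pool.Agent.R970.RC.V1

/-! # Piece RC-TAIL : tail estimate for near optimal sets, `p > 0` (helper515) -/

open MeasureTheory Set Filter Topology
open scoped ENNReal

namespace R970.RC

variable {n : ℕ}

namespace TailAux

theorem hopt_meas {p q M : ℝ} (hp : 0 < p) (hpq : p < q) (hM : 0 < M)
    (hopt : ∀ K : Set (E n), IsCompact K →
      (VV (kR p) K) ^ (q / p) ≤ ENNReal.ofReal M * VV (kR q) K) {A : Set (E n)}
    (hA : MeasurableSet A) :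
    (VV (kR p) A) ^ (q / p) ≤ ENNReal.ofReal M * VV (kR q) A := by
  have hs : 0 < q / p := div_pos (hp.trans hpq) hp
  have hM' : ENNReal.ofReal M ≠ 0 := by simp [hM]
  have hMt : ENNReal.ofReal M ≠ ⊤ := ENNReal.ofReal_ne_top
  have hkq : Measurable (kR q) := (isKer_kR (hp.trans hpq)).cont.measurable
  rw [mul_comm, ← ENNReal.div_le_iff hM' hMt]
  refine le_of_forall_gt_imp_ge_of_dense fun x hx => ?_
  obtain ⟨C, hCA, hC, hCx⟩ := VV_inner hkq hA hx
  rw [ENNReal.div_le_iff hM' hMt, mul_comm]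
  calc (VV (kR p) A) ^ (q / p) ≤ (VV (kR p) C) ^ (q / p) :=
        ENNReal.rpow_le_rpow (VV_anti _ hCA) hs.le
    _ ≤ ENNReal.ofReal M * VV (kR q) C := hopt C hC
    _ ≤ ENNReal.ofReal M * x := by gcongr

theorem kR_of_pos {s r : ℝ} (hr : 0 < r) : kR s r = ENNReal.ofReal (r ^ (-s)) := by
  rw [kR, ENNReal.ofReal_rpow_of_pos hr]

theorem kR_ptwise {p q δ R0 : ℝ} (hp : 0 < p) (hpq : p < q) (hδ : 0 < δ) (hR : 0 < R0) (r : ℝ) :
    kR p r ≤ ENNReal.ofReal (δ ^ (q - p)) * kR q r +
      ENNReal.ofReal (δ ^ (-p)) * (Iic R0).indicator 1 r + ENNReal.ofReal (R0 ^ (-p)) := by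
  rcases le_or_gt r 0 with h0 | h0
  · have : kR q r = ⊤ := by
      rw [kR, ENNReal.ofReal_of_nonpos h0, ENNReal.zero_rpow_of_neg (by linarith)]
    rw [this, ENNReal.mul_top (by simp; positivity)]
    simp
  rcases lt_or_ge r δ with h1 | h1
  · rw [kR_of_pos h0, kR_of_pos h0, ← ENNReal.ofReal_mul (by positivity)]
    refine le_trans (ENNReal.ofReal_le_ofReal ?_) (le_add_right (le_add_right le_rfl))
    have : r ^ (-p) = r ^ (q - p) * r ^ (-q) := by rw [← Real.rpow_add h0]; ring_nf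
    rw [this]
    exact mul_le_mul_of_nonneg_right (Real.rpow_le_rpow h0.le h1.le (by linarith)) (by positivity)
  have hanti := (isKer_kR hp).anti
  rcases le_or_gt r R0 with h2 | h2
  · have h3 : (Iic R0).indicator (1 : ℝ → ℝ≥0∞) r = 1 := by
      rw [indicator_of_mem (show r ∈ Iic R0 from h2)]; rfl
    rw [h3, mul_one]
    refine le_trans (hanti h1) (le_trans (le_of_eq (kR_of_pos hδ)) ?_)
    exact le_add_right (le_add_left le_rfl)
  · refine le_trans (hanti h2.le) (le_trans (le_of_eq (kR_of_pos hR)) ?_)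
    exact le_add_left le_rfl

/-- some ball of radius `R0` carries a definite mass -/
theorem center {p q δ R0 : ℝ} (hp : 0 < p) (hpq : p < q) (hδ : 0 < δ) (hR : 0 < R0)
    (μ : ProbabilityMeasure (E n)) {m : ℝ}
    (hq : En (kR q) (μ : Measure (E n)) μ ≤ ENNReal.ofReal m)
    (h1 : 1 ≤ En (kR p) (μ : Measure (E n)) μ) (hδm : δ ^ (q - p) * m ≤ 1 / 4)
    (hR0 : R0 ^ (-p) ≤ 1 / 4) :
    ∃ x : E n, ENNReal.ofReal (δ ^ p / 2) ≤ (μ : Measure (E n)) (Metric.closedBall x R0) := by
  have hkq : Measurable (kR q) := (isKer_kR (hp.trans hpq)).cont.measurable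
  have hμm : Measurable fun x : E n => (μ : Measure (E n)) (Metric.closedBall x R0) := by
    have h := measurable_measure_prodMk_left (ν := (μ : Measure (E n)))
      (s := {z : E n × E n | dist z.1 z.2 ≤ R0}) (measurableSet_le measurable_dist measurable_const)
    have h2 : (fun x : E n => (μ : Measure (E n)) (Metric.closedBall x R0)) =
        fun x => (μ : Measure (E n)) (Prod.mk x ⁻¹' {z : E n × E n | dist z.1 z.2 ≤ R0}) := by
      ext x
      congr 1
      ext y
      simp [dist_comm]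
    rw [h2]
    exact h
  obtain ⟨x, hx⟩ := exists_lintegral_le (μ := (μ : Measure (E n)))
    (f := fun x => (μ : Measure (E n)) (Metric.closedBall x R0)) (by
      refine ne_of_lt (lt_of_le_of_lt (lintegral_mono fun x => prob_le_one) ?_)
      simp)
  refine ⟨x, le_trans ?_ hx⟩
  have hin : ∀ x : E n, ∫⁻ y, kR p (dist x y) ∂(μ : Measure (E n)) ≤
      ENNReal.ofReal (δ ^ (q - p)) * Pot (kR q) (μ : Measure (E n)) x +
      ENNReal.ofReal (δ ^ (-p)) * (μ : Measure (E n)) (Metric.closedBall x R0) +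
      ENNReal.ofReal (R0 ^ (-p)) := by
    intro x
    refine (lintegral_mono fun y => kR_ptwise hp hpq hδ hR (dist x y)).trans (le_of_eq ?_)
    have hm1 : Measurable fun y => kR q (dist x y) :=
      hkq.comp (measurable_const.dist measurable_id)
    rw [lintegral_add_right _ measurable_const, lintegral_add_left (hm1.const_mul _),
      lintegral_const_mul _ hm1, lintegral_const_mul' _ _ ENNReal.ofReal_ne_top]
    congr 2
    · congr 1
      have : (fun y => (Iic R0).indicator (1 : ℝ → ℝ≥0∞) (dist x y)) =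
          (Metric.closedBall x R0).indicator 1 := by
        ext y
        simp only [indicator, mem_Iic, Metric.mem_closedBall, dist_comm, Pi.one_apply]
      rw [this, lintegral_indicator_one Metric.isClosed_closedBall.measurableSet]
    · simp
  have hout : En (kR p) (μ : Measure (E n)) μ ≤
      ENNReal.ofReal (δ ^ (q - p)) * En (kR q) (μ : Measure (E n)) μ +
      ENNReal.ofReal (δ ^ (-p)) * ∫⁻ x, (μ : Measure (E n)) (Metric.closedBall x R0)
        ∂(μ : Measure (E n)) + ENNReal.ofReal (R0 ^ (-p)) := by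
    refine (lintegral_mono hin).trans (le_of_eq ?_)
    rw [lintegral_add_right _ measurable_const, lintegral_add_left
      ((VAux.meas_Pot hkq _).const_mul _), lintegral_const_mul _ (VAux.meas_Pot hkq _),
      lintegral_const_mul _ hμm]
    simp [En, Pot]
  have h2 : (1 : ℝ≥0∞) ≤ ENNReal.ofReal (1 / 4) + ENNReal.ofReal (δ ^ (-p)) *
      ∫⁻ x, (μ : Measure (E n)) (Metric.closedBall x R0) ∂(μ : Measure (E n)) +
      ENNReal.ofReal (1 / 4) := by
    refine (h1.trans hout).trans ?_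
    refine add_le_add (add_le_add ?_ le_rfl) (ENNReal.ofReal_le_ofReal hR0)
    refine (mul_le_mul_right hq _).trans ?_
    rw [← ENNReal.ofReal_mul (by positivity)]
    exact ENNReal.ofReal_le_ofReal hδm
  set J := ∫⁻ x, (μ : Measure (E n)) (Metric.closedBall x R0) ∂(μ : Measure (E n)) with hJ
  have hJT : J ≠ ⊤ := by
    refine ne_of_lt (lt_of_le_of_lt (lintegral_mono fun x => prob_le_one) ?_)
    simp
  rw [← ENNReal.ofReal_toReal hJT, ← ENNReal.ofReal_mul (by positivity),
    ← ENNReal.ofReal_add (by norm_num) (by positivity), ← ENNReal.ofReal_add (by positivity)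
    (by norm_num), ENNReal.one_le_ofReal] at h2
  rw [← ENNReal.ofReal_toReal hJT]
  refine ENNReal.ofReal_le_ofReal ?_
  have h3 : 1 / 2 ≤ δ ^ (-p) * J.toReal := by linarith
  have h4 : δ ^ p * δ ^ (-p) = 1 := by rw [← Real.rpow_add hδ]; simp
  have h5 : δ ^ p * (1 / 2) ≤ δ ^ p * (δ ^ (-p) * J.toReal) :=
    mul_le_mul_of_nonneg_left h3 (by positivity)
  rw [← mul_assoc, h4, one_mul] at h5
  linarith

/-- far additivity of the capacity -/
theorem far_add {p D : ℝ} (hp : 0 < p) (hD : 0 < D) {K G B : Set (E n)}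
    (hK : VV (kR p) K = 1) (hG : G ⊆ K) (hB : B ⊆ K)
    (hGB : ∀ x ∈ G, ∀ y ∈ B, D ≤ dist x y) :
    (VV (kR p) G)⁻¹ + (VV (kR p) B)⁻¹ ≤ 1 + ENNReal.ofReal (D ^ (-p)) := by
  have hkp : Measurable (kR p) := (isKer_kR hp).cont.measurable
  have hG1 : 1 ≤ VV (kR p) G := hK ▸ VV_anti _ hG
  have hB1 : 1 ≤ VV (kR p) B := hK ▸ VV_anti _ hB
  rcases eq_or_ne (VV (kR p) G) ⊤ with hGT | hGT
  · rw [hGT, ENNReal.inv_top, zero_add]
    exact (ENNReal.inv_le_one.2 hB1).trans (le_add_right le_rfl)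
  rcases eq_or_ne (VV (kR p) B) ⊤ with hBT | hBT
  · rw [hBT, ENNReal.inv_top, add_zero]
    exact (ENNReal.inv_le_one.2 hG1).trans (le_add_right le_rfl)
  set a := (VV (kR p) G).toReal with ha
  set b := (VV (kR p) B).toReal with hb
  set d := D ^ (-p) with hd
  have hd0 : 0 ≤ d := by positivity
  have ha1 : 1 ≤ a := by
    rw [ha, ← ENNReal.toReal_one]; exact ENNReal.toReal_mono hGT hG1
  have hb1 : 1 ≤ b := by
    rw [hb, ← ENNReal.toReal_one]; exact ENNReal.toReal_mono hBT hB1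
  have hVG : VV (kR p) G = ENNReal.ofReal a := (ENNReal.ofReal_toReal hGT).symm
  have hVB : VV (kR p) B = ENNReal.ofReal b := (ENNReal.ofReal_toReal hBT).symm
  have key : ∀ t : ℝ, 0 ≤ t → t ≤ 1 → ∀ e : ℝ, 0 < e →
      1 ≤ (1 - t) ^ 2 * (a + e) + 2 * t * (1 - t) * d + t ^ 2 * (b + e) := by
    intro t ht0 ht1 e he
    have h1 : VV (kR p) G < ENNReal.ofReal (a + e) := by
      rw [hVG]; exact (ENNReal.ofReal_lt_ofReal_iff (by linarith)).2 (by linarith)
    have h2 : VV (kR p) B < ENNReal.ofReal (b + e) := by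
      rw [hVB]; exact (ENNReal.ofReal_lt_ofReal_iff (by linarith)).2 (by linarith)
    unfold VV at h1 h2
    simp only [iInf_lt_iff] at h1 h2
    obtain ⟨ρ, hρ, hρE⟩ := h1
    obtain ⟨σ, hσ, hσE⟩ := h2
    have hcross : En (kR p) (ρ : Measure (E n)) σ ≤ ENNReal.ofReal d := by
      have h3 : ∀ᵐ x ∂(ρ : Measure (E n)), x ∈ G := by
        rw [ae_iff]; exact hρ
      have h4 : ∀ᵐ y ∂(σ : Measure (E n)), y ∈ B := by
        rw [ae_iff]; exact hσ
      unfold En
      calc ∫⁻ x, ∫⁻ y, kR p (dist x y) ∂(σ : Measure (E n)) ∂(ρ : Measure (E n))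
          ≤ ∫⁻ x, ∫⁻ y, ENNReal.ofReal d ∂(σ : Measure (E n)) ∂(ρ : Measure (E n)) := by
            refine lintegral_mono_ae ?_
            filter_upwards [h3] with x hx
            refine lintegral_mono_ae ?_
            filter_upwards [h4] with y hy
            rw [hd, ← kR_of_pos hD]
            exact (isKer_kR hp).anti (hGB x hx y hy)
        _ = ENNReal.ofReal d := by simp
    have h5 := VV_gain hkp ρ σ hρ hσ ht0 ht1
    have h6 : (1 : ℝ≥0∞) ≤ VV (kR p) (G ∪ B) := hK ▸ VV_anti _ (union_subset hG hB)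
    have h7 := h6.trans h5
    have h8 : (1 : ℝ≥0∞) ≤ ENNReal.ofReal ((1 - t) ^ 2) * ENNReal.ofReal (a + e) +
        ENNReal.ofReal (2 * t * (1 - t)) * ENNReal.ofReal d +
        ENNReal.ofReal (t ^ 2) * ENNReal.ofReal (b + e) := by
      refine h7.trans ?_
      gcongr
    have h9 : 0 ≤ 2 * t * (1 - t) := mul_nonneg (by linarith) (by linarith)
    rw [← ENNReal.ofReal_mul (by positivity), ← ENNReal.ofReal_mul h9,
      ← ENNReal.ofReal_mul (by positivity), ← ENNReal.ofReal_add (by positivity) (by positivity),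
      ← ENNReal.ofReal_add (by positivity) (by positivity), ENNReal.one_le_ofReal] at h8
    exact h8
  have key2 : ∀ t : ℝ, 0 ≤ t → t ≤ 1 →
      1 ≤ (1 - t) ^ 2 * a + 2 * t * (1 - t) * d + t ^ 2 * b := by
    intro t ht0 ht1
    refine le_of_forall_pos_le_add fun e he => ?_
    have h := key t ht0 ht1 e he
    have : (1 - t) ^ 2 * e + t ^ 2 * e ≤ e := by
      have : 0 ≤ t * (1 - t) := mul_nonneg ht0 (by linarith)
      nlinarith
    nlinarith
  have hS : 0 < a + b := by linarith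
  have h := key2 (a / (a + b)) (by positivity) ((div_le_one hS).2 (by linarith))
  have ht : 1 - a / (a + b) = b / (a + b) := by field_simp; ring
  rw [ht] at h
  have h' : (a + b) ^ 2 ≤ a * b * (a + b) + 2 * a * b * d := by
    have h10 : (b / (a + b)) ^ 2 * a + 2 * (a / (a + b)) * (b / (a + b)) * d +
        (a / (a + b)) ^ 2 * b = (a * b * (a + b) + 2 * a * b * d) / (a + b) ^ 2 := by
      field_simp
      ring
    rw [h10, le_div_iff₀ (by positivity), one_mul] at h
    exact h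
  have hfin : a + b ≤ a * b * (1 + d) := by
    have h11 : (a + b) * (a + b) ≤ (a * b * (1 + d)) * (a + b) := by
      have : 2 * a * b * d ≤ a * b * d * (a + b) := by
        have : 0 ≤ a * b * d := by positivity
        nlinarith
      nlinarith
    exact le_of_mul_le_mul_right h11 hS
  rw [hVG, hVB, ← ENNReal.ofReal_inv_of_pos (by linarith), ← ENNReal.ofReal_inv_of_pos (by linarith),
    ← ENNReal.ofReal_add (by positivity) (by positivity), ← ENNReal.ofReal_one,
    ← ENNReal.ofReal_add (by norm_num) hd0]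
  refine ENNReal.ofReal_le_ofReal ?_
  have : a⁻¹ + b⁻¹ = (a + b) / (a * b) := by field_simp; ring
  rw [this, div_le_iff₀ (by positivity)]
  linarith

theorem inv_q {p q M : ℝ} (hp : 0 < p) (hpq : p < q) (hM : 0 < M)
    (hopt : ∀ K : Set (E n), IsCompact K →
      (VV (kR p) K) ^ (q / p) ≤ ENNReal.ofReal M * VV (kR q) K) {A : Set (E n)}
    (hA : MeasurableSet A) :
    (VV (kR q) A)⁻¹ ≤ ENNReal.ofReal M * ((VV (kR p) A)⁻¹) ^ (q / p) := by
  have hM' : ENNReal.ofReal M ≠ 0 := by simp [hM]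
  have hMt : ENNReal.ofReal M ≠ ⊤ := ENNReal.ofReal_ne_top
  have h := hopt_meas hp hpq hM hopt hA
  rw [ENNReal.inv_rpow]
  have h1 := ENNReal.inv_le_inv.2 h
  rw [ENNReal.mul_inv (Or.inl hM') (Or.inl hMt)] at h1
  calc (VV (kR q) A)⁻¹ = ENNReal.ofReal M * ((ENNReal.ofReal M)⁻¹ * (VV (kR q) A)⁻¹) := by
        rw [← mul_assoc, ENNReal.mul_inv_cancel hM' hMt, one_mul]
    _ ≤ ENNReal.ofReal M * (VV (kR p) A ^ (q / p))⁻¹ := by gcongr

theorem num {s κ β' η a b : ℝ} (hs : 1 < s) (hβ0 : 0 < β') (hη : η ≤ β' / 4)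
    (hκ : κ = (1 - β' / 2) ^ (s - 1)) (ha : β' ≤ a) (hb : β' ≤ b) (hab : a + b < 1 + 2 * η) :
    a ^ s + b ^ s ≤ κ * (1 + 2 * η) := by
  have h1 : ∀ c : ℝ, β' ≤ c → c ≤ 1 - β' / 2 → c ^ s ≤ κ * c := by
    intro c hc hc1
    have hc0 : 0 < c := by linarith
    have : c ^ s = c ^ (s - 1) * c := by
      rw [← Real.rpow_add_one hc0.ne']; ring_nf
    rw [this, hκ]
    exact mul_le_mul_of_nonneg_right (Real.rpow_le_rpow hc0.le hc1 (by linarith)) hc0.le
  have h2 := h1 a ha (by linarith)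
  have h3 := h1 b hb (by linarith)
  have h4 : 0 ≤ κ := by
    rw [hκ]; exact Real.rpow_nonneg (by linarith) _
  have h5 : κ * (a + b) ≤ κ * (1 + 2 * η) := mul_le_mul_of_nonneg_left hab.le h4
  linarith

/-- the central ball has capacity bounded below -/
theorem center_cap {p q M c1 R0 : ℝ} (hp : 0 < p) (hpq : p < q) (hM : 0 < M) (hc1 : 0 < c1)
    (hopt : ∀ K : Set (E n), IsCompact K →
      (VV (kR p) K) ^ (q / p) ≤ ENNReal.ofReal M * VV (kR q) K) {K : Set (E n)}
    (hK : IsCompact K) (μ : ProbabilityMeasure (E n)) (hμK : (μ : Measure (E n)) Kᶜ = 0)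
    (hq : En (kR q) (μ : Measure (E n)) μ ≤ ENNReal.ofReal (4 / M)) {x : E n}
    (hx : ENNReal.ofReal c1 ≤ (μ : Measure (E n)) (Metric.closedBall x R0)) :
    ENNReal.ofReal ((4 / c1 ^ 2) ^ (1 / (q / p)))⁻¹ ≤
      (VV (kR p) (K ∩ Metric.closedBall x R0))⁻¹ := by
  have hkq : Measurable (kR q) := (isKer_kR (hp.trans hpq)).cont.measurable
  have hs : 0 < q / p := div_pos (hp.trans hpq) hp
  have hB : MeasurableSet (Metric.closedBall x R0) := Metric.isClosed_closedBall.measurableSet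
  have h1 : VV (kR q) (K ∩ Metric.closedBall x R0) * ENNReal.ofReal c1 ^ 2 ≤
      ENNReal.ofReal (4 / M) := by
    have h2 := VV_mul_le hkq (A := K ∩ Metric.closedBall x R0)
      ((μ : Measure (E n)).restrict (Metric.closedBall x R0)) (by
        rw [Measure.restrict_apply' hB]
        refine measure_mono_null ?_ hμK
        intro z hz hzK
        exact hz.1 ⟨hzK, hz.2⟩)
    rw [Measure.restrict_apply_univ] at h2
    refine le_trans ?_ (h2.trans ((VAux.En_mono _ Measure.restrict_le_self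
      Measure.restrict_le_self).trans hq))
    gcongr
  have h3 := hopt _ (hK.inter_right Metric.isClosed_closedBall (t := Metric.closedBall x R0))
  have h4 : VV (kR p) (K ∩ Metric.closedBall x R0) ^ (q / p) * ENNReal.ofReal c1 ^ 2 ≤
      ENNReal.ofReal 4 := by
    calc VV (kR p) (K ∩ Metric.closedBall x R0) ^ (q / p) * ENNReal.ofReal c1 ^ 2
        ≤ ENNReal.ofReal M * VV (kR q) (K ∩ Metric.closedBall x R0) * ENNReal.ofReal c1 ^ 2 := by
          gcongr
      _ ≤ ENNReal.ofReal M * ENNReal.ofReal (4 / M) := by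
          rw [mul_assoc]; gcongr
      _ = ENNReal.ofReal 4 := by
          rw [← ENNReal.ofReal_mul hM.le]; congr 1; field_simp
  rw [← ENNReal.ofReal_pow hc1.le] at h4
  have h5 : VV (kR p) (K ∩ Metric.closedBall x R0) ^ (q / p) ≤ ENNReal.ofReal (4 / c1 ^ 2) := by
    rw [ENNReal.ofReal_div_of_pos (by positivity)]
    exact (ENNReal.le_div_iff_mul_le (Or.inl (by simp; positivity))
      (Or.inl ENNReal.ofReal_ne_top)).2 h4
  have h6 : VV (kR p) (K ∩ Metric.closedBall x R0) ≤
      ENNReal.ofReal ((4 / c1 ^ 2) ^ (1 / (q / p))) := by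
    rw [← ENNReal.ofReal_rpow_of_pos (by positivity)]
    rw [one_div, ENNReal.le_rpow_inv_iff hs]
    exact h5
  rw [ENNReal.ofReal_inv_of_pos (by positivity)]
  exact ENNReal.inv_le_inv.2 h6

end TailAux

open TailAux

theorem tailR {p q M : ℝ} (hp : 0 < p) (hpq : p < q) (hM : 0 < M)
    (hopt : ∀ K : Set (E n), IsCompact K →
      (VV (kR p) K) ^ (q / p) ≤ ENNReal.ofReal M * VV (kR q) K) {β : ℝ} (hβ : 0 < β) :
    ∃ ε L : ℝ, 0 < ε ∧ 0 < L ∧ ∀ K : Set (E n), IsCompact K → VV (kR p) K = 1 →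
      VV (kR q) K ≤ ENNReal.ofReal ((1 + ε) / M) →
      ∃ x : E n, (VV (kR p) (K \ Metric.closedBall x L))⁻¹ ≤ ENNReal.ofReal β := by
  have hq := hp.trans hpq
  have hkq : Measurable (kR q) := (isKer_kR hq).cont.measurable
  have hs1 : 1 < q / p := (one_lt_div hp).2 hpq
  have hqp : 0 < q - p := by linarith
  -- constants
  obtain ⟨δ, hδ, hδm⟩ : ∃ δ : ℝ, 0 < δ ∧ δ ^ (q - p) * (4 / M) ≤ 1 / 4 := by
    refine ⟨(M / 16) ^ (1 / (q - p)), by positivity, ?_⟩
    rw [← Real.rpow_mul (by positivity), one_div_mul_cancel hqp.ne', Real.rpow_one]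
    apply le_of_eq; field_simp; norm_num
  obtain ⟨R0, hR0, hR0m⟩ : ∃ R0 : ℝ, 0 < R0 ∧ R0 ^ (-p) ≤ 1 / 4 := by
    refine ⟨4 ^ (1 / p), by positivity, ?_⟩
    rw [← Real.rpow_mul (by norm_num)]
    have : 1 / p * -p = -1 := by field_simp
    rw [this, Real.rpow_neg_one]; norm_num
  set c1 : ℝ := δ ^ p / 2 with hc1d
  have hc1 : 0 < c1 := by positivity
  set c0 : ℝ := ((4 / c1 ^ 2) ^ (1 / (q / p)))⁻¹ with hc0d
  have hc0 : 0 < c0 := by positivity
  set β' : ℝ := min (min c0 β) 1 with hβ'd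
  have hβ'0 : 0 < β' := lt_min (lt_min hc0 hβ) one_pos
  have hβ'c : β' ≤ c0 := (min_le_left _ _).trans (min_le_left _ _)
  have hβ'β : β' ≤ β := (min_le_left _ _).trans (min_le_right _ _)
  have hβ'1 : β' ≤ 1 := min_le_right _ _
  set κ : ℝ := (1 - β' / 2) ^ (q / p - 1) with hκ
  have hκ1 : κ < 1 := Real.rpow_lt_one (by linarith) (by linarith) (by linarith)
  have hκ0 : 0 ≤ κ := Real.rpow_nonneg (by linarith) _
  set η : ℝ := min (β' / 4) ((1 - κ) / 4) with hηd
  have hη0 : 0 < η := lt_min (by positivity) (by linarith)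
  have hη1 : η ≤ β' / 4 := min_le_left _ _
  have hη2 : η ≤ (1 - κ) / 4 := min_le_right _ _
  set ε : ℝ := min 1 ((1 - κ) / 4) with hεd
  have hε0 : 0 < ε := lt_min one_pos (by linarith)
  have hε1 : ε ≤ 1 := min_le_left _ _
  have hε2 : ε ≤ (1 - κ) / 4 := min_le_right _ _
  obtain ⟨D, hD, hDm⟩ : ∃ D : ℝ, 0 < D ∧ D ^ (-p) ≤ η := by
    refine ⟨η⁻¹ ^ (1 / p), by positivity, ?_⟩
    rw [← Real.rpow_mul (by positivity)]
    have : 1 / p * -p = -1 := by field_simp
    rw [this, Real.rpow_neg_one, inv_inv]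
  obtain ⟨N, hN⟩ := exists_nat_gt (1 / η)
  have hNη : 1 < N * η := by rwa [div_lt_iff₀ hη0] at hN
  refine ⟨ε, R0 + N * D, hε0, by positivity, fun K hK hK1 hKq => ?_⟩
  -- the centre
  have hlt : VV (kR q) K < ENNReal.ofReal (4 / M) := by
    refine lt_of_le_of_lt hKq ((ENNReal.ofReal_lt_ofReal_iff (by positivity)).2 ?_)
    gcongr
    linarith
  have hlt' := hlt
  unfold VV at hlt'
  simp only [iInf_lt_iff] at hlt'
  obtain ⟨μ, hμK, hμE⟩ := hlt'
  have hμ1 : 1 ≤ En (kR p) (μ : Measure (E n)) μ := hK1 ▸ VAux.VV_le (kR p) μ hμK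
  obtain ⟨x, hx⟩ := center hp hpq hδ hR0 μ hμE.le hμ1 hδm hR0m
  have hcap := center_cap hp hpq hM hc1 hopt hK μ hμK hμE.le hx
  refine ⟨x, ?_⟩
  by_contra hcon
  rw [not_le] at hcon
  -- the sequences
  set Bl : ℕ → Set (E n) := fun j => Metric.closedBall x (R0 + j * D) with hBl
  have hBlm : ∀ j, MeasurableSet (Bl j) := fun j => Metric.isClosed_closedBall.measurableSet
  have hBlmono : ∀ i j : ℕ, i ≤ j → Bl i ⊆ Bl j := by
    intro i j hij
    refine Metric.closedBall_subset_closedBall ?_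
    have : (i : ℝ) ≤ j := by exact_mod_cast hij
    nlinarith
  have hinv1 : ∀ A : Set (E n), A ⊆ K → (VV (kR p) A)⁻¹ ≤ 1 := fun A hA =>
    ENNReal.inv_le_one.2 (hK1 ▸ VV_anti _ hA)
  have hinvT : ∀ A : Set (E n), A ⊆ K → (VV (kR p) A)⁻¹ ≠ ⊤ := fun A hA =>
    ne_top_of_le_ne_top ENNReal.one_ne_top (hinv1 A hA)
  set a : ℕ → ℝ := fun j => ((VV (kR p) (K ∩ Bl j))⁻¹).toReal with had
  set b : ℕ → ℝ := fun j => ((VV (kR p) (K \ Bl j))⁻¹).toReal with hbd
  have hac : ∀ j, c0 ≤ a j := by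
    intro j
    have h1 : ENNReal.ofReal c0 ≤ (VV (kR p) (K ∩ Bl j))⁻¹ := by
      refine hcap.trans (ENNReal.inv_le_inv.2 (VV_anti _ (inter_subset_inter_right _ ?_)))
      have := hBlmono 0 j (Nat.zero_le _)
      simpa [hBl] using this
    have h2 := ENNReal.toReal_mono (hinvT _ inter_subset_left) h1
    rwa [ENNReal.toReal_ofReal hc0.le] at h2
  have hbanti : ∀ i j : ℕ, i ≤ j → b j ≤ b i := by
    intro i j hij
    refine ENNReal.toReal_mono (hinvT _ sdiff_subset) (ENNReal.inv_le_inv.2 (VV_anti _ ?_))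
    exact sdiff_subset_sdiff_right (hBlmono i j hij)
  have hbN : β ≤ b N := by
    have h2 := ENNReal.toReal_mono (hinvT _ sdiff_subset) hcon.le
    rwa [ENNReal.toReal_ofReal hβ.le] at h2
  have hb1 : b 0 ≤ 1 := by
    have h2 := ENNReal.toReal_mono ENNReal.one_ne_top (hinv1 (K \ Bl 0) sdiff_subset)
    rwa [ENNReal.toReal_one] at h2
  have hmain : ∀ j, 1 / (1 + ε) ≤ a j ^ (q / p) + b j ^ (q / p) := by
    intro j
    have h1 := VV_union hkq (A := K ∩ Bl j) (B := K \ Bl j) (hK.measurableSet.inter (hBlm j))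
    rw [inter_union_sdiff] at h1
    have h2 := inv_q hp hpq hM hopt (hK.measurableSet.inter (hBlm j))
    have h3 := inv_q hp hpq hM hopt (hK.measurableSet.diff (hBlm j))
    have h4 : ENNReal.ofReal (M / (1 + ε)) ≤ (VV (kR q) K)⁻¹ := by
      have : ENNReal.ofReal (M / (1 + ε)) = (ENNReal.ofReal ((1 + ε) / M))⁻¹ := by
        rw [← ENNReal.ofReal_inv_of_pos (by positivity), inv_div]
      rw [this]
      exact ENNReal.inv_le_inv.2 hKq
    have h5 := (h4.trans h1).trans (add_le_add h2 h3)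
    have ha' : (VV (kR p) (K ∩ Bl j))⁻¹ = ENNReal.ofReal (a j) :=
      (ENNReal.ofReal_toReal (hinvT _ inter_subset_left)).symm
    have hb' : (VV (kR p) (K \ Bl j))⁻¹ = ENNReal.ofReal (b j) :=
      (ENNReal.ofReal_toReal (hinvT _ sdiff_subset)).symm
    have haj : 0 ≤ a j := ENNReal.toReal_nonneg
    have hbj : 0 ≤ b j := ENNReal.toReal_nonneg
    rw [ha', hb', ENNReal.ofReal_rpow_of_nonneg haj (by positivity),
      ENNReal.ofReal_rpow_of_nonneg hbj (by positivity), ← ENNReal.ofReal_mul hM.le,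
      ← ENNReal.ofReal_mul hM.le, ← ENNReal.ofReal_add (by positivity) (by positivity),
      ENNReal.ofReal_le_ofReal_iff (by positivity)] at h5
    have h6 : M * (1 / (1 + ε)) ≤ M * (a j ^ (q / p) + b j ^ (q / p)) := by
      rw [mul_one_div]; linarith
    exact le_of_mul_le_mul_left h6 hM
  have hfar : ∀ j, a j + b (j + 1) ≤ 1 + η := by
    intro j
    have h1 := far_add hp hD hK1 (G := K ∩ Bl j) (B := K \ Bl (j + 1)) inter_subset_left
      sdiff_subset (by
        intro y hy z hz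
        have h2 : dist y x ≤ R0 + j * D := hy.2
        have h3 : R0 + ((j + 1 : ℕ) : ℝ) * D < dist z x := by
          have := hz.2
          simpa [hBl] using this
        have h4 : dist z x ≤ dist y z + dist y x := by
          rw [dist_comm y z]; exact dist_triangle _ _ _
        push_cast at h3
        linarith)
    have h2 : (1 : ℝ≥0∞) + ENNReal.ofReal (D ^ (-p)) ≤ ENNReal.ofReal (1 + η) := by
      rw [ENNReal.ofReal_add (by norm_num) hη0.le, ENNReal.ofReal_one]
      gcongr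
    have h3 := ENNReal.toReal_mono ENNReal.ofReal_ne_top (h1.trans h2)
    rw [ENNReal.toReal_ofReal (by positivity), ENNReal.toReal_add (hinvT _ inter_subset_left)
      (hinvT _ sdiff_subset)] at h3
    exact h3
  have hstep : ∀ j, j < N → b (j + 1) + η ≤ b j := by
    intro j hj
    have h1 : 1 + 2 * η ≤ a j + b j := by
      by_contra hlt2
      rw [not_le] at hlt2
      have h2 := num (η := η) hs1 hβ'0 hη1 hκ (hβ'c.trans (hac j))
        ((hβ'β.trans hbN).trans (hbanti j N hj.le)) hlt2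
      have h3 := hmain j
      have h4 : 1 - ε ≤ 1 / (1 + ε) := by
        rw [le_div_iff₀ (by positivity)]
        nlinarith
      have h5 : κ * (1 + 2 * η) ≤ κ + 2 * η := by nlinarith
      linarith
    have := hfar j
    linarith
  have hind : ∀ j, j ≤ N → b j + j * η ≤ b 0 := by
    intro j
    induction j with
    | zero => intro _; simp
    | succ j ih =>
      intro hj
      have h1 := ih (by omega)
      have h2 := hstep j (by omega)
      push_cast
      linarith
  have h1 := hind N le_rfl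
  have h2 : 0 ≤ b N := ENNReal.toReal_nonneg
  linarith

end R970.RC
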