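import Pool.Agent.R970.RC.CORE
import Pool.Agent.R970.RC.CPR
import Pool.Agent.R970.RC.CUT
import Pool.Agent.R970.RC.JEN
import Pool.Agent.R970.RC.K
import Pool.Agent.R970.RC.SC
import Pool.Agent.R970.RC.SH
import Pool.Agent.R970.RC.TAIL

open MeasureTheory Set Filter Topology
open scoped ENNReal

namespace R970.RC

variable {n : ℕ}

theorem VV_lower {k : ℝ → ℝ≥0∞} (hk : Antitone k) {K : Set (E n)} {x : E n} {r : ℝ}
    (hK : K ⊆ Metric.closedBall x r) : k (2 * r) ≤ VV k K := by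
  unfold VV
  refine le_iInf fun μ => le_iInf fun hμ => ?_
  have h1 : ∀ᵐ y ∂(μ : Measure (E n)), y ∈ K := by
    rw [ae_iff]; exact hμ
  unfold En
  have h2 : ∀ᵐ y ∂(μ : Measure (E n)), k (2 * r) ≤ ∫⁻ z, k (dist y z) ∂(μ : Measure (E n)) := by
    filter_upwards [h1] with y hy
    calc k (2 * r) = ∫⁻ z, k (2 * r) ∂(μ : Measure (E n)) := by simp
      _ ≤ _ := by
        apply lintegral_mono_ae
        filter_upwards [h1] with z hz
        apply hk
        have h3 := hK hy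
        have h4 := hK hz
        rw [Metric.mem_closedBall] at h3 h4
        calc dist y z ≤ dist y x + dist x z := dist_triangle _ _ _
          _ ≤ 2 * r := by rw [dist_comm x z]; linarith
  calc k (2 * r) = ∫⁻ y, k (2 * r) ∂(μ : Measure (E n)) := by simp
    _ ≤ _ := lintegral_mono_ae h2

theorem kR_antitone {s : ℝ} (hs : 0 < s) : Antitone (kR s) := (isKer_kR hs).anti

theorem kR_pos {s : ℝ} (hs : 0 < s) (r : ℝ) : 0 < kR s r := (isKer_kR hs).pos r

theorem VV_kR_pos {s : ℝ} (hs : 0 < s) {K : Set (E n)} (hK : IsCompact K) : 0 < VV (kR s) K := by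
  obtain ⟨r, hr⟩ := hK.isBounded.subset_closedBall (0 : E n)
  exact lt_of_lt_of_le (kR_pos hs _) (VV_lower (kR_antitone hs) hr)

/-- compactness of the image -/
theorem image_compact {K : Set (E n)} (hK : IsCompact K) (t : ℝ) (x : E n) :
    IsCompact ((fun y => x + t • y) '' K) :=
  hK.image (by fun_prop)

section pos

variable {p q : ℝ}

theorem VVp_ne_top (hp : 0 < p) (hpq : p < q) {K : Set (E n)} (h : VV (kR q) K ≠ ⊤) :
    VV (kR p) K ≠ ⊤ := by
  have h1 := jensenR hp hpq K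
  intro h2
  have hq : 0 < q := hp.trans hpq
  rw [h2, ENNReal.top_rpow_of_pos (by positivity)] at h1
  exact h (top_le_iff.mp h1)

/-- the real ratio -/
noncomputable def rat (p q : ℝ) (K : Set (E n)) : ℝ :=
  (VV (kR p) K).toReal ^ (q / p) / (VV (kR q) K).toReal

theorem rat_le_one (hp : 0 < p) (hpq : p < q) {K : Set (E n)} (hK : IsCompact K)
    (h : VV (kR q) K ≠ ⊤) : rat p q K ≤ 1 := by
  have hq : 0 < q := hp.trans hpq
  have h1 := jensenR hp hpq K
  have h2 : 0 < (VV (kR q) K).toReal := ENNReal.toReal_pos (VV_kR_pos hq hK).ne' h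
  unfold rat
  rw [div_le_one h2]
  have h3 := ENNReal.toReal_mono h h1
  rwa [← ENNReal.toReal_rpow] at h3

theorem rat_pos (hp : 0 < p) (hpq : p < q) {K : Set (E n)} (hK : IsCompact K)
    (h : VV (kR q) K ≠ ⊤) : 0 < rat p q K := by
  have hq : 0 < q := hp.trans hpq
  have h2 : 0 < (VV (kR q) K).toReal := ENNReal.toReal_pos (VV_kR_pos hq hK).ne' h
  have h3 : 0 < (VV (kR p) K).toReal :=
    ENNReal.toReal_pos (VV_kR_pos hp hK).ne' (VVp_ne_top hp hpq h)
  unfold rat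
  positivity

/-- normalisation: a compact set with `V_p = 1` and `V_q = 1/ratio`, in the scaled ball -/
theorem normalise (hp : 0 < p) (hpq : p < q) {K : Set (E n)} (hK : IsCompact K)
    (h : VV (kR q) K ≠ ⊤) {x : E n} {L : ℝ} (hKL : K ⊆ Metric.closedBall x L) {T : ℝ}
    (hT : (VV (kR p) K).toReal ≤ T) :
    ∃ K' : Set (E n), IsCompact K' ∧ K' ⊆ Metric.closedBall 0 (T ^ (1 / p) * L) ∧
      VV (kR p) K' = 1 ∧ VV (kR q) K' = ENNReal.ofReal (1 / rat p q K) := by
  have hq : 0 < q := hp.trans hpq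
  have h2 : 0 < (VV (kR q) K).toReal := ENNReal.toReal_pos (VV_kR_pos hq hK).ne' h
  have h3 : 0 < (VV (kR p) K).toReal :=
    ENNReal.toReal_pos (VV_kR_pos hp hK).ne' (VVp_ne_top hp hpq h)
  set a := (VV (kR p) K).toReal with ha
  set b := (VV (kR q) K).toReal with hb
  have ha' : VV (kR p) K = ENNReal.ofReal a := (ENNReal.ofReal_toReal (VVp_ne_top hp hpq h)).symm
  have hb' : VV (kR q) K = ENNReal.ofReal b := (ENNReal.ofReal_toReal h).symm
  set t := a ^ (1 / p) with ht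
  have ht0 : 0 < t := by positivity
  refine ⟨(fun y => (-(t • x)) + t • y) '' K, image_compact hK _ _, ?_, ?_, ?_⟩
  · rintro _ ⟨y, hy, rfl⟩
    have h4 := hKL hy
    rw [Metric.mem_closedBall, dist_eq_norm] at h4
    rw [mem_closedBall_zero_iff]
    have h5 : -(t • x) + t • y = t • (y - x) := by rw [smul_sub]; abel
    show ‖-(t • x) + t • y‖ ≤ _
    rw [h5, norm_smul, Real.norm_of_nonneg ht0.le]
    have h6 : t ≤ T ^ (1 / p) := Real.rpow_le_rpow h3.le hT (by positivity)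
    have h7 : 0 ≤ L := (norm_nonneg _).trans h4
    calc t * ‖y - x‖ ≤ t * L := by gcongr
      _ ≤ T ^ (1 / p) * L := by gcongr
  · rw [VV_kR_smul hp ht0, ha', ← ENNReal.ofReal_mul (by positivity)]
    rw [show t ^ (-p) * a = 1 from ?_]
    · simp
    · rw [ht, ← Real.rpow_mul h3.le]
      have : 1 / p * -p = -1 := by field_simp
      rw [this, Real.rpow_neg_one]
      field_simp
  · rw [VV_kR_smul hq ht0, hb', ← ENNReal.ofReal_mul (by positivity)]
    congr 1
    unfold rat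
    rw [← ha, ← hb, ht, ← Real.rpow_mul h3.le]
    have : 1 / p * -q = -(q / p) := by field_simp
    rw [this, Real.rpow_neg h3.le]
    field_simp

theorem exists_core_pos (hp : 0 < p) (hpq : p < q) (hqn : q < n) :
    ∃ M : ℝ, 0 < M ∧
      (∀ K : Set (E n), IsCompact K → (VV (kR p) K) ^ (q / p) ≤ ENNReal.ofReal M * VV (kR q) K) ∧
      ∃ K₀ : Set (E n), IsCompact K₀ ∧ 1 ≤ VV (kR p) K₀ ∧ VV (kR q) K₀ ≤ ENNReal.ofReal (1 / M) := by
  have hq : 0 < q := hp.trans hpq
  have hs : 1 < q / p := (one_lt_div hp).mpr hpq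
  set S : Set ℝ := {m | ∃ K : Set (E n), IsCompact K ∧ VV (kR q) K ≠ ⊤ ∧ m = rat p q K} with hS
  have hbdd : BddAbove S := ⟨1, by
    rintro _ ⟨K, hK, h, rfl⟩
    exact rat_le_one hp hpq hK h⟩
  have hball : rat p q (Metric.closedBall (0 : E n) 1) ∈ S :=
    ⟨_, isCompact_closedBall _ _, VV_ball_ne_top hq hqn, rfl⟩
  set M := sSup S with hM
  have hMpos : 0 < M := lt_of_lt_of_le
    (rat_pos hp hpq (isCompact_closedBall _ _) (VV_ball_ne_top hq hqn)) (le_csSup hbdd hball)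
  -- real optimality
  have hoptR : ∀ K : Set (E n), IsCompact K → VV (kR q) K ≠ ⊤ → rat p q K ≤ M :=
    fun K hK h => le_csSup hbdd ⟨K, hK, h, rfl⟩
  have hopt : ∀ K : Set (E n), IsCompact K →
      (VV (kR p) K) ^ (q / p) ≤ ENNReal.ofReal M * VV (kR q) K := by
    intro K hK
    by_cases h : VV (kR q) K = ⊤
    · rw [h, ENNReal.mul_top (by simpa using hMpos)]
      exact le_top
    · have h1 := hoptR K hK h
      have h2 : 0 < (VV (kR q) K).toReal := ENNReal.toReal_pos (VV_kR_pos hq hK).ne' h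
      unfold rat at h1
      rw [div_le_iff₀ h2] at h1
      rw [← ENNReal.ofReal_toReal (VVp_ne_top hp hpq h), ← ENNReal.ofReal_toReal h,
        ← ENNReal.ofReal_mul hMpos.le, ENNReal.ofReal_rpow_of_nonneg ENNReal.toReal_nonneg (by positivity)]
      exact ENNReal.ofReal_le_ofReal h1
  -- near optimal sets
  have hnear : ∀ ε : ℝ, 0 < ε → ∃ K : Set (E n), IsCompact K ∧ VV (kR q) K ≠ ⊤ ∧
      M / (1 + ε) < rat p q K := by
    intro ε hε
    have h1 : M / (1 + ε) < M := by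
      rw [div_lt_iff₀ (by linarith)]
      nlinarith
    obtain ⟨m, ⟨K, hK, h, rfl⟩, hm⟩ := exists_lt_of_lt_csSup ⟨_, hball⟩ h1
    exact ⟨K, hK, h, hm⟩
  obtain ⟨β, D, hβ, hD, hcut⟩ := cutR hp hpq hMpos hopt
  obtain ⟨ε₁, L₁, hε₁, hL₁, htail⟩ := tailR hp hpq hMpos hopt hβ
  set L := (2 : ℝ) ^ (1 / p) * (L₁ + D) with hL
  have hLpos : 0 < L := by positivity
  refine ⟨M, hMpos, hopt, ?_⟩
  have hcore := core (n := n) (k := kR p) (P := p) (q := q) (L := L) (isKer_kR hp) hp hpq hqn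
    hLpos (cpd_kR hp _) (v0 := 1) (M := M) (K₁ := 2 / M) (η₀ := M / 2) one_pos hMpos
    (by positivity) (by positivity) ?_ ?_
  · obtain ⟨K₀, h1, -, h2, h3⟩ := hcore
    exact ⟨K₀, h1, by simpa using h2, h3⟩
  · -- optimality
    intro G hG _ η h0 h1 h2
    have hMη : 0 < M - η := by linarith
    have h3 : VV (kR q) G ≤ ENNReal.ofReal (1 / (M - η)) := by
      rw [ENNReal.le_inv_iff_le_inv] at h2
      rwa [one_div, ENNReal.ofReal_inv_of_pos hMη]
    have h4 := (hopt G hG).trans (by gcongr : ENNReal.ofReal M * VV (kR q) G ≤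
      ENNReal.ofReal M * ENNReal.ofReal (1 / (M - η)))
    rw [← ENNReal.ofReal_mul hMpos.le] at h4
    have h5 : M * (1 / (M - η)) ≤ 1 + 2 / M * η := by
      rw [mul_one_div, div_le_iff₀ hMη]
      have h6 : (1 + 2 / M * η) * (M - η) = M + η - 2 / M * η ^ 2 := by
        field_simp
        ring
      rw [h6]
      have h7 : 2 / M * η ^ 2 ≤ η := by
        rw [div_mul_eq_mul_div, div_le_iff₀ hMpos]
        nlinarith
      linarith
    rcases le_total (VV (kR p) G) 1 with h6 | h6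
    · refine h6.trans ?_
      rw [← ENNReal.ofReal_one]
      apply ENNReal.ofReal_le_ofReal
      have : 0 ≤ 2 / M * η := by positivity
      linarith
    · calc VV (kR p) G = (VV (kR p) G) ^ (1 : ℝ) := (ENNReal.rpow_one _).symm
        _ ≤ (VV (kR p) G) ^ (q / p) := ENNReal.rpow_le_rpow_of_exponent_le h6 hs.le
        _ ≤ _ := h4
        _ ≤ _ := ENNReal.ofReal_le_ofReal h5
  · -- the sequence
    intro ε hε
    -- choose ε' with (1+ε')² ≤ 1+ε
    obtain ⟨ε', hε', hε'1, hε'2, hε'3⟩ : ∃ ε' : ℝ, 0 < ε' ∧ ε' ≤ 1 ∧ ε' ≤ ε₁ ∧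
        (1 + ε') * (1 + ε') ≤ 1 + ε := by
      refine ⟨min (min 1 ε₁) (ε / 3), by positivity, (min_le_left _ _).trans (min_le_left _ _),
        (min_le_left _ _).trans (min_le_right _ _), ?_⟩
      have h1 : min (min 1 ε₁) (ε / 3) ≤ 1 := (min_le_left _ _).trans (min_le_left _ _)
      have h2 : min (min 1 ε₁) (ε / 3) ≤ ε / 3 := min_le_right _ _
      have h3 : 0 < min (min 1 ε₁) (ε / 3) := by positivity
      nlinarith
    obtain ⟨K, hK, hKt, hKr⟩ := hnear ε' hε'
    obtain ⟨r, hr⟩ := hK.isBounded.subset_closedBall (0 : E n)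
    obtain ⟨K₁, hK₁, -, hK₁p, hK₁q⟩ := normalise hp hpq hK hKt hr le_rfl
    have hrp := rat_pos hp hpq hK hKt
    have hq1 : VV (kR q) K₁ ≤ ENNReal.ofReal ((1 + ε') / M) := by
      rw [hK₁q]
      apply ENNReal.ofReal_le_ofReal
      rw [div_lt_iff₀ (by linarith)] at hKr
      rw [div_le_div_iff₀ hrp hMpos]
      linarith
    have hq2 : VV (kR q) K₁ ≤ ENNReal.ofReal (2 / M) :=
      hq1.trans (ENNReal.ofReal_le_ofReal (by gcongr; linarith))
    have hq3 : VV (kR q) K₁ ≤ ENNReal.ofReal ((1 + ε₁) / M) :=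
      hq1.trans (ENNReal.ofReal_le_ofReal (by gcongr))
    obtain ⟨x, hx⟩ := htail K₁ hK₁ hK₁p hq3
    obtain ⟨K₂, hK₂s, hK₂, hK₂b, hK₂p, hK₂q⟩ := hcut ε' hε' K₁ hK₁ hK₁p hq2 x L₁ hL₁ hx
    have hp2 : VV (kR p) K₂ ≠ ⊤ := ne_top_of_le_ne_top (by simp) hK₂p
    have hq1T : VV (kR q) K₁ ≠ ⊤ := ne_top_of_le_ne_top ENNReal.ofReal_ne_top hq1
    have hq2T : VV (kR q) K₂ ≠ ⊤ := by
      refine ne_top_of_le_ne_top ?_ hK₂q
      refine ENNReal.mul_ne_top (ENNReal.mul_ne_top ENNReal.ofReal_ne_top hq1T) ?_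
      exact (ENNReal.rpow_lt_top_of_nonneg (by positivity) hp2).ne
    have hT2 : (VV (kR p) K₂).toReal ≤ 2 := by
      have := ENNReal.toReal_mono (by simp) hK₂p
      simpa using this
    obtain ⟨K₃, hK₃, hK₃b, hK₃p, hK₃q⟩ := normalise hp hpq hK₂ hq2T hK₂b hT2
    refine ⟨K₃, hK₃, hK₃b, by rw [hK₃p]; simp, ?_⟩
    rw [hK₃q]
    apply ENNReal.ofReal_le_ofReal
    -- 1 / rat K₂ ≤ (1+ε') V_q(K₁)
    have hrp2 := rat_pos hp hpq hK₂ hq2T
    have h3 : 0 < (VV (kR p) K₂).toReal :=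
      ENNReal.toReal_pos (VV_kR_pos hp hK₂).ne' hp2
    have h4 : (VV (kR q) K₂).toReal ≤
        (1 + ε') * (VV (kR q) K₁).toReal * (VV (kR p) K₂).toReal ^ (q / p) := by
      have h5 := ENNReal.toReal_mono (by
        refine ENNReal.mul_ne_top (ENNReal.mul_ne_top ENNReal.ofReal_ne_top hq1T) ?_
        exact (ENNReal.rpow_lt_top_of_nonneg (by positivity) hp2).ne) hK₂q
      rwa [ENNReal.toReal_mul, ENNReal.toReal_mul, ENNReal.toReal_ofReal (by linarith),
        ← ENNReal.toReal_rpow] at h5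
    have h6 : 1 / rat p q K₂ ≤ (1 + ε') * (VV (kR q) K₁).toReal := by
      unfold rat
      rw [one_div_div, div_le_iff₀ (by positivity)]
      exact h4
    have h7 : (VV (kR q) K₁).toReal ≤ (1 + ε') / M := by
      have := ENNReal.toReal_mono ENNReal.ofReal_ne_top hq1
      rwa [ENNReal.toReal_ofReal (by positivity)] at this
    calc 1 / rat p q K₂ ≤ (1 + ε') * (VV (kR q) K₁).toReal := h6
      _ ≤ (1 + ε') * ((1 + ε') / M) := by gcongr
      _ = (1 + ε') * (1 + ε') / M := by ring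
      _ ≤ (1 + ε) / M := by gcongr

theorem result_pos (hp : 0 < p) (hpq : p < q) (hqn : q < n) :
    ∃ K₀ : Set (E n), IsCompact K₀ ∧ 0 < capR p K₀ ∧
      ∀ K : Set (E n), IsCompact K → 0 < capR p K →
        capR q K / capR p K ≤ capR q K₀ / capR p K₀ := by
  have hq : 0 < q := hp.trans hpq
  obtain ⟨M, hM, hopt, K₀, hK₀, h1, h2⟩ := exists_core_pos (n := n) hp hpq hqn
  have hcp : ∀ K : Set (E n), capR p K = (VV (kR p) K) ^ (-(1 / p)) := fun K => by
    unfold capR; rw [if_neg hp.ne', VR_eq]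
  have hcq : ∀ K : Set (E n), capR q K = (VV (kR q) K) ^ (-(1 / q)) := fun K => by
    unfold capR; rw [if_neg hq.ne', VR_eq]
  have hqT : VV (kR q) K₀ ≠ ⊤ := ne_top_of_le_ne_top ENNReal.ofReal_ne_top h2
  have hpT : VV (kR p) K₀ ≠ ⊤ := VVp_ne_top hp hpq hqT
  have hpos : 0 < capR p K₀ := by
    rw [hcp, ENNReal.rpow_neg, ENNReal.inv_pos]
    exact (ENNReal.rpow_lt_top_of_nonneg (by positivity) hpT).ne
  refine ⟨K₀, hK₀, hpos, ?_⟩
  intro K hK hKp
  have hratio : ∀ K : Set (E n), capR q K / capR p K =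
      (VV (kR p) K) ^ (1 / p) / (VV (kR q) K) ^ (1 / q) := by
    intro K
    rw [hcp, hcq, ENNReal.rpow_neg, ENNReal.rpow_neg, div_eq_mul_inv, inv_inv, mul_comm,
      ENNReal.div_eq_inv_mul, mul_comm]
  rw [hratio, hratio]
  have hKp' : VV (kR p) K ≠ ⊤ := by
    intro h
    rw [hcp, h, ENNReal.rpow_neg, ENNReal.top_rpow_of_pos (by positivity)] at hKp
    simp at hKp
  -- upper bound for K
  have hup : (VV (kR p) K) ^ (1 / p) / (VV (kR q) K) ^ (1 / q) ≤ (ENNReal.ofReal M) ^ (1 / q) := by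
    apply ENNReal.div_le_of_le_mul
    rw [← ENNReal.mul_rpow_of_nonneg _ _ (by positivity)]
    have h3 := ENNReal.rpow_le_rpow (hopt K hK) (z := 1 / q) (by positivity)
    rw [← ENNReal.rpow_mul] at h3
    have h4 : q / p * (1 / q) = 1 / p := by field_simp
    rwa [h4] at h3
  refine hup.trans ?_
  rw [ENNReal.le_div_iff_mul_le (Or.inl ?_) (Or.inl ?_)]
  · calc (ENNReal.ofReal M) ^ (1 / q) * (VV (kR q) K₀) ^ (1 / q)
        = (ENNReal.ofReal M * VV (kR q) K₀) ^ (1 / q) :=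
          (ENNReal.mul_rpow_of_nonneg _ _ (by positivity)).symm
      _ ≤ (ENNReal.ofReal M * ENNReal.ofReal (1 / M)) ^ (1 / q) := by gcongr
      _ = 1 := by
        rw [← ENNReal.ofReal_mul hM.le, mul_one_div_cancel hM.ne', ENNReal.ofReal_one,
          ENNReal.one_rpow]
      _ ≤ (VV (kR p) K₀) ^ (1 / p) := by
        have := ENNReal.rpow_le_rpow h1 (z := 1 / p) (by positivity)
        rwa [ENNReal.one_rpow] at this
  · have := VV_kR_pos hq hK₀
    exact (ENNReal.rpow_pos this hqT).ne'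
  · exact (ENNReal.rpow_lt_top_of_nonneg (by positivity) hqT).ne

end pos

end R970.RC
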