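import Pool.Agent.R970.RC.Defs
import Pool.Agent.R970.RC.K
import Pool.Agent.R970.RC.V1
import Pool.Agent.R970.RC.SH

/-! Project RC (MP_ce24da_an), piece RC-LOG1: tails in the logarithmic case. -/

set_option autoImplicit false

open MeasureTheory Set Filter Topology
open scoped ENNReal

namespace R970.RC

variable {n : ℕ}

namespace Log1

theorem pa_le {q : ℝ} (hq : 0 < q) (r : ℝ) : SH.pa r ≤ ENNReal.ofReal (1 / q) * kR q r := by
  rcases le_or_gt r 0 with hr | hr
  · have h1 : kR q r = ⊤ := by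
      unfold kR
      rw [ENNReal.ofReal_of_nonpos hr, ENNReal.zero_rpow_of_neg (by linarith)]
    rw [h1, ENNReal.mul_top (by
      rw [Ne, ENNReal.ofReal_eq_zero, not_le]
      positivity)]
    exact le_top
  · unfold SH.pa kR
    rw [ENNReal.log_ofReal_of_pos hr, ← EReal.coe_neg, EReal.real_coe_toENNReal,
      ENNReal.ofReal_rpow_of_pos hr, ← ENNReal.ofReal_mul (by positivity)]
    apply ENNReal.ofReal_le_ofReal
    have h1 : Real.log (r ^ (-q)) ≤ r ^ (-q) - 1 := Real.log_le_sub_one_of_pos (Real.rpow_pos_of_pos hr _)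
    rw [Real.log_rpow hr] at h1
    rw [one_div, ← div_eq_inv_mul, le_div_iff₀ hq]
    linarith

theorem exists_meas {k : ℝ → ℝ≥0∞} {A : Set (E n)} {x : ℝ≥0∞} (h : VV k A < x) :
    ∃ μ : ProbabilityMeasure (E n), (μ : Measure (E n)) Aᶜ = 0 ∧
      En k (μ : Measure (E n)) (μ : Measure (E n)) < x := by
  unfold VV at h
  simp only [iInf_lt_iff] at h
  obtain ⟨ρ, hρ, hlt⟩ := h
  exact ⟨ρ, hρ, hlt⟩

theorem V0_anti {A B : Set (E n)} (h : A ⊆ B) : V0 B ≤ V0 A := by
  refine le_iInf₂ fun μ hμ => ?_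
  exact iInf₂_le μ (measure_mono_null (compl_subset_compl.2 h) hμ)

theorem logEnergy_eq (μ : Measure (E n)) : logEnergy μ =
    ((∫⁻ x, ∫⁻ y, SH.pa (dist x y) ∂μ ∂μ : ℝ≥0∞) : EReal) -
      ((∫⁻ x, ∫⁻ y, SH.na (dist x y) ∂μ ∂μ : ℝ≥0∞) : EReal) := by
  unfold logEnergy SH.pa SH.na
  simp only [edist_dist]

theorem P_le {q : ℝ} (hq : 0 < q) (μ : Measure (E n)) [SFinite μ] :
    ∫⁻ x, ∫⁻ y, SH.pa (dist x y) ∂μ ∂μ ≤ ENNReal.ofReal (1 / q) * En (kR q) μ μ := by
  have hk := (isKer_kR hq).cont.measurable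
  have h2 : ∫⁻ x, ∫⁻ y, ENNReal.ofReal (1 / q) * kR q (dist x y) ∂μ ∂μ =
      ENNReal.ofReal (1 / q) * En (kR q) μ μ := by
    unfold En
    rw [← lintegral_const_mul _ ((VAux.meas_ker hk).lintegral_prod_right')]
    refine lintegral_congr fun x => ?_
    exact lintegral_const_mul _
      (show Measurable (fun y : E n => kR q (dist x y)) from hk.comp (by fun_prop))
  rw [← h2]
  exact lintegral_mono fun x => lintegral_mono fun y => pa_le hq _

theorem meas_kL (c b : ℝ) : Measurable (kL c b) := by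
  unfold kL
  refine Measurable.ite measurableSet_Iic measurable_const ?_
  refine ENNReal.measurable_ofReal.comp ?_
  exact (Real.measurable_log.comp (measurable_const.div measurable_id)).max measurable_const

theorem nonempty_of_prob (μ : ProbabilityMeasure (E n)) {A : Set (E n)}
    (h : (μ : Measure (E n)) Aᶜ = 0) : A.Nonempty := by
  by_contra hc
  rw [Set.not_nonempty_iff_eq_empty] at hc
  rw [hc, compl_empty, measure_univ] at h
  exact one_ne_zero h

/-- the second inequality -/
theorem second {K : Set (E n)} (hK : IsCompact K) (hV : V0 K = 0) (x : E n) {t a : ℝ}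
    (ha : 0 < a) (ht : 1 < t) (hat : 2 * a ≤ Real.log t)
    (hA : V0 (K ∩ Metric.closedBall x t) ≤ (a : EReal)) :
    (((Real.log t) ^ 2 / a - 2 * Real.log t : ℝ) : EReal)
          ≤ V0 (K \ Metric.closedBall x (2 * t)) := by
  obtain ⟨D0, hD0⟩ := hK.isBounded.subset_closedBall (0 : E n)
  set D : ℝ := max D0 1 with hDdef
  have hKD : K ⊆ Metric.closedBall (0 : E n) D :=
    hD0.trans (Metric.closedBall_subset_closedBall (le_max_left _ _))
  have hD1 : 1 ≤ D := le_max_right _ _
  have hD : 0 < D := by linarith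
  set c : ℝ := 2 * D with hc
  have hc0 : 0 < c := by positivity
  have hsh : 2 * D ≤ c * Real.exp (-0) := by simp [hc]
  set Lc : ℝ := Real.log c with hLc
  have hLc0 : 0 ≤ Lc := Real.log_nonneg (by linarith)
  set κ : ℝ → ℝ≥0∞ := kL c 0 with hκ
  have hκm : Measurable κ := meas_kL c 0
  set G : Set (E n) := K ∩ Metric.closedBall x t with hG
  set F : Set (E n) := K \ Metric.closedBall x (2 * t) with hF
  have sK : ((VV κ K : ℝ≥0∞) : EReal) = V0 K + ((Lc : ℝ) : EReal) :=
    V0_shift hc0 le_rfl hD hsh hKD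
  have sG : ((VV κ G : ℝ≥0∞) : EReal) = V0 G + ((Lc : ℝ) : EReal) :=
    V0_shift hc0 le_rfl hD hsh (inter_subset_left.trans hKD)
  have sF : ((VV κ F : ℝ≥0∞) : EReal) = V0 F + ((Lc : ℝ) : EReal) :=
    V0_shift hc0 le_rfl hD hsh (sdiff_subset.trans hKD)
  -- value on `K`
  have vK : VV κ K = ENNReal.ofReal Lc := by
    rw [hV, zero_add] at sK
    have : ((VV κ K : ℝ≥0∞) : EReal) = ((ENNReal.ofReal Lc : ℝ≥0∞) : EReal) := by
      rw [sK, EReal.coe_ennreal_ofReal, max_eq_left hLc0]
    exact_mod_cast this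
  -- value on `G`
  have vG : VV κ G ≤ ENNReal.ofReal (a + Lc) := by
    have h1 : ((VV κ G : ℝ≥0∞) : EReal) ≤ ((ENNReal.ofReal (a + Lc) : ℝ≥0∞) : EReal) := by
      rw [sG, EReal.coe_ennreal_ofReal, max_eq_left (by linarith), EReal.coe_add]
      gcongr
    exact_mod_cast h1
  by_cases hFt : VV κ F = ⊤
  · have h1 : V0 F = ⊤ := by
      rw [hFt, EReal.coe_ennreal_top] at sF
      induction hx : V0 F with
      | bot => rw [hx] at sF; simp at sF
      | top => rfl
      | coe y => rw [hx, ← EReal.coe_add] at sF; exact absurd sF (EReal.coe_ne_top _).symm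
    rw [h1]
    exact le_top
  · set W : ℝ := (VV κ F).toReal with hW
    have hWF : VV κ F = ENNReal.ofReal W := (ENNReal.ofReal_toReal hFt).symm
    have hW0 : 0 ≤ W := ENNReal.toReal_nonneg
    have hV0F : V0 F = ((W - Lc : ℝ) : EReal) := by
      rw [hWF, EReal.coe_ennreal_ofReal, max_eq_left hW0] at sF
      induction hx : V0 F with
      | bot => rw [hx] at sF; simp at sF
      | top => rw [hx] at sF; simp at sF
      | coe y =>
        rw [hx, ← EReal.coe_add] at sF
        have : W = y + Lc := by exact_mod_cast sF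
        rw [this]
        congr 1
        ring
    rw [hV0F]
    set ℓ : ℝ := Real.log t with hℓ
    have hℓ0 : 0 < ℓ := Real.log_pos ht
    have ht0 : 0 < t := by linarith
    set u : ℝ := a / ℓ with hu
    have hu0 : 0 < u := div_pos ha hℓ0
    have hu1 : u ≤ 1 / 2 := by
      rw [hu, div_le_iff₀ hℓ0]
      linarith
    have key : ∀ ε : ℝ, 0 < ε → Lc ≤ (1 - u) ^ 2 * (a + Lc + ε) + 2 * u * (1 - u) * (Lc - ℓ) +
        u ^ 2 * (W + ε) := by
      intro ε hε
      obtain ⟨ρ, hρ, hρE⟩ := exists_meas (k := κ) (A := G) (x := ENNReal.ofReal (a + Lc + ε))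
        (vG.trans_lt ((ENNReal.ofReal_lt_ofReal_iff (by positivity)).2 (by linarith)))
      obtain ⟨σ, hσ, hσE⟩ := exists_meas (k := κ) (A := F) (x := ENNReal.ofReal (W + ε))
        (by rw [hWF]; exact (ENNReal.ofReal_lt_ofReal_iff (by positivity)).2 (by linarith))
      have hdist : ∀ y ∈ G, ∀ z ∈ F, t < dist y z := by
        intro y hy z hz
        have h1 : dist y x ≤ t := hy.2
        have h2 : 2 * t < dist z x := not_le.1 hz.2
        have h3 := dist_triangle z y x
        rw [dist_comm z y] at h3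
        linarith
      have hLl : 0 ≤ Lc - ℓ := by
        obtain ⟨y, hy⟩ := nonempty_of_prob ρ hρ
        obtain ⟨z, hz⟩ := nonempty_of_prob σ hσ
        have h1 := hdist y hy z hz
        have h2 : dist y z ≤ c := by
          have h3 : dist y 0 ≤ D := hKD hy.1
          have h4 : dist z 0 ≤ D := hKD hz.1
          have h5 := dist_triangle_right y z 0
          linarith
        have : ℓ ≤ Lc := Real.log_le_log ht0 (by linarith)
        linarith
      have hcross : En κ (ρ : Measure (E n)) (σ : Measure (E n)) ≤ ENNReal.ofReal (Lc - ℓ) := by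
        unfold En
        have hρa : ∀ᵐ y ∂(ρ : Measure (E n)), y ∈ G := by rw [ae_iff]; exact hρ
        have hσa : ∀ᵐ z ∂(σ : Measure (E n)), z ∈ F := by rw [ae_iff]; exact hσ
        calc ∫⁻ y, ∫⁻ z, κ (dist y z) ∂(σ : Measure (E n)) ∂(ρ : Measure (E n))
            ≤ ∫⁻ _, ∫⁻ _, ENNReal.ofReal (Lc - ℓ) ∂(σ : Measure (E n)) ∂(ρ : Measure (E n)) := by
              apply lintegral_mono_ae
              filter_upwards [hρa] with y hy
              apply lintegral_mono_ae
              filter_upwards [hσa] with z hz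
              have h1 := hdist y hy z hz
              rw [hκ]
              unfold kL
              rw [if_neg (by linarith)]
              apply ENNReal.ofReal_le_ofReal
              apply max_le _ hLl
              rw [Real.log_div hc0.ne' (by linarith)]
              have := Real.log_le_log ht0 h1.le
              linarith
          _ = ENNReal.ofReal (Lc - ℓ) := by simp
      have hgain := VV_gain hκm ρ σ hρ hσ hu0.le (by linarith : u ≤ 1)
      have hanti : VV κ K ≤ VV κ (G ∪ F) := VV_anti κ (by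
        rintro y (hy | hy)
        · exact hy.1
        · exact hy.1)
      rw [vK] at hanti
      have h1u : 0 ≤ 1 - u := by linarith
      have hall : ENNReal.ofReal Lc ≤ ENNReal.ofReal ((1 - u) ^ 2 * (a + Lc + ε) +
          2 * u * (1 - u) * (Lc - ℓ) + u ^ 2 * (W + ε)) := by
        rw [ENNReal.ofReal_add (by positivity) (by positivity),
          ENNReal.ofReal_add (by positivity) (by positivity),
          ENNReal.ofReal_mul (p := (1 - u) ^ 2) (by positivity),
          ENNReal.ofReal_mul (p := 2 * u * (1 - u)) (by positivity),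
          ENNReal.ofReal_mul (p := u ^ 2) (by positivity)]
        refine (hanti.trans hgain).trans ?_
        gcongr
      exact (ENNReal.ofReal_le_ofReal_iff (by positivity)).1 hall
    have key2 : Lc ≤ (1 - u) ^ 2 * (a + Lc) + 2 * u * (1 - u) * (Lc - ℓ) + u ^ 2 * W := by
      by_contra hcon
      push Not at hcon
      set δ : ℝ := Lc - ((1 - u) ^ 2 * (a + Lc) + 2 * u * (1 - u) * (Lc - ℓ) + u ^ 2 * W) with hδ
      have hδ0 : 0 < δ := by rw [hδ]; linarith
      have h1 := key (δ / 4) (by linarith)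
      have h2 : (1 - u) ^ 2 ≤ 1 := by nlinarith
      have h3 : u ^ 2 ≤ 1 := by nlinarith
      nlinarith
    have hul : u * ℓ = a := by rw [hu]; field_simp
    have key3 : 0 ≤ (1 - u) ^ 2 * a - 2 * u * (1 - u) * ℓ + u ^ 2 * (W - Lc) := by nlinarith
    -- multiply by `ℓ ^ 2`
    have key4 : 0 ≤ (ℓ - a) ^ 2 * a - 2 * a * (ℓ - a) * ℓ + a ^ 2 * (W - Lc) := by
      have h1 : ((1 - u) ^ 2 * a - 2 * u * (1 - u) * ℓ + u ^ 2 * (W - Lc)) * ℓ ^ 2 =
          (ℓ - a) ^ 2 * a - 2 * a * (ℓ - a) * ℓ + a ^ 2 * (W - Lc) := by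
        have e : ((1 - u) ^ 2 * a - 2 * u * (1 - u) * ℓ + u ^ 2 * (W - Lc)) * ℓ ^ 2 =
          (ℓ - u * ℓ) ^ 2 * a - 2 * (u * ℓ) * (ℓ - u * ℓ) * ℓ + (u * ℓ) ^ 2 * (W - Lc) := by ring
        rw [e, hul]
      rw [← h1]
      positivity
    have key5 : ℓ ^ 2 - a ^ 2 ≤ a * (W - Lc) := by
      have h1 : 0 ≤ a * (a * (W - Lc) - (ℓ ^ 2 - a ^ 2)) := by
        have e : a * (a * (W - Lc) - (ℓ ^ 2 - a ^ 2)) =
          (ℓ - a) ^ 2 * a - 2 * a * (ℓ - a) * ℓ + a ^ 2 * (W - Lc) := by ring
        rw [e]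
        exact key4
      have h2 := nonneg_of_mul_nonneg_right h1 ha
      linarith
    have key6 : ℓ ^ 2 / a - 2 * ℓ ≤ W - Lc := by
      rw [sub_le_iff_le_add, div_le_iff₀ ha]
      nlinarith
    exact_mod_cast key6

end Log1

open Log1 in
theorem tail0 {q M : ℝ} (hq : 0 < q) (hM : 0 < M)
    (hopt : ∀ K : Set (E n), IsCompact K → ∀ v : ℝ, V0 K = (v : EReal) →
      ENNReal.ofReal (Real.exp (q * v)) ≤ ENNReal.ofReal M * VV (kR q) K) :
    ∃ a R1 : ℝ, 0 < a ∧ 1 < R1 ∧ ∀ K : Set (E n), IsCompact K → V0 K = 0 →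
      VV (kR q) K ≤ ENNReal.ofReal (2 / M) → ∃ x : E n, ∀ t : ℝ, R1 ≤ t →
        V0 (K ∩ Metric.closedBall x t) ≤ (a : EReal) ∧
        (((Real.log t) ^ 2 / a - 2 * Real.log t : ℝ) : EReal)
          ≤ V0 (K \ Metric.closedBall x (2 * t)) := by
  set a : ℝ := Real.log 16 / q with ha
  have ha0 : 0 < a := div_pos (Real.log_pos (by norm_num)) hq
  set C2 : ℝ := 1 / q * (4 / M) with hC2
  have hC20 : 0 < C2 := by positivity
  refine ⟨a, Real.exp (2 * C2 + 2 * a + 1), ha0, Real.one_lt_exp_iff.2 (by positivity), ?_⟩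
  intro K hK hV hVq
  obtain ⟨μ, hμK, hμE⟩ := exists_meas (k := kR q) (A := K) (x := ENNReal.ofReal (4 / M))
    (hVq.trans_lt ((ENNReal.ofReal_lt_ofReal_iff (by positivity)).2 (by
      rw [div_lt_div_iff_of_pos_right hM]; norm_num)))
  have hkm := (isKer_kR hq).cont.measurable
  have hnm : Measurable (fun p : E n × E n => SH.na (dist p.1 p.2)) := SH.na_meas.comp (by fun_prop)
  -- bound of the positive part
  have hP : ∫⁻ x, ∫⁻ y, SH.pa (dist x y) ∂(μ : Measure (E n)) ∂(μ : Measure (E n)) ≤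
      ENNReal.ofReal C2 := by
    refine (P_le hq _).trans ?_
    rw [hC2, ENNReal.ofReal_mul (by positivity)]
    gcongr
  -- the negative part
  have hae : ∀ᵐ y ∂(μ : Measure (E n)), y ∈ K := by rw [ae_iff]; exact hμK
  have hN : ∫⁻ x, ∫⁻ y, SH.na (dist x y) ∂(μ : Measure (E n)) ∂(μ : Measure (E n)) ≠ ⊤ := by
    obtain ⟨D0, hD0⟩ := hK.isBounded.subset_closedBall (0 : E n)
    set D : ℝ := max D0 1 with hDdef
    have hKD : K ⊆ Metric.closedBall (0 : E n) D :=
      hD0.trans (Metric.closedBall_subset_closedBall (le_max_left _ _))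
    have hD1 : 1 ≤ D := le_max_right _ _
    have h1 : ∫⁻ x, ∫⁻ y, SH.na (dist x y) ∂(μ : Measure (E n)) ∂(μ : Measure (E n)) ≤
        ∫⁻ _, ∫⁻ _, ENNReal.ofReal (Real.log (2 * D)) ∂(μ : Measure (E n)) ∂(μ : Measure (E n)) := by
      apply lintegral_mono_ae
      filter_upwards [hae] with y hy
      apply lintegral_mono_ae
      filter_upwards [hae] with z hz
      refine SH.na_le (by linarith) ?_
      have h3 : dist y 0 ≤ D := hKD hy
      have h4 : dist z 0 ≤ D := hKD hz
      have h5 := dist_triangle_right y z 0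
      linarith
    refine ne_top_of_le_ne_top ?_ h1
    simp
  have hNP : ∫⁻ x, ∫⁻ y, SH.na (dist x y) ∂(μ : Measure (E n)) ∂(μ : Measure (E n)) ≤
      ENNReal.ofReal C2 := by
    have h1 : V0 K ≤ logEnergy (μ : Measure (E n)) := iInf₂_le μ hμK
    rw [hV, logEnergy_eq] at h1
    have h2 := (EReal.le_sub_iff_add_le (Or.inl (EReal.coe_ennreal_ne_bot _))
      (Or.inl (fun h => hN (EReal.coe_ennreal_eq_top_iff.1 h)))).1 h1
    rw [zero_add] at h2
    exact (EReal.coe_ennreal_le_coe_ennreal_iff.1 h2).trans hP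
  obtain ⟨x, hx⟩ := exists_le_lintegral (μ := (μ : Measure (E n)))
    (f := fun x => ∫⁻ y, SH.na (dist x y) ∂(μ : Measure (E n)))
    (hnm.lintegral_prod_right').aemeasurable
  have hx2 : ∫⁻ y, SH.na (dist x y) ∂(μ : Measure (E n)) ≤ ENNReal.ofReal C2 := hx.trans hNP
  refine ⟨x, fun t ht => ?_⟩
  have ht1 : 1 < t := (Real.one_lt_exp_iff.2 (by positivity)).trans_le ht
  have ht0 : 0 < t := by linarith
  have hlog : 2 * C2 + 2 * a + 1 ≤ Real.log t := (Real.le_log_iff_exp_le ht0).2 ht
  have hlog0 : 0 < Real.log t := by linarith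
  -- Markov
  have hmark : (μ : Measure (E n)).real (Metric.closedBall x t)ᶜ ≤ 1 / 2 := by
    have h1 := mul_meas_ge_le_lintegral (μ := (μ : Measure (E n)))
      (f := fun y => SH.na (dist x y)) (SH.na_meas.comp (by fun_prop)) (ENNReal.ofReal (Real.log t))
    have h2 : (Metric.closedBall x t)ᶜ ⊆
        {y | ENNReal.ofReal (Real.log t) ≤ SH.na (dist x y)} := by
      intro y hy
      have h3 : t < dist y x := not_le.1 hy
      show ENNReal.ofReal (Real.log t) ≤ SH.na (dist x y)
      rw [dist_comm] at h3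
      unfold SH.na
      rw [ENNReal.log_ofReal_of_pos (by linarith), EReal.real_coe_toENNReal]
      exact ENNReal.ofReal_le_ofReal (Real.log_le_log ht0 h3.le)
    have h3 : ENNReal.ofReal (Real.log t) * (μ : Measure (E n)) (Metric.closedBall x t)ᶜ ≤
        ENNReal.ofReal C2 := by
      refine le_trans ?_ (h1.trans hx2)
      gcongr
    have h4 := ENNReal.toReal_mono ENNReal.ofReal_ne_top h3
    rw [ENNReal.toReal_mul, ENNReal.toReal_ofReal hlog0.le, ENNReal.toReal_ofReal hC20.le] at h4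
    have h5 : Real.log t * (μ : Measure (E n)).real (Metric.closedBall x t)ᶜ ≤ C2 := h4
    by_contra hcon
    push Not at hcon
    nlinarith
  set A : Set (E n) := K ∩ Metric.closedBall x t with hA
  have hAc : IsCompact A := hK.inter_right Metric.isClosed_closedBall
  have hμA : 1 / 2 ≤ (μ : Measure (E n)).real A := by
    have h1 : (μ : Measure (E n)).real Aᶜ ≤ 1 / 2 := by
      have h2 : Aᶜ ⊆ Kᶜ ∪ (Metric.closedBall x t)ᶜ := by
        rw [hA, compl_inter]
      have h3 : (μ : Measure (E n)) Aᶜ ≤ (μ : Measure (E n)) (Metric.closedBall x t)ᶜ := by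
        calc (μ : Measure (E n)) Aᶜ ≤ (μ : Measure (E n)) (Kᶜ ∪ (Metric.closedBall x t)ᶜ) :=
              measure_mono h2
          _ ≤ (μ : Measure (E n)) Kᶜ + (μ : Measure (E n)) (Metric.closedBall x t)ᶜ :=
              measure_union_le _ _
          _ = _ := by rw [hμK, zero_add]
      exact (ENNReal.toReal_mono (measure_ne_top _ _) h3).trans hmark
    rw [probReal_compl_eq_one_sub hAc.measurableSet] at h1
    linarith
  -- the `q`-energy on `A`
  have hVA : VV (kR q) A ≤ ENNReal.ofReal (16 / M) := by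
    have h1 := VV_mul_le hkm (A := A) ((μ : Measure (E n)).restrict A) (by
      rw [Measure.restrict_apply hAc.measurableSet.compl, compl_inter_self, measure_empty])
    rw [Measure.restrict_apply_univ] at h1
    have h2 : En (kR q) ((μ : Measure (E n)).restrict A) ((μ : Measure (E n)).restrict A) ≤
        ENNReal.ofReal (4 / M) :=
      (VAux.En_mono (kR q) Measure.restrict_le_self Measure.restrict_le_self).trans hμE.le
    have h3 : ENNReal.ofReal (1 / 4) ≤ ((μ : Measure (E n)) A) ^ 2 := by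
      have h4 : ENNReal.ofReal (1 / 2) ≤ (μ : Measure (E n)) A := by
        rw [← ENNReal.ofReal_toReal (measure_ne_top (μ : Measure (E n)) A)]
        exact ENNReal.ofReal_le_ofReal hμA
      calc ENNReal.ofReal (1 / 4) = (ENNReal.ofReal (1 / 2)) ^ 2 := by
            rw [← ENNReal.ofReal_pow (by norm_num)]; norm_num
        _ ≤ _ := by gcongr
    have h5 : VV (kR q) A * ENNReal.ofReal (1 / 4) ≤ ENNReal.ofReal (4 / M) :=
      le_trans (by gcongr) (h1.trans h2)
    calc VV (kR q) A = VV (kR q) A * ENNReal.ofReal (1 / 4) * ENNReal.ofReal 4 := by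
          rw [mul_assoc, ← ENNReal.ofReal_mul (by norm_num)]
          norm_num
      _ ≤ ENNReal.ofReal (4 / M) * ENNReal.ofReal 4 := by gcongr
      _ = ENNReal.ofReal (16 / M) := by
          rw [← ENNReal.ofReal_mul (by positivity)]
          congr 1
          ring
  have hfirst : V0 A ≤ (a : EReal) := by
    have h0 : (0 : EReal) ≤ V0 A := by
      rw [← hV]
      exact V0_anti inter_subset_left
    have htop : V0 A ≠ ⊤ := by
      obtain ⟨lam, hlA, hlE⟩ := exists_meas (k := kR q) (A := A) (x := ⊤)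
        (hVA.trans_lt ENNReal.ofReal_lt_top)
      have h1 : V0 A ≤ logEnergy (lam : Measure (E n)) := iInf₂_le lam hlA
      rw [logEnergy_eq] at h1
      have h2 : ∫⁻ x, ∫⁻ y, SH.pa (dist x y) ∂(lam : Measure (E n)) ∂(lam : Measure (E n)) < ⊤ :=
        (P_le hq _).trans_lt (ENNReal.mul_lt_top ENNReal.ofReal_lt_top hlE)
      intro h3
      rw [h3, top_le_iff] at h1
      have h4 : (((∫⁻ x, ∫⁻ y, SH.pa (dist x y) ∂(lam : Measure (E n)) ∂(lam : Measure (E n)) :
          ℝ≥0∞) : EReal) - ((∫⁻ x, ∫⁻ y, SH.na (dist x y) ∂(lam : Measure (E n))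
          ∂(lam : Measure (E n)) : ℝ≥0∞) : EReal)) ≤
          ((∫⁻ x, ∫⁻ y, SH.pa (dist x y) ∂(lam : Measure (E n)) ∂(lam : Measure (E n)) :
          ℝ≥0∞) : EReal) - 0 := EReal.sub_le_sub le_rfl (EReal.coe_ennreal_nonneg _)
      rw [h1, sub_zero, top_le_iff, EReal.coe_ennreal_eq_top_iff] at h4
      exact h2.ne h4
    have hbot : V0 A ≠ ⊥ := fun h => by
      rw [h] at h0
      exact absurd h0 (not_le.2 EReal.bot_lt_zero)
    set v : ℝ := (V0 A).toReal with hv
    have hvA : V0 A = (v : EReal) := (EReal.coe_toReal htop hbot).symm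
    have h1 := hopt A hAc v hvA
    have h2 : ENNReal.ofReal (Real.exp (q * v)) ≤ ENNReal.ofReal 16 := by
      refine h1.trans ?_
      calc ENNReal.ofReal M * VV (kR q) A ≤ ENNReal.ofReal M * ENNReal.ofReal (16 / M) := by gcongr
        _ = ENNReal.ofReal 16 := by
            rw [← ENNReal.ofReal_mul hM.le]
            congr 1
            field_simp
    have h3 : Real.exp (q * v) ≤ 16 := (ENNReal.ofReal_le_ofReal_iff (by norm_num)).1 h2
    have h4 : q * v ≤ Real.log 16 := (Real.le_log_iff_exp_le (by norm_num)).2 h3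
    rw [hvA]
    have h5 : v ≤ a := by
      rw [ha, le_div_iff₀ hq]
      linarith
    exact_mod_cast h5
  exact ⟨hfirst, second hK hV x ha0 ht1 (by linarith) hfirst⟩

end R970.RC
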