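import Pool.Agent.R970.RC.EQ
import Pool.Agent.R970.RC.K
import Pool.Agent.R970.RC.LOG1
import Pool.Agent.R970.RC.SH
import Pool.Agent.R970.RC.V1
import Pool.Agent.R970.RC.V2

/-! # RC-LOG2: the cut for `p = 0` -/

open MeasureTheory Set Filter Topology
open scoped ENNReal

namespace R970.RC

namespace LG

variable {n : ℕ}

theorem V0_anti {A B : Set (E n)} (h : A ⊆ B) : V0 B ≤ V0 A := by
  unfold V0
  refine le_iInf₂ fun μ hμ => ?_
  exact iInf₂_le μ (measure_mono_null (compl_subset_compl.mpr h) hμ)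

/-- the constant of the kernel for a ball of radius `D` -/
noncomputable def cc (D : ℝ) : ℝ := 2 * D * Real.exp 1

theorem cc_pos {D : ℝ} (hD : 0 < D) : 0 < cc D := by
  unfold cc
  positivity

theorem cc_mono {D L : ℝ} (h : L ≤ D) : cc L ≤ cc D := by
  unfold cc
  gcongr

/-- the kernel for a ball of radius `D` -/
noncomputable def kk (D : ℝ) : ℝ → ℝ≥0∞ := kL (cc D) 1

theorem kk_ker {D : ℝ} (hD : 0 < D) : IsKer (kk D) (1 / 1) := isKer_kL (cc_pos hD) one_pos

theorem kk_meas {D : ℝ} (hD : 0 < D) : Measurable (kk D) := (kk_ker hD).cont.measurable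

theorem shift {D : ℝ} (hD : 0 < D) {A : Set (E n)} {x : E n} (hA : A ⊆ Metric.closedBall x D) :
    ((VV (kk D) A : ℝ≥0∞) : EReal) = V0 A + ((Real.log (cc D) : ℝ) : EReal) := by
  refine V0_shift (cc_pos hD) zero_le_one hD ?_ hA
  unfold cc
  rw [mul_assoc, ← Real.exp_add]
  simp

theorem VV_eq {D : ℝ} (hD : 0 < D) {A : Set (E n)} {x : E n} (hA : A ⊆ Metric.closedBall x D)
    {v : ℝ} (h : V0 A = (v : EReal)) :
    0 ≤ v + Real.log (cc D) ∧ VV (kk D) A = ENNReal.ofReal (v + Real.log (cc D)) := by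
  have h1 := shift hD hA
  rw [h, ← EReal.coe_add] at h1
  have h2 : (0 : EReal) ≤ ((v + Real.log (cc D) : ℝ) : EReal) := by
    rw [← h1]
    exact EReal.coe_ennreal_nonneg _
  have h3 : 0 ≤ v + Real.log (cc D) := by exact_mod_cast h2
  refine ⟨h3, ?_⟩
  rw [← EReal.coe_ennreal_eq_coe_ennreal_iff, h1, EReal.coe_ennreal_ofReal, max_eq_left h3]

theorem VV_ge {D : ℝ} (hD : 0 < D) {A : Set (E n)} {x : E n} (hA : A ⊆ Metric.closedBall x D)
    {v : ℝ} (h : (v : EReal) ≤ V0 A) : ENNReal.ofReal (v + Real.log (cc D)) ≤ VV (kk D) A := by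
  have h1 := shift hD hA
  rw [← EReal.coe_ennreal_le_coe_ennreal_iff, EReal.coe_ennreal_ofReal]
  rcases le_total (v + Real.log (cc D)) 0 with h2 | h2
  · rw [max_eq_right h2]
    exact EReal.coe_ennreal_nonneg _
  · rw [max_eq_left h2, h1, EReal.coe_add]
    exact add_le_add_left h _

theorem VV_lt {D : ℝ} (hD : 0 < D) {A : Set (E n)} {x : E n} (hA : A ⊆ Metric.closedBall x D)
    {v : ℝ} (h : V0 A < (v : EReal)) : VV (kk D) A < ENNReal.ofReal (v + Real.log (cc D)) := by
  have h1 := shift hD hA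
  rw [← EReal.coe_ennreal_lt_coe_ennreal_iff, EReal.coe_ennreal_ofReal]
  refine lt_of_lt_of_le ?_ (EReal.coe_le_coe_iff.mpr (le_max_left _ _))
  rw [h1, EReal.coe_add]
  exact EReal.add_lt_add_right_coe h _

/-- change of the constant -/
theorem kk_change {L D : ℝ} (hL : 0 < L) (hLD : L ≤ D) (r : ℝ) :
    kk D r ≤ kk L r + ENNReal.ofReal (Real.log (cc D) - Real.log (cc L)) := by
  unfold kk kL
  split_ifs with h
  · simp
  · push Not at h
    have hD : 0 < D := lt_of_lt_of_le hL hLD
    have h1 : Real.log (cc L) ≤ Real.log (cc D) := Real.log_le_log (cc_pos hL) (cc_mono hLD)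
    rw [← ENNReal.ofReal_add (le_trans zero_le_one (le_max_right _ _)) (by linarith)]
    refine ENNReal.ofReal_le_ofReal ?_
    rw [Real.log_div (cc_pos hD).ne' h.ne', Real.log_div (cc_pos hL).ne' h.ne']
    refine max_le ?_ ?_
    · have := le_max_left (Real.log (cc L) - Real.log r) 1
      linarith
    · have := le_max_right (Real.log (cc L) - Real.log r) 1
      linarith

theorem En_change {L D : ℝ} (hL : 0 < L) (hLD : L ≤ D) (ρ : ProbabilityMeasure (E n)) :
    En (kk D) (ρ : Measure (E n)) ρ ≤ En (kk L) (ρ : Measure (E n)) ρ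
      + ENNReal.ofReal (Real.log (cc D) - Real.log (cc L)) := by
  unfold En
  calc ∫⁻ x, ∫⁻ y, kk D (dist x y) ∂(ρ : Measure (E n)) ∂(ρ : Measure (E n))
      ≤ ∫⁻ x, ∫⁻ y, (kk L (dist x y) + ENNReal.ofReal (Real.log (cc D) - Real.log (cc L)))
          ∂(ρ : Measure (E n)) ∂(ρ : Measure (E n)) :=
        lintegral_mono fun x => lintegral_mono fun y => kk_change hL hLD _
    _ = ∫⁻ x, ((∫⁻ y, kk L (dist x y) ∂(ρ : Measure (E n)))
          + ENNReal.ofReal (Real.log (cc D) - Real.log (cc L))) ∂(ρ : Measure (E n)) := by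
        refine lintegral_congr fun x => ?_
        rw [lintegral_add_right _ measurable_const, lintegral_const, measure_univ, mul_one]
    _ = _ := by
        rw [lintegral_add_right _ measurable_const, lintegral_const, measure_univ, mul_one]

/-- the logarithmic kernel is dominated by the Riesz kernel -/
theorem kk_le_kR {q D : ℝ} (hq : 0 < q) (hD : 0 < D) (r : ℝ) :
    kk D r ≤ ENNReal.ofReal ((cc D) ^ q / q) * kR q r + 1 := by
  have hc := cc_pos hD
  have hcq : 0 < (cc D) ^ q / q := by positivity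
  unfold kk kL kR
  split_ifs with h
  · rw [ENNReal.ofReal_of_nonpos h, ENNReal.zero_rpow_of_neg (by linarith),
      ENNReal.mul_top (by simpa using hcq)]
    simp
  · push Not at h
    rw [ENNReal.ofReal_rpow_of_pos h, ← ENNReal.ofReal_mul hcq.le, ← ENNReal.ofReal_one,
      ← ENNReal.ofReal_add (by positivity) zero_le_one]
    refine ENNReal.ofReal_le_ofReal ?_
    have h1 : Real.log (cc D / r) ≤ (cc D / r) ^ q / q := Real.log_le_rpow_div (by positivity) hq
    have h2 : (cc D / r) ^ q / q = (cc D) ^ q / q * r ^ (-q) := by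
      rw [Real.div_rpow hc.le h.le, Real.rpow_neg h.le]
      field_simp
    have h3 : 0 ≤ (cc D) ^ q / q * r ^ (-q) := by positivity
    refine max_le ?_ ?_
    · linarith
    · linarith

theorem VV_kk_ne_top {q D : ℝ} (hq : 0 < q) (hD : 0 < D) {A : Set (E n)} (h : VV (kR q) A ≠ ⊤) :
    VV (kk D) A ≠ ⊤ := by
  have h1 : VV (kR q) A < ⊤ := lt_top_iff_ne_top.mpr h
  unfold VV at h1
  simp only [iInf_lt_iff] at h1
  obtain ⟨μ, hμ, hE⟩ := h1
  have h2 : En (kk D) (μ : Measure (E n)) μ ≤
      ENNReal.ofReal ((cc D) ^ q / q) * En (kR q) (μ : Measure (E n)) μ + 1 := by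
    have hmR : Measurable (kR q) := (isKer_kR hq).cont.measurable
    unfold En
    calc ∫⁻ x, ∫⁻ y, kk D (dist x y) ∂(μ : Measure (E n)) ∂(μ : Measure (E n))
        ≤ ∫⁻ x, ∫⁻ y, (ENNReal.ofReal ((cc D) ^ q / q) * kR q (dist x y) + 1)
            ∂(μ : Measure (E n)) ∂(μ : Measure (E n)) :=
          lintegral_mono fun x => lintegral_mono fun y => kk_le_kR hq hD _
      _ = ∫⁻ x, (ENNReal.ofReal ((cc D) ^ q / q) * (∫⁻ y, kR q (dist x y) ∂(μ : Measure (E n)))
            + 1) ∂(μ : Measure (E n)) := by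
          refine lintegral_congr fun x => ?_
          rw [lintegral_add_right _ measurable_const, lintegral_const, measure_univ, mul_one,
            lintegral_const_mul' _ _ ENNReal.ofReal_ne_top]
      _ = _ := by
          rw [lintegral_add_right _ measurable_const, lintegral_const, measure_univ, mul_one,
            lintegral_const_mul' _ _ ENNReal.ofReal_ne_top]
  have h3 : VV (kk D) A ≤ En (kk D) (μ : Measure (E n)) μ := iInf₂_le μ hμ
  refine ne_top_of_le_ne_top ?_ (h3.trans h2)
  exact ENNReal.add_ne_top.mpr ⟨ENNReal.mul_ne_top ENNReal.ofReal_ne_top hE.ne, ENNReal.one_ne_top⟩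

/-- capacity of a set of large log energy -/
theorem capE {q M : ℝ} (hq : 0 < q) (hM : 0 < M)
    (hopt : ∀ K : Set (E n), IsCompact K → ∀ v : ℝ, V0 K = (v : EReal) →
      ENNReal.ofReal (Real.exp (q * v)) ≤ ENNReal.ofReal M * VV (kR q) K)
    {A : Set (E n)} (hA : MeasurableSet A) {x : E n} {D : ℝ} (hD : 0 < D)
    (hAD : A ⊆ Metric.closedBall x D) {w : ℝ} (hw : (w : EReal) ≤ V0 A) :
    (VV (kR q) A)⁻¹ ≤ ENNReal.ofReal (M * Real.exp (-(q * w))) := by
  by_contra hcon
  push Not at hcon
  have h1 : VV (kR q) A < (ENNReal.ofReal (M * Real.exp (-(q * w))))⁻¹ := by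
    rw [ENNReal.lt_inv_iff_lt_inv]
    exact hcon
  obtain ⟨C, hCA, hC, hlt⟩ := VV_inner (isKer_kR hq).cont.measurable hA h1
  have h2 : VV (kR q) C ≠ ⊤ := ne_top_of_lt hlt
  have h3 : VV (kk D) C ≠ ⊤ := VV_kk_ne_top hq hD h2
  have h4 : V0 C ≠ ⊤ := by
    intro h5
    have h6 := shift hD (hCA.trans hAD)
    rw [h5, EReal.top_add_coe] at h6
    exact h3 (EReal.coe_ennreal_eq_top_iff.mp h6)
  have h5 : (w : EReal) ≤ V0 C := hw.trans (V0_anti hCA)
  have h6 : V0 C ≠ ⊥ := by
    intro h7
    rw [h7] at h5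
    exact absurd (le_bot_iff.mp h5) (EReal.coe_ne_bot w)
  have h7 : V0 C = ((V0 C).toReal : EReal) := (EReal.coe_toReal h4 h6).symm
  have h8 := hopt C hC _ h7
  have h9 : w ≤ (V0 C).toReal := by
    rw [h7] at h5
    exact_mod_cast h5
  have h10 : ENNReal.ofReal M * VV (kR q) C <
      ENNReal.ofReal M * (ENNReal.ofReal (M * Real.exp (-(q * w))))⁻¹ := by
    exact ENNReal.mul_lt_mul_right (by simpa using hM) ENNReal.ofReal_ne_top hlt
  have h11 : ENNReal.ofReal M * (ENNReal.ofReal (M * Real.exp (-(q * w))))⁻¹ =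
      ENNReal.ofReal (Real.exp (q * w)) := by
    rw [← ENNReal.ofReal_inv_of_pos (by positivity), ← ENNReal.ofReal_mul hM.le]
    congr 1
    rw [Real.exp_neg]
    field_simp
  rw [h11] at h10
  have h12 := lt_of_le_of_lt h8 h10
  rw [ENNReal.ofReal_lt_ofReal_iff (Real.exp_pos _), Real.exp_lt_exp] at h12
  have h13 : q * w ≤ q * (V0 C).toReal := by gcongr
  linarith

/-- mass outside -/
theorem mass {k : ℝ → ℝ≥0∞} (hk : Measurable k) {G B : Set (E n)} (hB : MeasurableSet B)
    {C : ℝ} (hC : 0 ≤ C) (hV : VV k G ≤ ENNReal.ofReal C) (ρ : ProbabilityMeasure (E n))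
    (hρ : (ρ : Measure (E n)) Gᶜ = 0) (hE : En k (ρ : Measure (E n)) ρ ≤ VV k G)
    {w : ℝ} (hw : 0 < w) (hGB : ENNReal.ofReal w ≤ VV k (G ∩ B)) :
    (ρ : Measure (E n)) B ≤ ENNReal.ofReal (C / w) := by
  set m : ℝ := ((ρ : Measure (E n)) B).toReal with hm
  have hm0 : 0 ≤ m := ENNReal.toReal_nonneg
  have hmB : (ρ : Measure (E n)) B = ENNReal.ofReal m := (ENNReal.ofReal_toReal (measure_ne_top _ _)).symm
  have key : ∀ τ : ℝ, 0 < τ → τ ≤ 1 / 2 → m ^ 2 * w ≤ C * m + τ * (1 + C) := by
    intro τ h0 h1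
    have h := VV_mass hk hB (ne_top_of_le_ne_top ENNReal.ofReal_ne_top hV) ρ hρ h0 h1
      (hE.trans le_self_add)
    rw [hmB] at h
    have h2 : ENNReal.ofReal (m ^ 2 * w) ≤ ENNReal.ofReal m ^ 2 * VV k (G ∩ B) := by
      rw [ENNReal.ofReal_mul (by positivity), ENNReal.ofReal_pow hm0]
      gcongr
    have h3 : VV k G * ENNReal.ofReal m + ENNReal.ofReal τ * (1 + VV k G) ≤
        ENNReal.ofReal (C * m + τ * (1 + C)) := by
      rw [ENNReal.ofReal_add (by positivity) (by positivity), ENNReal.ofReal_mul hC,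
        ENNReal.ofReal_mul h0.le, ENNReal.ofReal_add zero_le_one hC, ENNReal.ofReal_one]
      gcongr
    have h4 := (h2.trans h).trans h3
    rwa [ENNReal.ofReal_le_ofReal_iff (by positivity)] at h4
  have h5 : m ^ 2 * w ≤ C * m := by
    refine le_of_forall_pos_le_add fun ε hε => ?_
    have h6 := key (min (1 / 2) (ε / (1 + C))) (by positivity) (min_le_left _ _)
    have h7 : min (1 / 2) (ε / (1 + C)) * (1 + C) ≤ ε := by
      calc min (1 / 2) (ε / (1 + C)) * (1 + C) ≤ ε / (1 + C) * (1 + C) := by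
            gcongr
            exact min_le_right _ _
        _ = ε := by field_simp
    linarith
  rw [hmB]
  refine ENNReal.ofReal_le_ofReal ?_
  rw [le_div_iff₀ hw]
  rcases hm0.eq_or_lt with h6 | h6
  · rw [← h6]
    simpa using hC
  · have h7 : m * (m * w) ≤ m * C := by
      calc m * (m * w) = m ^ 2 * w := by ring
        _ ≤ C * m := h5
        _ = m * C := by ring
    exact le_of_mul_le_mul_left h7 h6

/-- the radii -/
noncomputable def tt (R : ℝ) (j : ℕ) : ℝ := 2 * R + 1 - (1 / 2) ^ j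

theorem tt_zero (R : ℝ) : tt R 0 = 2 * R := by
  unfold tt
  norm_num

theorem tt_le (R : ℝ) (j : ℕ) : tt R j ≤ 2 * R + 1 := by
  unfold tt
  have : (0 : ℝ) < (1 / 2) ^ j := by positivity
  linarith

theorem le_tt (R : ℝ) (j : ℕ) : 2 * R ≤ tt R j := by
  unfold tt
  have : ((1 : ℝ) / 2) ^ j ≤ 1 := pow_le_one₀ (by norm_num) (by norm_num)
  linarith

theorem tt_gap (R : ℝ) {i j : ℕ} (h : i ≤ j) : (1 / 2) ^ (i + 1) ≤ tt R (j + 1) - tt R i := by
  unfold tt
  have h1 : ((1 : ℝ) / 2) ^ (j + 1) ≤ (1 / 2) ^ (i + 1) :=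
    pow_le_pow_of_le_one (by norm_num) (by norm_num) (by omega)
  have h2 : ((1 : ℝ) / 2) ^ i = (1 / 2) ^ (i + 1) + (1 / 2) ^ (i + 1) := by
    rw [pow_succ]
    ring
  linarith

theorem sum_le (j : ℕ) : ∑ i ∈ Finset.range j, ((i : ℝ) + 2) / 2 ^ i ≤ 6 := by
  have h : ∑ i ∈ Finset.range j, ((i : ℝ) + 2) / 2 ^ i = 6 - (2 * j + 6) / 2 ^ j := by
    induction j with
    | zero => simp
    | succ j ih =>
      rw [Finset.sum_range_succ, ih]
      push_cast
      rw [pow_succ]
      field_simp
      ring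
  rw [h]
  have : (0 : ℝ) ≤ (2 * j + 6) / 2 ^ j := by positivity
  linarith

theorem kk_le {D r0 r : ℝ} (hD : 0 < D) (hr0 : 0 < r0) (h1 : 1 ≤ Real.log (cc D) - Real.log r0)
    (hr : r0 ≤ r) : kk D r ≤ ENNReal.ofReal (Real.log (cc D) - Real.log r0) := by
  refine ((kk_ker hD).anti hr).trans ?_
  unfold kk kL
  rw [if_neg (by linarith), Real.log_div (cc_pos hD).ne' hr0.ne', max_eq_left h1]

/-- the potential of the equilibrium measure outside -/
theorem pot_bound {x : E n} {R l L D W C1 W' : ℝ} {j : ℕ} (hR : R = Real.exp l) (hl : 100 ≤ l)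
    (hL : L = 2 * R + 1) (hLD : L ≤ D) (hW : 0 < W) (hW' : 0 < W') (hC1 : 0 ≤ C1)
    (ρ : ProbabilityMeasure (E n)) (hρ : (ρ : Measure (E n)) (Metric.closedBall x (tt R j))ᶜ = 0)
    (hm0 : (ρ : Measure (E n)) (Metric.closedBall x R)ᶜ ≤ ENNReal.ofReal (C1 / W'))
    (hmi : ∀ i < j, (ρ : Measure (E n)) (Metric.closedBall x (tt R i))ᶜ ≤
      ENNReal.ofReal (C1 / (2 ^ i * W)))
    (hB : (l + Real.log 2) * (C1 / W') + 6 * Real.log 2 * (C1 / W) ≤ l - 1)
    {y : E n} (hy : y ∉ Metric.closedBall x (tt R (j + 1))) :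
    Pot (kk D) (ρ : Measure (E n)) y ≤ ENNReal.ofReal (Real.log (cc D) - 1) := by
  have hR0 : 0 < R := by rw [hR]; positivity
  have hlogR : Real.log R = l := by rw [hR, Real.log_exp]
  have hR1 : 1 ≤ R := by
    rw [hR]
    exact Real.one_le_exp (by linarith)
  have hD : 0 < D := by linarith
  have hlog2 : 0 < Real.log 2 := Real.log_pos (by norm_num)
  set lam := Real.log (cc D) with hlam
  have hlam1 : l + 1 ≤ lam := by
    have h1 : R * Real.exp 1 ≤ cc D := by
      unfold cc
      have : R ≤ 2 * D := by linarith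
      gcongr
    have h2 := Real.log_le_log (by positivity) h1
    rw [Real.log_mul hR0.ne' (Real.exp_pos 1).ne', hlogR, Real.log_exp] at h2
    exact h2
  have hy' : tt R (j + 1) < dist y x := by
    simpa [Metric.mem_closedBall] using hy
  have hdist : ∀ (z : E n) (s : ℝ), z ∈ Metric.closedBall x s → tt R (j + 1) - s ≤ dist y z := by
    intro z s hz
    have h1 := dist_triangle y z x
    have h2 : dist z x ≤ s := hz
    linarith
  set F : E n → ℝ≥0∞ := fun z => (ENNReal.ofReal (lam - l) +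
    (Metric.closedBall x R)ᶜ.indicator (fun _ => ENNReal.ofReal (l + Real.log 2)) z) +
    ∑ i ∈ Finset.range j, (Metric.closedBall x (tt R i))ᶜ.indicator
      (fun _ => ENNReal.ofReal (((i : ℝ) + 2) * Real.log 2)) z with hF
  have hpt : ∀ z ∈ Metric.closedBall x (tt R j), kk D (dist y z) ≤ F z := by
    intro z hz
    by_cases h1 : z ∈ Metric.closedBall x R
    · have h2 := hdist z R h1
      have h3 := le_tt R (j + 1)
      have h4 : kk D (dist y z) ≤ ENNReal.ofReal (lam - l) := by
        have := kk_le hD hR0 (by rw [hlogR]; linarith) (show R ≤ dist y z by linarith)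
        rwa [hlogR] at this
      exact h4.trans (le_self_add.trans le_self_add)
    · have hi1 : (Metric.closedBall x R)ᶜ.indicator (fun _ => ENNReal.ofReal (l + Real.log 2)) z =
          ENNReal.ofReal (l + Real.log 2) := Set.indicator_of_mem (by exact h1) _
      have hl2 : ENNReal.ofReal (lam - l) + ENNReal.ofReal (l + Real.log 2) =
          ENNReal.ofReal (lam + Real.log 2) := by
        rw [← ENNReal.ofReal_add (by linarith) (by linarith)]
        congr 1
        ring
      by_cases h2 : z ∈ Metric.closedBall x (tt R 0)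
      · have h3 := hdist z _ h2
        have h4 := tt_gap R (Nat.zero_le j)
        have h5 : kk D (dist y z) ≤ ENNReal.ofReal (lam + Real.log 2) := by
          have := kk_le hD (show (0 : ℝ) < 1 / 2 by norm_num)
            (by rw [Real.log_div one_ne_zero two_ne_zero, Real.log_one]; linarith)
            (show 1 / 2 ≤ dist y z by norm_num at h4 ⊢; linarith)
          rw [Real.log_div one_ne_zero two_ne_zero, Real.log_one] at this
          convert this using 2
          ring
        refine h5.trans ?_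
        rw [← hl2, hF]
        simp only
        rw [hi1]
        exact le_self_add
      · -- annuli
        have hex : ∃ i, z ∈ Metric.closedBall x (tt R i) := ⟨j, hz⟩
        classical
        set i0 := Nat.find hex with hi0
        have h3 : z ∈ Metric.closedBall x (tt R i0) := Nat.find_spec hex
        have h4 : i0 ≤ j := Nat.find_min' hex hz
        have h5 : i0 ≠ 0 := by
          intro h
          rw [h] at h3
          exact h2 h3
        obtain ⟨i, hi⟩ : ∃ i, i0 = i + 1 := ⟨i0 - 1, by omega⟩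
        have h6 : z ∉ Metric.closedBall x (tt R i) := Nat.find_min hex (by omega)
        rw [hi] at h3
        have h7 := hdist z _ h3
        have h8 := tt_gap R (show i + 1 ≤ j by omega)
        have h9 : kk D (dist y z) ≤ ENNReal.ofReal (lam + ((i : ℝ) + 2) * Real.log 2) := by
          have hlg : Real.log ((1 / 2 : ℝ) ^ (i + 1 + 1)) = -(((i : ℝ) + 2) * Real.log 2) := by
            rw [Real.log_pow, Real.log_div one_ne_zero two_ne_zero, Real.log_one]
            push_cast
            ring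
          have h10 : 0 ≤ ((i : ℝ) + 2) * Real.log 2 := by positivity
          have := kk_le hD (show (0 : ℝ) < (1 / 2) ^ (i + 1 + 1) by positivity)
            (by rw [hlg]; linarith) (show (1 / 2) ^ (i + 1 + 1) ≤ dist y z by linarith)
          rw [hlg] at this
          convert this using 2
          ring
        refine h9.trans ?_
        have h10 : ENNReal.ofReal (((i : ℝ) + 2) * Real.log 2) ≤
            ∑ i ∈ Finset.range j, (Metric.closedBall x (tt R i))ᶜ.indicator
              (fun _ => ENNReal.ofReal (((i : ℝ) + 2) * Real.log 2)) z := by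
          have h6' : z ∈ (Metric.closedBall x (tt R i))ᶜ := h6
          have h11 : (Metric.closedBall x (tt R i))ᶜ.indicator
                (fun _ => ENNReal.ofReal (((i : ℝ) + 2) * Real.log 2)) z =
              ENNReal.ofReal (((i : ℝ) + 2) * Real.log 2) := Set.indicator_of_mem h6' _
          refine h11.ge.trans ?_
          exact Finset.single_le_sum (f := fun i : ℕ => (Metric.closedBall x (tt R i))ᶜ.indicator
              (fun _ => ENNReal.ofReal (((i : ℝ) + 2) * Real.log 2)) z) (fun _ _ => zero_le)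
              (Finset.mem_range.mpr (by omega))
        have h12 : ENNReal.ofReal (lam + ((i : ℝ) + 2) * Real.log 2) ≤
            ENNReal.ofReal (lam + Real.log 2) + ENNReal.ofReal (((i : ℝ) + 2) * Real.log 2) := by
          rw [← ENNReal.ofReal_add (by linarith) (by positivity)]
          refine ENNReal.ofReal_le_ofReal ?_
          linarith
        refine h12.trans ?_
        rw [← hl2, hF]
        simp only
        rw [hi1]
        exact add_le_add le_rfl h10
  have hint : Pot (kk D) (ρ : Measure (E n)) y ≤ ∫⁻ z, F z ∂(ρ : Measure (E n)) := by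
    unfold Pot
    refine lintegral_mono_ae ?_
    have h1 : ∀ᵐ z ∂(ρ : Measure (E n)), z ∈ Metric.closedBall x (tt R j) := by
      rw [ae_iff]
      exact hρ
    filter_upwards [h1] with z hz
    exact hpt z hz
  have hmeasB : ∀ s : ℝ, MeasurableSet (Metric.closedBall x s)ᶜ := fun s =>
    Metric.isClosed_closedBall.measurableSet.compl
  have hFint : ∫⁻ z, F z ∂(ρ : Measure (E n)) =
      (ENNReal.ofReal (lam - l) + ENNReal.ofReal (l + Real.log 2) *
        (ρ : Measure (E n)) (Metric.closedBall x R)ᶜ) +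
      ∑ i ∈ Finset.range j, ENNReal.ofReal (((i : ℝ) + 2) * Real.log 2) *
        (ρ : Measure (E n)) (Metric.closedBall x (tt R i))ᶜ := by
    rw [hF]
    rw [lintegral_add_left]
    · rw [lintegral_add_left measurable_const, lintegral_const, measure_univ, mul_one,
        lintegral_indicator_const (hmeasB R)]
      congr 1
      rw [lintegral_finsetSum]
      · refine Finset.sum_congr rfl fun i _ => ?_
        rw [lintegral_indicator_const (hmeasB _)]
      · intro i _
        exact measurable_const.indicator (hmeasB _)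
    · exact (measurable_const.indicator (hmeasB R)).const_add _
  refine hint.trans ?_
  rw [hFint]
  have hs1 : ENNReal.ofReal (l + Real.log 2) * (ρ : Measure (E n)) (Metric.closedBall x R)ᶜ ≤
      ENNReal.ofReal ((l + Real.log 2) * (C1 / W')) := by
    rw [ENNReal.ofReal_mul (by linarith)]
    gcongr
  have hs2 : ∑ i ∈ Finset.range j, ENNReal.ofReal (((i : ℝ) + 2) * Real.log 2) *
        (ρ : Measure (E n)) (Metric.closedBall x (tt R i))ᶜ ≤
      ENNReal.ofReal (6 * Real.log 2 * (C1 / W)) := by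
    have h1 : ∑ i ∈ Finset.range j, ENNReal.ofReal (((i : ℝ) + 2) * Real.log 2) *
        (ρ : Measure (E n)) (Metric.closedBall x (tt R i))ᶜ ≤
        ∑ i ∈ Finset.range j, ENNReal.ofReal ((((i : ℝ) + 2) / 2 ^ i) * (Real.log 2 * (C1 / W))) := by
      refine Finset.sum_le_sum fun i hi => ?_
      have h2 := hmi i (Finset.mem_range.mp hi)
      have h3 : (((i : ℝ) + 2) / 2 ^ i) * (Real.log 2 * (C1 / W)) =
          (((i : ℝ) + 2) * Real.log 2) * (C1 / (2 ^ i * W)) := by
        field_simp
      rw [h3, ENNReal.ofReal_mul (p := ((i : ℝ) + 2) * Real.log 2) (by positivity)]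
      gcongr
    refine h1.trans ?_
    rw [← ENNReal.ofReal_sum_of_nonneg (fun i _ => by positivity)]
    refine ENNReal.ofReal_le_ofReal ?_
    rw [← Finset.sum_mul]
    have h4 := sum_le j
    calc (∑ i ∈ Finset.range j, ((i : ℝ) + 2) / 2 ^ i) * (Real.log 2 * (C1 / W))
        ≤ 6 * (Real.log 2 * (C1 / W)) := by gcongr
      _ = _ := by ring
  calc (ENNReal.ofReal (lam - l) + ENNReal.ofReal (l + Real.log 2) *
        (ρ : Measure (E n)) (Metric.closedBall x R)ᶜ) +
      ∑ i ∈ Finset.range j, ENNReal.ofReal (((i : ℝ) + 2) * Real.log 2) *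
        (ρ : Measure (E n)) (Metric.closedBall x (tt R i))ᶜ
      ≤ (ENNReal.ofReal (lam - l) + ENNReal.ofReal ((l + Real.log 2) * (C1 / W'))) +
        ENNReal.ofReal (6 * Real.log 2 * (C1 / W)) := by gcongr
    _ = ENNReal.ofReal ((lam - l) + (l + Real.log 2) * (C1 / W') + 6 * Real.log 2 * (C1 / W)) := by
        have p1 : 0 ≤ lam - l := by linarith
        have p2 : 0 ≤ (l + Real.log 2) * (C1 / W') := by positivity
        have p3 : 0 ≤ 6 * Real.log 2 * (C1 / W) := by positivity
        rw [ENNReal.ofReal_add (by positivity) p3, ENNReal.ofReal_add p1 p2]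
    _ ≤ ENNReal.ofReal (lam - 1) := by
        refine ENNReal.ofReal_le_ofReal ?_
        linarith

/-- the main step -/
theorem step {K : Set (E n)} (hK : IsCompact K) (hV0 : V0 K = 0) {x : E n}
    {R l L D W C1 W' a v : ℝ} {j : ℕ} (hR : R = Real.exp l) (hl : 100 ≤ l)
    (hL : L = 2 * R + 1) (hLD : L ≤ D) (hW : 0 < W) (hW' : 0 < W') (ha : 0 < a)
    (hC1 : C1 = a + Real.log (cc L)) (hKD : K ⊆ Metric.closedBall x D)
    (hv : V0 (K ∩ Metric.closedBall x (tt R j)) = (v : EReal)) (hv0 : 0 ≤ v) (hva : v ≤ a)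
    (hWR : (W' : EReal) ≤ V0 (K \ Metric.closedBall x R))
    (hWi : ∀ i < j, ((2 ^ i * W : ℝ) : EReal) ≤ V0 (K \ Metric.closedBall x (tt R i)))
    (hB : (l + Real.log 2) * (C1 / W') + 6 * Real.log 2 * (C1 / W) ≤ l - 1)
    {w : ℝ} (hw : 0 ≤ w) (hlt : V0 (K \ Metric.closedBall x (tt R (j + 1))) < ((2 * w : ℝ) : EReal)) :
    1 / (2 + 2 * w) ≤ v := by
  have hR0 : 0 < R := by rw [hR]; positivity
  have hR1 : 1 ≤ R := by
    rw [hR]
    exact Real.one_le_exp (by linarith)
  have hL0 : 0 < L := by linarith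
  have hD : 0 < D := by linarith
  have hlogL : 0 ≤ Real.log (cc L) := by
    refine Real.log_nonneg ?_
    unfold cc
    have h1 : (1 : ℝ) ≤ Real.exp 1 := Real.one_le_exp zero_le_one
    nlinarith
  have hC10 : 0 ≤ C1 := by linarith
  set G := K ∩ Metric.closedBall x (tt R j) with hG
  have hGc : IsCompact G := hK.inter_right Metric.isClosed_closedBall
  have hGL : G ⊆ Metric.closedBall x L := by
    intro z hz
    have h1 : dist z x ≤ tt R j := hz.2
    have h2 := tt_le R j
    show dist z x ≤ L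
    linarith
  obtain ⟨-, hVG⟩ := VV_eq hL0 hGL hv
  have hVGtop : VV (kk L) G ≠ ⊤ := by
    rw [hVG]
    exact ENNReal.ofReal_ne_top
  obtain ⟨ρ, hρ, hρE, -⟩ := exists_equilibrium (kk_ker hL0) (by norm_num) hGc hVGtop
  have hVGC : VV (kk L) G ≤ ENNReal.ofReal C1 := by
    rw [hVG]
    refine ENNReal.ofReal_le_ofReal ?_
    linarith
  have hmeasB : ∀ s : ℝ, MeasurableSet (Metric.closedBall x s)ᶜ := fun s =>
    Metric.isClosed_closedBall.measurableSet.compl
  have hmass : ∀ (s w' : ℝ), 0 < w' → (w' : EReal) ≤ V0 (K \ Metric.closedBall x s) →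
      (ρ : Measure (E n)) (Metric.closedBall x s)ᶜ ≤ ENNReal.ofReal (C1 / w') := by
    intro s w' hw' hle
    refine mass (kk_meas hL0) (hmeasB s) hC10 hVGC ρ hρ hρE.le hw' ?_
    have h1 : G ∩ (Metric.closedBall x s)ᶜ ⊆ K \ Metric.closedBall x s := fun z hz =>
      ⟨hz.1.1, hz.2⟩
    have h2 : (w' : EReal) ≤ V0 (G ∩ (Metric.closedBall x s)ᶜ) := hle.trans (V0_anti h1)
    have h3 := VV_ge hL0 (inter_subset_left.trans hGL) h2
    refine le_trans (ENNReal.ofReal_le_ofReal ?_) h3
    linarith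
  have hpot : ∀ y ∉ Metric.closedBall x (tt R (j + 1)),
      Pot (kk D) (ρ : Measure (E n)) y ≤ ENNReal.ofReal (Real.log (cc D) - 1) := by
    intro y hy
    refine pot_bound hR hl hL hLD hW hW' hC10 ρ ?_ (hmass R W' hW' hWR) ?_ hB hy
    · exact measure_mono_null (compl_subset_compl.mpr inter_subset_right) hρ
    · intro i hi
      exact hmass _ _ (by positivity) (hWi i hi)
  -- the test measure
  have hlt' := VV_lt hD (sdiff_subset.trans hKD) hlt
  unfold VV at hlt'
  simp only [iInf_lt_iff] at hlt'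
  obtain ⟨σ, hσ, hσE⟩ := hlt'
  set lam := Real.log (cc D) with hlam
  have hlam1 : l + 1 ≤ lam := by
    have h1 : R * Real.exp 1 ≤ cc D := by
      unfold cc
      have : R ≤ 2 * D := by linarith
      gcongr
    have h2 := Real.log_le_log (by positivity) h1
    rw [Real.log_mul hR0.ne' (Real.exp_pos 1).ne', hR, Real.log_exp, Real.log_exp] at h2
    exact h2
  have hkm := kk_meas hD
  have hcross : En (kk D) (ρ : Measure (E n)) σ ≤ ENNReal.ofReal (lam - 1) := by
    rw [En_symm hkm]
    unfold En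
    calc ∫⁻ y, ∫⁻ z, kk D (dist y z) ∂(ρ : Measure (E n)) ∂(σ : Measure (E n))
        ≤ ∫⁻ _, ENNReal.ofReal (lam - 1) ∂(σ : Measure (E n)) := by
          refine lintegral_mono_ae ?_
          have h1 : ∀ᵐ y ∂(σ : Measure (E n)), y ∈ K \ Metric.closedBall x (tt R (j + 1)) := by
            rw [ae_iff]
            exact hσ
          filter_upwards [h1] with y hy
          exact hpot y hy.2
      _ = ENNReal.ofReal (lam - 1) := by rw [lintegral_const, measure_univ, mul_one]
  have hself : En (kk D) (ρ : Measure (E n)) ρ ≤ ENNReal.ofReal (v + lam) := by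
    refine (En_change hL0 hLD ρ).trans ?_
    have hLlam : Real.log (cc L) ≤ lam := Real.log_le_log (cc_pos hL0) (cc_mono hLD)
    rw [hρE, hVG, ← ENNReal.ofReal_add (by linarith) (by linarith)]
    refine ENNReal.ofReal_le_ofReal ?_
    linarith
  set u : ℝ := 1 / (2 + 2 * w) with hu
  have hu0 : 0 < u := by positivity
  have hu1 : u ≤ 1 := by
    rw [hu, div_le_one (by positivity)]
    linarith
  have hgain := VV_gain hkm ρ σ hρ hσ hu0.le hu1
  have hVK : VV (kk D) K = ENNReal.ofReal lam := by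
    have h1 := (VV_eq hD hKD (v := 0) (by rw [hV0]; rfl)).2
    rwa [zero_add] at h1
  have hKle : VV (kk D) K ≤ VV (kk D) (G ∪ (K \ Metric.closedBall x (tt R (j + 1)))) :=
    VV_anti _ (union_subset inter_subset_left sdiff_subset)
  have hall : ENNReal.ofReal lam ≤ ENNReal.ofReal ((1 - u) ^ 2 * (v + lam) +
      2 * u * (1 - u) * (lam - 1) + u ^ 2 * (2 * w + lam)) := by
    rw [← hVK]
    refine hKle.trans (hgain.trans ?_)
    have q1 : 0 ≤ 1 - u := by linarith
    have q2 : 0 ≤ lam - 1 := by linarith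
    have q3 : 0 ≤ v + lam := by linarith
    have q4 : 0 ≤ 2 * w + lam := by linarith
    rw [ENNReal.ofReal_add (by positivity) (by positivity),
      ENNReal.ofReal_add (by positivity) (by positivity)]
    refine add_le_add (add_le_add ?_ ?_) ?_
    · rw [ENNReal.ofReal_mul (p := (1 - u) ^ 2) (by positivity)]
      exact mul_le_mul' le_rfl hself
    · rw [ENNReal.ofReal_mul (p := 2 * u * (1 - u)) (by positivity)]
      exact mul_le_mul' le_rfl hcross
    · rw [ENNReal.ofReal_mul (p := u ^ 2) (by positivity)]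
      exact mul_le_mul' le_rfl hσE.le
  rw [ENNReal.ofReal_le_ofReal_iff'] at hall
  have hall' : lam ≤ (1 - u) ^ 2 * (v + lam) + 2 * u * (1 - u) * (lam - 1) + u ^ 2 * (2 * w + lam) := by
    rcases hall with h | h
    · exact h
    · linarith
  have hid : (1 - u) ^ 2 * (v + lam) + 2 * u * (1 - u) * (lam - 1) + u ^ 2 * (2 * w + lam) =
      lam + (1 - u) ^ 2 * v - 2 * u + u * (u * (2 + 2 * w)) := by ring
  have hu2 : u * (2 + 2 * w) = 1 := by
    rw [hu]
    field_simp
  rw [hid, hu2] at hall'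
  have hu3 : (1 - u) ^ 2 * v ≤ 1 * v := by
    refine mul_le_mul_of_nonneg_right ?_ hv0
    nlinarith
  linarith

/-- the choice of the parameters -/
theorem params {a q R1 : ℝ} (ha : 0 < a) (hq : 0 < q) (hR1 : 1 < R1) :
    ∃ l : ℝ, 100 ≤ l ∧ R1 ≤ Real.exp l / 2 ∧ 0 < l ^ 2 / a - 2 * l ∧
      0 < (Real.log (Real.exp l / 2)) ^ 2 / a - 2 * Real.log (Real.exp l / 2) ∧
      (l + Real.log 2) * ((a + Real.log (cc (2 * Real.exp l + 1))) /
        ((Real.log (Real.exp l / 2)) ^ 2 / a - 2 * Real.log (Real.exp l / 2))) +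
      6 * Real.log 2 * ((a + Real.log (cc (2 * Real.exp l + 1))) / (l ^ 2 / a - 2 * l)) ≤ l - 1 ∧
      1 + 32 / q ^ 3 + 3 / q ≤ l ^ 2 / a - 2 * l := by
  have h2R : 0 ≤ Real.log (2 * R1) := Real.log_nonneg (by linarith)
  have hq3 : 0 < 32 / q ^ 3 := by positivity
  have hq1 : 0 < 3 / q := by positivity
  set l := 100 + 100 * a + Real.log (2 * R1) + 32 / q ^ 3 + 3 / q with hl
  have hl100 : 100 ≤ l := by linarith
  have hla : 100 + 100 * a ≤ l := by linarith
  have hlog2a : 0 < Real.log 2 := Real.log_pos (by norm_num)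
  have hlog2b : Real.log 2 < 7 / 10 := by
    have := Real.log_two_lt_d9
    linarith
  have hlog' : Real.log (Real.exp l / 2) = l - Real.log 2 := by
    rw [Real.log_div (Real.exp_pos l).ne' two_ne_zero, Real.log_exp]
  have hW1 : l ^ 2 / (2 * a) ≤ l ^ 2 / a - 2 * l := by
    have : l ^ 2 / a - 2 * l = l ^ 2 / (2 * a) + l * (l - 4 * a) / (2 * a) := by
      field_simp
      ring
    rw [this]
    have : 0 ≤ l * (l - 4 * a) / (2 * a) := by
      have : 0 ≤ l - 4 * a := by linarith
      have : 0 ≤ l := by linarith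
      positivity
    linarith
  have hW2 : l ≤ l ^ 2 / (2 * a) := by
    rw [le_div_iff₀ (by positivity)]
    nlinarith
  set l' := l - Real.log 2 with hl'
  have hl'2 : l / 2 ≤ l' := by linarith
  have hl'4 : 4 * a ≤ l' := by linarith
  have hW3 : l ^ 2 / (8 * a) ≤ l' ^ 2 / a - 2 * l' := by
    have h1 : l' ^ 2 / a - 2 * l' = l' ^ 2 / (2 * a) + l' * (l' - 4 * a) / (2 * a) := by
      field_simp
      ring
    rw [h1]
    have h2 : 0 ≤ l' * (l' - 4 * a) / (2 * a) := by
      have : 0 ≤ l' - 4 * a := by linarith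
      have : 0 ≤ l' := by linarith
      positivity
    have h3 : (l / 2) ^ 2 ≤ l' ^ 2 := pow_le_pow_left₀ (by linarith) hl'2 2
    have h4 : l ^ 2 / (8 * a) = (l / 2) ^ 2 / (2 * a) := by
      field_simp
      ring
    have h5 : (l / 2) ^ 2 / (2 * a) ≤ l' ^ 2 / (2 * a) := by gcongr
    linarith
  have hl0 : 0 < l := by linarith
  have hC : a + Real.log (cc (2 * Real.exp l + 1)) ≤ 2 * l := by
    have h1 : cc (2 * Real.exp l + 1) ≤ Real.exp (l + 3) := by
      unfold cc
      have e1 : (1 : ℝ) ≤ Real.exp l := Real.one_le_exp hl0.le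
      have e2 : (6 : ℝ) ≤ Real.exp 2 := by
        have := Real.exp_one_gt_d9
        rw [show (2 : ℝ) = 1 + 1 by norm_num, Real.exp_add]
        nlinarith
      have e3 : Real.exp (l + 3) = Real.exp l * Real.exp 2 * Real.exp 1 := by
        rw [← Real.exp_add, ← Real.exp_add]
        congr 1
        ring
      rw [e3]
      refine mul_le_mul_of_nonneg_right ?_ (Real.exp_pos 1).le
      calc 2 * (2 * Real.exp l + 1) ≤ Real.exp l * 6 := by linarith
        _ ≤ Real.exp l * Real.exp 2 := by gcongr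
    have h2 := Real.log_le_log (cc_pos (by positivity)) h1
    rw [Real.log_exp] at h2
    linarith
  have hC0 : 0 ≤ a + Real.log (cc (2 * Real.exp l + 1)) := by
    have : 0 ≤ Real.log (cc (2 * Real.exp l + 1)) := by
      refine Real.log_nonneg ?_
      unfold cc
      have e1 : (1 : ℝ) ≤ Real.exp l := Real.one_le_exp hl0.le
      have e2 : (1 : ℝ) ≤ Real.exp 1 := Real.one_le_exp zero_le_one
      nlinarith
    linarith
  refine ⟨l, hl100, ?_, by linarith [hl0], ?_, ?_, by linarith⟩
  · rw [le_div_iff₀ two_pos]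
    have : Real.exp (Real.log (2 * R1)) ≤ Real.exp l := Real.exp_le_exp.mpr (by linarith)
    rw [Real.exp_log (by linarith)] at this
    linarith
  · rw [hlog']
    have : 0 < l ^ 2 / (8 * a) := by positivity
    linarith
  · rw [hlog']
    set C := a + Real.log (cc (2 * Real.exp l + 1)) with hCd
    have h1 : C / (l' ^ 2 / a - 2 * l') ≤ 2 * l / (l ^ 2 / (8 * a)) := by
      have : 0 < l ^ 2 / (8 * a) := by positivity
      exact div_le_div₀ (by positivity) hC this hW3
    have h2 : 2 * l / (l ^ 2 / (8 * a)) = 16 * a / l := by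
      field_simp
      norm_num
    have h3 : C / (l ^ 2 / a - 2 * l) ≤ 2 * l / (l ^ 2 / (2 * a)) := by
      have : 0 < l ^ 2 / (2 * a) := by positivity
      exact div_le_div₀ (by positivity) hC this hW1
    have h4 : 2 * l / (l ^ 2 / (2 * a)) = 4 * a / l := by
      field_simp
      norm_num
    rw [h2] at h1
    rw [h4] at h3
    have h5 : (l + Real.log 2) * (C / (l' ^ 2 / a - 2 * l')) ≤ (2 * l) * (16 * a / l) := by
      refine mul_le_mul (by linarith) h1 ?_ (by positivity)
      have : 0 < l' ^ 2 / a - 2 * l' := by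
        have : 0 < l ^ 2 / (8 * a) := by positivity
        linarith
      positivity
    have h6 : (2 * l) * (16 * a / l) = 32 * a := by
      field_simp
      norm_num
    have h7 : 6 * Real.log 2 * (C / (l ^ 2 / a - 2 * l)) ≤ 6 * (7 / 10) * (4 * a / l) := by
      refine mul_le_mul (by linarith) h3 ?_ (by norm_num)
      have : 0 < l ^ 2 / a - 2 * l := by linarith
      positivity
    have h8 : 4 * a / l ≤ 4 / 100 := by
      rw [div_le_div_iff₀ hl0 (by norm_num)]
      linarith
    linarith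

theorem expo {q w : ℝ} (hq : 0 < q) (hw : 1 + 32 / q ^ 3 + 3 / q ≤ w) :
    4 * Real.exp (-(q * w)) ≤ 1 ∧ 4 / q * Real.exp (-(q * w)) < 1 / (2 + 2 * w) := by
  have hq3 : 0 < 32 / q ^ 3 := by positivity
  have hq1 : 0 < 3 / q := by positivity
  have hw1 : 1 ≤ w := by linarith
  have h1 : 3 ≤ q * w := by
    calc (3 : ℝ) = q * (3 / q) := by field_simp
      _ ≤ q * w := by gcongr; linarith
  have hE := Real.exp_pos (q * w)
  constructor
  · have h2 := Real.add_one_le_exp (q * w)
    rw [Real.exp_neg, ← div_eq_mul_inv, div_le_one hE]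
    linarith
  · have h2 := Real.quadratic_le_exp_of_nonneg (show 0 ≤ q * w by positivity)
    have h3 : 16 * w / q ≤ (q * w) ^ 2 / 2 := by
      have h4 : 16 * w / q = (q ^ 2 * w / 2) * (32 / q ^ 3) := by
        field_simp
        norm_num
      rw [h4]
      calc (q ^ 2 * w / 2) * (32 / q ^ 3) ≤ (q ^ 2 * w / 2) * w := by
            gcongr
            linarith
        _ = _ := by ring
    have h5 : 4 / q * (2 + 2 * w) ≤ 16 * w / q := by
      have : 4 / q * (2 + 2 * w) = (8 + 8 * w) / q := by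
        field_simp
        ring
      rw [this]
      gcongr
      linarith
    have h6 : 4 / q * (2 + 2 * w) < Real.exp (q * w) := by linarith
    rw [lt_div_iff₀ (by positivity), Real.exp_neg]
    calc 4 / q * (Real.exp (q * w))⁻¹ * (2 + 2 * w)
        = (4 / q * (2 + 2 * w)) * (Real.exp (q * w))⁻¹ := by ring
      _ < Real.exp (q * w) * (Real.exp (q * w))⁻¹ := by gcongr
      _ = 1 := mul_inv_cancel₀ hE.ne'

theorem vbound {q v w e : ℝ} (hq : 0 < q) (he : 0 < e) (h4 : 4 * Real.exp (-(q * w)) ≤ 1)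
    (h : 1 ≤ Real.exp (-(q * v)) / (1 + e) + 2 * Real.exp (-(q * w))) :
    v ≤ 4 / q * Real.exp (-(q * w)) := by
  set s := 2 * Real.exp (-(q * w)) with hs
  have hs0 : 0 < s := by positivity
  have hs1 : s ≤ 1 / 2 := by linarith
  have h1 : Real.exp (-(q * v)) / (1 + e) ≤ Real.exp (-(q * v)) := by
    rw [div_le_iff₀ (by positivity)]
    have := Real.exp_pos (-(q * v))
    nlinarith
  have h2 : 1 - s ≤ Real.exp (-(q * v)) := by linarith
  have h3 : q * v ≤ 2 * s := by
    by_contra hc
    push Not at hc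
    have h5 : Real.exp (-(q * v)) < Real.exp (-(2 * s)) := Real.exp_lt_exp.mpr (by linarith)
    have h6 : Real.exp (-(2 * s)) ≤ 1 - s := by
      rw [Real.exp_neg, inv_le_comm₀ (Real.exp_pos _) (by linarith)]
      have h7 := Real.add_one_le_exp (2 * s)
      refine le_trans ?_ h7
      rw [inv_le_iff_one_le_mul₀ (by linarith)]
      nlinarith
    linarith
  have h5 : 4 / q * Real.exp (-(q * w)) = 2 * s / q := by
    rw [hs]
    field_simp
    ring
  rw [h5, le_div_iff₀ hq]
  linarith

end LG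

open LG in
theorem cut0 {n : ℕ} {q M : ℝ} (hq : 0 < q) (hM : 0 < M)
    (hopt : ∀ K : Set (E n), IsCompact K → ∀ v : ℝ, V0 K = (v : EReal) →
      ENNReal.ofReal (Real.exp (q * v)) ≤ ENNReal.ofReal M * VV (kR q) K) :
    ∃ L a : ℝ, 0 < L ∧ 0 < a ∧ ∀ ε : ℝ, 0 < ε → ∀ K : Set (E n), IsCompact K → V0 K = 0 →
      VV (kR q) K ≤ ENNReal.ofReal (2 / M) →
      ∃ (x : E n) (K' : Set (E n)) (v : ℝ), K' ⊆ K ∧ IsCompact K' ∧
        K' ⊆ Metric.closedBall x L ∧ V0 K' = (v : EReal) ∧ 0 ≤ v ∧ v ≤ a ∧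
        VV (kR q) K' ≤ ENNReal.ofReal (1 + ε) * VV (kR q) K * ENNReal.ofReal (Real.exp (q * v)) := by
  obtain ⟨a, R1, ha, hR1, htail⟩ := tail0 hq hM hopt
  obtain ⟨l, hl, hR1l, hW, hW', hB, hWq⟩ := params ha hq hR1
  set R := Real.exp l with hR
  set W := l ^ 2 / a - 2 * l with hWd
  set W' := (Real.log (R / 2)) ^ 2 / a - 2 * Real.log (R / 2) with hWd'
  have hR0 : 0 < R := Real.exp_pos l
  refine ⟨2 * R + 1, a, by positivity, ha, fun ε hε K hK hV0 hVq => ?_⟩
  obtain ⟨x, hx⟩ := htail K hK hV0 hVq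
  by_contra hcon
  obtain ⟨D0, hD0⟩ := hK.isBounded.subset_closedBall x
  set D := max D0 (2 * R + 1) with hDd
  have hLD : 2 * R + 1 ≤ D := le_max_right _ _
  have hD : 0 < D := by linarith
  have hKD : K ⊆ Metric.closedBall x D :=
    hD0.trans (Metric.closedBall_subset_closedBall (le_max_left _ _))
  have hG : ∀ j, ∃ v : ℝ, V0 (K ∩ Metric.closedBall x (tt R j)) = (v : EReal) ∧ 0 ≤ v ∧ v ≤ a := by
    intro j
    have h1 : V0 (K ∩ Metric.closedBall x (tt R j)) ≤ (a : EReal) :=
      (hx (tt R j) (by have := le_tt R j; linarith)).1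
    have h2 : (0 : EReal) ≤ V0 (K ∩ Metric.closedBall x (tt R j)) := by
      rw [← hV0]
      exact V0_anti inter_subset_left
    have h3 : V0 (K ∩ Metric.closedBall x (tt R j)) ≠ ⊤ := by
      intro h
      rw [h] at h1
      exact absurd (top_le_iff.mp h1) (EReal.coe_ne_top a)
    have h4 : V0 (K ∩ Metric.closedBall x (tt R j)) ≠ ⊥ := by
      intro h
      rw [h] at h2
      exact absurd (le_bot_iff.mp h2) (by simp)
    have h5 := EReal.coe_toReal h3 h4
    refine ⟨(V0 (K ∩ Metric.closedBall x (tt R j))).toReal, h5.symm, ?_, ?_⟩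
    · rw [← h5] at h2
      exact_mod_cast h2
    · rw [← h5] at h1
      exact_mod_cast h1
  have hmR : Measurable (kR q) := (isKer_kR hq).cont.measurable
  -- the value `S`
  have hS1 : 1 ≤ ENNReal.ofReal M * VV (kR q) K := by
    have := hopt K hK 0 (by rw [hV0]; rfl)
    simpa using this
  have hStop : VV (kR q) K ≠ ⊤ := ne_top_of_le_ne_top ENNReal.ofReal_ne_top hVq
  set S := (VV (kR q) K).toReal with hSd
  have hSeq : VV (kR q) K = ENNReal.ofReal S := (ENNReal.ofReal_toReal hStop).symm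
  have hS0 : 0 ≤ S := ENNReal.toReal_nonneg
  have hSpos : 0 < S := by
    rcases hS0.eq_or_lt with h | h
    · rw [hSeq, ← h] at hS1
      simp at hS1
    · exact h
  have hSM : S * M ≤ 2 := by
    rw [hSeq, ENNReal.ofReal_le_ofReal_iff (by positivity)] at hVq
    rwa [← le_div_iff₀ hM]
  have star : ∀ (j : ℕ) (v w : ℝ), V0 (K ∩ Metric.closedBall x (tt R j)) = (v : EReal) →
      0 ≤ v → v ≤ a → (w : EReal) ≤ V0 (K \ Metric.closedBall x (tt R j)) →
      1 ≤ Real.exp (-(q * v)) / (1 + ε) + 2 * Real.exp (-(q * w)) := by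
    intro j v w hv hv0 hva hw
    have hGm : MeasurableSet (K ∩ Metric.closedBall x (tt R j)) :=
      (hK.inter_right Metric.isClosed_closedBall).measurableSet
    have hEm : MeasurableSet (K \ Metric.closedBall x (tt R j)) :=
      hK.measurableSet.diff Metric.isClosed_closedBall.measurableSet
    have h1 : ENNReal.ofReal (1 + ε) * VV (kR q) K * ENNReal.ofReal (Real.exp (q * v)) <
        VV (kR q) (K ∩ Metric.closedBall x (tt R j)) := by
      by_contra hc
      push Not at hc
      refine hcon ⟨x, _, v, inter_subset_left, hK.inter_right Metric.isClosed_closedBall, ?_, hv,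
        hv0, hva, hc⟩
      exact inter_subset_right.trans (Metric.closedBall_subset_closedBall (tt_le R j))
    have h2 := VV_union hmR (B := K \ Metric.closedBall x (tt R j)) hGm
    rw [Set.inter_union_sdiff] at h2
    have h3 := capE hq hM hopt hEm hD (sdiff_subset.trans hKD) hw
    have h4 : (VV (kR q) (K ∩ Metric.closedBall x (tt R j)))⁻¹ ≤
        ENNReal.ofReal (((1 + ε) * S * Real.exp (q * v))⁻¹) := by
      rw [ENNReal.ofReal_inv_of_pos (by positivity), ENNReal.inv_le_inv]
      rw [hSeq] at h1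
      rw [ENNReal.ofReal_mul (by positivity), ENNReal.ofReal_mul (by positivity)]
      exact h1.le
    have h5 : ENNReal.ofReal (S⁻¹) ≤ ENNReal.ofReal (((1 + ε) * S * Real.exp (q * v))⁻¹ +
        M * Real.exp (-(q * w))) := by
      rw [ENNReal.ofReal_inv_of_pos hSpos, ← hSeq, ENNReal.ofReal_add (by positivity) (by positivity)]
      exact h2.trans (add_le_add h4 h3)
    rw [ENNReal.ofReal_le_ofReal_iff (by positivity)] at h5
    have h6 := mul_le_mul_of_nonneg_left h5 hSpos.le
    rw [mul_inv_cancel₀ hSpos.ne'] at h6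
    have h7 : S * (((1 + ε) * S * Real.exp (q * v))⁻¹ + M * Real.exp (-(q * w))) =
        Real.exp (-(q * v)) / (1 + ε) + S * M * Real.exp (-(q * w)) := by
      rw [Real.exp_neg (q * v)]
      field_simp
    rw [h7] at h6
    have h8 : S * M * Real.exp (-(q * w)) ≤ 2 * Real.exp (-(q * w)) := by gcongr
    linarith
  -- growth
  have hWR : (W' : EReal) ≤ V0 (K \ Metric.closedBall x R) := by
    have := (hx (R / 2) hR1l).2
    rwa [show 2 * (R / 2) = R by ring] at this
  have grow : ∀ j : ℕ, ((2 ^ j * W : ℝ) : EReal) ≤ V0 (K \ Metric.closedBall x (tt R j)) := by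
    intro j
    induction j using Nat.strong_induction_on with
    | _ j ih =>
      rcases j with _ | j
      · have h1 := (hx R (by linarith)).2
        rw [hR, Real.log_exp, ← hR] at h1
        rw [tt_zero, pow_zero, one_mul]
        exact h1
      · by_contra hc
        push Not at hc
        have hc' : V0 (K \ Metric.closedBall x (tt R (j + 1))) < ((2 * (2 ^ j * W) : ℝ) : EReal) := by
          rwa [show 2 * (2 ^ j * W) = 2 ^ (j + 1) * W by rw [pow_succ]; ring]
        obtain ⟨v, hv, hv0, hva⟩ := hG j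
        have h1 := step hK hV0 hR hl rfl hLD hW hW' ha rfl hKD hv hv0 hva hWR
          (fun i hi => ih i (by omega)) hB (by positivity) hc'
        have h2 := star j v (2 ^ j * W) hv hv0 hva (ih j (by omega))
        have h3 : 1 + 32 / q ^ 3 + 3 / q ≤ 2 ^ j * W := by
          have : (1 : ℝ) ≤ 2 ^ j := one_le_pow₀ (by norm_num)
          nlinarith
        obtain ⟨e1, e2⟩ := expo hq h3
        have h4 := vbound hq hε e1 h2
        linarith
  -- conclusion
  have hfin : ∀ j : ℕ, 1 - 1 / (1 + ε) ≤ 2 * Real.exp (-(q * (2 ^ j * W))) := by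
    intro j
    obtain ⟨v, hv, hv0, hva⟩ := hG j
    have h1 := star j v (2 ^ j * W) hv hv0 hva (grow j)
    have h2 : Real.exp (-(q * v)) / (1 + ε) ≤ 1 / (1 + ε) := by
      have : Real.exp (-(q * v)) ≤ 1 := Real.exp_le_one_iff.mpr (by nlinarith)
      gcongr
    linarith
  have hlim : Tendsto (fun j : ℕ => 2 * Real.exp (-(q * (2 ^ j * W)))) atTop (𝓝 0) := by
    have h1 : Tendsto (fun j : ℕ => (2 : ℝ) ^ j) atTop atTop :=
      tendsto_pow_atTop_atTop_of_one_lt (by norm_num)
    have h2 : Tendsto (fun j : ℕ => q * ((2 : ℝ) ^ j * W)) atTop atTop :=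
      (h1.atTop_mul_const hW).const_mul_atTop hq
    have h3 := (Real.tendsto_exp_neg_atTop_nhds_zero.comp h2).const_mul 2
    rw [mul_zero] at h3
    exact h3
  have h1 : 1 - 1 / (1 + ε) ≤ 0 := ge_of_tendsto' hlim hfin
  have h2 : 1 / (1 + ε) < 1 := by
    rw [div_lt_one (by positivity)]
    linarith
  linarith

end R970.RC
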