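import Pool.Agent.R970.RC.FINa
import Pool.Agent.R970.RC.CPL
import Pool.Agent.R970.RC.JEN
import Pool.Agent.R970.RC.K
import Pool.Agent.R970.RC.LOG2
import Pool.Agent.R970.RC.SC
import Pool.Agent.R970.RC.SH

open MeasureTheory Set Filter Topology
open scoped ENNReal

namespace R970.RC

variable {n : ℕ} {q : ℝ}

/-- finite `q`-energy implies real `V0` -/
theorem V0_real (hq : 0 < q) {K : Set (E n)} (hK : IsCompact K) (h : VV (kR q) K ≠ ⊤) :
    ∃ v : ℝ, V0 K = (v : EReal) := by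
  obtain ⟨r, hr⟩ := hK.isBounded.subset_closedBall (0 : E n)
  set D := max r 1 with hD
  have hD0 : 0 < D := lt_of_lt_of_le one_pos (le_max_right _ _)
  have hKD : K ⊆ Metric.closedBall 0 D := hr.trans (Metric.closedBall_subset_closedBall (le_max_left _ _))
  set b := 2 / q with hb
  have hb0 : 0 < b := by positivity
  set c := 2 * D * Real.exp b with hc
  have hc0 : 0 < c := by positivity
  have hcb : 2 * D ≤ c * Real.exp (-b) := by
    rw [hc, mul_assoc, ← Real.exp_add]; simp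
  have hker : IsKer (kL c b) (1 / b) := isKer_kL hc0 hb0
  have hPq : 1 / b < q := by
    rw [hb, one_div_div]; linarith
  have hsh := V0_shift hc0 hb0.le hD0 hcb hKD
  have hfin : VV (kL c b) K ≠ ⊤ := by
    obtain ⟨μ, hμ, hμE⟩ : ∃ μ : ProbabilityMeasure (E n), (μ : Measure (E n)) Kᶜ = 0 ∧
        En (kR q) (μ : Measure (E n)) μ ≠ ⊤ := by
      by_contra hcon
      push Not at hcon
      apply h
      unfold VV
      rw [iInf₂_eq_top]
      exact hcon
    have h1 := En_lt_top_of_q hker (by positivity) hPq μ hμE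
    exact ne_top_of_le_ne_top h1 (iInf₂_le μ hμ)
  have hbot := V0_ne_bot hK
  have htop : V0 K ≠ ⊤ := by
    intro h1
    rw [h1, EReal.top_add_coe] at hsh
    exact hfin (EReal.coe_ennreal_eq_top_iff.mp hsh)
  exact ⟨(V0 K).toReal, (EReal.coe_toReal htop hbot).symm⟩

/-- normalisation for `p = 0` -/
theorem normalise0 (hq : 0 < q) {K : Set (E n)} (hK : IsCompact K) {v : ℝ}
    (hv : V0 K = (v : EReal)) {x : E n} {L T : ℝ} (hKL : K ⊆ Metric.closedBall x L)
    (hT : v ≤ T) :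
    ∃ K' : Set (E n), IsCompact K' ∧ K' ⊆ Metric.closedBall 0 (Real.exp T * L) ∧
      V0 K' = 0 ∧ VV (kR q) K' = ENNReal.ofReal (Real.exp (-(q * v))) * VV (kR q) K := by
  set t := Real.exp v with ht
  have ht0 : 0 < t := Real.exp_pos _
  refine ⟨(fun y => (-(t • x)) + t • y) '' K, image_compact hK _ _, ?_, ?_, ?_⟩
  · rintro _ ⟨y, hy, rfl⟩
    have h4 := hKL hy
    rw [Metric.mem_closedBall, dist_eq_norm] at h4
    rw [mem_closedBall_zero_iff]
    have h5 : -(t • x) + t • y = t • (y - x) := by rw [smul_sub]; abel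
    show ‖-(t • x) + t • y‖ ≤ _
    rw [h5, norm_smul, Real.norm_of_nonneg ht0.le]
    have h6 : t ≤ Real.exp T := Real.exp_le_exp.mpr hT
    have h7 : 0 ≤ L := (norm_nonneg _).trans h4
    calc t * ‖y - x‖ ≤ t * L := by gcongr
      _ ≤ Real.exp T * L := by gcongr
  · rw [V0_smul ht0 hK, hv, ht, Real.log_exp, ← EReal.coe_sub, sub_self]
    rfl
  · rw [VV_kR_smul hq ht0, ht, ← Real.exp_mul]
    congr 3
    ring

theorem exists_core_zero (hq : 0 < q) (hqn : q < n) :
    ∃ M : ℝ, 0 < M ∧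
      (∀ K : Set (E n), IsCompact K → ∀ v : ℝ, V0 K = (v : EReal) →
        ENNReal.ofReal (Real.exp (q * v)) ≤ ENNReal.ofReal M * VV (kR q) K) ∧
      ∃ (K₀ : Set (E n)) (v : ℝ), IsCompact K₀ ∧ V0 K₀ = (v : EReal) ∧ 0 ≤ v ∧
        VV (kR q) K₀ ≤ ENNReal.ofReal (1 / M) := by
  set S : Set ℝ := {m | ∃ (K : Set (E n)) (v : ℝ), IsCompact K ∧ V0 K = (v : EReal) ∧
    VV (kR q) K ≠ ⊤ ∧ m = Real.exp (q * v) / (VV (kR q) K).toReal} with hS
  have hbdd : BddAbove S := ⟨1, by
    rintro _ ⟨K, v, hK, hv, h, rfl⟩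
    have h2 : 0 < (VV (kR q) K).toReal := ENNReal.toReal_pos (VV_kR_pos hq hK).ne' h
    rw [div_le_one h2]
    have h1 := ENNReal.toReal_mono h (jensen0 hq hK hv)
    rwa [ENNReal.toReal_ofReal (Real.exp_pos _).le] at h1⟩
  have hballT : VV (kR q) (Metric.closedBall (0 : E n) 1) ≠ ⊤ := VV_ball_ne_top hq hqn
  obtain ⟨vb, hvb⟩ := V0_real (n := n) hq (isCompact_closedBall _ _) hballT
  have hball : Real.exp (q * vb) / (VV (kR q) (Metric.closedBall (0 : E n) 1)).toReal ∈ S :=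
    ⟨_, vb, isCompact_closedBall _ _, hvb, hballT, rfl⟩
  set M := sSup S with hM
  have hMpos : 0 < M := by
    have h2 : 0 < (VV (kR q) (Metric.closedBall (0 : E n) 1)).toReal :=
      ENNReal.toReal_pos (VV_kR_pos hq (isCompact_closedBall _ _)).ne' hballT
    exact lt_of_lt_of_le (by positivity) (le_csSup hbdd hball)
  have hopt : ∀ K : Set (E n), IsCompact K → ∀ v : ℝ, V0 K = (v : EReal) →
      ENNReal.ofReal (Real.exp (q * v)) ≤ ENNReal.ofReal M * VV (kR q) K := by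
    intro K hK v hv
    by_cases h : VV (kR q) K = ⊤
    · rw [h, ENNReal.mul_top (by simpa using hMpos)]
      exact le_top
    · have h1 : Real.exp (q * v) / (VV (kR q) K).toReal ≤ M := le_csSup hbdd ⟨K, v, hK, hv, h, rfl⟩
      have h2 : 0 < (VV (kR q) K).toReal := ENNReal.toReal_pos (VV_kR_pos hq hK).ne' h
      rw [div_le_iff₀ h2] at h1
      rw [← ENNReal.ofReal_toReal h, ← ENNReal.ofReal_mul hMpos.le]
      exact ENNReal.ofReal_le_ofReal h1
  have hnear : ∀ ε : ℝ, 0 < ε → ∃ (K : Set (E n)) (v : ℝ), IsCompact K ∧ V0 K = (v : EReal) ∧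
      VV (kR q) K ≠ ⊤ ∧ M / (1 + ε) < Real.exp (q * v) / (VV (kR q) K).toReal := by
    intro ε hε
    have h1 : M / (1 + ε) < M := by
      rw [div_lt_iff₀ (by linarith)]
      nlinarith
    obtain ⟨m, ⟨K, v, hK, hv, h, rfl⟩, hm⟩ := exists_lt_of_lt_csSup ⟨_, hball⟩ h1
    exact ⟨K, v, hK, hv, h, hm⟩
  obtain ⟨L₁, a, hL₁, ha, hcut⟩ := cut0 (n := n) hq hMpos hopt
  set L := Real.exp a * L₁ with hL
  have hLpos : 0 < L := by positivity
  set b := 2 / q with hb
  have hb0 : 0 < b := by positivity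
  set c := 2 * (L + 1) * Real.exp b with hc
  have hc0 : 0 < c := by positivity
  have hcb : 2 * (L + 1) ≤ c * Real.exp (-b) := by
    rw [hc, mul_assoc, ← Real.exp_add]; simp
  have hc1 : 1 < c := by
    have h1 : 1 < Real.exp b := Real.one_lt_exp_iff.mpr hb0
    rw [hc]
    nlinarith
  have hlc : 0 < Real.log c := Real.log_pos hc1
  have hker : IsKer (kL c b) (1 / b) := isKer_kL hc0 hb0
  have hPq : 1 / b < q := by
    rw [hb, one_div_div]; linarith
  have hsh : ∀ K : Set (E n), K ⊆ Metric.closedBall 0 L →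
      ((VV (kL c b) K : ℝ≥0∞) : EReal) = V0 K + ((Real.log c : ℝ) : EReal) := by
    intro K hKL
    exact V0_shift (x := (0 : E n)) hc0 hb0.le (by linarith : (0 : ℝ) < L + 1) hcb
      (hKL.trans (Metric.closedBall_subset_closedBall (by linarith)))
  refine ⟨M, hMpos, hopt, ?_⟩
  have hcore := core (n := n) (k := kL c b) (P := 1 / b) (q := q) (L := L) hker (by positivity) hPq hqn
    hLpos (cpd_kL hc0 hb0.le (by linarith) hcb) (v0 := Real.log c) (M := M) (K₁ := 2 / (q * M))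
    (η₀ := M / 2) hlc hMpos (by positivity) (by positivity) ?_ ?_
  · obtain ⟨K₀, h1, hKL, h2, h3⟩ := hcore
    have hqT : VV (kR q) K₀ ≠ ⊤ := ne_top_of_le_ne_top ENNReal.ofReal_ne_top h3
    obtain ⟨v, hv⟩ := V0_real hq h1 hqT
    refine ⟨K₀, v, h1, hv, ?_, h3⟩
    have h4 := hsh K₀ hKL
    rw [hv, ← EReal.coe_add] at h4
    have h5 : VV (kL c b) K₀ = ENNReal.ofReal (v + Real.log c) := by
      have h6 : VV (kL c b) K₀ ≠ ⊤ := by
        intro h
        rw [h, EReal.coe_ennreal_top] at h4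
        exact absurd h4.symm (EReal.coe_ne_top _)
      have h7 : (VV (kL c b) K₀).toReal = v + Real.log c := by
        rw [← ENNReal.ofReal_toReal h6] at h4
        rw [EReal.coe_ennreal_ofReal, max_eq_left ENNReal.toReal_nonneg] at h4
        exact_mod_cast h4
      rw [← h7, ENNReal.ofReal_toReal h6]
    rw [h5] at h2
    rcases le_total 0 (v + Real.log c) with h8 | h8
    · rw [ENNReal.ofReal_le_ofReal_iff h8] at h2
      linarith
    · rw [ENNReal.ofReal_of_nonpos h8] at h2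
      simp at h2
      linarith
  · -- optimality
    intro G hG hGL η h0 h1 h2
    have hMη : 0 < M - η := by linarith
    have h3 : VV (kR q) G ≤ ENNReal.ofReal (1 / (M - η)) := by
      rw [ENNReal.le_inv_iff_le_inv] at h2
      rwa [one_div, ENNReal.ofReal_inv_of_pos hMη]
    have hGT : VV (kR q) G ≠ ⊤ := ne_top_of_le_ne_top ENNReal.ofReal_ne_top h3
    obtain ⟨v, hv⟩ := V0_real hq hG hGT
    have h4 := (hopt G hG v hv).trans (by gcongr : ENNReal.ofReal M * VV (kR q) G ≤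
      ENNReal.ofReal M * ENNReal.ofReal (1 / (M - η)))
    rw [← ENNReal.ofReal_mul hMpos.le, ENNReal.ofReal_le_ofReal_iff (by positivity)] at h4
    have h5 : M * (1 / (M - η)) ≤ 1 + 2 / M * η := by
      rw [mul_one_div, div_le_iff₀ hMη]
      have h6 : (1 + 2 / M * η) * (M - η) = M + η - 2 / M * η ^ 2 := by
        field_simp
        ring
      rw [h6]
      have h7 : 2 / M * η ^ 2 ≤ η := by
        rw [div_mul_eq_mul_div, div_le_iff₀ hMpos]
        nlinarith
      linarith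
    have h6 : Real.exp (q * v) ≤ Real.exp (2 / M * η) := by
      refine (h4.trans h5).trans ?_
      linarith [Real.add_one_le_exp (2 / M * η)]
    have h7 : q * v ≤ 2 / M * η := Real.exp_le_exp.mp h6
    have h8 : v ≤ 2 / (q * M) * η := by
      have : 2 / (q * M) * η = (2 / M * η) / q := by field_simp
      rw [this, le_div_iff₀ hq]
      linarith
    have h9 := hsh G hGL
    rw [hv, ← EReal.coe_add] at h9
    have h10 : ((VV (kL c b) G : ℝ≥0∞) : EReal) ≤
        ((ENNReal.ofReal (Real.log c + 2 / (q * M) * η) : ℝ≥0∞) : EReal) := by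
      rw [h9, EReal.coe_ennreal_ofReal]
      exact_mod_cast le_max_of_le_left (by linarith)
    exact_mod_cast h10
  · -- the sequence
    intro ε hε
    obtain ⟨ε', hε', hε'1, hε'3⟩ : ∃ ε' : ℝ, 0 < ε' ∧ ε' ≤ 1 ∧
        (1 + ε') * (1 + ε') ≤ 1 + ε := by
      refine ⟨min 1 (ε / 3), by positivity, min_le_left _ _, ?_⟩
      have h1 : min 1 (ε / 3) ≤ 1 := min_le_left _ _
      have h2 : min 1 (ε / 3) ≤ ε / 3 := min_le_right _ _
      have h3 : 0 < min 1 (ε / 3) := by positivity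
      nlinarith
    obtain ⟨K, v, hK, hv, hKt, hKr⟩ := hnear ε' hε'
    obtain ⟨r, hr⟩ := hK.isBounded.subset_closedBall (0 : E n)
    obtain ⟨K₁, hK₁, -, hK₁0, hK₁q⟩ := normalise0 hq hK hv hr le_rfl
    have h2 : 0 < (VV (kR q) K).toReal := ENNReal.toReal_pos (VV_kR_pos hq hK).ne' hKt
    have hq1 : VV (kR q) K₁ ≤ ENNReal.ofReal ((1 + ε') / M) := by
      rw [hK₁q, ← ENNReal.ofReal_toReal hKt, ← ENNReal.ofReal_mul (Real.exp_pos _).le]
      apply ENNReal.ofReal_le_ofReal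
      rw [div_lt_div_iff₀ (by linarith) h2] at hKr
      rw [Real.exp_neg, le_div_iff₀ hMpos, ← one_div, div_mul_eq_mul_div, div_mul_eq_mul_div,
        div_le_iff₀ (Real.exp_pos _)]
      linarith
    have hq2 : VV (kR q) K₁ ≤ ENNReal.ofReal (2 / M) :=
      hq1.trans (ENNReal.ofReal_le_ofReal (by gcongr; linarith))
    obtain ⟨x, K₂, w, hK₂s, hK₂, hK₂b, hw, hw0, hwa, hK₂q⟩ := hcut ε' hε' K₁ hK₁ hK₁0 hq2
    obtain ⟨K₃, hK₃, hK₃b, hK₃0, hK₃q⟩ := normalise0 hq hK₂ hw hK₂b hwa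
    refine ⟨K₃, hK₃, hK₃b, ?_, ?_⟩
    · have h3 := hsh K₃ hK₃b
      rw [hK₃0, zero_add] at h3
      have h4 : ((ENNReal.ofReal (Real.log c) : ℝ≥0∞) : EReal) ≤
          ((VV (kL c b) K₃ : ℝ≥0∞) : EReal) := by
        rw [h3, EReal.coe_ennreal_ofReal, max_eq_left hlc.le]
      exact_mod_cast h4
    · rw [hK₃q]
      calc ENNReal.ofReal (Real.exp (-(q * w))) * VV (kR q) K₂
          ≤ ENNReal.ofReal (Real.exp (-(q * w))) * (ENNReal.ofReal (1 + ε') * VV (kR q) K₁ *
            ENNReal.ofReal (Real.exp (q * w))) := by gcongr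
        _ = (ENNReal.ofReal (Real.exp (-(q * w))) * ENNReal.ofReal (Real.exp (q * w))) *
            (ENNReal.ofReal (1 + ε') * VV (kR q) K₁) := by ring
        _ = ENNReal.ofReal (1 + ε') * VV (kR q) K₁ := by
            rw [← ENNReal.ofReal_mul (Real.exp_pos _).le, ← Real.exp_add]
            simp
        _ ≤ ENNReal.ofReal (1 + ε') * ENNReal.ofReal ((1 + ε') / M) := by gcongr
        _ = ENNReal.ofReal ((1 + ε') * (1 + ε') / M) := by
            rw [← ENNReal.ofReal_mul (by linarith)]; congr 1; ring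
        _ ≤ ENNReal.ofReal ((1 + ε) / M) := ENNReal.ofReal_le_ofReal (by gcongr)

theorem result_zero (hq : 0 < q) (hqn : q < n) :
    ∃ K₀ : Set (E n), IsCompact K₀ ∧ 0 < capR 0 K₀ ∧
      ∀ K : Set (E n), IsCompact K → 0 < capR 0 K →
        capR q K / capR 0 K ≤ capR q K₀ / capR 0 K₀ := by
  obtain ⟨M, hM, hopt, K₀, v₀, hK₀, hv₀, h1, h2⟩ := exists_core_zero (n := n) hq hqn
  have hc0 : ∀ K : Set (E n), capR 0 K = EReal.exp (-(V0 K)) := fun K => by
    unfold capR; rw [if_pos rfl]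
  have hcq : ∀ K : Set (E n), capR q K = (VV (kR q) K) ^ (-(1 / q)) := fun K => by
    unfold capR; rw [if_neg hq.ne', VR_eq]
  have hqT : VV (kR q) K₀ ≠ ⊤ := ne_top_of_le_ne_top ENNReal.ofReal_ne_top h2
  refine ⟨K₀, hK₀, ?_, ?_⟩
  · rw [hc0, hv₀, EReal.zero_lt_exp_iff, ← EReal.coe_neg]
    exact EReal.bot_lt_coe _
  intro K hK hKp
  have hKtop : V0 K ≠ ⊤ := by
    intro h
    rw [hc0, h] at hKp
    simp at hKp
  have hKbot := V0_ne_bot hK
  obtain ⟨v, hv⟩ : ∃ v : ℝ, V0 K = (v : EReal) := ⟨_, (EReal.coe_toReal hKtop hKbot).symm⟩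
  have hratio : ∀ (K : Set (E n)) (v : ℝ), V0 K = (v : EReal) → capR q K / capR 0 K =
      ENNReal.ofReal (Real.exp v) / (VV (kR q) K) ^ (1 / q) := by
    intro K v hv
    rw [hc0, hcq, hv, ENNReal.rpow_neg, EReal.exp_neg, div_eq_mul_inv, inv_inv, mul_comm,
      ENNReal.div_eq_inv_mul, mul_comm]
    rfl
  rw [hratio K v hv, hratio K₀ v₀ hv₀]
  have hup : ENNReal.ofReal (Real.exp v) / (VV (kR q) K) ^ (1 / q) ≤
      (ENNReal.ofReal M) ^ (1 / q) := by
    apply ENNReal.div_le_of_le_mul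
    rw [← ENNReal.mul_rpow_of_nonneg _ _ (by positivity)]
    have h3 := ENNReal.rpow_le_rpow (hopt K hK v hv) (z := 1 / q) (by positivity)
    rw [ENNReal.ofReal_rpow_of_nonneg (Real.exp_pos _).le (by positivity), ← Real.exp_mul] at h3
    have h4 : q * v * (1 / q) = v := by field_simp
    rwa [h4] at h3
  refine hup.trans ?_
  rw [ENNReal.le_div_iff_mul_le (Or.inl ?_) (Or.inl ?_)]
  · calc (ENNReal.ofReal M) ^ (1 / q) * (VV (kR q) K₀) ^ (1 / q)
        = (ENNReal.ofReal M * VV (kR q) K₀) ^ (1 / q) :=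
          (ENNReal.mul_rpow_of_nonneg _ _ (by positivity)).symm
      _ ≤ (ENNReal.ofReal M * ENNReal.ofReal (1 / M)) ^ (1 / q) := by gcongr
      _ = 1 := by
        rw [← ENNReal.ofReal_mul hM.le, mul_one_div_cancel hM.ne', ENNReal.ofReal_one,
          ENNReal.one_rpow]
      _ ≤ ENNReal.ofReal (Real.exp v₀) := by
        rw [← ENNReal.ofReal_one]
        exact ENNReal.ofReal_le_ofReal (Real.one_le_exp h1)
  · have := VV_kR_pos hq hK₀
    exact (ENNReal.rpow_pos this hqT).ne'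
  · exact (ENNReal.rpow_lt_top_of_nonneg (by positivity) hqT).ne

end R970.RC
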