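import Pool.Agent.R970.RC.Defs
import Pool.Agent.R970.RC.V1

/-!
# Project RC, piece RC-LA: the optimality inequality
-/

set_option autoImplicit false

open MeasureTheory Set Filter Topology
open scoped ENNReal

namespace R970.RC

variable {n : ℕ}

namespace LA

lemma measurable_kR (q : ℝ) : Measurable (kR q) := by
  unfold kR
  exact ENNReal.measurable_ofReal.pow_const _

lemma measurable_dist_comp {k : ℝ → ℝ≥0∞} (hk : Measurable k) (x : E n) : Measurable fun y : E n => k (dist x y) :=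
  hk.comp (measurable_const.dist measurable_id)

lemma measurable_pot {k : ℝ → ℝ≥0∞} (hk : Measurable k) (γ : Measure (E n)) [SFinite γ] :
    Measurable (Pot k γ) := by
  have h : Measurable fun p : E n × E n => k (dist p.1 p.2) := hk.comp (measurable_fst.dist measurable_snd)
  exact h.lintegral_prod_right'

lemma measurableSet_FF {k : ℝ → ℝ≥0∞} (hk : Measurable k) (L : ℝ) (v : ℝ≥0∞) (γ : ProbabilityMeasure (E n)) :
    MeasurableSet (FF k L v γ) := by
  unfold FF
  exact measurableSet_closedBall.inter (measurableSet_le measurable_const (measurable_pot hk (γ : Measure (E n))))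

/-- comparison of the kernels at small distances -/
lemma ker_le {k : ℝ → ℝ≥0∞} {P q : ℝ} (hk : IsKer k P) (hP : 0 < P) (hPq : P < q) {s r : ℝ} (hs : 0 < s)
    (hs1 : 2 * s ≤ 1) (hr : 0 ≤ r) (hr2 : r ≤ 2 * s) :
    k r ≤ ENNReal.ofReal ((k 1).toReal * (2 * s) ^ (q - P)) * kR q r := by
  have hk1 : 0 < (k 1).toReal := ENNReal.toReal_pos (hk.pos 1).ne' (hk.lt_top 1 one_pos).ne
  have hc : 0 < (k 1).toReal * (2 * s) ^ (q - P) := by positivity
  rcases hr.eq_or_lt with h | h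
  · rw [← h]
    have : kR q 0 = ⊤ := by
      unfold kR
      rw [ENNReal.ofReal_zero, ENNReal.zero_rpow_of_neg (by linarith)]
    rw [this, ENNReal.mul_top (by
      rw [Ne, ENNReal.ofReal_eq_zero, not_le]
      exact hc)]
    exact le_top
  · have h1 := hk.scal r 1 h (by linarith) one_pos
    rw [mul_one] at h1
    refine h1.trans ?_
    have e1 : k 1 = ENNReal.ofReal (k 1).toReal := (ENNReal.ofReal_toReal (hk.lt_top 1 one_pos).ne).symm
    have e2 : kR q r = ENNReal.ofReal (r ^ (-q)) := by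
      unfold kR
      rw [ENNReal.ofReal_rpow_of_pos h]
    rw [e2, ← ENNReal.ofReal_mul hc.le]
    conv_lhs => rw [e1]
    rw [← ENNReal.ofReal_mul (by positivity)]
    apply ENNReal.ofReal_le_ofReal
    have e3 : r ^ (-P) = r ^ (q - P) * r ^ (-q) := by
      rw [← Real.rpow_add h]
      congr 1
      ring
    have e4 : r ^ (q - P) ≤ (2 * s) ^ (q - P) := Real.rpow_le_rpow h.le hr2 (by linarith)
    have e5 : 0 < r ^ (-q) := Real.rpow_pos_of_pos h _
    rw [e3]
    calc r ^ (q - P) * r ^ (-q) * (k 1).toReal ≤ (2 * s) ^ (q - P) * r ^ (-q) * (k 1).toReal := by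
          gcongr
      _ = _ := by ring

/-- capacity of small pieces -/
lemma cap_small {k : ℝ → ℝ≥0∞} {P q : ℝ} (hk : IsKer k P) (hP : 0 < P) (hPq : P < q) {s : ℝ} (hs : 0 < s)
    (hs1 : 2 * s ≤ 1) (x0 : E n) {A : Set (E n)} (hA : A ⊆ Metric.closedBall x0 s) :
    (VV (kR q) A)⁻¹ ≤ ENNReal.ofReal ((k 1).toReal * (2 * s) ^ (q - P)) * (VV k A)⁻¹ := by
  have hk1 : 0 < (k 1).toReal := ENNReal.toReal_pos (hk.pos 1).ne' (hk.lt_top 1 one_pos).ne
  have hc : 0 < (k 1).toReal * (2 * s) ^ (q - P) := by positivity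
  set c := ENNReal.ofReal ((k 1).toReal * (2 * s) ^ (q - P)) with hcd
  have hc0 : c ≠ 0 := by
    rw [hcd, Ne, ENNReal.ofReal_eq_zero, not_le]
    exact hc
  have hcT : c ≠ ⊤ := ENNReal.ofReal_ne_top
  have h1 : c⁻¹ * VV k A ≤ VV (kR q) A := by
    unfold VV
    refine le_iInf₂ fun ρ hρ => ?_
    have h2 : En k (ρ : Measure (E n)) ρ ≤ c * En (kR q) (ρ : Measure (E n)) ρ := by
      unfold En
      have hae : ∀ᵐ x ∂(ρ : Measure (E n)), x ∈ Metric.closedBall x0 s := by
        have h0 : (ρ : Measure (E n)) (Metric.closedBall x0 s)ᶜ = 0 :=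
          measure_mono_null (compl_subset_compl.2 hA) hρ
        exact mem_ae_iff.2 h0
      rw [← lintegral_const_mul' _ _ hcT]
      apply lintegral_mono_ae
      filter_upwards [hae] with x hx
      rw [← lintegral_const_mul' _ _ hcT]
      apply lintegral_mono_ae
      filter_upwards [hae] with y hy
      apply ker_le hk hP hPq hs hs1 dist_nonneg
      rw [Metric.mem_closedBall] at hx hy
      calc dist x y ≤ dist x x0 + dist y x0 := dist_triangle_right _ _ _
        _ ≤ 2 * s := by linarith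
    calc c⁻¹ * (⨅ (μ : ProbabilityMeasure (E n)) (_ : (μ : Measure (E n)) Aᶜ = 0),
          En k (μ : Measure (E n)) (μ : Measure (E n))) ≤ c⁻¹ * En k (ρ : Measure (E n)) ρ := by
          gcongr
          exact iInf₂_le ρ hρ
      _ ≤ c⁻¹ * (c * En (kR q) (ρ : Measure (E n)) ρ) := by gcongr
      _ = En (kR q) (ρ : Measure (E n)) ρ := by
          rw [← mul_assoc, ENNReal.inv_mul_cancel hc0 hcT, one_mul]
  calc (VV (kR q) A)⁻¹ ≤ (c⁻¹ * VV k A)⁻¹ := ENNReal.inv_le_inv.2 h1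
    _ = c * (VV k A)⁻¹ := by
      rw [ENNReal.mul_inv (Or.inl (ENNReal.inv_ne_zero.2 hcT)) (Or.inl (ENNReal.inv_ne_top.2 hc0)), inv_inv]

end LA

open LA in
theorem loc_opt {k : ℝ → ℝ≥0∞} {P q L : ℝ} {v : ℝ≥0∞} {M K₁ η₀ : ℝ}
    {μ γ : ProbabilityMeasure (E n)} (H : Loc k P q L v M K₁ η₀ μ γ) :
    ∃ C s0 : ℝ, 0 < C ∧ 0 < s0 ∧ s0 ≤ 1 ∧ ∀ (x0 : E n) (s : ℝ), 0 < s → s ≤ s0 →
      (VV k (FF k L v γ ∩ Metric.closedBall x0 s))⁻¹ ≤ 1 →
      VV k (FF k L v γ \ Metric.closedBall x0 s)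
        ≤ v + ENNReal.ofReal (C * s ^ (q - P)) * (VV k (FF k L v γ ∩ Metric.closedBall x0 s))⁻¹ := by
  have hk1 : 0 < (k 1).toReal := ENNReal.toReal_pos (H.hk.pos 1).ne' (H.hk.lt_top 1 one_pos).ne
  have hqP : 0 < q - P := by linarith [H.hPq]
  have hK := H.hK
  have hη := H.hη
  have hM := H.hM
  obtain ⟨b, hb⟩ : ∃ b : ℝ, b = (k 1).toReal * 2 ^ (q - P) := ⟨_, rfl⟩
  have hb0 : 0 < b := by rw [hb]; positivity
  obtain ⟨y, hy⟩ : ∃ y : ℝ, y = η₀ / (2 * b) := ⟨_, rfl⟩
  have hy0 : 0 < y := by rw [hy]; positivity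
  refine ⟨K₁ * b, min (1 / 2) (y ^ (q - P)⁻¹), by positivity, by
    apply lt_min (by norm_num)
    exact Real.rpow_pos_of_pos hy0 _, (min_le_left _ _).trans (by norm_num), fun x0 s hs hs0 hm => ?_⟩
  have hs1 : s ≤ 1 / 2 := hs0.trans (min_le_left _ _)
  have hs2 : s ≤ y ^ (q - P)⁻¹ := hs0.trans (min_le_right _ _)
  have hs3 : s ^ (q - P) ≤ y := by
    calc s ^ (q - P) ≤ (y ^ (q - P)⁻¹) ^ (q - P) := Real.rpow_le_rpow hs.le hs2 hqP.le
      _ = y := Real.rpow_inv_rpow hy0.le hqP.ne'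
  have hmk : Measurable k := H.hk.cont.measurable
  set F := FF k L v γ with hF
  have hFm : MeasurableSet F := measurableSet_FF hmk L v γ
  set m := (VV k (F ∩ Metric.closedBall x0 s))⁻¹ with hmd
  have hmT : m ≠ ⊤ := ne_top_of_le_ne_top ENNReal.one_ne_top hm
  -- the mass of `μ` on `F`
  have hμF : (μ : Measure (E n)) Fᶜ = 0 := by
    have h1 : ∀ᵐ x ∂(μ : Measure (E n)), x ∈ Metric.closedBall (0 : E n) L := mem_ae_iff.2 H.μX
    have h2 : ∀ᵐ x ∂(μ : Measure (E n)), x ∈ F := by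
      filter_upwards [h1, H.μF] with x hx1 hx2
      exact ⟨hx1, hx2⟩
    exact mem_ae_iff.1 h2
  have hVF : VV (kR q) F ≤ ENNReal.ofReal (1 / M) := by
    refine le_trans ?_ H.μE
    unfold VV
    exact iInf₂_le μ hμF
  have hCF : ENNReal.ofReal M ≤ (VV (kR q) F)⁻¹ := by
    have h1 := ENNReal.inv_le_inv.2 hVF
    refine le_trans (le_of_eq ?_) h1
    rw [← ENNReal.ofReal_inv_of_pos (by positivity)]
    congr 1
    field_simp
  have hun : (VV (kR q) F)⁻¹ ≤ (VV (kR q) (F ∩ Metric.closedBall x0 s))⁻¹ + (VV (kR q) (F \ Metric.closedBall x0 s))⁻¹ := by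
    have h1 := VV_union (measurable_kR q) (A := F ∩ Metric.closedBall x0 s) (B := F \ Metric.closedBall x0 s)
      (hFm.inter measurableSet_closedBall)
    rwa [inter_union_sdiff] at h1
  have hsm := cap_small H.hk H.hP H.hPq hs (by linarith) x0 (A := F ∩ Metric.closedBall x0 s) inter_subset_right
  have hc : (k 1).toReal * (2 * s) ^ (q - P) = b * s ^ (q - P) := by
    rw [hb, Real.mul_rpow (by norm_num) hs.le]
    ring
  rw [hc] at hsm
  obtain ⟨η, hηd⟩ : ∃ η : ℝ, η = b * s ^ (q - P) * m.toReal := ⟨_, rfl⟩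
  have hspos : 0 < s ^ (q - P) := Real.rpow_pos_of_pos hs _
  have hη0 : 0 ≤ η := by
    rw [hηd]
    have := ENNReal.toReal_nonneg (a := m)
    positivity
  have hm1 : m.toReal ≤ 1 := by
    have := ENNReal.toReal_mono ENNReal.one_ne_top hm
    simpa using this
  have hη2 : η ≤ η₀ / 2 := by
    have h1 : b * s ^ (q - P) ≤ b * y := mul_le_mul_of_nonneg_left hs3 hb0.le
    have h2 : b * y = η₀ / 2 := by
      rw [hy]
      field_simp
    have h3 : b * s ^ (q - P) * m.toReal ≤ b * s ^ (q - P) * 1 := mul_le_mul_of_nonneg_left hm1 (by positivity)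
    rw [hηd]
    linarith
  have hηm : ENNReal.ofReal (b * s ^ (q - P)) * m = ENNReal.ofReal η := by
    have h0 : 0 ≤ b * s ^ (q - P) := by positivity
    rw [hηd, ENNReal.ofReal_mul (p := b * s ^ (q - P)) h0, ENNReal.ofReal_toReal hmT]
  have hG : ENNReal.ofReal (M - η) ≤ (VV (kR q) (F \ Metric.closedBall x0 s))⁻¹ := by
    rw [ENNReal.ofReal_sub _ hη0]
    rw [tsub_le_iff_left]
    calc ENNReal.ofReal M ≤ (VV (kR q) F)⁻¹ := hCF
      _ ≤ _ := hun
      _ ≤ _ := by
        gcongr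
        rw [← hηm]
        exact hsm
  -- near optimal compact subsets
  have hstep : ∀ η' : ℝ, η < η' → η' ≤ η₀ → VV k (F \ Metric.closedBall x0 s) ≤ v + ENNReal.ofReal (K₁ * η') := by
    intro η' h1 h2
    have hη'0 : 0 ≤ η' := hη0.trans h1.le
    obtain ⟨K, hKs, hKc, hKV⟩ : ∃ K ⊆ F \ Metric.closedBall x0 s, IsCompact K ∧
        ENNReal.ofReal (M - η') ≤ (VV (kR q) K)⁻¹ := by
      rcases le_or_gt (M - η') 0 with h3 | h3
      · refine ⟨∅, empty_subset _, isCompact_empty, ?_⟩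
        rw [ENNReal.ofReal_of_nonpos h3]
        exact zero_le
      · have h4 : ENNReal.ofReal (M - η') < ENNReal.ofReal (M - η) :=
          (ENNReal.ofReal_lt_ofReal_iff (by linarith)).2 (by linarith)
        have h5 : VV (kR q) (F \ Metric.closedBall x0 s) < (ENNReal.ofReal (M - η'))⁻¹ := by
          rw [← inv_inv (VV (kR q) (F \ Metric.closedBall x0 s))]
          exact ENNReal.inv_lt_inv.2 (h4.trans_le hG)
        obtain ⟨K, hK1, hK2, hK3⟩ := VV_inner (measurable_kR q)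
          (hFm.diff measurableSet_closedBall) h5
        refine ⟨K, hK1, hK2, ?_⟩
        rw [← inv_inv (ENNReal.ofReal (M - η'))]
        exact ENNReal.inv_le_inv.2 hK3.le
    have h6 := H.opt K hKc (hKs.trans (sdiff_subset.trans (fun x hx => hx.1))) η' hη'0 h2 hKV
    exact (VV_anti k hKs).trans h6
  have hfin : VV k (F \ Metric.closedBall x0 s) ≤ v + ENNReal.ofReal (K₁ * η) := by
    apply ENNReal.le_of_forall_pos_le_add
    intro ε hε _
    have hε' : (0 : ℝ) < ε := by exact_mod_cast hε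
    obtain ⟨d, hd⟩ : ∃ d : ℝ, d = min (ε / K₁) (η₀ / 2) := ⟨_, rfl⟩
    have hd0 : 0 < d := by rw [hd]; positivity
    have hd1 : d ≤ ε / K₁ := by rw [hd]; exact min_le_left _ _
    have hd2 : d ≤ η₀ / 2 := by rw [hd]; exact min_le_right _ _
    have h1 := hstep (η + d) (by linarith) (by linarith)
    refine h1.trans ?_
    rw [add_assoc]
    gcongr
    have h2 : K₁ * (η + d) ≤ K₁ * η + ε := by
      rw [le_div_iff₀ hK] at hd1
      linarith
    calc ENNReal.ofReal (K₁ * (η + d)) ≤ ENNReal.ofReal (K₁ * η + ε) := ENNReal.ofReal_le_ofReal h2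
      _ = ENNReal.ofReal (K₁ * η) + ε := by
        rw [ENNReal.ofReal_add (by positivity) hε'.le, ENNReal.ofReal_coe_nnreal]
  refine hfin.trans (le_of_eq ?_)
  congr 1
  have h1 : K₁ * b * s ^ (q - P) = K₁ * (b * s ^ (q - P)) := by ring
  rw [h1, ENNReal.ofReal_mul hK.le, ENNReal.ofReal_mul hK.le, mul_assoc, hηm]

end R970.RC
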