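import Pool.Agent.R970.RC.Defs

/-!
# Project RC, piece OM: test measures
-/

set_option autoImplicit false

open MeasureTheory Set Filter Topology
open scoped ENNReal

namespace R970.RC

namespace OMaux

variable {n : ℕ}

theorem dyadic {d r : ℝ} (hd : 0 < d) (hdr : d ≤ r) :
    ∃ j : ℕ, r / 2 ^ (j + 1) < d ∧ d ≤ r / 2 ^ j := by
  have h1 : 1 ≤ r / d := by rw [le_div_iff₀ hd]; linarith
  obtain ⟨j, h2, h3⟩ := exists_nat_pow_near h1 (by norm_num : (1 : ℝ) < 2)
  refine ⟨j, ?_, ?_⟩
  · rw [div_lt_iff₀ (by positivity)]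
    rw [div_lt_iff₀ hd] at h3
    linarith
  · rw [le_div_iff₀ (by positivity)]
    rw [le_div_iff₀ hd] at h2
    linarith

/-- the factors -/
noncomputable def w (P : ℝ) (j : ℕ) : ℝ := ((1 : ℝ) / 2 ^ (j + 1)) ^ (-P)

theorem w_mul (P : ℝ) (n j : ℕ) :
    w P j * ((1 : ℝ) / 2 ^ j) ^ n = (2 : ℝ) ^ P * ((2 : ℝ) ^ (P - n)) ^ j := by
  have e1 : ((1 : ℝ) / 2 ^ (j + 1)) = (2 : ℝ) ^ (-((j : ℝ) + 1)) := by
    rw [Real.rpow_neg (by norm_num), one_div]
    congr 1
    rw [← Real.rpow_natCast]
    push_cast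
    rfl
  have e2 : ((1 : ℝ) / 2 ^ j) ^ n = (2 : ℝ) ^ (-((j : ℝ) * n)) := by
    rw [Real.rpow_neg (by norm_num), one_div, inv_pow, ← pow_mul]
    congr 1
    rw [← Real.rpow_natCast]
    push_cast
    rfl
  rw [w, e1, e2, ← Real.rpow_mul (by norm_num), ← Real.rpow_add (by norm_num),
    ← Real.rpow_mul_natCast (by norm_num), ← Real.rpow_add (by norm_num)]
  congr 1
  ring

theorem summable_w {P : ℝ} (hP : P < n) :
    Summable fun j : ℕ => w P j * ((1 : ℝ) / 2 ^ j) ^ n := by
  simp_rw [w_mul]
  refine Summable.mul_left _ (summable_geometric_of_lt_one (by positivity) ?_)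
  exact Real.rpow_lt_one_of_one_lt_of_neg (by norm_num) (by linarith)

theorem point {k : ℝ → ℝ≥0∞} {P : ℝ} (hk : IsKer k P) {r d : ℝ} (hr : 0 < r)
    (hd : 0 < d) (hdr : d ≤ r) : ∃ j : ℕ, d ≤ r / 2 ^ j ∧ k d ≤ ENNReal.ofReal (w P j) * k r := by
  obtain ⟨j, h1, h2⟩ := dyadic hd hdr
  refine ⟨j, h2, (hk.anti h1.le).trans ?_⟩
  have h3 := hk.scal ((1 : ℝ) / 2 ^ (j + 1)) r (by positivity)
    (by
      rw [div_le_one (by positivity)]
      exact one_le_pow₀ (by norm_num)) hr
  have e : (1 : ℝ) / 2 ^ (j + 1) * r = r / 2 ^ (j + 1) := by ring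
  rw [e] at h3
  exact h3

theorem vol_ball (x : E n) {r : ℝ} (hr : 0 ≤ r) :
    volume (Metric.closedBall x r) = ENNReal.ofReal (r ^ n) * volume (Metric.ball (0 : E n) 1) := by
  rw [Measure.addHaar_closedBall _ _ hr, finrank_euclideanSpace_fin]

theorem integ {k : ℝ → ℝ≥0∞} {P : ℝ} (hk : IsKer k P) (hn : 0 < n) {r : ℝ} (hr : 0 < r)
    (z : E n) (s : Set (E n)) :
    ∫⁻ y in s, k (dist z y) ≤ k r * volume s +
      ∑' j : ℕ, ENNReal.ofReal (w P j) * k r * volume (Metric.closedBall z (r / 2 ^ j)) := by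
  have hz : volume ({z} : Set (E n)) = 0 := by
    rw [← Metric.closedBall_zero, vol_ball z le_rfl]
    rw [zero_pow hn.ne']
    simp
  have h1 : ∀ᵐ y ∂(volume.restrict s : Measure (E n)), k (dist z y) ≤ k r +
      ∑' j : ℕ, (Metric.closedBall z (r / 2 ^ j)).indicator
        (fun _ => ENNReal.ofReal (w P j) * k r) y := by
    have h2 : ∀ᵐ y ∂(volume.restrict s : Measure (E n)), y ∉ ({z} : Set (E n)) := by
      refine ae_restrict_of_ae ?_
      exact measure_eq_zero_iff_ae_notMem.1 hz
    filter_upwards [h2] with y hy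
    rw [mem_singleton_iff] at hy
    have hd : 0 < dist z y := dist_pos.2 (Ne.symm hy)
    rcases le_or_gt (dist z y) r with h | h
    · obtain ⟨j, h3, h4⟩ := point hk hr hd h
      refine h4.trans (le_trans ?_ le_add_self)
      refine le_trans ?_ (ENNReal.le_tsum j)
      rw [indicator_of_mem]
      rw [Metric.mem_closedBall, dist_comm]
      exact h3
    · exact (hk.anti h.le).trans le_self_add
  refine (lintegral_mono_ae h1).trans ?_
  rw [lintegral_add_left measurable_const, lintegral_const, Measure.restrict_apply_univ]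
  gcongr
  rw [lintegral_tsum (fun j => (measurable_const.indicator
    Metric.isClosed_closedBall.measurableSet).aemeasurable)]
  refine ENNReal.tsum_le_tsum fun j => ?_
  rw [lintegral_indicator Metric.isClosed_closedBall.measurableSet, lintegral_const,
    Measure.restrict_apply_univ]
  exact mul_le_mul_right (Measure.restrict_apply_le _ _) _

end OMaux

open OMaux

variable {n : ℕ}

theorem exists_omega {k : ℝ → ℝ≥0∞} {P : ℝ} (hk : IsKer k P) (hP : 0 < P) (hPn : P < n) :
    ∃ C : ℝ≥0∞, C ≠ ⊤ ∧ ∀ (x0 : E n) (r : ℝ), 0 < r → r ≤ 1 →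
      ∃ ω : ProbabilityMeasure (E n), (ω : Measure (E n)) (Metric.closedBall x0 r)ᶜ = 0 ∧
        ∀ z, Pot k (ω : Measure (E n)) z ≤ C * k (max r (dist z x0)) := by
  have hn : 0 < n := by
    have : (0 : ℝ) < n := hP.trans hPn
    exact_mod_cast this
  set S : ℝ≥0∞ := ∑' j : ℕ, ENNReal.ofReal (w P j * ((1 : ℝ) / 2 ^ j) ^ n) with hS
  have hST : S ≠ ⊤ := (summable_w hPn).tsum_ofReal_ne_top
  set c2 : ℝ≥0∞ := ENNReal.ofReal ((2 : ℝ) ^ P) with hc2
  have half : ((1 : ℝ) / 2) ^ (-P) = (2 : ℝ) ^ P := by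
    rw [Real.rpow_neg (by norm_num), one_div, Real.inv_rpow (by norm_num), inv_inv]
  refine ⟨(1 + S) * c2, ENNReal.mul_ne_top (by simp [hST]) ENNReal.ofReal_ne_top, ?_⟩
  intro x0 r hr _
  have hv1 : volume (Metric.ball (0 : E n) 1) ≠ 0 :=
    (Metric.measure_ball_pos _ _ one_pos).ne'
  have hv2 : volume (Metric.ball (0 : E n) 1) ≠ ⊤ := measure_ball_lt_top.ne
  have hV0 : volume (Metric.closedBall x0 r) ≠ 0 :=
    (Metric.measure_closedBall_pos _ _ hr).ne'
  have hVT : volume (Metric.closedBall x0 r) ≠ ⊤ := measure_closedBall_lt_top.ne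
  refine ⟨⟨ProbabilityTheory.cond volume (Metric.closedBall x0 r),
    ProbabilityTheory.cond_isProbabilityMeasure_of_finite hV0 hVT⟩, ?_, ?_⟩
  · simp only [ProbabilityMeasure.coe_mk, ProbabilityTheory.cond, Measure.smul_apply,
      smul_eq_mul]
    rw [Measure.restrict_apply Metric.isClosed_closedBall.measurableSet.compl]
    simp
  intro z
  have hpot : Pot k (ProbabilityTheory.cond volume (Metric.closedBall x0 r)) z =
      (volume (Metric.closedBall x0 r))⁻¹ * ∫⁻ y in Metric.closedBall x0 r, k (dist z y) := by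
    rw [Pot, ProbabilityTheory.cond, lintegral_smul_measure, smul_eq_mul]
  simp only [ProbabilityMeasure.coe_mk]
  rw [hpot]
  rcases le_or_gt (2 * r) (dist z x0) with h | h
  · have hm : max r (dist z x0) = dist z x0 := max_eq_right (by linarith)
    rw [hm]
    have hz : 0 < dist z x0 := by linarith
    have h1 : ∀ y ∈ Metric.closedBall x0 r, k (dist z y) ≤ c2 * k (dist z x0) := by
      intro y hy
      have h2 : 1 / 2 * dist z x0 ≤ dist z y := by
        have := dist_triangle z y x0
        rw [Metric.mem_closedBall] at hy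
        linarith
      refine (hk.anti h2).trans ?_
      have h3 := hk.scal (1 / 2) (dist z x0) (by norm_num) (by norm_num) hz
      rw [half] at h3
      exact h3
    have h2 : ∫⁻ y in Metric.closedBall x0 r, k (dist z y) ≤
        c2 * k (dist z x0) * volume (Metric.closedBall x0 r) := by
      refine (setLIntegral_mono measurable_const h1).trans ?_
      rw [setLIntegral_const]
    calc (volume (Metric.closedBall x0 r))⁻¹ * ∫⁻ y in Metric.closedBall x0 r, k (dist z y)
        ≤ (volume (Metric.closedBall x0 r))⁻¹ *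
            (c2 * k (dist z x0) * volume (Metric.closedBall x0 r)) := by gcongr
      _ = ((volume (Metric.closedBall x0 r))⁻¹ * volume (Metric.closedBall x0 r)) *
            (c2 * k (dist z x0)) := by ring
      _ = c2 * k (dist z x0) := by rw [ENNReal.inv_mul_cancel hV0 hVT, one_mul]
      _ ≤ (1 + S) * c2 * k (dist z x0) := by
          gcongr
          calc c2 = 1 * c2 := (one_mul _).symm
            _ ≤ (1 + S) * c2 := by gcongr; exact le_self_add
  · set m := max r (dist z x0) with hm
    have hm1 : r ≤ m := le_max_left _ _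
    have hm2 : m ≤ 2 * r := max_le (by linarith) h.le
    have hm0 : 0 < m := hr.trans_le hm1
    have hkr : k r ≤ c2 * k m := by
      have h2 : 1 / 2 * m ≤ r := by linarith
      refine (hk.anti h2).trans ?_
      have h3 := hk.scal (1 / 2) m (by norm_num) (by norm_num) hm0
      rw [half] at h3
      exact h3
    have h1 := integ hk hn hr z (Metric.closedBall x0 r)
    have h2 : ∑' j : ℕ, ENNReal.ofReal (w P j) * k r * volume (Metric.closedBall z (r / 2 ^ j)) =
        k r * volume (Metric.closedBall x0 r) * S := by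
      rw [hS, ← ENNReal.tsum_mul_left]
      refine tsum_congr fun j => ?_
      rw [vol_ball z (by positivity), vol_ball x0 hr.le]
      have e : r / 2 ^ j = r * (1 / 2 ^ j) := by ring
      rw [e, mul_pow, ENNReal.ofReal_mul (by positivity), ENNReal.ofReal_mul
        (by rw [w]; positivity)]
      ring
    rw [h2] at h1
    calc (volume (Metric.closedBall x0 r))⁻¹ * ∫⁻ y in Metric.closedBall x0 r, k (dist z y)
        ≤ (volume (Metric.closedBall x0 r))⁻¹ * (k r * volume (Metric.closedBall x0 r) +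
            k r * volume (Metric.closedBall x0 r) * S) := by gcongr
      _ = ((volume (Metric.closedBall x0 r))⁻¹ * volume (Metric.closedBall x0 r)) *
            ((1 + S) * k r) := by ring
      _ = (1 + S) * k r := by rw [ENNReal.inv_mul_cancel hV0 hVT, one_mul]
      _ ≤ (1 + S) * (c2 * k m) := by gcongr
      _ = (1 + S) * c2 * k m := by ring

end R970.RC
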